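import Pool.Agent.QL.Stmts

/-!
# ACL: quasiconformal maps have finite length on almost every vertical line
-/

open MeasureTheory Set Filter Topology
open scoped ENNReal

namespace Pool.Agent.QL.ACL

/-- The window of height `[-c, c]`. -/
def win (c : ℝ) : Set ℂ := {z : ℂ | -c ≤ z.im ∧ z.im ≤ c}

/-- The pull-back of the area in the window, projected to the horizontal axis. -/
noncomputable def nu (f : ℂ ≃ₜ ℂ) (c : ℝ) : Measure ℝ :=
  Measure.map (fun w : ℂ => (f.symm w).re) (volume.restrict (f '' win c))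

theorem isClosed_win (c : ℝ) : IsClosed (win c) :=
  (isClosed_le continuous_const Complex.continuous_im).inter
    (isClosed_le Complex.continuous_im continuous_const)

theorem meas_re (f : ℂ ≃ₜ ℂ) : Measurable (fun w : ℂ => (f.symm w).re) :=
  (Complex.continuous_re.comp f.symm.continuous).measurable

theorem nu_closedBall (f : ℂ ≃ₜ ℂ) (c x r : ℝ) :
    nu f c (Metric.closedBall x r)
      = volume (f '' {z : ℂ | |z.re - x| ≤ r ∧ -c ≤ z.im ∧ z.im ≤ c}) := by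
  rw [nu, Measure.map_apply (meas_re f) Metric.isClosed_closedBall.measurableSet,
    Measure.restrict_apply (meas_re f Metric.isClosed_closedBall.measurableSet)]
  congr 1
  ext w
  simp only [mem_inter_iff, mem_preimage, Metric.mem_closedBall, Real.dist_eq, mem_image, win,
    mem_ofPred_eq]
  constructor
  · rintro ⟨h1, z, h2, rfl⟩
    rw [f.symm_apply_apply] at h1
    exact ⟨z, ⟨h1, h2⟩, rfl⟩
  · rintro ⟨z, ⟨h1, h2⟩, rfl⟩
    refine ⟨?_, z, h2, rfl⟩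
    rw [f.symm_apply_apply]
    exact h1

theorem rect_bounded (c x r : ℝ) :
    Bornology.IsBounded {z : ℂ | |z.re - x| ≤ r ∧ -c ≤ z.im ∧ z.im ≤ c} := by
  refine (Metric.isBounded_closedBall (x := (0 : ℂ)) (r := |x| + |r| + |c|)).subset ?_
  rintro z ⟨h1, h2, h3⟩
  rw [Metric.mem_closedBall, dist_zero_right]
  refine (Complex.norm_le_abs_re_add_abs_im z).trans ?_
  have h4 : |z.re| ≤ |x| + |r| := by
    have : |z.re| ≤ |z.re - x| + |x| := by
      have := abs_add_le (z.re - x) x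
      simpa using this
    have h5 := le_abs_self r
    linarith
  have h6 : |z.im| ≤ |c| := by
    rw [abs_le]
    have := le_abs_self c
    constructor <;> linarith
  linarith

theorem vol_lt_top (f : ℂ ≃ₜ ℂ) (c x r : ℝ) :
    volume (f '' {z : ℂ | |z.re - x| ≤ r ∧ -c ≤ z.im ∧ z.im ≤ c}) < ⊤ := by
  have hb := rect_bounded c x r
  have hK : IsCompact (closure {z : ℂ | |z.re - x| ≤ r ∧ -c ≤ z.im ∧ z.im ≤ c}) :=
    hb.isCompact_closure
  exact lt_of_le_of_lt (measure_mono (image_mono subset_closure))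
    (hK.image f.continuous).measure_lt_top

instance locfin (f : ℂ ≃ₜ ℂ) (c : ℝ) : IsLocallyFiniteMeasure (nu f c) := by
  refine ⟨fun x => ⟨Metric.closedBall x 1, Metric.closedBall_mem_nhds x one_pos, ?_⟩⟩
  rw [nu_closedBall]
  exact vol_lt_top f c x 1

theorem ae_bound (f : ℂ ≃ₜ ℂ) (c : ℝ) : ∀ᵐ x : ℝ, ∃ M : ℝ, ∀ᶠ ρ in 𝓝[>] (0 : ℝ),
    volume (f '' {z : ℂ | |z.re - x| ≤ ρ ∧ -c ≤ z.im ∧ z.im ≤ c}) ≤ ENNReal.ofReal (M * ρ) := by
  filter_upwards [Besicovitch.ae_tendsto_rnDeriv (nu f c) (volume : Measure ℝ),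
    Measure.rnDeriv_lt_top (nu f c) (volume : Measure ℝ)] with x hx hlt
  refine ⟨2 * (((nu f c).rnDeriv volume x).toReal + 1), ?_⟩
  have h1 : (nu f c).rnDeriv volume x < ENNReal.ofReal (((nu f c).rnDeriv volume x).toReal + 1) := by
    rw [ENNReal.ofReal_add ENNReal.toReal_nonneg zero_le_one, ENNReal.ofReal_toReal hlt.ne,
      ENNReal.ofReal_one]
    exact ENNReal.lt_add_right hlt.ne one_ne_zero
  filter_upwards [hx.eventually (gt_mem_nhds h1), self_mem_nhdsWithin] with ρ h2 h3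
  have h3' : (0 : ℝ) < ρ := h3
  rw [nu_closedBall, Real.volume_closedBall] at h2
  have h4 : ENNReal.ofReal (2 * ρ) ≠ 0 := by
    rw [Ne, ENNReal.ofReal_eq_zero]
    linarith
  have h5 := (ENNReal.div_le_iff_le_mul (Or.inl h4) (Or.inl ENNReal.ofReal_ne_top)).1 h2.le
  refine h5.trans ?_
  rw [← ENNReal.ofReal_mul (by positivity)]
  refine ENNReal.ofReal_le_ofReal (le_of_eq ?_)
  ring

theorem H_pos {f : ℂ ≃ₜ ℂ} {H : ℝ} (hH : ∀ x : ℂ, ∃ δ > (0 : ℝ), ∀ y z : ℂ, dist y x = dist z x →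
    dist y x < δ → dist (f y) (f x) ≤ H * dist (f z) (f x)) : 0 < H := by
  obtain ⟨δ, hδ, h⟩ := hH 0
  have h1 : dist ((δ / 2 : ℝ) : ℂ) 0 < δ := by
    rw [dist_zero_right, Complex.norm_real, Real.norm_eq_abs, abs_of_pos (by linarith)]
    linarith
  have h2 := h _ _ rfl h1
  have h3 : 0 < dist (f ((δ / 2 : ℝ) : ℂ)) (f 0) := by
    rw [dist_pos]
    intro h4
    have h5 := f.injective h4
    rw [Complex.ofReal_eq_zero] at h5
    linarith
  by_contra h4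
  rw [not_lt] at h4
  nlinarith

theorem line {f : ℂ ≃ₜ ℂ} (hH1V : Stmt_H1V) (hCOV : Stmt_COV) {H : ℝ}
    (hH : ∀ x : ℂ, ∃ δ > (0 : ℝ), ∀ y z : ℂ, dist y x = dist z x →
    dist y x < δ → dist (f y) (f x) ≤ H * dist (f z) (f x)) {x c M : ℝ} (hc : 0 < c)
    (hM : ∀ᶠ ρ in 𝓝[>] (0 : ℝ),
      volume (f '' {z : ℂ | |z.re - x| ≤ ρ ∧ -(c + 1) ≤ z.im ∧ z.im ≤ c + 1})
      ≤ ENNReal.ofReal (M * ρ)) :
    eVariationOn (fun y : ℝ => f ⟨x, y⟩) (Icc (-c) c) ≠ ⊤ := by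
  set T : ℕ → Set ℝ := fun k => {y | y ∈ Icc (-c) c ∧ ∀ u w : ℂ, dist u ⟨x, y⟩ = dist w ⟨x, y⟩ →
    dist u ⟨x, y⟩ < 1 / ((k : ℝ) + 1) → dist (f u) (f ⟨x, y⟩) ≤ H * dist (f w) (f ⟨x, y⟩)} with hT
  have hTmono : Monotone T := by
    rintro k l hkl y ⟨h1, h2⟩
    refine ⟨h1, fun u w h3 h4 => h2 u w h3 (h4.trans_le ?_)⟩
    exact one_div_le_one_div_of_le (by positivity) (by
      have : (k : ℝ) ≤ l := by exact_mod_cast hkl
      linarith)
  have hTU : ∀ y ∈ Icc (-c) c, ∃ k, y ∈ T k := by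
    intro y hy
    obtain ⟨δ, hδ, h⟩ := hH ⟨x, y⟩
    obtain ⟨k, hk⟩ := exists_nat_one_div_lt hδ
    exact ⟨k, hy, fun u w h1 h2 => h u w h1 (h2.trans hk)⟩
  set C := ENNReal.ofReal (4 * H * Real.sqrt ((c - -c + 1) * (|M| + 1))) with hC
  have hk : ∀ k, Measure.hausdorffMeasure 1 (f '' {z : ℂ | z.re = x ∧ z.im ∈ T k}) ≤ C := by
    intro k
    refine hCOV f H x (-c) c M (T k) (1 / ((k : ℝ) + 1)) (H_pos hH) (by linarith)
      (fun y hy => hy.1) (by positivity) (fun y hy => hy.2) ?_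
    have h1 : -c - 1 = -(c + 1) := by ring
    rw [h1]
    exact hM
  have hmono : Monotone (fun k => f '' {z : ℂ | z.re = x ∧ z.im ∈ T k}) := by
    intro k l hkl
    exact image_mono fun z hz => ⟨hz.1, hTmono hkl hz.2⟩
  have hU : Measure.hausdorffMeasure 1 (⋃ k, f '' {z : ℂ | z.re = x ∧ z.im ∈ T k}) ≤ C := by
    rw [hmono.measure_iUnion]
    exact iSup_le hk
  have hsub : (fun y : ℝ => f ⟨x, y⟩) '' Icc (-c) c
      ⊆ ⋃ k, f '' {z : ℂ | z.re = x ∧ z.im ∈ T k} := by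
    rintro _ ⟨y, hy, rfl⟩
    obtain ⟨k, hk⟩ := hTU y hy
    exact mem_iUnion.2 ⟨k, ⟨⟨x, y⟩, ⟨rfl, hk⟩, rfl⟩⟩
  have hcont : Continuous (fun y : ℝ => f ⟨x, y⟩) := by
    have h0 : Continuous (fun y : ℝ => (x : ℂ) + y * Complex.I) := by fun_prop
    have : (fun y : ℝ => f ⟨x, y⟩) = fun y : ℝ => f ((x : ℂ) + y * Complex.I) := by
      funext y
      congr 1
      apply Complex.ext <;> simp
    rw [this]
    exact f.continuous.comp h0
  have hinj : Function.Injective (fun y : ℝ => f ⟨x, y⟩) := by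
    intro y y' h
    have := f.injective h
    exact congrArg Complex.im this
  have h1 := hH1V _ hcont hinj (-c) c (by linarith)
  have h2 : eVariationOn (fun y : ℝ => f ⟨x, y⟩) (Icc (-c) c) ≤ C :=
    h1.trans ((measure_mono hsub).trans hU)
  exact (h2.trans_lt ENNReal.ofReal_lt_top).ne

end Pool.Agent.QL.ACL

namespace Pool.Agent.QL

open Pool.Agent.QL.ACL in
theorem ACL_thm (hH1V : Stmt_H1V) (hCOV : Stmt_COV) : Stmt_ACL := by
  intro f hf
  obtain ⟨H, hH⟩ := hf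
  have h1 : ∀ᵐ x : ℝ, ∀ n : ℕ, ∃ M : ℝ, ∀ᶠ ρ in 𝓝[>] (0 : ℝ),
      volume (f '' {z : ℂ | |z.re - x| ≤ ρ ∧ -(((n : ℝ) + 1) + 1) ≤ z.im ∧
        z.im ≤ ((n : ℝ) + 1) + 1}) ≤ ENNReal.ofReal (M * ρ) :=
    ae_all_iff.2 fun n => ae_bound f _
  filter_upwards [h1] with x hx α β hαβ
  obtain ⟨n, hn⟩ := exists_nat_ge (max |α| |β|)
  obtain ⟨M, hM⟩ := hx n
  have h2 := line hH1V hCOV hH (c := (n : ℝ) + 1) (by positivity) hM
  have h3 : Icc α β ⊆ Icc (-((n : ℝ) + 1)) ((n : ℝ) + 1) := by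
    intro y hy
    have h4 := (le_max_left |α| |β|).trans hn
    have h5 := (le_max_right |α| |β|).trans hn
    have h6 := (abs_le.1 h4).1
    have h7 := (abs_le.1 h5).2
    exact ⟨by linarith [hy.1], by linarith [hy.2]⟩
  exact fun h4 => h2 (top_le_iff.1 (h4 ▸ eVariationOn.mono _ h3))

end Pool.Agent.QL
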