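import Pool.Agent.QL.StmtsU

/-!
# AREA: the image of the set where the derivative vanishes
-/

open MeasureTheory Set Filter Topology
open scoped ENNReal NNReal

namespace Pool.Agent.QL

namespace AREA

/-- The image of a null set under a Lipschitz curve has length zero. -/
lemma null_image {C : ℝ≥0} {γ : ℝ → ℂ} (hγ : LipschitzWith C γ) {N : Set ℝ} (hN : volume N = 0) :
    Measure.hausdorffMeasure 1 (γ '' N) = 0 := by
  have h1 := hγ.hausdorffMeasure_image_le (zero_le_one' ℝ) N
  rw [hausdorffMeasure_real, hN, mul_zero] at h1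
  exact le_antisymm h1 zero_le

/-- The image of a set of finite measure where the derivative vanishes. -/
lemma bounded_image {γ : ℝ → ℂ} {s : Set ℝ} (hs : ∀ t ∈ s, HasDerivAt γ 0 t)
    (hfin : volume s < ⊤) : Measure.hausdorffMeasure 1 (γ '' s) = 0 := by
  rcases s.eq_empty_or_nonempty with rfl | hne
  · simp
  have key : ∀ ε : ℝ≥0, 0 < ε → Measure.hausdorffMeasure 1 (γ '' s) ≤ ε * volume s := by
    intro ε hε
    obtain ⟨t, A, hdisj, hmeas, hcov, happ, hA⟩ :=
      exists_partition_approximatesLinearOn_of_hasFDerivWithinAt γ s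
        (fun _ => (0 : ℝ →L[ℝ] ℂ)) (fun x hx => by
          have h1 := (hs x hx).hasFDerivAt.hasFDerivWithinAt (s := s)
          simpa using h1) (fun _ => ε) (fun _ => hε.ne')
    have hA0 : ∀ n, A n = 0 := by
      intro n
      obtain ⟨y, -, hy⟩ := hA hne n
      exact hy
    have hlip : ∀ n, LipschitzOnWith ε γ (s ∩ t n) := by
      intro n
      refine LipschitzOnWith.of_dist_le_mul fun x hx y hy => ?_
      have h1 := happ n x hx y hy
      rw [hA0 n] at h1
      simpa [dist_eq_norm] using h1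
    have himg : ∀ n, Measure.hausdorffMeasure 1 (γ '' (s ∩ t n)) ≤ ε * volume (s ∩ t n) := by
      intro n
      have h1 := (hlip n).hausdorffMeasure_image_le (zero_le_one' ℝ)
      rwa [hausdorffMeasure_real, ENNReal.rpow_one] at h1
    calc Measure.hausdorffMeasure 1 (γ '' s)
        ≤ Measure.hausdorffMeasure 1 (⋃ n, γ '' (s ∩ t n)) := by
          apply measure_mono
          rw [← image_iUnion, ← inter_iUnion]
          exact image_mono (subset_inter Subset.rfl hcov)
      _ ≤ ∑' n, Measure.hausdorffMeasure 1 (γ '' (s ∩ t n)) := measure_iUnion_le _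
      _ ≤ ∑' n, ε * volume (s ∩ t n) := ENNReal.tsum_le_tsum himg
      _ = ε * ∑' n, volume (s ∩ t n) := ENNReal.tsum_mul_left
      _ = ε * ∑' n, (volume.restrict s) (t n) := by
          congr 1
          apply tsum_congr
          intro n
          rw [Measure.restrict_apply (hmeas n), inter_comm]
      _ = ε * (volume.restrict s) (⋃ n, t n) := by
          rw [measure_iUnion hdisj hmeas]
      _ ≤ ε * volume s :=
          mul_le_mul' le_rfl
            ((measure_mono (subset_univ _)).trans_eq (Measure.restrict_apply_univ s))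
  have h2 : Tendsto (fun ε : ℝ≥0 => (ε : ℝ≥0∞) * volume s) (𝓝[>] 0) (𝓝 (0 * volume s)) := by
    apply ENNReal.Tendsto.mul_const
    · have h3 : Tendsto (fun ε : ℝ≥0 => (ε : ℝ≥0∞)) (𝓝 0) (𝓝 ((0 : ℝ≥0) : ℝ≥0∞)) :=
        ENNReal.continuous_coe.tendsto 0
      exact h3.mono_left nhdsWithin_le_nhds
    · exact Or.inr hfin.ne
  rw [zero_mul] at h2
  have h4 : Measure.hausdorffMeasure 1 (γ '' s) ≤ 0 := by
    apply ge_of_tendsto h2
    filter_upwards [self_mem_nhdsWithin] with ε hε
    exact key ε hε
  exact le_antisymm h4 zero_le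

end AREA

open AREA in
/-- AREA: the image of the set where the derivative vanishes. -/
theorem AREA_thm : Stmt_AREA := by
  intro C γ hγ T hT
  have hdiff : ∀ᵐ t, DifferentiableAt ℝ γ t := hγ.ae_differentiableAt_real
  let T' : Set ℝ := {t | t ∈ T ∧ HasDerivAt γ 0 t}
  have hN : volume (T \ T') = 0 := by
    have h1 : ∀ᵐ t, t ∈ T → HasDerivAt γ 0 t := by
      filter_upwards [hdiff, hT] with t ht1 ht2 htT
      have h2 := ht1.hasDerivAt
      rwa [ht2 htT] at h2
    rw [ae_iff] at h1
    refine measure_mono_null ?_ h1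
    intro t ht
    simp only [mem_ofPred_eq, Classical.not_imp]
    exact ⟨ht.1, fun h => ht.2 ⟨ht.1, h⟩⟩
  have hcov : γ '' T ⊆ γ '' (T \ T') ∪ ⋃ n : ℕ, γ '' (T' ∩ Icc (-(n : ℝ)) n) := by
    rintro _ ⟨t, ht, rfl⟩
    by_cases h : t ∈ T'
    · right
      obtain ⟨n, hn⟩ := exists_nat_ge |t|
      rw [mem_iUnion]
      exact ⟨n, t, ⟨h, abs_le.1 hn⟩, rfl⟩
    · left
      exact ⟨t, ⟨ht, h⟩, rfl⟩
  refine measure_mono_null hcov (measure_union_null (null_image hγ hN) ?_)
  refine measure_iUnion_null fun n => bounded_image (fun t ht => ht.1.2) ?_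
  refine lt_of_le_of_lt (measure_mono inter_subset_right) ?_
  rw [Real.volume_Icc]
  exact ENNReal.ofReal_lt_top

end Pool.Agent.QL
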