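import Pool.Agent.QL.Stmts

/-!
# The vertical displacement
-/

open MeasureTheory Set Filter Topology
open scoped ENNReal

namespace Pool.Agent.QL

namespace BW

theorem dd_cont (V : Set ℝ) : Continuous (dd V) := Metric.continuous_infDist_pt _

/-- `G a t y` is continuous in `t > 0`. -/
theorem G_cont (hFG : Stmt_FG) {a : ℝ} (ha : 0 < a) (y : ℝ) :
    ContinuousOn (fun t => G a t y) (Ioi 0) := by
  obtain ⟨-, -, -, -, -, -, h7, -⟩ := hFG a ha
  intro t ht
  have ht0 : 0 < t := ht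
  refine ContinuousAt.continuousWithinAt ?_
  have hc : 0 < 4 * a / (t / 2) := by positivity
  have h1 : ∀ᶠ t' in 𝓝 t, dist (G a t' y) (G a t y) ≤ 4 * a / (t / 2) * dist t' t := by
    have h2 : ∀ᶠ t' in 𝓝 t, t / 2 < t' := lt_mem_nhds (by linarith)
    filter_upwards [h2] with t' ht'
    rw [Real.dist_eq, Real.dist_eq]
    exact h7 (t / 2) t' t y (by positivity) ht'.le (by linarith)
  have h3 : Tendsto (fun t' => 4 * a / (t / 2) * dist t' t) (𝓝 t) (𝓝 0) := by
    have h4 : Continuous (fun t' : ℝ => 4 * a / (t / 2) * dist t' t) := by fun_prop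
    have h5 := h4.tendsto t
    simpa using h5
  rw [ContinuousAt, tendsto_iff_dist_tendsto_zero]
  exact squeeze_zero' (Eventually.of_forall fun _ => dist_nonneg) h1 h3

theorem g_cont (hFG : Stmt_FG) (hDD : Stmt_DD) {a η : ℝ} {V V' : Set ℝ} (ha : 0 < a)
    (hη : 0 < η) (hη1 : η ≤ 1 / 100) (hA : Adm η V V') (y : ℝ) :
    ContinuousOn (fun t => G a (η * dd V t) y) V' := by
  obtain ⟨-, -, h3, -⟩ := hDD η V V' hη hη1 hA
  have h1 : ContinuousOn (fun t => η * dd V t) V' :=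
    (continuous_const.mul (dd_cont V)).continuousOn
  refine (G_cont hFG ha y).comp h1 ?_
  intro t ht
  have : 0 < dd V t := (h3 t).2 (hA.sub ht)
  show 0 < η * dd V t
  positivity

theorem vol_lt {η : ℝ} {V V' : Set ℝ} (hA : Adm η V V') : volume V' < ⊤ :=
  lt_of_le_of_lt hA.vol ENNReal.ofReal_lt_top

theorem g_int (hFG : Stmt_FG) (hDD : Stmt_DD) {a η : ℝ} {V V' : Set ℝ} (ha : 0 < a)
    (hη : 0 < η) (hη1 : η ≤ 1 / 100) (hA : Adm η V V') (y : ℝ) :
    IntegrableOn (fun t => G a (η * dd V t) y) V' := by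
  obtain ⟨-, -, -, -, h5, -⟩ := hFG a ha
  refine IntegrableOn.of_bound (vol_lt hA)
    ((g_cont hFG hDD ha hη hη1 hA y).aestronglyMeasurable hA.oV'.measurableSet) a ?_
  exact Eventually.of_forall fun t => by rw [Real.norm_eq_abs]; exact h5 _ _

/-- The difference of two values. -/
theorem diff (hFG : Stmt_FG) (hDD : Stmt_DD) {a η : ℝ} {V V' : Set ℝ} (ha : 0 < a)
    (hη : 0 < η) (hη1 : η ≤ 1 / 100) (hA : Adm η V V') (y : ℝ) {x x' : ℝ} (hx : x' ≤ x) :
    Bw a η V V' x y - Bw a η V V' x' y = - ∫ t in V' ∩ Ioc x' x, G a (η * dd V t) y := by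
  have hU : V' ∩ Iic x = (V' ∩ Iic x') ∪ (V' ∩ Ioc x' x) := by
    rw [← inter_union_distrib_left, Iic_union_Ioc_eq_Iic hx]
  have hi := g_int hFG hDD ha hη hη1 hA y
  have hdis : Disjoint (V' ∩ Iic x') (V' ∩ Ioc x' x) := by
    rw [Set.disjoint_left]
    rintro t ⟨-, h1⟩ ⟨-, h2, -⟩
    exact absurd (lt_of_lt_of_le h2 h1) (lt_irrefl _)
  have h1 : ∫ t in V' ∩ Iic x, G a (η * dd V t) y
      = (∫ t in V' ∩ Iic x', G a (η * dd V t) y) + ∫ t in V' ∩ Ioc x' x, G a (η * dd V t) y := by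
    rw [hU]
    exact setIntegral_union hdis (hA.oV'.measurableSet.inter measurableSet_Ioc)
      (hi.mono_set inter_subset_left) (hi.mono_set inter_subset_left)
  unfold Bw
  rw [h1]
  ring

theorem part1 (hFG : Stmt_FG) {a η : ℝ} {V V' : Set ℝ} (ha : 0 < a)
    (hA : Adm η V V') (x y : ℝ) : |Bw a η V V' x y| ≤ a * η ^ 2 := by
  obtain ⟨-, -, -, -, h5, -⟩ := hFG a ha
  have hv : volume (V' ∩ Iic x) < ⊤ := lt_of_le_of_lt (measure_mono inter_subset_left) (vol_lt hA)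
  have h1 : ‖∫ t in V' ∩ Iic x, G a (η * dd V t) y‖ ≤ a * volume.real (V' ∩ Iic x) :=
    norm_setIntegral_le_of_norm_le_const hv (fun t _ => by rw [Real.norm_eq_abs]; exact h5 _ _)
  have h2 : volume.real (V' ∩ Iic x) ≤ η ^ 2 := by
    refine ENNReal.toReal_le_of_le_ofReal (sq_nonneg η) ?_
    exact (measure_mono inter_subset_left).trans hA.vol
  unfold Bw
  rw [abs_neg, ← Real.norm_eq_abs]
  exact h1.trans (mul_le_mul_of_nonneg_left h2 ha.le)

theorem part2_aux (hFG : Stmt_FG) (hDD : Stmt_DD) {a η : ℝ} {V V' : Set ℝ} (ha : 0 < a)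
    (hη : 0 < η) (hη1 : η ≤ 1 / 100) (hA : Adm η V V') (y : ℝ) {x x' : ℝ} (hx : x' ≤ x) :
    |Bw a η V V' x y - Bw a η V V' x' y| ≤ a * (volume (V' ∩ uIcc x x')).toReal := by
  obtain ⟨-, -, -, -, h5, -⟩ := hFG a ha
  rw [diff hFG hDD ha hη hη1 hA y hx, abs_neg, ← Real.norm_eq_abs]
  have hv : volume (V' ∩ Ioc x' x) < ⊤ :=
    lt_of_le_of_lt (measure_mono inter_subset_left) (vol_lt hA)
  have hv2 : volume (V' ∩ uIcc x x') ≠ ⊤ :=
    (lt_of_le_of_lt (measure_mono inter_subset_left) (vol_lt hA)).ne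
  have h1 : ‖∫ t in V' ∩ Ioc x' x, G a (η * dd V t) y‖ ≤ a * volume.real (V' ∩ Ioc x' x) :=
    norm_setIntegral_le_of_norm_le_const hv (fun t _ => by rw [Real.norm_eq_abs]; exact h5 _ _)
  refine h1.trans (mul_le_mul_of_nonneg_left ?_ ha.le)
  refine ENNReal.toReal_mono hv2 (measure_mono (inter_subset_inter_right _ ?_))
  rw [uIcc_of_ge hx]
  exact Ioc_subset_Icc_self

theorem part2 (hFG : Stmt_FG) (hDD : Stmt_DD) {a η : ℝ} {V V' : Set ℝ} (ha : 0 < a)
    (hη : 0 < η) (hη1 : η ≤ 1 / 100) (hA : Adm η V V') (x x' y : ℝ) :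
    |Bw a η V V' x y - Bw a η V V' x' y| ≤ a * (volume (V' ∩ uIcc x x')).toReal := by
  rcases le_total x' x with hx | hx
  · exact part2_aux hFG hDD ha hη hη1 hA y hx
  · have h := part2_aux hFG hDD ha hη hη1 hA y hx
    rw [uIcc_comm x' x] at h
    rwa [abs_sub_comm]

theorem inv_int (hDD : Stmt_DD) {η : ℝ} {V V' : Set ℝ}
    (hη : 0 < η) (hη1 : η ≤ 1 / 100) (hA : Adm η V V') :
    IntegrableOn (fun t => 1 / dd V t) V' ∧ ∫ t in V', 1 / dd V t ≤ η ^ 2 := by
  obtain ⟨h0, -⟩ := hDD η V V' hη hη1 hA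
  have hm : Measurable (fun t => 1 / dd V t) := measurable_const.div (dd_cont V).measurable
  have hnn : ∀ t, 0 ≤ 1 / dd V t := fun t => div_nonneg zero_le_one (h0 t)
  have hfin : ∫⁻ x in V', ENNReal.ofReal (1 / dd V x) < ⊤ :=
    lt_of_le_of_lt hA.int ENNReal.ofReal_lt_top
  constructor
  · refine ⟨hm.aestronglyMeasurable, ?_⟩
    rw [hasFiniteIntegral_iff_ofReal (Eventually.of_forall hnn)]
    exact hfin
  · rw [integral_eq_lintegral_of_nonneg_ae (Eventually.of_forall hnn) hm.aestronglyMeasurable]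
    exact ENNReal.toReal_le_of_le_ofReal (sq_nonneg η) hA.int

theorem part3 (hFG : Stmt_FG) (hDD : Stmt_DD) {a η : ℝ} {V V' : Set ℝ} (ha : 0 < a)
    (hη : 0 < η) (hη1 : η ≤ 1 / 100) (hA : Adm η V V') (x y y' : ℝ) :
    |Bw a η V V' x y - Bw a η V V' x y'| ≤ 13 * a * η * |y - y'| := by
  obtain ⟨-, -, -, -, -, h6, -⟩ := hFG a ha
  obtain ⟨h0, -, h3, -⟩ := hDD η V V' hη hη1 hA
  obtain ⟨hi, hle⟩ := inv_int hDD hη hη1 hA
  have hy := (g_int hFG hDD ha hη hη1 hA y).mono_set (inter_subset_left : V' ∩ Iic x ⊆ V')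
  have hy' := (g_int hFG hDD ha hη hη1 hA y').mono_set (inter_subset_left : V' ∩ Iic x ⊆ V')
  have h1 : Bw a η V V' x y - Bw a η V V' x y'
      = - ∫ t in V' ∩ Iic x, (G a (η * dd V t) y - G a (η * dd V t) y') := by
    unfold Bw
    rw [integral_sub hy hy']
    ring
  have hmS : MeasurableSet (V' ∩ Iic x) := hA.oV'.measurableSet.inter measurableSet_Iic
  have h2 : ‖∫ t in V' ∩ Iic x, (G a (η * dd V t) y - G a (η * dd V t) y')‖
      ≤ ∫ t in V' ∩ Iic x, (13 * a / η * |y - y'|) * (1 / dd V t) := by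
    refine norm_integral_le_of_norm_le ((hi.mono_set inter_subset_left).const_mul _) ?_
    refine (ae_restrict_iff' hmS).2 (Eventually.of_forall fun t ht => ?_)
    have hd : 0 < dd V t := (h3 t).2 (hA.sub ht.1)
    have h := h6 (η * dd V t) y y' (by positivity)
    rw [Real.norm_eq_abs]
    refine h.trans (le_of_eq ?_)
    field_simp
  have h4 : ∫ t in V' ∩ Iic x, (13 * a / η * |y - y'|) * (1 / dd V t)
      ≤ (13 * a / η * |y - y'|) * η ^ 2 := by
    rw [integral_const_mul]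
    refine mul_le_mul_of_nonneg_left ?_ (by positivity)
    refine le_trans ?_ hle
    refine setIntegral_mono_set hi ?_ ?_
    · exact Eventually.of_forall fun t => div_nonneg zero_le_one (h0 t)
    · exact Eventually.of_forall inter_subset_left
  rw [h1, abs_neg, ← Real.norm_eq_abs]
  refine (h2.trans h4).trans (le_of_eq ?_)
  field_simp

theorem part4_aux (hFG : Stmt_FG) (hDD : Stmt_DD) {a η : ℝ} {V V' : Set ℝ} (ha : 0 < a)
    (hη : 0 < η) (hη1 : η ≤ 1 / 100) (hA : Adm η V V') {x x' : ℝ} (y g M : ℝ) (hx : x' ≤ x)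
    (h : ∀ t ∈ Ioo x' x, t ∈ V' ∧ |G a (η * dd V t) y - g| ≤ M) :
    |Bw a η V V' x y - Bw a η V V' x' y + g * (x - x')| ≤ M * (x - x') := by
  have hsub : Ioo x' x ⊆ V' := fun t ht => (h t ht).1
  have hae : (V' ∩ Ioc x' x : Set ℝ) =ᵐ[volume] Ioo x' x := by
    have h1 : (Ioo x' x : Set ℝ) =ᵐ[volume] Ioc x' x := Ioo_ae_eq_Ioc
    have h2 : (V' ∩ Ioo x' x : Set ℝ) = Ioo x' x := inter_eq_right.2 hsub
    have h3 : (V' ∩ Ioc x' x : Set ℝ) =ᵐ[volume] (V' ∩ Ioo x' x : Set ℝ) :=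
      (ae_eq_refl V').inter h1.symm
    rwa [h2] at h3
  have hi := (g_int hFG hDD ha hη hη1 hA y).mono_set hsub
  have hvt : volume (Ioo x' x) < ⊤ := by rw [Real.volume_Ioo]; exact ENNReal.ofReal_lt_top
  have hci : IntegrableOn (fun _ : ℝ => g) (Ioo x' x) := integrableOn_const (hs := hvt.ne)
  have hvr : volume.real (Ioo x' x) = x - x' := by
    rw [measureReal_def, Real.volume_Ioo, ENNReal.toReal_ofReal (by linarith)]
  have h1 : Bw a η V V' x y - Bw a η V V' x' y + g * (x - x')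
      = - ∫ t in Ioo x' x, (G a (η * dd V t) y - g) := by
    rw [diff hFG hDD ha hη hη1 hA y hx, setIntegral_congr_set hae, integral_sub hi hci,
      setIntegral_const, hvr, smul_eq_mul]
    ring
  rw [h1, abs_neg, ← Real.norm_eq_abs]
  have h2 := norm_setIntegral_le_of_norm_le_const (f := fun t => G a (η * dd V t) y - g) (C := M)
    hvt (fun t ht => by rw [Real.norm_eq_abs]; exact (h t ht).2)
  rw [hvr] at h2
  exact h2

end BW

theorem BW_thm (hFG : Stmt_FG) (hDD : Stmt_DD) : Stmt_BW := by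
  intro a η V V' ha hη hη1 hA
  refine ⟨fun x y => BW.part1 hFG ha hA x y, fun x x' y => BW.part2 hFG hDD ha hη hη1 hA x x' y,
    fun x y y' => BW.part3 hFG hDD ha hη hη1 hA x y y', ?_⟩
  intro x x' y g M h
  rcases le_total x' x with hx | hx
  · rw [min_eq_right hx, max_eq_left hx] at h
    rw [abs_of_nonneg (sub_nonneg.2 hx)]
    exact BW.part4_aux hFG hDD ha hη hη1 hA y g M hx h
  · rw [min_eq_left hx, max_eq_right hx] at h
    have h1 := BW.part4_aux hFG hDD ha hη hη1 hA y g M hx h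
    rw [abs_of_nonpos (sub_nonpos.2 hx)]
    have h2 : Bw a η V V' x y - Bw a η V V' x' y + g * (x - x')
        = -(Bw a η V V' x' y - Bw a η V V' x y + g * (x' - x)) := by ring
    rw [h2, abs_neg]
    linarith

end Pool.Agent.QL
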