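import Pool.Agent.QL.Stmts

/-!
# The covering argument
-/

open MeasureTheory Set Filter Topology
open scoped ENNReal

namespace Pool.Agent.QL

namespace COV

/-- The image of a disc at a point of bounded dilatation lies between two discs. -/
theorem discs (hTOPB : Stmt_TOPB) (f : ℂ ≃ₜ ℂ) (H k : ℝ) (z : ℂ)
    (hz : ∀ u w : ℂ, dist u z = dist w z → dist u z < k →
      dist (f u) (f z) ≤ H * dist (f w) (f z)) (ρ : ℝ) (h0 : 0 < ρ) (hk : ρ < k) :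
    ∃ l : ℝ, 0 ≤ l ∧ Metric.ball (f z) l ⊆ f '' Metric.ball z ρ ∧
      f '' Metric.closedBall z ρ ⊆ Metric.closedBall (f z) (H * l) := by
  have hc : IsCompact (Metric.sphere z ρ) := isCompact_sphere z ρ
  have hne : (Metric.sphere z ρ).Nonempty := NormedSpace.sphere_nonempty.2 h0.le
  obtain ⟨w₀, hw₀, hmin⟩ := hc.exists_isMinOn hne (f := fun w => dist (f w) (f z))
    (Continuous.continuousOn (by fun_prop))
  have hd : dist w₀ z = ρ := hw₀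
  obtain ⟨h1, h2⟩ := hTOPB f z ρ (dist (f w₀) (f z)) (H * dist (f w₀) (f z)) h0
    (fun w hw => ⟨hmin hw, hz w w₀ (by rw [hw, hd]) (by rw [hw]; exact hk)⟩)
  exact ⟨_, dist_nonneg, h1, h2⟩

/-- Separation of the cells. -/
theorem sep (α ρ : ℝ) (hρ : 0 < ρ) (a b : ℕ) (y y' : ℝ) (h : a + 3 ≤ b)
    (hy : y < α + (a + 1) * ρ) (hy' : α + b * ρ ≤ y') : 2 * ρ ≤ y' - y := by
  have h1 : (a : ℝ) + 3 ≤ b := by exact_mod_cast h
  nlinarith [mul_le_mul_of_nonneg_right h1 hρ.le]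

/-- The discs overlap at most three times. -/
theorem vol3 (f : ℂ ≃ₜ ℂ) (x α ρ : ℝ) (hρ : 0 < ρ) (J : Finset ℕ) (Y : ℕ → ℝ)
    (hY : ∀ j ∈ J, α + j * ρ ≤ Y j ∧ Y j < α + (j + 1) * ρ) (l : ℕ → ℝ) (S : Set ℂ)
    (hS : ∀ j ∈ J, Metric.ball (⟨x, Y j⟩ : ℂ) ρ ⊆ S)
    (hl : ∀ j ∈ J, Metric.ball (f ⟨x, Y j⟩) (l j) ⊆ f '' Metric.ball ⟨x, Y j⟩ ρ) :
    ∑ j ∈ J, volume (Metric.ball (f ⟨x, Y j⟩) (l j)) ≤ 3 * volume (f '' S) := by
  have key : ∀ r : ℕ, ∑ j ∈ J.filter (fun j => j % 3 = r),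
      volume (Metric.ball (f ⟨x, Y j⟩) (l j)) ≤ volume (f '' S) := by
    intro r
    rw [← measure_biUnion_finset]
    · apply measure_mono
      intro w hw
      simp only [Set.mem_iUnion] at hw
      obtain ⟨j, hj, hw⟩ := hw
      have hj' := (Finset.mem_filter.1 hj).1
      exact Set.image_mono (hS j hj') (hl j hj' hw)
    · intro j hj j' hj' hne
      rw [Finset.mem_coe, Finset.mem_filter] at hj hj'
      refine Disjoint.mono (hl j hj.1) (hl j' hj'.1) ?_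
      rw [Set.disjoint_image_iff f.injective]
      apply Metric.ball_disjoint_ball
      have hdd : dist (⟨x, Y j⟩ : ℂ) ⟨x, Y j'⟩ = |Y j - Y j'| := by
        rw [Complex.dist_of_re_eq (show (⟨x, Y j⟩ : ℂ).re = (⟨x, Y j'⟩ : ℂ).re from rfl)]
        rfl
      rw [hdd]
      rcases lt_or_gt_of_ne hne with h | h
      · have h3 : j + 3 ≤ j' := by omega
        have := sep α ρ hρ j j' (Y j) (Y j') h3 (hY j hj.1).2 (hY j' hj'.1).1
        have h4 := neg_abs_le (Y j - Y j')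
        linarith
      · have h3 : j' + 3 ≤ j := by omega
        have := sep α ρ hρ j' j (Y j') (Y j) h3 (hY j' hj'.1).2 (hY j hj.1).1
        have h4 := le_abs_self (Y j - Y j')
        linarith
    · intro j _
      exact measurableSet_ball
  have hsplit : ∑ r ∈ Finset.range 3, ∑ j ∈ J.filter (fun j => j % 3 = r),
      volume (Metric.ball (f ⟨x, Y j⟩) (l j)) = ∑ j ∈ J, volume (Metric.ball (f ⟨x, Y j⟩) (l j)) :=
    Finset.sum_fiberwise_of_maps_to (fun j _ => Finset.mem_range.2 (Nat.mod_lt _ (by norm_num))) _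
  rw [← hsplit]
  calc _ ≤ ∑ r ∈ Finset.range 3, volume (f '' S) := Finset.sum_le_sum (fun r _ => key r)
    _ = 3 * volume (f '' S) := by simp

/-- The estimate for the sum of the radii. -/
theorem radii (J : Finset ℕ) (l : ℕ → ℝ) (hl : ∀ j ∈ J, 0 ≤ l j) (c : ℕ → ℂ) (V : ℝ≥0∞)
    (M ρ L : ℝ) (hρ : 0 < ρ) (hρ1 : ρ ≤ 1) (hL : 0 ≤ L) (hJ : (J.card : ℝ) ≤ L / ρ + 1)
    (h : ∑ j ∈ J, volume (Metric.ball (c j) (l j)) ≤ 3 * V) (hV : V ≤ ENNReal.ofReal (M * ρ)) :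
    ∑ j ∈ J, l j ≤ Real.sqrt ((L + 1) * (|M| + 1)) := by
  have h1 : ENNReal.ofReal (∑ j ∈ J, l j ^ 2 * Real.pi) ≤ ENNReal.ofReal (3 * (|M| * ρ)) := by
    rw [ENNReal.ofReal_sum_of_nonneg (fun j _ => by positivity)]
    calc ∑ j ∈ J, ENNReal.ofReal (l j ^ 2 * Real.pi)
        = ∑ j ∈ J, volume (Metric.ball (c j) (l j)) := by
          refine Finset.sum_congr rfl (fun j hj => ?_)
          rw [Complex.volume_ball, ENNReal.ofReal_mul (by positivity), ENNReal.ofReal_pow (hl j hj)]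
          congr 1
          rw [← NNReal.coe_real_pi, ENNReal.ofReal_coe_nnreal]
      _ ≤ 3 * V := h
      _ ≤ 3 * ENNReal.ofReal (|M| * ρ) := by
          gcongr
          exact hV.trans (ENNReal.ofReal_le_ofReal (by gcongr; exact le_abs_self M))
      _ = ENNReal.ofReal (3 * (|M| * ρ)) := by
          rw [ENNReal.ofReal_mul (by norm_num)]
          norm_num
  have h2 : ∑ j ∈ J, l j ^ 2 * Real.pi ≤ 3 * (|M| * ρ) :=
    (ENNReal.ofReal_le_ofReal_iff (by positivity)).1 h1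
  have h3 : ∑ j ∈ J, l j ^ 2 ≤ |M| * ρ := by
    rw [← Finset.sum_mul] at h2
    have h4 : 0 ≤ ∑ j ∈ J, l j ^ 2 := Finset.sum_nonneg (fun j _ => by positivity)
    nlinarith [Real.pi_gt_three]
  have h4 : (∑ j ∈ J, l j) ^ 2 ≤ (L + 1) * (|M| + 1) := by
    calc (∑ j ∈ J, l j) ^ 2 ≤ J.card * ∑ j ∈ J, l j ^ 2 := sq_sum_le_card_mul_sum_sq
      _ ≤ (L / ρ + 1) * (|M| * ρ) := by
          apply mul_le_mul hJ h3 (Finset.sum_nonneg (fun j _ => by positivity)) (by positivity)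
      _ = (L + ρ) * |M| := by field_simp
      _ ≤ (L + 1) * (|M| + 1) := by
          have := abs_nonneg M
          apply mul_le_mul (by linarith) (by linarith) this (by linarith)
  exact Real.le_sqrt_of_sq_le h4

/-- One covering. -/
theorem step (hTOPB : Stmt_TOPB) (f : ℂ ≃ₜ ℂ) (H x α β M : ℝ) (T : Set ℝ) (k : ℝ) (hH : 0 < H)
    (hαβ : α < β) (hT : T ⊆ Icc α β)
    (hqs : ∀ y ∈ T, ∀ u w : ℂ, dist u ⟨x, y⟩ = dist w ⟨x, y⟩ → dist u ⟨x, y⟩ < k →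
      dist (f u) (f ⟨x, y⟩) ≤ H * dist (f w) (f ⟨x, y⟩))
    (ρ : ℝ) (hρ0 : 0 < ρ) (hρk : ρ < k) (hρ1 : ρ ≤ 1)
    (hvol : volume (f '' {z : ℂ | |z.re - x| ≤ ρ ∧ α - 1 ≤ z.im ∧ z.im ≤ β + 1})
      ≤ ENNReal.ofReal (M * ρ)) :
    ∃ (J : Finset ℕ) (Y : ℕ → ℝ), (∀ j ∈ J, Y j ∈ T) ∧ (∀ y ∈ T, ∃ j ∈ J, |y - Y j| ≤ ρ) ∧
      ∑ j ∈ J, Metric.ediam (f '' Metric.closedBall (⟨x, Y j⟩ : ℂ) ρ) ≤
        ENNReal.ofReal (4 * H * Real.sqrt ((β - α + 1) * (|M| + 1))) := by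
  classical
  have hc : ∀ y, α ≤ y → α + (⌊(y - α) / ρ⌋₊ : ℝ) * ρ ≤ y ∧ y < α + ((⌊(y - α) / ρ⌋₊ : ℝ) + 1) * ρ := by
    intro y hy
    have h1 : 0 ≤ (y - α) / ρ := div_nonneg (by linarith) hρ0.le
    have h2 := Nat.floor_le h1
    have h3 := Nat.lt_floor_add_one ((y - α) / ρ)
    rw [le_div_iff₀ hρ0] at h2
    rw [div_lt_iff₀ hρ0] at h3
    constructor <;> linarith
  have hJ : ∀ j : ℕ, ∃ Yj : ℝ, (∃ y ∈ T, ⌊(y - α) / ρ⌋₊ = j) → Yj ∈ T ∧ ⌊(Yj - α) / ρ⌋₊ = j := by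
    intro j
    by_cases h : ∃ y ∈ T, ⌊(y - α) / ρ⌋₊ = j
    · obtain ⟨y, hy⟩ := h
      exact ⟨y, fun _ => hy⟩
    · exact ⟨0, fun h' => absurd h' h⟩
  choose Y hY using hJ
  set J := (Finset.range (⌊(β - α) / ρ⌋₊ + 1)).filter (fun j => ∃ y ∈ T, ⌊(y - α) / ρ⌋₊ = j)
    with hJdef
  have hYJ : ∀ j ∈ J, Y j ∈ T ∧ ⌊(Y j - α) / ρ⌋₊ = j :=
    fun j hj => hY j (Finset.mem_filter.1 hj).2
  have hYc : ∀ j ∈ J, α + j * ρ ≤ Y j ∧ Y j < α + (j + 1) * ρ := by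
    intro j hj
    obtain ⟨h1, h2⟩ := hYJ j hj
    have h3 := hc (Y j) (hT h1).1
    rw [h2] at h3
    exact h3
  have hlex : ∀ j : ℕ, ∃ l : ℝ, j ∈ J → (0 ≤ l ∧
      Metric.ball (f ⟨x, Y j⟩) l ⊆ f '' Metric.ball ⟨x, Y j⟩ ρ ∧
      f '' Metric.closedBall ⟨x, Y j⟩ ρ ⊆ Metric.closedBall (f ⟨x, Y j⟩) (H * l)) := by
    intro j
    by_cases h : j ∈ J
    · obtain ⟨l, hl⟩ := discs hTOPB f H k ⟨x, Y j⟩ (hqs (Y j) (hYJ j h).1) ρ hρ0 hρk
      exact ⟨l, fun _ => hl⟩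
    · exact ⟨0, fun h' => absurd h' h⟩
  choose l hl using hlex
  have hS : ∀ j ∈ J, Metric.ball (⟨x, Y j⟩ : ℂ) ρ ⊆
      {z : ℂ | |z.re - x| ≤ ρ ∧ α - 1 ≤ z.im ∧ z.im ≤ β + 1} := by
    intro j hj z hz
    have hz' : ‖z - ⟨x, Y j⟩‖ < ρ := by rwa [Metric.mem_ball, dist_eq_norm] at hz
    have h1 := Complex.abs_re_le_norm (z - ⟨x, Y j⟩)
    have h2 := Complex.abs_im_le_norm (z - ⟨x, Y j⟩)
    simp only [Complex.sub_re, Complex.sub_im] at h1 h2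
    have h3 := hT (hYJ j hj).1
    have h4 := abs_le.1 (h2.trans hz'.le)
    refine ⟨h1.trans hz'.le, ?_, ?_⟩
    · linarith [h3.1, h4.1]
    · linarith [h3.2, h4.2]
  have hcard : (J.card : ℝ) ≤ (β - α) / ρ + 1 := by
    have h1 : J.card ≤ ⌊(β - α) / ρ⌋₊ + 1 := by
      have := Finset.card_filter_le (Finset.range (⌊(β - α) / ρ⌋₊ + 1))
        (fun j => ∃ y ∈ T, ⌊(y - α) / ρ⌋₊ = j)
      rwa [Finset.card_range] at this
    have h2 : (⌊(β - α) / ρ⌋₊ : ℝ) ≤ (β - α) / ρ :=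
      Nat.floor_le (div_nonneg (by linarith) hρ0.le)
    have h3 : (J.card : ℝ) ≤ (⌊(β - α) / ρ⌋₊ : ℝ) + 1 := by exact_mod_cast h1
    linarith
  have hsum := radii J l (fun j hj => (hl j hj).1) (fun j => f ⟨x, Y j⟩) _ M ρ (β - α) hρ0 hρ1
    (by linarith) hcard (vol3 f x α ρ hρ0 J Y hYc l _ hS (fun j hj => (hl j hj).2.1)) hvol
  refine ⟨J, Y, fun j hj => (hYJ j hj).1, ?_, ?_⟩
  · intro y hy
    have hyI := hT hy
    refine ⟨⌊(y - α) / ρ⌋₊, ?_, ?_⟩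
    · rw [hJdef, Finset.mem_filter, Finset.mem_range]
      refine ⟨?_, y, hy, rfl⟩
      have h1 : ⌊(y - α) / ρ⌋₊ ≤ ⌊(β - α) / ρ⌋₊ :=
        Nat.floor_le_floor (div_le_div_of_nonneg_right (by linarith [hyI.2]) hρ0.le)
      omega
    · have h1 := hc y hyI.1
      obtain ⟨h2, h3⟩ := hY _ ⟨y, hy, rfl⟩
      have h4 := hc (Y ⌊(y - α) / ρ⌋₊) (hT h2).1
      rw [h3] at h4
      rw [abs_le]
      constructor <;> linarith [h1.1, h1.2, h4.1, h4.2]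
  · calc ∑ j ∈ J, Metric.ediam (f '' Metric.closedBall (⟨x, Y j⟩ : ℂ) ρ)
        ≤ ∑ j ∈ J, ENNReal.ofReal (2 * (H * l j)) := by
          refine Finset.sum_le_sum (fun j hj => ?_)
          refine Metric.ediam_le_of_forall_dist_le (fun u hu w hw => ?_)
          have h1 := (hl j hj).2.2 hu
          have h2 := (hl j hj).2.2 hw
          rw [Metric.mem_closedBall] at h1 h2
          have h3 := dist_triangle_right u w (f ⟨x, Y j⟩)
          linarith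
      _ = ENNReal.ofReal (∑ j ∈ J, 2 * (H * l j)) := by
          rw [ENNReal.ofReal_sum_of_nonneg]
          intro j hj
          have := (hl j hj).1
          positivity
      _ ≤ _ := by
          apply ENNReal.ofReal_le_ofReal
          rw [← Finset.mul_sum, ← Finset.mul_sum]
          have h0 : 0 ≤ Real.sqrt ((β - α + 1) * (|M| + 1)) := Real.sqrt_nonneg _
          nlinarith [mul_le_mul_of_nonneg_left hsum hH.le, mul_nonneg hH.le h0]

/-- The images of small discs at a compact segment are uniformly small. -/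
theorem small (f : ℂ ≃ₜ ℂ) (x α β : ℝ) :
    Tendsto (fun m : ℕ => ⨆ y ∈ Icc α β,
      Metric.ediam (f '' Metric.closedBall (⟨x, y⟩ : ℂ) (1 / (m + 1)))) atTop (𝓝 0) := by
  rw [ENNReal.tendsto_nhds_zero]
  intro ε hε
  obtain ⟨e, he0, he⟩ : ∃ e : ℝ, 0 < e ∧ ENNReal.ofReal e ≤ ε := by
    rcases eq_or_ne ε ⊤ with h | h
    · exact ⟨1, one_pos, by rw [h]; exact le_top⟩
    · exact ⟨ε.toReal, ENNReal.toReal_pos hε.ne' h, by rw [ENNReal.ofReal_toReal h]⟩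
  have hK : IsCompact (Metric.closedBall (0 : ℂ) (|x| + |α| + |β| + 1)) := isCompact_closedBall _ _
  have hu := hK.uniformContinuousOn_of_continuous f.continuous.continuousOn
  rw [Metric.uniformContinuousOn_iff] at hu
  obtain ⟨δ, hδ, hu⟩ := hu e he0
  have h1 : ∀ᶠ m : ℕ in atTop, 1 / ((m : ℝ) + 1) < δ / 2 :=
    (tendsto_one_div_add_atTop_nhds_zero_nat (𝕜 := ℝ)).eventually_lt_const (by positivity)
  filter_upwards [h1] with m hm
  refine iSup₂_le (fun y hy => ?_)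
  refine le_trans (Metric.ediam_le_of_forall_dist_le (C := e) ?_) he
  have hm1 : 1 / ((m : ℝ) + 1) ≤ 1 := by
    rw [div_le_one (by positivity)]
    have : (0 : ℝ) ≤ m := Nat.cast_nonneg m
    linarith
  have hin : ∀ v ∈ Metric.closedBall (⟨x, y⟩ : ℂ) (1 / ((m : ℝ) + 1)),
      v ∈ Metric.closedBall (0 : ℂ) (|x| + |α| + |β| + 1) := by
    intro v hv
    rw [Metric.mem_closedBall] at hv ⊢
    have h2 : dist (⟨x, y⟩ : ℂ) 0 ≤ |x| + |y| := by
      rw [dist_zero_right]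
      have := Complex.norm_le_abs_re_add_abs_im (⟨x, y⟩ : ℂ)
      simpa using this
    have h3 : |y| ≤ |α| + |β| := by
      rw [abs_le]
      constructor
      · have := neg_abs_le α
        have := abs_nonneg β
        linarith [hy.1]
      · have := le_abs_self β
        have := abs_nonneg α
        linarith [hy.2]
    have h4 := dist_triangle v ⟨x, y⟩ 0
    linarith
  rintro _ ⟨u, hu1, rfl⟩ _ ⟨w, hw1, rfl⟩
  refine (hu u (hin u hu1) w (hin w hw1) ?_).le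
  rw [Metric.mem_closedBall] at hu1 hw1
  have h3 := dist_triangle_right u w (⟨x, y⟩ : ℂ)
  linarith

end COV

open COV in
/-- COV: the covering argument. -/
theorem COV_thm (hTOPB : Stmt_TOPB) : Stmt_COV := by
  intro f H x α β M T k hH hαβ hT hk hqs hvol
  have hex : ∀ m : ℕ, ∃ ρ : ℝ, 0 < ρ ∧ ρ < k ∧ ρ ≤ 1 ∧ ρ ≤ 1 / ((m : ℝ) + 1) ∧
      volume (f '' {z : ℂ | |z.re - x| ≤ ρ ∧ α - 1 ≤ z.im ∧ z.im ≤ β + 1})
        ≤ ENNReal.ofReal (M * ρ) := by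
    intro m
    have h1 : ∀ᶠ ρ in 𝓝[>] (0 : ℝ), ρ < min k (min 1 (1 / ((m : ℝ) + 1))) :=
      mem_nhdsWithin_of_mem_nhds (Iio_mem_nhds (by positivity))
    have h2 : ∀ᶠ ρ in 𝓝[>] (0 : ℝ), 0 < ρ := self_mem_nhdsWithin
    obtain ⟨ρ, ha, hb, hc⟩ := (hvol.and (h1.and h2)).exists
    rw [lt_min_iff, lt_min_iff] at hb
    exact ⟨ρ, hc, hb.1, hb.2.1.le, hb.2.2.le, ha⟩
  choose ρ hρ0 hρk hρ1 hρm hρv using hex
  have hst := fun m : ℕ => step hTOPB f H x α β M T k hH hαβ hT hqs (ρ m) (hρ0 m) (hρk m) (hρ1 m)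
    (hρv m)
  choose J Y hJT hJc hJs using hst
  have hmain := Measure.hausdorffMeasure_le_liminf_sum (X := ℂ) (β := ℕ) (ι := fun m => J m) 1
    (f '' {z : ℂ | z.re = x ∧ z.im ∈ T}) (l := atTop) _ (small f x α β)
    (fun m j => f '' Metric.closedBall (⟨x, Y m j⟩ : ℂ) (ρ m))
    (Eventually.of_forall (fun m j => by
      refine le_trans (Metric.ediam_mono (Set.image_mono (Metric.closedBall_subset_closedBall
        (hρm m)))) ?_
      exact le_iSup₂ (f := fun y (_ : y ∈ Icc α β) =>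
        Metric.ediam (f '' Metric.closedBall (⟨x, y⟩ : ℂ) (1 / ((m : ℝ) + 1)))) (Y m j)
        (hT (hJT m j j.2))))
    (Eventually.of_forall (fun m => by
      rintro _ ⟨z, ⟨hz1, hz2⟩, rfl⟩
      obtain ⟨j, hj, hd⟩ := hJc m z.im hz2
      refine Set.mem_iUnion.2 ⟨⟨j, hj⟩, z, ?_, rfl⟩
      rw [Metric.mem_closedBall, Complex.dist_of_re_eq hz1, Real.dist_eq]
      exact hd))
  refine hmain.trans ?_
  have hb : ∀ m : ℕ, ∑ j : J m, Metric.ediam (f '' Metric.closedBall (⟨x, Y m j⟩ : ℂ) (ρ m)) ^ (1 : ℝ)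
      ≤ ENNReal.ofReal (4 * H * Real.sqrt ((β - α + 1) * (|M| + 1))) := by
    intro m
    refine le_trans (le_of_eq ?_) (hJs m)
    simp only [ENNReal.rpow_one]
    exact Finset.sum_coe_sort (J m)
      (fun j => Metric.ediam (f '' Metric.closedBall (⟨x, Y m j⟩ : ℂ) (ρ m)))
  exact (liminf_le_liminf (Eventually.of_forall hb)).trans (le_of_eq (liminf_const _))

end Pool.Agent.QL
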