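import Pool.Agent.QL.Stmts

/-!
# Quasiconformal images of null families of parallel lines: from vertical lines to curves
-/

open MeasureTheory Set Filter Topology
open scoped ENNReal

namespace Pool.Agent.QL

namespace CRV

/-- A preconnected null set of reals has at most one point. -/
theorem eq_of_null {S T : Set ℝ} (hS : volume S = 0) (hT : IsPreconnected T) (hTS : T ⊆ S)
    {a b : ℝ} (ha : a ∈ T) (hb : b ∈ T) : a = b := by
  by_contra hab
  rcases lt_or_gt_of_ne hab with h | h
  · have h1 : Icc a b ⊆ S := (hT.Icc_subset ha hb).trans hTS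
    have h2 : volume (Icc a b) = 0 := measure_mono_null h1 hS
    rw [Real.volume_Icc, ENNReal.ofReal_eq_zero] at h2
    linarith
  · have h1 : Icc b a ⊆ S := (hT.Icc_subset hb ha).trans hTS
    have h2 : volume (Icc b a) = 0 := measure_mono_null h1 hS
    rw [Real.volume_Icc, ENNReal.ofReal_eq_zero] at h2
    linarith

/-- First hitting times. -/
theorem exists_hit {u : ℝ → ℝ} {s t : ℝ} (hst : s ≤ t) (hu : ContinuousOn u (Icc s t))
    (_h : u s < u t) : ∃ τ : ℝ → ℝ, MonotoneOn τ (Icc (u s) (u t)) ∧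
      MapsTo τ (Icc (u s) (u t)) (Icc s t) ∧ ∀ r ∈ Icc (u s) (u t), u (τ r) = r := by
  let A : ℝ → Set ℝ := fun r => {x ∈ Icc s t | r ≤ u x}
  have hAc : ∀ r, IsClosed (A r) := fun r =>
    hu.preimage_isClosed_of_isClosed isClosed_Icc isClosed_Ici
  have hAb : ∀ r, BddBelow (A r) := fun r => ⟨s, fun x hx => hx.1.1⟩
  have hAn : ∀ r ∈ Icc (u s) (u t), (A r).Nonempty := fun r hr =>
    ⟨t, ⟨hst, le_refl t⟩, hr.2⟩
  have hmem : ∀ r ∈ Icc (u s) (u t), sInf (A r) ∈ A r := fun r hr =>
    (hAc r).csInf_mem (hAn r hr) (hAb r)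
  refine ⟨fun r => sInf (A r), ?_, fun r hr => (hmem r hr).1, ?_⟩
  · intro r hr r' hr' hrr
    exact csInf_le (hAb r) ⟨(hmem r' hr').1, hrr.trans (hmem r' hr').2⟩
  · intro r hr
    have h1 := hmem r hr
    refine le_antisymm ?_ h1.2
    by_contra hlt
    rw [not_le] at hlt
    have h2 : r ∈ Icc (u s) (u (sInf (A r))) := ⟨hr.1, hlt.le⟩
    obtain ⟨x, hx, hxr⟩ := intermediate_value_Icc h1.1.1
      (hu.mono (Icc_subset_Icc_right h1.1.2)) h2
    have h3 : sInf (A r) ≤ x := csInf_le (hAb r) ⟨⟨hx.1, hx.2.trans h1.1.2⟩, hxr.ge⟩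
    have h4 : x = sInf (A r) := le_antisymm hx.2 h3
    rw [h4] at hxr
    exact absurd hxr hlt.ne'

/-- The variation of a function of `u` on an interval of values of `u` is at most the variation of
the composition. -/
theorem evar_le {h γ : ℝ → ℂ} {u : ℝ → ℝ} {s t : ℝ} (hst : s ≤ t)
    (hu : ContinuousOn u (Icc s t)) (hne : u s ≠ u t)
    (hγ : ∀ x ∈ Icc s t, γ x = h (u x)) :
    eVariationOn h (Icc (min (u s) (u t)) (max (u s) (u t))) ≤ eVariationOn γ (Icc s t) := by
  rcases lt_or_gt_of_ne hne with hlt | hlt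
  · obtain ⟨τ, hm, hmaps, hτ⟩ := exists_hit hst hu hlt
    rw [min_eq_left hlt.le, max_eq_right hlt.le]
    calc eVariationOn h (Icc (u s) (u t)) = eVariationOn (γ ∘ τ) (Icc (u s) (u t)) := by
          refine eVariationOn.eq_of_eqOn fun r hr => ?_
          rw [Function.comp_apply, hγ _ (hmaps hr), hτ r hr]
      _ ≤ eVariationOn γ (Icc s t) := eVariationOn.comp_le_of_monotoneOn γ τ hm hmaps
  · have hst' : -t ≤ -s := neg_le_neg hst
    have hu' : ContinuousOn (fun x => u (-x)) (Icc (-t) (-s)) := by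
      refine hu.comp continuousOn_neg fun x hx => ⟨?_, ?_⟩
      · linarith [hx.2]
      · linarith [hx.1]
    have hlt' : (fun x => u (-x)) (-t) < (fun x => u (-x)) (-s) := by simpa using hlt
    obtain ⟨τ, hm, hmaps, hτ⟩ := exists_hit hst' hu' hlt'
    simp only [neg_neg] at hm hmaps hτ
    rw [min_eq_right hlt.le, max_eq_left hlt.le]
    have hmaps' : MapsTo (fun r => -τ r) (Icc (u t) (u s)) (Icc s t) := by
      intro r hr
      have := hmaps hr
      exact ⟨by linarith [this.2], by linarith [this.1]⟩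
    have hanti : AntitoneOn (fun r => -τ r) (Icc (u t) (u s)) := fun r hr r' hr' hrr =>
      neg_le_neg (hm hr hr' hrr)
    calc eVariationOn h (Icc (u t) (u s))
        = eVariationOn (γ ∘ fun r => -τ r) (Icc (u t) (u s)) := by
          refine eVariationOn.eq_of_eqOn fun r hr => ?_
          rw [Function.comp_apply, hγ _ (hmaps' hr), hτ r hr]
      _ ≤ eVariationOn γ (Icc s t) := eVariationOn.comp_le_of_antitoneOn γ _ hanti hmaps'

end CRV

theorem CRV_thm : Stmt_CRV := by
  intro f S hS hvar γ hγc hγv hγS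
  have hwc : ContinuousOn (fun t => f.symm (γ t)) (Icc 0 1) :=
    f.symm.continuous.comp_continuousOn hγc
  have hwS : ∀ t ∈ Icc (0 : ℝ) 1, (f.symm (γ t)).re ∈ S := by
    intro t ht
    obtain ⟨z, hz, hzt⟩ := hγS t ht
    rw [← hzt, f.symm_apply_apply]
    exact hz
  have hre : ContinuousOn (fun t => (f.symm (γ t)).re) (Icc 0 1) :=
    Complex.continuous_re.comp_continuousOn hwc
  have him : ContinuousOn (fun t => (f.symm (γ t)).im) (Icc 0 1) :=
    Complex.continuous_im.comp_continuousOn hwc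
  have hconn : IsPreconnected ((fun t => (f.symm (γ t)).re) '' Icc 0 1) :=
    isPreconnected_Icc.image _ hre
  have hsub : (fun t => (f.symm (γ t)).re) '' Icc 0 1 ⊆ S := by
    rintro _ ⟨t, ht, rfl⟩
    exact hwS t ht
  have hconst : ∀ s ∈ Icc (0 : ℝ) 1, ∀ t ∈ Icc (0 : ℝ) 1,
      (f.symm (γ s)).re = (f.symm (γ t)).re := fun s hs t ht =>
    CRV.eq_of_null hS hconn hsub ⟨s, hs, rfl⟩ ⟨t, ht, rfl⟩
  -- it is enough to treat ordered pairs
  have key : ∀ s ∈ Icc (0 : ℝ) 1, ∀ t ∈ Icc (0 : ℝ) 1, s ≤ t → γ s = γ t := by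
    intro s hs t ht hst
    by_contra hne
    have hx : (f.symm (γ s)).re ∈ S := hwS s hs
    have hsubI : Icc s t ⊆ Icc (0 : ℝ) 1 := Icc_subset_Icc hs.1 ht.2
    have hu : ContinuousOn (fun r => (f.symm (γ r)).im) (Icc s t) := him.mono hsubI
    have hune : (f.symm (γ s)).im ≠ (f.symm (γ t)).im := by
      intro heq
      apply hne
      have : f.symm (γ s) = f.symm (γ t) := Complex.ext (hconst s hs t ht) heq
      exact f.symm.injective this
    have hγ' : ∀ r ∈ Icc s t,
        γ r = (fun y : ℝ => f ⟨(f.symm (γ s)).re, y⟩) ((fun r => (f.symm (γ r)).im) r) := by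
      intro r hr
      have e1 : (⟨(f.symm (γ s)).re, (f.symm (γ r)).im⟩ : ℂ) = f.symm (γ r) :=
        Complex.ext (hconst s hs r (hsubI hr)) rfl
      show γ r = f ⟨(f.symm (γ s)).re, (f.symm (γ r)).im⟩
      rw [e1, f.apply_symm_apply]
    have h1 := CRV.evar_le (h := fun y : ℝ => f ⟨(f.symm (γ s)).re, y⟩) (γ := γ)
      (u := fun r => (f.symm (γ r)).im) hst hu hune hγ'
    have h2 := hvar _ hx (min (f.symm (γ s)).im (f.symm (γ t)).im)
      (max (f.symm (γ s)).im (f.symm (γ t)).im) (by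
        rcases lt_or_gt_of_ne hune with h | h
        · rw [min_eq_left h.le, max_eq_right h.le]; exact h
        · rw [min_eq_right h.le, max_eq_left h.le]; exact h)
    have h3 : eVariationOn γ (Icc s t) ≤ eVariationOn γ (Icc 0 1) := eVariationOn.mono γ hsubI
    have h4 : eVariationOn γ (Icc 0 1) ≠ ⊤ := hγv
    exact h4 (top_le_iff.mp (h2 ▸ (h1.trans h3)))
  intro s hs t ht
  rcases le_total s t with hst | hst
  · exact key s hs t ht hst
  · exact (key t ht s hs hst).symm

end Pool.Agent.QL
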