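import Pool.Agent.QL.Stmts

/-!
# Module TWR: existence of the tower
-/

open MeasureTheory Set Filter Topology
open scoped ENNReal

namespace Pool.Agent.QL

namespace TWR

theorem ee_pos {E : ℝ} (hE : 0 < E) (n : ℕ) : 0 < ee E n := by
  unfold ee
  positivity

theorem ee_le {E : ℝ} (hE : 0 < E) (n : ℕ) : ee E n ≤ E / 4 := by
  unfold ee
  have h1 : (1 : ℝ) ≤ 4 ^ n := one_le_pow₀ (by norm_num)
  rw [pow_succ]
  apply div_le_div_of_nonneg_left hE.le (by norm_num)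
  linarith

theorem dd_mono {V V' : Set ℝ} (h : V' ⊆ V) (hne : Vᶜ.Nonempty) (x : ℝ) : dd V' x ≤ dd V x := by
  unfold dd
  exact Metric.infDist_le_infDist_of_subset (compl_subset_compl.mpr h) hne

theorem ball_subset_of_lt {V : Set ℝ} {x y : ℝ} (h : |y - x| < dd V x) : y ∈ V := by
  by_contra hy
  have h1 : dd V x ≤ dist x y := Metric.infDist_le_dist_of_mem hy
  rw [Real.dist_eq, abs_sub_comm] at h1
  linarith

theorem start (S : Set ℝ) (hS : volume S = 0) :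
    ∃ V : Set ℝ, IsOpen V ∧ S ⊆ V ∧ Vᶜ.Nonempty ∧ ∀ x, dd V x ≤ 1 := by
  obtain ⟨V, hSV, hV, hvol⟩ := Set.exists_isOpen_lt_of_lt S (1 : ℝ≥0∞) (by rw [hS]; exact one_pos)
  refine ⟨V, hV, hSV, ?_, ?_⟩
  · by_contra hne
    rw [Set.not_nonempty_iff_eq_empty, Set.compl_empty_iff] at hne
    rw [hne, Real.volume_univ] at hvol
    exact absurd hvol (by simp)
  · intro x
    by_contra hx
    push Not at hx
    have hsub : Ioo (x - 1) (x + 1) ⊆ V := by
      intro y hy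
      apply ball_subset_of_lt (x := x)
      have : |y - x| < 1 := by
        rw [abs_lt]
        constructor <;> linarith [hy.1, hy.2]
      linarith
    have h2 : volume (Ioo (x - 1) (x + 1)) ≤ volume V := measure_mono hsub
    rw [Real.volume_Ioo] at h2
    have h3 : ENNReal.ofReal (x + 1 - (x - 1)) = 2 := by
      rw [show x + 1 - (x - 1) = (2 : ℝ) by ring]
      simp
    rw [h3] at h2
    have h4 : (2 : ℝ≥0∞) < 1 := lt_of_le_of_lt h2 hvol
    exact absurd h4 (by norm_num)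

theorem seqV (hSETS : Stmt_SETS) (S : Set ℝ) (hS : volume S = 0) (η : ℕ → ℝ) (hη : ∀ n, 0 < η n) :
    ∃ V : ℕ → Set ℝ, (∀ n, S ⊆ V n) ∧ ∀ n, Adm (η n) (V n) (V (n + 1)) := by
  obtain ⟨V0, hV0, hSV0, hne0, hd0⟩ := start S hS
  have step : ∀ (n : ℕ) (V : Set ℝ), ∃ V' : Set ℝ, (IsOpen V ∧ S ⊆ V ∧ Vᶜ.Nonempty) →
      (IsOpen V' ∧ S ⊆ V' ∧ V' ⊆ V ∧ volume V' ≤ ENNReal.ofReal ((η n) ^ 2) ∧
        ∫⁻ x in V', ENNReal.ofReal (1 / dd V x) ≤ ENNReal.ofReal ((η n) ^ 2)) := by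
    intro n V
    by_cases h : IsOpen V ∧ S ⊆ V ∧ Vᶜ.Nonempty
    · obtain ⟨V', h1, h2, h3, h4, h5⟩ := hSETS S V ((η n) ^ 2) hS h.1 h.2.2 h.2.1
        (pow_pos (hη n) 2)
      exact ⟨V', fun _ => ⟨h1, h2, h3, h4, h5⟩⟩
    · exact ⟨V, fun h' => absurd h' h⟩
  choose next hnext using step
  let V : ℕ → Set ℝ := fun n => Nat.rec V0 (fun n W => next n W) n
  have hV : ∀ n, IsOpen (V n) ∧ S ⊆ V n ∧ (V n)ᶜ.Nonempty ∧ ∀ x, dd (V n) x ≤ 1 := by
    intro n
    induction n with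
    | zero => exact ⟨hV0, hSV0, hne0, hd0⟩
    | succ n ih =>
      obtain ⟨h1, h2, h3, h4, h5⟩ := hnext n (V n) ⟨ih.1, ih.2.1, ih.2.2.1⟩
      refine ⟨h1, h2, ih.2.2.1.mono (compl_subset_compl.mpr h3), ?_⟩
      intro x
      exact le_trans (dd_mono h3 ih.2.2.1 x) (ih.2.2.2 x)
  refine ⟨V, fun n => (hV n).2.1, fun n => ?_⟩
  obtain ⟨h1, h2, h3, h4, h5⟩ := hnext n (V n) ⟨(hV n).1, (hV n).2.1, (hV n).2.2.1⟩
  exact ⟨(hV n).1, h1, h3, (hV n).2.2.1, (hV n).2.2.2, h4, h5⟩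

end TWR

open TWR in
theorem TWR_thm (hSETS : Stmt_SETS) (hDD : Stmt_DD) (hP12 : Stmt_P12) (hP3 : Stmt_P3)
    (hP4 : Stmt_P4) (hP5 : Stmt_P5) : Stmt_TWR := by
  intro S a E hS ha ha' hE hE'
  have hη0 : ∀ n, 0 < ee E n / 100 := fun n => div_pos (ee_pos hE n) (by norm_num)
  have hη1 : ∀ n, ee E n / 100 ≤ a / 100000 := by
    intro n
    have := ee_le hE n
    linarith
  have hη2 : ∀ n, ee E n / 100 ≤ 1 / 100 := by
    intro n
    have := hη1 n
    linarith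
  have ha1 : a ≤ 1 := by linarith
  obtain ⟨V, hSV, hA⟩ := seqV hSETS S hS (fun n => ee E n / 100) hη0
  have hdd0 : ∀ n x, 0 ≤ dd (V n) x := fun n x => Metric.infDist_nonneg
  have hmul : ∀ n x, ee E n / 100 * dd (V n) x ≤ ee E n * dd (V n) x := by
    intro n x
    apply mul_le_mul_of_nonneg_right _ (hdd0 n x)
    linarith [ee_pos hE n]
  refine ⟨fun n => dd (V n), fun n => phi a (ee E n / 100) (V n) (V (n + 1)), ?_, ?_, ?_⟩
  · refine ⟨by linarith, by linarith, hE, by linarith, hdd0, ?_, ?_, ?_, ?_, ?_, ?_, ?_⟩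
    · intro n x x'
      exact (hDD _ _ _ (hη0 n) (hη2 n) (hA n)).2.1 x x'
    · intro n z
      exact le_trans ((hP12 a _ _ _ ha ha1 (hη0 n) (hη2 n) (hA n)).1 z) (hmul n z.re)
    · intro n q q'
      have h := (hP12 a _ _ _ ha ha1 (hη0 n) (hη2 n) (hA n)).2.2 q q'
      have e : 100 * (ee E n / 100) = ee E n := by ring
      rwa [e] at h
    · intro n q q'
      exact hP3 a _ _ _ ha ha1 (hη0 n) (hη2 n) (hA n) q q'
    · intro n p
      obtain ⟨s, hs1, hs2, hs3⟩ := hP4 a _ _ _ ha ha1 (hη0 n) (hη2 n) (hA n) p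
      refine ⟨s, hs1, by linarith, ?_⟩
      intro q q' hq hq'
      have h := hs3 q q' hq hq'
      have e : 100 * (ee E n / 100) = ee E n := by ring
      rwa [e] at h
    · intro n x
      have h := (hDD _ _ _ (hη0 n) (hη2 n) (hA n)).2.2.2.2.1 x
      refine le_trans h ?_
      apply mul_le_mul_of_nonneg_right _ (hdd0 n x)
      have h1 := hη0 n
      have h2 := hη2 n
      nlinarith [ee_pos hE n]
    · intro n z
      have h := (hP12 a _ _ _ ha ha1 (hη0 n) (hη2 n) (hA n)).2.1 z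
      linarith [ee_pos hE n]
  · intro y
    exact (hA 0).dle y
  · intro x hx n
    have hxV : ∀ n, x ∈ V n := fun n => hSV n hx
    refine ⟨((hDD _ _ _ (hη0 n) (hη2 n) (hA n)).2.2.1 x).mpr (hxV n), ?_⟩
    obtain ⟨D, hD0, hD1, hD2, hD3⟩ := hP5 a _ _ _ ha ha1 (hη0 n) (hη1 n) (hA n) x (hxV n)
    refine ⟨D, hD0, ?_, ?_, hD3⟩
    · refine le_trans hD1 ?_
      apply mul_le_mul_of_nonneg_right _ (hdd0 n x)
      linarith [ee_pos hE n]
    · refine le_trans hD2 ?_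
      apply mul_le_mul_of_nonneg_right _ hD0.le
      linarith [ee_pos hE n]

end Pool.Agent.QL
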