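import Pool.Agent.QL.StmtsU
import Pool.Agent.QL.TWR

/-!
# Module CTW: existence of concrete towers
-/

open MeasureTheory Set Filter Topology
open scoped ENNReal

namespace Pool.Agent.QL

open TWR in
theorem CTW_thm (hSETS : Stmt_SETS) (hDD : Stmt_DD) (hP12 : Stmt_P12) (hP3 : Stmt_P3)
    (hP4 : Stmt_P4) (hP5 : Stmt_P5) : Stmt_CTW := by
  intro S a E hS ha ha' hE hE'
  have hη0 : ∀ n, 0 < ee E n / 100 := fun n => div_pos (ee_pos hE n) (by norm_num)
  have hη1 : ∀ n, ee E n / 100 ≤ a / 100000 := by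
    intro n
    have := ee_le hE n
    linarith
  have hη2 : ∀ n, ee E n / 100 ≤ 1 / 100 := by
    intro n
    have := hη1 n
    linarith
  have ha1 : a ≤ 1 := by linarith
  obtain ⟨V, hSV, hA⟩ := seqV hSETS S hS (fun n => ee E n / 100) hη0
  have hdd0 : ∀ n x, 0 ≤ dd (V n) x := fun n x => Metric.infDist_nonneg
  have hmul : ∀ n x, ee E n / 100 * dd (V n) x ≤ ee E n * dd (V n) x := by
    intro n x
    apply mul_le_mul_of_nonneg_right _ (hdd0 n x)
    linarith [ee_pos hE n]
  refine ⟨V, hSV, hA, ?_, ?_⟩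
  · refine ⟨by linarith, by linarith, hE, by linarith, hdd0, ?_, ?_, ?_, ?_, ?_, ?_, ?_⟩
    · intro n x x'
      exact (hDD _ _ _ (hη0 n) (hη2 n) (hA n)).2.1 x x'
    · intro n z
      exact le_trans ((hP12 a _ _ _ ha ha1 (hη0 n) (hη2 n) (hA n)).1 z) (hmul n z.re)
    · intro n q q'
      have h := (hP12 a _ _ _ ha ha1 (hη0 n) (hη2 n) (hA n)).2.2 q q'
      have e : 100 * (ee E n / 100) = ee E n := by ring
      rwa [e] at h
    · intro n q q'
      exact hP3 a _ _ _ ha ha1 (hη0 n) (hη2 n) (hA n) q q'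
    · intro n p
      obtain ⟨s, hs1, hs2, hs3⟩ := hP4 a _ _ _ ha ha1 (hη0 n) (hη2 n) (hA n) p
      refine ⟨s, hs1, by linarith, ?_⟩
      intro q q' hq hq'
      have h := hs3 q q' hq hq'
      have e : 100 * (ee E n / 100) = ee E n := by ring
      rwa [e] at h
    · intro n x
      have h := (hDD _ _ _ (hη0 n) (hη2 n) (hA n)).2.2.2.2.1 x
      refine le_trans h ?_
      apply mul_le_mul_of_nonneg_right _ (hdd0 n x)
      have h1 := hη0 n
      have h2 := hη2 n
      nlinarith [ee_pos hE n]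
    · intro n z
      have h := (hP12 a _ _ _ ha ha1 (hη0 n) (hη2 n) (hA n)).2.1 z
      exact h.trans (by linarith [ee_pos hE n])
  · intro n x hx
    obtain ⟨D, hD0, hD1, hD2, hD3⟩ := hP5 a _ _ _ ha ha1 (hη0 n) (hη1 n) (hA n) x hx
    refine ⟨D, hD0, ?_, ?_, hD3⟩
    · refine le_trans hD1 ?_
      apply mul_le_mul_of_nonneg_right _ (hdd0 n x)
      linarith [ee_pos hE n]
    · refine le_trans hD2 ?_
      apply mul_le_mul_of_nonneg_right _ hD0.le
      linarith [ee_pos hE n]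

end Pool.Agent.QL
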