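import Pool.Agent.QL.Stmts

/-!
# DD: the distance functions
-/

open MeasureTheory Set Filter Topology
open scoped ENNReal

namespace Pool.Agent.QL

namespace DD

theorem dd_nonneg (V : Set ℝ) (x : ℝ) : 0 ≤ dd V x := Metric.infDist_nonneg

theorem dd_lip (V : Set ℝ) (x x' : ℝ) : |dd V x - dd V x'| ≤ |x - x'| := by
  have h := (Metric.lipschitz_infDist_pt Vᶜ).dist_le_mul x x'
  rw [NNReal.coe_one, one_mul, Real.dist_eq, Real.dist_eq] at h
  exact h

theorem dd_pos {V : Set ℝ} (hV : IsOpen V) (hne : Vᶜ.Nonempty) (x : ℝ) : 0 < dd V x ↔ x ∈ V := by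
  have h := hV.isClosed_compl.notMem_iff_infDist_pos hne (x := x)
  rw [mem_compl_iff, not_not] at h
  exact h.symm

theorem dd_ball (V : Set ℝ) (x y : ℝ) (h : |y - x| < dd V x) : y ∈ V := by
  by_contra hy
  have h1 : dd V x ≤ dist x y := Metric.infDist_le_dist_of_mem (mem_compl hy)
  rw [Real.dist_eq, abs_sub_comm] at h1
  exact absurd h (not_lt.mpr h1)

/-- The distance to the complement of the small set is small. -/
theorem dd_small {η : ℝ} {V V' : Set ℝ} (hη : 0 < η) (h : Adm η V V') (x : ℝ) :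
    dd V' x ≤ η ^ 2 * dd V x := by
  rcases (dd_nonneg V' x).eq_or_lt with h0 | h0
  · rw [← h0]
    exact mul_nonneg (sq_nonneg _) (dd_nonneg V x)
  · have hsub : Metric.ball x (dd V' x) ⊆ V' := by
      intro t ht
      rw [Metric.mem_ball, Real.dist_eq] at ht
      exact dd_ball V' x t ht
    have hle : dd V' x ≤ dd V x :=
      Metric.infDist_le_infDist_of_subset (compl_subset_compl.mpr h.sub) h.ne
    have hD : 0 < dd V x := lt_of_lt_of_le h0 hle
    have h1 : ∫⁻ _t in Metric.ball x (dd V' x), ENNReal.ofReal (1 / (2 * dd V x)) ≤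
        ∫⁻ t in V', ENNReal.ofReal (1 / dd V t) := by
      refine le_trans (setLIntegral_mono' measurableSet_ball fun t ht => ?_)
        (lintegral_mono_set hsub)
      apply ENNReal.ofReal_le_ofReal
      have htV : t ∈ V := h.sub (hsub ht)
      have ht0 : 0 < dd V t := (dd_pos h.oV h.ne t).mpr htV
      apply one_div_le_one_div_of_le ht0
      have h2 := (abs_le.mp (dd_lip V t x)).2
      rw [Metric.mem_ball, Real.dist_eq] at ht
      linarith
    have h2 := h1.trans h.int
    rw [setLIntegral_const, Real.volume_ball, ← ENNReal.ofReal_mul (by positivity)] at h2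
    rw [ENNReal.ofReal_le_ofReal_iff (by positivity)] at h2
    have h3 : 1 / (2 * dd V x) * (2 * dd V' x) = dd V' x / dd V x := by
      field_simp
    rw [h3, div_le_iff₀ hD] at h2
    exact h2

theorem vol_inter (V' : Set ℝ) (x x' : ℝ) :
    (volume (V' ∩ uIcc x x')).toReal ≤ |x - x'| := by
  have h1 : volume (V' ∩ uIcc x x') ≤ ENNReal.ofReal |x' - x| := by
    rw [← Real.volume_interval]
    exact measure_mono inter_subset_right
  have h2 := ENNReal.toReal_mono ENNReal.ofReal_ne_top h1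
  rw [ENNReal.toReal_ofReal (abs_nonneg _), abs_sub_comm] at h2
  exact h2

theorem vol_inter' {η : ℝ} {V V' : Set ℝ} (h : Adm η V V') (x x' : ℝ) :
    (volume (V' ∩ uIcc x x')).toReal ≤ η ^ 2 * (dd V x + |x - x'|) := by
  obtain ⟨M, hM⟩ : ∃ M, M = dd V x + |x - x'| := ⟨_, rfl⟩
  have hM0 : 0 ≤ M := by
    rw [hM]
    exact add_nonneg (dd_nonneg V x) (abs_nonneg _)
  have hmeas : MeasurableSet (V' ∩ uIcc x x') := h.oV'.measurableSet.inter measurableSet_uIcc
  have h1 : volume (V' ∩ uIcc x x') ≤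
      ENNReal.ofReal M * ∫⁻ t in V', ENNReal.ofReal (1 / dd V t) := by
    calc volume (V' ∩ uIcc x x') = ∫⁻ _t in V' ∩ uIcc x x', 1 := by
          rw [setLIntegral_const, one_mul]
      _ ≤ ∫⁻ t in V' ∩ uIcc x x', ENNReal.ofReal M * ENNReal.ofReal (1 / dd V t) := by
          refine setLIntegral_mono' hmeas fun t ht => ?_
          have ht0 : 0 < dd V t := (dd_pos h.oV h.ne t).mpr (h.sub ht.1)
          have h2 := (abs_le.mp (dd_lip V t x)).2
          have h3 : |t - x| ≤ |x - x'| := by
            rw [abs_sub_comm x x']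
            exact abs_sub_left_of_mem_uIcc ht.2
          rw [← ENNReal.ofReal_mul hM0, ← ENNReal.ofReal_one]
          apply ENNReal.ofReal_le_ofReal
          rw [mul_one_div, le_div_iff₀ ht0]
          linarith
      _ = ENNReal.ofReal M * ∫⁻ t in V' ∩ uIcc x x', ENNReal.ofReal (1 / dd V t) :=
          lintegral_const_mul' _ _ ENNReal.ofReal_ne_top
      _ ≤ ENNReal.ofReal M * ∫⁻ t in V', ENNReal.ofReal (1 / dd V t) := by
          gcongr
          exact inter_subset_left
  have h2 : volume (V' ∩ uIcc x x') ≤ ENNReal.ofReal (η ^ 2 * M) := by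
    refine h1.trans ?_
    rw [mul_comm (η ^ 2) M, ENNReal.ofReal_mul hM0]
    gcongr
    exact h.int
  have h3 := ENNReal.toReal_mono ENNReal.ofReal_ne_top h2
  rw [ENNReal.toReal_ofReal (mul_nonneg (sq_nonneg _) hM0), hM] at h3
  exact h3

end DD

theorem DD_thm : Stmt_DD := by
  intro η V V' hη _ h
  refine ⟨DD.dd_nonneg V, DD.dd_lip V, DD.dd_pos h.oV h.ne, DD.dd_ball V, DD.dd_small hη h,
    DD.vol_inter V', DD.vol_inter' h, ?_⟩
  have h1 := ENNReal.toReal_mono ENNReal.ofReal_ne_top h.vol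
  rwa [ENNReal.toReal_ofReal (sq_nonneg _)] at h1

end Pool.Agent.QL
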