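import Pool.Agent.QL.StmtsU

/-!
# Module DSP: displacements and derivatives
-/

open MeasureTheory Set Filter Topology
open scoped ENNReal NNReal

namespace Pool.Agent.QL

namespace DSP

theorem intervalIntegrable_deriv {L : ℝ≥0} {f : ℝ → ℂ} (hf : LipschitzWith L f) (a b : ℝ) :
    IntervalIntegrable (deriv f) volume a b := by
  rw [intervalIntegrable_iff]
  refine Measure.integrableOn_of_bounded (M := L) ?_ (measurable_deriv f).aestronglyMeasurable ?_
  · simp
  · exact ae_of_all _ fun t => norm_deriv_le_of_lipschitz hf

theorem comp_clm {L : ℝ≥0} {f : ℝ → ℂ} (hf : LipschitzWith L f) (l : ℂ →L[ℝ] ℝ) (a b : ℝ) :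
    l (∫ t in a..b, deriv f t) = l (f b) - l (f a) := by
  have hg : LipschitzWith (‖l‖₊ * L) (fun t => l (f t)) := l.lipschitz.comp hf
  have hac : AbsolutelyContinuousOnInterval (fun t => l (f t)) a b :=
    (hg.lipschitzOnWith (s := uIcc a b)).absolutelyContinuousOnInterval
  have h1 := hac.integral_deriv_eq_sub
  rw [← h1, ← l.intervalIntegral_comp_comm (intervalIntegrable_deriv hf a b)]
  refine intervalIntegral.integral_congr_ae ?_
  filter_upwards [hf.ae_differentiableAt_real] with t ht _
  exact ((l.hasFDerivAt.comp_hasDerivAt t ht.hasDerivAt).deriv).symm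

theorem integral_deriv {L : ℝ≥0} {f : ℝ → ℂ} (hf : LipschitzWith L f) (a b : ℝ) :
    ∫ t in a..b, deriv f t = f b - f a := by
  apply Complex.ext
  · have := comp_clm hf Complex.reCLM a b
    simpa using this
  · have := comp_clm hf Complex.imCLM a b
    simpa using this

end DSP

open DSP in
theorem DSP_thm : Stmt_DSP := by
  intro L f w M C α β Bad hf hB hαβ hM hC h1 h2
  have hi := intervalIntegrable_deriv hf α β
  have e1 : f β - f α - (β - α) • w = ∫ t in α..β, (deriv f t - w) := by
    rw [intervalIntegral.integral_sub hi intervalIntegrable_const, integral_deriv hf,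
      intervalIntegral.integral_const]
  have hfin : volume (Bad ∩ Icc α β) ≠ ⊤ :=
    ne_top_of_le_ne_top (by simp) (measure_mono inter_subset_right)
  have hbi : IntegrableOn (fun t => M + Bad.indicator (fun _ => C + ‖w‖) t) (Icc α β) := by
    refine Integrable.add (integrable_const _) ?_
    rw [integrable_indicator_iff hB, IntegrableOn, Measure.restrict_restrict hB]
    exact integrableOn_const hfin
  rw [e1, intervalIntegral.integral_of_le hαβ, ← integral_Icc_eq_integral_Ioc]
  calc ‖∫ t in Icc α β, (deriv f t - w)‖
      ≤ ∫ t in Icc α β, (M + Bad.indicator (fun _ => C + ‖w‖) t) := by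
        refine norm_integral_le_of_norm_le hbi ?_
        rw [ae_restrict_iff' measurableSet_Icc]
        filter_upwards [h1, h2] with t ht1 ht2 ht
        by_cases hb : t ∈ Bad
        · rw [indicator_of_mem hb]
          calc ‖deriv f t - w‖ ≤ ‖deriv f t‖ + ‖w‖ := norm_sub_le _ _
            _ ≤ M + (C + ‖w‖) := by linarith [ht2 ht]
        · rw [indicator_of_notMem hb, add_zero]
          exact ht1 ht hb
    _ = M * (β - α) + (C + ‖w‖) * (volume (Bad ∩ Icc α β)).toReal := by
        rw [integral_add (integrable_const _), integral_const, setIntegral_indicator hB,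
          setIntegral_const]
        · rw [inter_comm]
          simp only [measureReal_def, smul_eq_mul, MeasurableSet.univ, Measure.restrict_apply,
            univ_inter, Real.volume_Icc]
          rw [ENNReal.toReal_ofReal (by linarith)]
          ring
        · rw [integrable_indicator_iff hB, IntegrableOn, Measure.restrict_restrict hB]
          exact integrableOn_const hfin

end Pool.Agent.QL
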