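import Pool.Agent.QL.Stmts

/-!
# FG: the properties of the waves
-/

open MeasureTheory Set Filter Topology
open scoped ENNReal

namespace Pool.Agent.QL

namespace FG

lemma dya_pos (t : ℝ) : 0 < dya t := by unfold dya; positivity

lemma dya_le {t : ℝ} (ht : 0 < t) : dya t ≤ t := by
  have h := Int.zpow_log_le_self (R := ℝ) (b := 2) one_lt_two ht
  simpa [dya] using h

lemma lt_dya (t : ℝ) : t < 2 * dya t := by
  have h := Int.lt_zpow_succ_log_self (R := ℝ) (b := 2) one_lt_two t
  have h2 : ((2 : ℕ) : ℝ) ^ (Int.log 2 t + 1) = 2 * dya t := by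
    unfold dya
    push_cast
    rw [zpow_add_one₀ (by norm_num : (2 : ℝ) ≠ 0)]
    ring
  rwa [h2] at h

lemma w1 {t : ℝ} : 0 ≤ 2 - t / dya t := by
  have h := lt_dya t
  have hD := dya_pos t
  rw [sub_nonneg, div_le_iff₀ hD]
  exact h.le

lemma w2 {t : ℝ} (ht : 0 < t) : 0 ≤ t / dya t - 1 := by
  have h := dya_le ht
  have hD := dya_pos t
  rw [sub_nonneg, le_div_iff₀ hD]
  linarith

lemma abs_interp {h : ℝ → ℝ} {t A B : ℝ} (ht : 0 < t) (hA : |h (dya t)| ≤ A)
    (hB : |h (2 * dya t)| ≤ B) :
    |interp h t| ≤ (2 - t / dya t) * A + (t / dya t - 1) * B := by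
  unfold interp
  refine (abs_add_le _ _).trans ?_
  rw [abs_mul, abs_mul, abs_of_nonneg w1, abs_of_nonneg (w2 ht)]
  exact add_le_add (mul_le_mul_of_nonneg_left hA w1) (mul_le_mul_of_nonneg_left hB (w2 ht))

lemma abs_pw {a D : ℝ} (ha : 0 < a) (hD : 0 < D) (y : ℝ) : |pw a D y| ≤ a * D / (2 * Real.pi) := by
  unfold pw
  rw [abs_mul, abs_of_pos (by positivity)]
  exact mul_le_of_le_one_right (by positivity) (Real.abs_sin_le_one _)

lemma abs_dw {a : ℝ} (ha : 0 < a) (D y : ℝ) : |dw a D y| ≤ a := by
  unfold dw
  rw [abs_mul, abs_of_pos ha]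
  exact mul_le_of_le_one_right ha.le (Real.abs_cos_le_one _)

lemma pw_two {a D : ℝ} (ha : 0 < a) (hD : 0 < D) (y : ℝ) :
    |pw a (2 * D) y - pw a D y| ≤ a * D := by
  have h1 := abs_pw ha (mul_pos two_pos hD) y
  have h2 := abs_pw ha hD y
  have hpi := Real.pi_gt_three
  have h3 : a * (2 * D) / (2 * Real.pi) + a * D / (2 * Real.pi) ≤ a * D := by
    rw [← add_div, div_le_iff₀ (by positivity)]
    have : 0 < a * D := mul_pos ha hD
    nlinarith
  calc |pw a (2 * D) y - pw a D y| ≤ |pw a (2 * D) y| + |pw a D y| := abs_sub _ _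
    _ ≤ _ := by linarith

lemma F_le {a t : ℝ} (ha : 0 < a) (ht : 0 < t) (y : ℝ) : |F a t y| ≤ a * t := by
  unfold F
  rw [if_pos ht]
  have hD := dya_pos t
  refine (abs_interp ht (abs_pw ha hD y) (abs_pw ha (mul_pos two_pos hD) y)).trans ?_
  have hpi := Real.pi_gt_three
  have e : (2 - t / dya t) * (a * dya t / (2 * Real.pi)) +
      (t / dya t - 1) * (a * (2 * dya t) / (2 * Real.pi)) = a * t / (2 * Real.pi) := by
    field_simp
    ring
  rw [e, div_le_iff₀ (by positivity)]
  have : 0 < a * t := mul_pos ha ht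
  nlinarith

lemma F_zero {a t : ℝ} (ht : t ≤ 0) (y : ℝ) : F a t y = 0 := by
  unfold F
  rw [if_neg (not_lt.2 ht)]

lemma hasDeriv_pw {a D : ℝ} (hD : 0 < D) (y : ℝ) :
    HasDerivAt (fun y => pw a D y) (dw a D y) y := by
  unfold pw dw
  have hpi := Real.pi_pos
  have h1 : HasDerivAt (fun y : ℝ => 2 * Real.pi * y / D) (2 * Real.pi / D) y := by
    have := ((hasDerivAt_id y).const_mul (2 * Real.pi)).div_const D
    simpa using this
  have h2 := (h1.sin).const_mul (a * D / (2 * Real.pi))
  have e : a * D / (2 * Real.pi) * (Real.cos (2 * Real.pi * y / D) * (2 * Real.pi / D)) =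
      a * Real.cos (2 * Real.pi * y / D) := by
    have h3 : D ≠ 0 := hD.ne'
    have h4 : Real.pi ≠ 0 := hpi.ne'
    generalize Real.cos (2 * Real.pi * y / D) = c
    field_simp
  rw [← e]
  exact h2

lemma dw_lip {a D : ℝ} (ha : 0 < a) (hD : 0 < D) (y y' : ℝ) :
    |dw a D y - dw a D y'| ≤ a * (2 * Real.pi / D) * |y - y'| := by
  unfold dw
  have hpi := Real.pi_pos
  rw [← mul_sub, abs_mul, abs_of_pos ha, mul_assoc a]
  refine mul_le_mul_of_nonneg_left ?_ ha.le
  refine (Real.abs_cos_sub_cos_le _ _).trans (le_of_eq ?_)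
  have : 2 * Real.pi * y / D - 2 * Real.pi * y' / D = 2 * Real.pi / D * (y - y') := by ring
  rw [this, abs_mul, abs_of_pos (by positivity)]

end FG

open FG

theorem FG_thm (hINT : Stmt_INT) : Stmt_FG := by
  intro a ha
  refine ⟨fun t y ht => F_zero ht y, ?_, ?_, ?_, ?_, ?_, ?_, ?_⟩
  · intro t y
    rcases le_or_gt t 0 with ht | ht
    · rw [F_zero ht, abs_zero]
      positivity
    · rw [abs_of_pos ht]
      exact F_le ha ht y
  · have key : ∀ t t' y, t ≤ t' → |F a t y - F a t' y| ≤ a * |t - t'| := by
      intro t t' y htt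
      rcases le_or_gt t 0 with ht | ht
      · rw [F_zero ht, zero_sub, abs_neg]
        rcases le_or_gt t' 0 with ht' | ht'
        · rw [F_zero ht', abs_zero]
          positivity
        · refine (F_le ha ht' y).trans (mul_le_mul_of_nonneg_left ?_ ha.le)
          rw [abs_sub_comm, abs_of_nonneg (by linarith)]
          linarith
      · have ht' : 0 < t' := lt_of_lt_of_le ht htt
        have h := hINT (fun D => pw a D y) a t ht ha.le (fun k _ => pw_two ha (by positivity) y)
          t t' le_rfl htt
        unfold F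
        rwa [if_pos ht, if_pos ht']
    intro t t' y
    rcases le_total t t' with h | h
    · exact key t t' y h
    · rw [abs_sub_comm, abs_sub_comm t t']
      exact key t' t y h
  · intro t y
    rcases le_or_gt t 0 with ht | ht
    · have e1 : F a t = fun _ => 0 := by
        funext z
        exact F_zero ht z
      have e2 : G a t y = 0 := by
        unfold G
        rw [if_neg (not_lt.2 ht)]
      rw [e1, e2]
      exact hasDerivAt_const _ _
    · have e1 : F a t = fun z => (2 - t / dya t) * pw a (dya t) z +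
          (t / dya t - 1) * pw a (2 * dya t) z := by
        funext z
        unfold F interp
        rw [if_pos ht]
      have e2 : G a t y = (2 - t / dya t) * dw a (dya t) y +
          (t / dya t - 1) * dw a (2 * dya t) y := by
        unfold G interp
        rw [if_pos ht]
      rw [e1, e2]
      have hD := dya_pos t
      exact ((hasDeriv_pw hD y).const_mul _).add ((hasDeriv_pw (mul_pos two_pos hD) y).const_mul _)
  · intro t y
    rcases le_or_gt t 0 with ht | ht
    · unfold G
      rw [if_neg (not_lt.2 ht), abs_zero]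
      exact ha.le
    · unfold G
      rw [if_pos ht]
      refine (abs_interp (h := fun D => dw a D y) ht (abs_dw ha _ y) (abs_dw ha _ y)).trans
        (le_of_eq ?_)
      ring
  · intro t y y' ht
    have hD := dya_pos t
    have h2 := lt_dya t
    have e : G a t y - G a t y' = interp (fun D => dw a D y - dw a D y') t := by
      unfold G interp
      rw [if_pos ht, if_pos ht]
      ring
    rw [e]
    refine (abs_interp (h := fun D => dw a D y - dw a D y') ht (dw_lip ha hD y y')
      (dw_lip ha (mul_pos two_pos hD) y y')).trans ?_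
    have h0 : 0 ≤ |y - y'| := abs_nonneg _
    have hpi := Real.pi_lt_d2
    have hpi0 := Real.pi_pos
    have h3 : a * (2 * Real.pi / (2 * dya t)) ≤ a * (2 * Real.pi / dya t) := by
      refine mul_le_mul_of_nonneg_left ?_ ha.le
      exact div_le_div_of_nonneg_left (by positivity) hD (by linarith)
    have h4 : a * (2 * Real.pi / dya t) ≤ 13 * a / t := by
      rw [← mul_div_assoc, div_le_div_iff₀ hD ht]
      have : 0 < a * dya t := mul_pos ha hD
      have h5 : a * (2 * Real.pi) * t ≤ a * (2 * Real.pi) * (2 * dya t) :=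
        mul_le_mul_of_nonneg_left h2.le (by positivity)
      nlinarith
    calc (2 - t / dya t) * (a * (2 * Real.pi / dya t) * |y - y'|) +
          (t / dya t - 1) * (a * (2 * Real.pi / (2 * dya t)) * |y - y'|)
        ≤ (2 - t / dya t) * (a * (2 * Real.pi / dya t) * |y - y'|) +
          (t / dya t - 1) * (a * (2 * Real.pi / dya t) * |y - y'|) := by
          have := mul_le_mul_of_nonneg_left (mul_le_mul_of_nonneg_right h3 h0) (w2 ht)
          linarith
      _ = a * (2 * Real.pi / dya t) * |y - y'| := by ring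
      _ ≤ 13 * a / t * |y - y'| := mul_le_mul_of_nonneg_right h4 h0
  · intro t₀ t t' y ht₀ ht ht'
    have h := hINT (fun D => dw a D y) (4 * a / t₀) t₀ ht₀ (by positivity) (fun k hk => ?_)
      t t' ht ht'
    · unfold G
      rwa [if_pos (ht₀.trans_le ht), if_pos (ht₀.trans_le ht')]
    · have h1 := abs_dw ha (2 * (2 : ℝ) ^ k) y
      have h2 := abs_dw ha ((2 : ℝ) ^ k) y
      refine (abs_sub _ _).trans ((add_le_add h1 h2).trans ?_)
      rw [div_mul_eq_mul_div, le_div_iff₀ ht₀]
      nlinarith
  · intro t ht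
    have hD := dya_pos t
    have hpi := Real.pi_pos
    refine ⟨2 * dya t, lt_dya t, by linarith [dya_le ht], fun j => ?_⟩
    constructor
    · unfold F interp pw
      rw [if_pos ht]
      have e1 : 2 * Real.pi * ((j : ℝ) * (2 * dya t)) / dya t = ((4 * j : ℤ) : ℝ) * Real.pi := by
        push_cast
        field_simp
        ring
      have e2 : 2 * Real.pi * ((j : ℝ) * (2 * dya t)) / (2 * dya t) =
          ((2 * j : ℤ) : ℝ) * Real.pi := by
        push_cast
        field_simp
      simp only [e1, e2, Real.sin_int_mul_pi, mul_zero, add_zero]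
    · unfold F interp pw
      rw [if_pos ht]
      have e1 : 2 * Real.pi * (((j : ℝ) + 1 / 8) * (2 * dya t)) / dya t =
          Real.pi / 2 + ((2 * j : ℤ) : ℝ) * (2 * Real.pi) := by
        push_cast
        field_simp
        ring
      have e2 : 2 * Real.pi * (((j : ℝ) + 1 / 8) * (2 * dya t)) / (2 * dya t) =
          Real.pi / 4 + (j : ℝ) * (2 * Real.pi) := by
        field_simp
        ring
      simp only [e1, e2, Real.sin_add_int_mul_two_pi, Real.sin_pi_div_two, Real.sin_pi_div_four]
      have h2 : (1 : ℝ) ≤ √2 := by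
        rw [Real.one_le_sqrt]
        norm_num
      have hv := w2 ht
      have hp : 0 < a * dya t / (2 * Real.pi) := by positivity
      have h5 : a * dya t / (2 * Real.pi) ≤ a * (2 * dya t) / (2 * Real.pi) * (√2 / 2) := by
        have : a * (2 * dya t) / (2 * Real.pi) * (√2 / 2) = a * dya t / (2 * Real.pi) * √2 := by
          ring
        rw [this]
        exact le_mul_of_one_le_right hp.le h2
      have h6 : a * (2 * dya t) / 13 ≤ a * dya t / (2 * Real.pi) := by
        rw [div_le_div_iff₀ (by norm_num) (by positivity)]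
        have := Real.pi_lt_d2
        have : 0 < a * dya t := mul_pos ha hD
        nlinarith
      calc a * (2 * dya t) / 13 ≤ a * dya t / (2 * Real.pi) := h6
        _ = (2 - t / dya t) * (a * dya t / (2 * Real.pi) * 1) +
            (t / dya t - 1) * (a * dya t / (2 * Real.pi)) := by ring
        _ ≤ _ := by
          have := mul_le_mul_of_nonneg_left h5 hv
          linarith

end Pool.Agent.QL
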