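import Pool.Agent.QL.Stmts

/-!
# GRD: the images of the vertical lines are lengthened at all scales
-/

open MeasureTheory Set Filter Topology
open scoped ENNReal

namespace Pool.Agent.QL

namespace GRD

variable {κ E : ℝ} {d : ℕ → ℝ → ℝ} {φ g : ℕ → ℂ → ℂ}

lemma ee_pos (hE : 0 < E) (n : ℕ) : 0 < ee E n := by
  unfold ee
  positivity

lemma ee_succ (E : ℝ) (n : ℕ) : ee E (n + 1) = ee E n / 4 := by
  unfold ee
  rw [pow_succ 4 (n + 1), div_div]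

lemma ee_le (hE : 0 < E) (n : ℕ) : ee E n ≤ E / 4 := by
  induction n with
  | zero => simp [ee]
  | succ n ih =>
    rw [ee_succ]
    have := ee_pos hE n
    linarith

lemma exists_ee (hE : 0 < E) (hE1 : E ≤ 1 / 100) (ε : ℝ) (hε : 0 < ε) :
    ∃ n, 2 * ee E n ≤ ε := by
  obtain ⟨n, hn⟩ := exists_pow_lt_of_lt_one hε (show (1 / 4 : ℝ) < 1 by norm_num)
  refine ⟨n, ?_⟩
  have e : ee E n = E / 4 * (1 / 4) ^ n := by
    unfold ee
    rw [pow_succ, one_div, inv_pow]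
    field_simp
  rw [e]
  have h0 : (0 : ℝ) < (1 / 4) ^ n := by positivity
  nlinarith

lemma lim_re (hN : Stmt_NID) (hT : Tower κ E d φ) (hL : Lims E φ g) (m : ℕ) (q : ℂ) :
    |(g m q).re - q.re| ≤ 2 * ee E m * d m q.re := by
  have h : Tendsto (fun n => seg φ m n q) atTop (𝓝 (g m q)) := (hL.unif m).tendsto_at q
  have h2 : Tendsto (fun n => |(seg φ m n q).re - q.re|) atTop (𝓝 |(g m q).re - q.re|) :=
    (((Complex.continuous_re.tendsto _).comp h).sub_const _).abs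
  exact le_of_tendsto h2 (Eventually.of_forall fun n => (hN κ E d φ hT m n).1 q)

lemma lim_diff (hN : Stmt_NID) (hT : Tower κ E d φ) (hL : Lims E φ g) (m : ℕ) (q q' : ℂ) :
    ‖g m q - g m q' - (q - q')‖ ≤ 2 * ee E m * (‖q - q'‖ + d m q.re) := by
  have h : ∀ z, Tendsto (fun n => seg φ m n z) atTop (𝓝 (g m z)) :=
    fun z => (hL.unif m).tendsto_at z
  have h2 : Tendsto (fun n => ‖seg φ m n q - seg φ m n q' - (q - q')‖) atTop
      (𝓝 ‖g m q - g m q' - (q - q')‖) :=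
    (((h q).sub (h q')).sub_const _).norm
  exact le_of_tendsto h2 (Eventually.of_forall fun n => (hN κ E d φ hT m n).2 q q')

lemma surj_of_near {u : ℝ → ℝ} (hu : Continuous u) (C : ℝ) (h : ∀ y, |u y - y| ≤ C) (w : ℝ) :
    ∃ y, u y = w := by
  have hC : 0 ≤ C := (abs_nonneg _).trans (h 0)
  have h1 := abs_le.1 (h (w - C))
  have h2 := abs_le.1 (h (w + C))
  obtain ⟨y, -, hy⟩ := intermediate_value_Icc (show w - C ≤ w + C by linarith)
    hu.continuousOn (show w ∈ Icc (u (w - C)) (u (w + C)) from ⟨by linarith, by linarith⟩)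
  exact ⟨y, hy⟩

lemma im_near {h : ℂ → ℂ} {x e δ D : ℝ} (he0 : 0 ≤ e) (he : e ≤ 1 / 1600) (hδ : δ ≤ D / 400)
    (hδ0 : 0 ≤ δ)
    (hb : ∀ q q' : ℂ, q.re = x → ‖h q - h q' - (q - q')‖ ≤ 2 * e * (‖q - q'‖ + δ)) (y y' : ℝ) :
    |(h ⟨x, y'⟩).im - (h ⟨x, y⟩).im - (y' - y)| ≤ 1 / 800 * (|y' - y| + D / 400) := by
  have h1 := hb ⟨x, y'⟩ ⟨x, y⟩ rfl
  have h2 : |(h ⟨x, y'⟩).im - (h ⟨x, y⟩).im - (y' - y)| ≤
      ‖h ⟨x, y'⟩ - h ⟨x, y⟩ - ((⟨x, y'⟩ : ℂ) - ⟨x, y⟩)‖ := by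
    have h3 := Complex.abs_im_le_norm (h ⟨x, y'⟩ - h ⟨x, y⟩ - ((⟨x, y'⟩ : ℂ) - ⟨x, y⟩))
    simpa using h3
  have h4 : ‖(⟨x, y'⟩ : ℂ) - ⟨x, y⟩‖ ≤ |y' - y| := by
    have h5 := Complex.norm_le_abs_re_add_abs_im ((⟨x, y'⟩ : ℂ) - ⟨x, y⟩)
    simpa using h5
  have h6 : 0 ≤ |y' - y| := abs_nonneg _
  have h7 : 0 ≤ ‖(⟨x, y'⟩ : ℂ) - ⟨x, y⟩‖ := norm_nonneg _
  refine (h2.trans h1).trans ?_
  calc 2 * e * (‖(⟨x, y'⟩ : ℂ) - ⟨x, y⟩‖ + δ) ≤ 2 * e * (|y' - y| + D / 400) := by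
        apply mul_le_mul_of_nonneg_left (by linarith) (by linarith)
    _ ≤ 1 / 800 * (|y' - y| + D / 400) := by
        apply mul_le_mul_of_nonneg_right (by linarith) (by linarith)

lemma order {y y' a D : ℝ} (hD : 0 < D) (ha : D / 8 ≤ a)
    (h : |a - (y' - y)| ≤ 1 / 800 * (|y' - y| + D / 400)) : y ≤ y' := by
  by_contra hlt
  push Not at hlt
  have h1 : |y' - y| = y - y' := by rw [abs_of_neg (by linarith)]; ring
  rw [h1] at h
  have h2 := (abs_le.1 h).2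
  linarith

lemma len {y y' D : ℝ} (hyy : y ≤ y')
    (h : |D - (y' - y)| ≤ 1 / 800 * (|y' - y| + D / 400)) : y' - y ≤ 11 / 10 * D := by
  have h1 : |y' - y| = y' - y := abs_of_nonneg (by linarith)
  rw [h1] at h
  have h2 := (abs_le.1 h).1
  have h3 := (abs_le.1 h).2
  linarith

lemma arith {E c R a b : ℝ} (hE0 : 0 < E) (hE1 : E ≤ 1 / 100) (hc0 : 0 < c) (hc1 : c ≤ 1)
    (hEc : E ≤ c / 10) (hR : 0 < R) (ha : a ≤ R + E * R / 400) (hb : (1 + c) * R - E * R / 200 ≤ b) :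
    (1 + c / 2) * ((1 + E) * a) ≤ (1 - E) * b := by
  have h1 : (1 + c / 2) * ((1 + E) * a) ≤ (1 + c / 2) * ((1 + E) * (R + E * R / 400)) := by
    apply mul_le_mul_of_nonneg_left _ (by linarith)
    exact mul_le_mul_of_nonneg_left ha (by linarith)
  have h2 : (1 - E) * ((1 + c) * R - E * R / 200) ≤ (1 - E) * b :=
    mul_le_mul_of_nonneg_left hb (by linarith)
  refine h1.trans (le_trans ?_ h2)
  have e1 : (1 + c / 2) * ((1 + E) * (R + E * R / 400)) =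
      R * ((1 + c / 2) * ((1 + E) * (1 + E / 400))) := by ring
  have e2 : (1 - E) * ((1 + c) * R - E * R / 200) =
      R * ((1 - E) * ((1 + c) - E / 200)) := by ring
  rw [e1, e2]
  apply mul_le_mul_of_nonneg_left _ hR.le
  have h3 : (1 + E) * (1 + E / 400) ≤ 1 + 101 / 100 * E := by nlinarith
  have h4 : (1 + c / 2) * ((1 + E) * (1 + E / 400)) ≤ (1 + c / 2) * (1 + 101 / 100 * E) :=
    mul_le_mul_of_nonneg_left h3 (by linarith)
  have h5 : (1 + c / 2) * (1 + 101 / 100 * E) ≤ 1 + c / 2 + 152 / 100 * E := by nlinarith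
  have h6 : 1 + c - 201 / 100 * E ≤ (1 - E) * ((1 + c) - E / 200) := by nlinarith
  linarith

end GRD

open GRD in
/-- GRD: the images of the vertical lines are lengthened at all scales. -/
theorem GRD_thm (hNID : Stmt_NID) (hNSM : Stmt_NSM) : Stmt_GRD := by
  intro κ E c d φ g x hT hL hc0 hc1 hEc hd1 hdx hW ε hε
  have hE0 := hT.E0
  have hE1 := hT.E1
  obtain ⟨n, hn⟩ := exists_ee hE0 hE1 ε hε
  obtain ⟨D, hD0, hDd, hdD, hwig⟩ := hW n
  have hen0 : 0 < ee E n := ee_pos hE0 n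
  have hen : ee E n ≤ E / 4 := ee_le hE0 n
  have hen1 : ee E (n + 1) = ee E n / 4 := ee_succ E n
  -- `d n x ≤ 1`
  have hdle : ∀ m, d m x ≤ 1 := by
    intro m
    induction m with
    | zero => exact hd1 x
    | succ m ih =>
      have h1 := hT.p6 m x
      have h2 := ee_le hE0 m
      have h3 := ee_pos hE0 m
      have h4 := hT.dn m x
      nlinarith
  have hDe : D ≤ ee E n := by
    have := hdle n
    nlinarith
  have hDd' : D ≤ d n x / 400 := by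
    have := hdx n
    nlinarith
  have hd1x : 0 ≤ d (n + 1) x := hT.dn (n + 1) x
  have hdE : d (n + 1) x ≤ E / 4 * D := hdD.trans (mul_le_mul_of_nonneg_right hen hD0.le)
  -- the tail
  have hre : ∀ y : ℝ, |(g (n + 1) ⟨x, y⟩).re - x| ≤ E * D / 3200 := by
    intro y
    have h1 := lim_re hNID hT hL (n + 1) ⟨x, y⟩
    refine h1.trans ?_
    show 2 * ee E (n + 1) * d (n + 1) x ≤ E * D / 3200
    rw [hen1]
    have h2 : 2 * (ee E n / 4) * d (n + 1) x ≤ 2 * (E / 4 / 4) * (E / 4 * D) := by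
      apply mul_le_mul (by linarith) hdE hd1x (by linarith)
    have h3 : 2 * (E / 4 / 4) * (E / 4 * D) = E * D * (E / 32) := by ring
    have h4 : 0 < E * D := mul_pos hE0 hD0
    nlinarith
  have hdif : ∀ q q' : ℂ, q.re = x → ‖g (n + 1) q - g (n + 1) q' - (q - q')‖ ≤
      2 * ee E (n + 1) * (‖q - q'‖ + d (n + 1) x) := by
    intro q q' hq
    have h1 := lim_diff hNID hT hL (n + 1) q q'
    rwa [hq] at h1
  have him := fun y y' => im_near (h := g (n + 1)) (x := x) (e := ee E (n + 1))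
    (δ := d (n + 1) x) (D := D) (by rw [hen1]; linarith) (by rw [hen1]; linarith)
    (by nlinarith) hd1x hdif y y'
  have hucont : Continuous fun y : ℝ => (g (n + 1) ⟨x, y⟩).im := by
    have h1 : Continuous fun y : ℝ => (⟨x, y⟩ : ℂ) := by
      have h2 : (fun y : ℝ => (⟨x, y⟩ : ℂ)) = fun y : ℝ => (x : ℂ) + y * Complex.I := by
        funext y
        exact Complex.mk_eq_add_mul_I x y
      rw [h2]
      fun_prop
    exact Complex.continuous_im.comp ((hL.cont (n + 1)).comp h1)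
  have hunear : ∀ y : ℝ, |(g (n + 1) ⟨x, y⟩).im - y| ≤ 2 * ee E (n + 1) := by
    intro y
    have h1 := hL.near (n + 1) ⟨x, y⟩
    have h2 := Complex.abs_im_le_norm (g (n + 1) ⟨x, y⟩ - ⟨x, y⟩)
    exact h2.trans h1
  have hY : ∀ j : ℤ, ∃ y : ℝ, (g (n + 1) ⟨x, y⟩).im = j * D :=
    fun j => surj_of_near hucont _ hunear _
  have hY' : ∀ j : ℤ, ∃ y : ℝ, (g (n + 1) ⟨x, y⟩).im = (j + 1 / 8) * D :=
    fun j => surj_of_near hucont _ hunear _
  choose Y hYe using hY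
  choose Y' hYe' using hY'
  refine ⟨Y, Y', ?_, ?_, ?_, ?_⟩
  · intro j
    have h0 := hYe j
    have h1 := hYe' j
    have h2 := hYe (j + 1)
    have e01 := him (Y j) (Y' j)
    have e12 := him (Y' j) (Y (j + 1))
    have e02 := him (Y j) (Y (j + 1))
    rw [h0, h1] at e01
    rw [h1, h2] at e12
    rw [h0, h2] at e02
    have o1 : Y j ≤ Y' j := order hD0 (a := (j + 1 / 8) * D - j * D) (by linarith) e01
    have o2 : Y' j ≤ Y (j + 1) := order hD0 (a := ((j + 1 : ℤ) : ℝ) * D - (j + 1 / 8) * D)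
      (by push_cast; linarith) e12
    refine ⟨o1, o2, ?_⟩
    have e3 : ((j + 1 : ℤ) : ℝ) * D - j * D = D := by push_cast; ring
    rw [e3] at e02
    have h3 := len (o1.trans o2) e02
    linarith
  · intro T
    obtain ⟨k, hk⟩ := exists_int_gt ((T + 2 * ee E (n + 1)) / D)
    refine ⟨k, ?_⟩
    rw [div_lt_iff₀ hD0] at hk
    have h1 := (abs_le.1 (hunear (Y k))).2
    rw [hYe k] at h1
    linarith
  · intro T
    obtain ⟨k, hk⟩ := exists_int_lt ((T - 2 * ee E (n + 1)) / D)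
    refine ⟨k, ?_⟩
    rw [lt_div_iff₀ hD0] at hk
    have h1 := (abs_le.1 (hunear (Y k))).1
    rw [hYe k] at h1
    linarith
  · intro j
    have hκ0 := hT.κ0
    have hκ1 := hT.κ1
    -- `φ n` is `11/10`-Lipschitz
    have hlip : ∀ q q', ‖φ n q - φ n q'‖ ≤ 11 / 10 * ‖q - q'‖ := by
      intro q q'
      have h1 := hT.p3 n q q'
      have h2 : ‖φ n q - φ n q'‖ ≤ ‖φ n q - φ n q' - (q - q')‖ + ‖q - q'‖ := by
        have := norm_add_le (φ n q - φ n q' - (q - q')) (q - q')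
        simpa using this
      have h3 := norm_nonneg (q - q')
      nlinarith
    -- closeness of the points
    have hclose : ∀ y t : ℝ, (g (n + 1) ⟨x, y⟩).im = t →
        ‖φ n (g (n + 1) ⟨x, y⟩) - φ n ⟨x, t⟩‖ ≤ E * D / 2000 := by
      intro y t hyt
      refine (hlip _ _).trans ?_
      have h1 := Complex.norm_le_abs_re_add_abs_im (g (n + 1) ⟨x, y⟩ - ⟨x, t⟩)
      have h2 : (g (n + 1) ⟨x, y⟩ - ⟨x, t⟩).im = 0 := by
        rw [Complex.sub_im, hyt, sub_self]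
      have h3 : |(g (n + 1) ⟨x, y⟩ - ⟨x, t⟩).re| ≤ E * D / 3200 := hre y
      rw [h2, abs_zero, add_zero] at h1
      have h4 : 0 < E * D := mul_pos hE0 hD0
      linarith
    have hc0' := hclose (Y j) _ (hYe j)
    have hc1' := hclose (Y' j) _ (hYe' j)
    have hc2' := hclose (Y (j + 1)) _ (hYe (j + 1))
    have hwj := hwig j
    have ecast : (((j + 1 : ℤ) : ℝ) * D : ℝ) = ((j : ℝ) + 1) * D := by push_cast; ring
    rw [ecast] at hc2'
    -- names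
    obtain ⟨A0, hA0⟩ : ∃ z, z = φ n (g (n + 1) ⟨x, Y j⟩) := ⟨_, rfl⟩
    obtain ⟨A1, hA1⟩ : ∃ z, z = φ n (g (n + 1) ⟨x, Y' j⟩) := ⟨_, rfl⟩
    obtain ⟨A2, hA2⟩ : ∃ z, z = φ n (g (n + 1) ⟨x, Y (j + 1)⟩) := ⟨_, rfl⟩
    obtain ⟨B0, hB0⟩ : ∃ z, z = φ n ⟨x, j * D⟩ := ⟨_, rfl⟩
    obtain ⟨B1, hB1⟩ : ∃ z, z = φ n ⟨x, (j + 1 / 8) * D⟩ := ⟨_, rfl⟩
    obtain ⟨B2, hB2⟩ : ∃ z, z = φ n ⟨x, (j + 1) * D⟩ := ⟨_, rfl⟩
    -- distances of the `B`
    have hB02 : ‖B0 - B2‖ ≤ 11 / 10 * D := by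
      rw [hB0, hB2]
      refine (hlip _ _).trans ?_
      have h1 := Complex.norm_le_abs_re_add_abs_im ((⟨x, j * D⟩ : ℂ) - ⟨x, (j + 1) * D⟩)
      have h2 : ((⟨x, j * D⟩ : ℂ) - ⟨x, (j + 1) * D⟩).re = 0 := by simp
      have h3 : ((⟨x, j * D⟩ : ℂ) - ⟨x, (j + 1) * D⟩).im = -D := by
        rw [Complex.sub_im]
        ring
      rw [h2, h3, abs_zero, zero_add, abs_neg, abs_of_pos hD0] at h1
      linarith
    have hB01 : ‖B0 - B1‖ ≤ 11 / 10 * D := by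
      rw [hB0, hB1]
      refine (hlip _ _).trans ?_
      have h1 := Complex.norm_le_abs_re_add_abs_im ((⟨x, j * D⟩ : ℂ) - ⟨x, (j + 1 / 8) * D⟩)
      have h2 : ((⟨x, j * D⟩ : ℂ) - ⟨x, (j + 1 / 8) * D⟩).re = 0 := by simp
      have h3 : ((⟨x, j * D⟩ : ℂ) - ⟨x, (j + 1 / 8) * D⟩).im = -(D / 8) := by
        rw [Complex.sub_im]
        ring
      rw [h2, h3, abs_zero, zero_add, abs_neg, abs_of_pos (by linarith)] at h1
      linarith
    have hRlow : 9 / 10 * D ≤ ‖B0 - B2‖ := by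
      rw [hB0, hB2]
      have h1 := hT.p3 n ⟨x, j * D⟩ ⟨x, (j + 1) * D⟩
      have h3 : ‖(⟨x, j * D⟩ : ℂ) - ⟨x, (j + 1) * D⟩‖ ≤ D := by
        have h1 := Complex.norm_le_abs_re_add_abs_im ((⟨x, j * D⟩ : ℂ) - ⟨x, (j + 1) * D⟩)
        have h2 : ((⟨x, j * D⟩ : ℂ) - ⟨x, (j + 1) * D⟩).re = 0 := by simp
        have h3 : ((⟨x, j * D⟩ : ℂ) - ⟨x, (j + 1) * D⟩).im = -D := by
          rw [Complex.sub_im]
          ring
        rwa [h2, h3, abs_zero, zero_add, abs_neg, abs_of_pos hD0] at h1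
      have h4 : D ≤ ‖(⟨x, j * D⟩ : ℂ) - ⟨x, (j + 1) * D⟩‖ := by
        have h1 := Complex.abs_im_le_norm ((⟨x, j * D⟩ : ℂ) - ⟨x, (j + 1) * D⟩)
        have h3 : ((⟨x, j * D⟩ : ℂ) - ⟨x, (j + 1) * D⟩).im = -D := by
          rw [Complex.sub_im]
          ring
        rwa [h3, abs_neg, abs_of_pos hD0] at h1
      have h5 : ‖(⟨x, j * D⟩ : ℂ) - ⟨x, (j + 1) * D⟩‖ ≤
          ‖φ n ⟨x, j * D⟩ - φ n ⟨x, (j + 1) * D⟩‖ +
          ‖φ n ⟨x, j * D⟩ - φ n ⟨x, (j + 1) * D⟩ - ((⟨x, j * D⟩ : ℂ) - ⟨x, (j + 1) * D⟩)‖ := by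
        have := norm_sub_le (φ n ⟨x, j * D⟩ - φ n ⟨x, (j + 1) * D⟩)
          (φ n ⟨x, j * D⟩ - φ n ⟨x, (j + 1) * D⟩ - ((⟨x, j * D⟩ : ℂ) - ⟨x, (j + 1) * D⟩))
        simpa using this
      nlinarith
    have hre0 : |B0.re - x| ≤ ee E n * d n x := by
      rw [hB0]
      exact hT.p1 n ⟨x, j * D⟩
    rw [← hA0, ← hB0] at hc0'
    rw [← hA1, ← hB1] at hc1'
    rw [← hA2, ← hB2] at hc2'
    rw [← hB0, ← hB1, ← hB2] at hwj
    -- the composition
    have hcomp : ∀ y, g 0 ⟨x, y⟩ = seg φ 0 n (φ n (g (n + 1) ⟨x, y⟩)) := by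
      intro y
      have h1 := hL.comp 0 (n + 1) ⟨x, y⟩
      rw [zero_add] at h1
      rw [h1]
      show seg φ 0 n (φ (0 + n) (g (n + 1) ⟨x, y⟩)) = _
      rw [zero_add]
    show (1 + c / 2) * ‖g 0 ⟨x, Y j⟩ - g 0 ⟨x, Y (j + 1)⟩‖ ≤
      ‖g 0 ⟨x, Y j⟩ - g 0 ⟨x, Y' j⟩‖ + ‖g 0 ⟨x, Y' j⟩ - g 0 ⟨x, Y (j + 1)⟩‖
    rw [hcomp, hcomp, hcomp, ← hA0, ← hA1, ← hA2]
    obtain ⟨σ, hσ1, hσ⟩ := hNSM κ E d φ hT n A0
    have hED : 0 < E * D := mul_pos hE0 hD0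
    have hED' : E * D ≤ D / 100 := by nlinarith
    -- distances of the `A`
    have hA02 : ‖A0 - A2‖ ≤ ‖B0 - B2‖ + E * D / 1000 := by
      have h1 : A0 - A2 = (B0 - B2) + (A0 - B0) - (A2 - B2) := by ring
      have h2 := norm_sub_le ((B0 - B2) + (A0 - B0)) (A2 - B2)
      have h3 := norm_add_le (B0 - B2) (A0 - B0)
      rw [← h1] at h2
      linarith
    have hA01 : ‖A0 - A1‖ ≤ ‖B0 - B1‖ + E * D / 1000 := by
      have h1 : A0 - A1 = (B0 - B1) + (A0 - B0) - (A1 - B1) := by ring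
      have h2 := norm_sub_le ((B0 - B1) + (A0 - B0)) (A1 - B1)
      have h3 := norm_add_le (B0 - B1) (A0 - B0)
      rw [← h1] at h2
      linarith
    have hB01' : ‖B0 - B1‖ ≤ ‖A0 - A1‖ + E * D / 1000 := by
      have h1 : B0 - B1 = (A0 - A1) - (A0 - B0) + (A1 - B1) := by ring
      have h2 := norm_add_le ((A0 - A1) - (A0 - B0)) (A1 - B1)
      have h3 := norm_sub_le (A0 - A1) (A0 - B0)
      rw [← h1] at h2
      linarith
    have hB12' : ‖B1 - B2‖ ≤ ‖A1 - A2‖ + E * D / 1000 := by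
      have h1 : B1 - B2 = (A1 - A2) - (A1 - B1) + (A2 - B2) := by ring
      have h2 := norm_add_le ((A1 - A2) - (A1 - B1)) (A2 - B2)
      have h3 := norm_sub_le (A1 - A2) (A1 - B1)
      rw [← h1] at h2
      linarith
    -- the radius
    have hrad : 6 / 5 * D ≤ d n A0.re / 2 := by
      have h1 := abs_le.1 (hT.dl n A0.re x)
      have h2 : |A0.re - x| ≤ E * D / 2000 + ee E n * d n x := by
        have h3 := Complex.abs_re_le_norm (A0 - B0)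
        rw [Complex.sub_re] at h3
        have h4 := abs_add_le (A0.re - B0.re) (B0.re - x)
        have h5 : A0.re - B0.re + (B0.re - x) = A0.re - x := by ring
        rw [h5] at h4
        linarith
      have h6 : ee E n * d n x ≤ 1 / 400 * d n x :=
        mul_le_mul_of_nonneg_right (by linarith) (hT.dn n x)
      have h7 := hdx n
      linarith [h1.1]
    have b0 : ‖A0 - A0‖ ≤ d n A0.re / 2 := by
      rw [sub_self, norm_zero]
      linarith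
    have b1 : ‖A1 - A0‖ ≤ d n A0.re / 2 := by
      rw [norm_sub_rev]
      linarith
    have b2 : ‖A2 - A0‖ ≤ d n A0.re / 2 := by
      rw [norm_sub_rev]
      linarith
    have s02 := hσ A0 A2 b0 b2
    have s01 := hσ A0 A1 b0 b1
    have s12 := hσ A1 A2 b1 b2
    have up : ∀ P Q W : ℂ, ‖P - Q - σ * W‖ ≤ E * ‖σ‖ * ‖W‖ →
        ‖P - Q‖ ≤ ‖σ‖ * ((1 + E) * ‖W‖) := by
      intro P Q W h
      have h1 := norm_add_le (P - Q - σ * W) (σ * W)
      rw [sub_add_cancel, norm_mul] at h1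
      nlinarith
    have low : ∀ P Q W : ℂ, ‖P - Q - σ * W‖ ≤ E * ‖σ‖ * ‖W‖ →
        ‖σ‖ * ((1 - E) * ‖W‖) ≤ ‖P - Q‖ := by
      intro P Q W h
      have h1 := norm_sub_le (P - Q) (P - Q - σ * W)
      rw [sub_sub_cancel, norm_mul] at h1
      nlinarith
    have u02 := up _ _ _ s02
    have l01 := low _ _ _ s01
    have l12 := low _ _ _ s12
    have hR : 0 < ‖B0 - B2‖ := by linarith
    have hfin := arith (E := E) (c := c) (R := ‖B0 - B2‖) (a := ‖A0 - A2‖)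
      (b := ‖A0 - A1‖ + ‖A1 - A2‖) hE0 hE1 hc0 hc1 hEc hR (by nlinarith) (by nlinarith)
    have hσ0 : 0 ≤ ‖σ‖ := norm_nonneg σ
    calc (1 + c / 2) * ‖seg φ 0 n A0 - seg φ 0 n A2‖
        ≤ (1 + c / 2) * (‖σ‖ * ((1 + E) * ‖A0 - A2‖)) :=
          mul_le_mul_of_nonneg_left u02 (by linarith)
      _ = ‖σ‖ * ((1 + c / 2) * ((1 + E) * ‖A0 - A2‖)) := by ring
      _ ≤ ‖σ‖ * ((1 - E) * (‖A0 - A1‖ + ‖A1 - A2‖)) := mul_le_mul_of_nonneg_left hfin hσ0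
      _ = ‖σ‖ * ((1 - E) * ‖A0 - A1‖) + ‖σ‖ * ((1 - E) * ‖A1 - A2‖) := by ring
      _ ≤ _ := add_le_add l01 l12

end Pool.Agent.QL
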