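import Pool.Agent.QL.Stmts

/-!
# HOM: the limit of surjective maps is a homeomorphism
-/

open MeasureTheory Set Filter Topology
open scoped ENNReal

namespace Pool.Agent.QL

namespace HOM

/-- The limit of weakly quasisymmetric maps. -/
theorem limit_qs {f : ℕ → ℂ → ℂ} {f₀ : ℂ → ℂ} {H : ℝ}
    (hp : ∀ z, Tendsto (fun n => f n z) atTop (𝓝 (f₀ z))) (hq : ∀ n, WeakQS H (f n)) :
    WeakQS H f₀ := by
  intro x y z h
  refine le_of_tendsto_of_tendsto' (b := atTop) ((hp y).dist (hp x))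
    (((hp z).dist (hp x)).const_mul H) fun n => hq n x y z h

/-- Doubling of a pair of points with the same image. -/
theorem double {f₀ : ℂ → ℂ} {H : ℝ} (hq : WeakQS H f₀) {x z : ℂ} (h : f₀ x = f₀ z) :
    f₀ (2 * x - z) = f₀ z ∧ dist (2 * x - z) z = 2 * dist x z := by
  have h1 : dist (2 * x - z) x = dist z x := by
    rw [Complex.dist_eq, Complex.dist_eq, ← norm_neg]
    congr 1
    ring
  have h2 := hq x (2 * x - z) z h1.le
  rw [h, dist_self, mul_zero] at h2
  refine ⟨dist_le_zero.mp h2, ?_⟩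
  rw [Complex.dist_eq, Complex.dist_eq]
  have : 2 * x - z - z = 2 * (x - z) := by ring
  rw [this, norm_mul]
  simp

/-- The limit is injective. -/
theorem inj {f₀ : ℂ → ℂ} {C H : ℝ} (hb : ∀ z, ‖f₀ z - z‖ ≤ C) (hq : WeakQS H f₀) :
    Function.Injective f₀ := by
  intro x z h
  by_contra hxz
  have hd : 0 < dist x z := dist_pos.mpr hxz
  have key : ∀ n : ℕ, ∃ y, f₀ y = f₀ z ∧ dist y z = 2 ^ n * dist x z := by
    intro n
    induction n with
    | zero => exact ⟨x, h, by simp⟩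
    | succ n ih =>
      obtain ⟨y, hy, hyd⟩ := ih
      obtain ⟨h1, h2⟩ := double hq hy
      exact ⟨2 * y - z, h1, by rw [h2, hyd]; ring⟩
  have bound : ∀ y, f₀ y = f₀ z → dist y z ≤ 2 * C := by
    intro y hy
    have h1 := hb y
    have h2 := hb z
    have h3 : y - z = (f₀ z - z) - (f₀ y - y) := by rw [hy]; ring
    rw [Complex.dist_eq, h3]
    exact (norm_sub_le _ _).trans (by linarith)
  obtain ⟨n, hn⟩ := pow_unbounded_of_one_lt (2 * C / dist x z) (one_lt_two)
  obtain ⟨y, hy, hyd⟩ := key n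
  have h4 := bound y hy
  rw [hyd] at h4
  rw [div_lt_iff₀ hd] at hn
  linarith

/-- The limit is surjective. -/
theorem surj {f : ℕ → ℂ → ℂ} {f₀ : ℂ → ℂ} {C : ℝ} (hs : ∀ n, Function.Surjective (f n))
    (hb : ∀ n z, ‖f n z - z‖ ≤ C) (hu : TendstoUniformly f f₀ atTop) (hc : Continuous f₀) :
    Function.Surjective f₀ := by
  intro w
  choose z hz using fun n => hs n w
  have hmem : ∀ n, z n ∈ Metric.closedBall w C := by
    intro n
    rw [Metric.mem_closedBall, dist_comm, Complex.dist_eq, ← hz n]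
    exact hb n (z n)
  obtain ⟨a, -, φ, hφ, ha⟩ := (isCompact_closedBall w C).tendsto_subseq hmem
  refine ⟨a, ?_⟩
  have h1 : Tendsto (fun n => f₀ (z (φ n))) atTop (𝓝 (f₀ a)) := (hc.tendsto a).comp ha
  have h2 : Tendsto (fun n => f₀ (z (φ n))) atTop (𝓝 w) := by
    rw [Metric.tendsto_atTop]
    intro ε hε
    have h3 := Metric.tendstoUniformly_iff.mp hu ε hε
    obtain ⟨N, hN⟩ := eventually_atTop.mp (hφ.tendsto_atTop.eventually h3)
    refine ⟨N, fun n hn => ?_⟩
    have := hN n hn (z (φ n))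
    rwa [hz (φ n)] at this
  exact tendsto_nhds_unique h1 h2

/-- The limit is proper. -/
theorem proper {f₀ : ℂ → ℂ} {C : ℝ} (hb : ∀ z, ‖f₀ z - z‖ ≤ C) (hc : Continuous f₀) :
    IsClosedMap f₀ := by
  refine (isProperMap_iff_tendsto_cocompact.mpr ⟨hc, ?_⟩).isClosedMap
  rw [← Metric.cobounded_eq_cocompact, ← tendsto_norm_atTop_iff_cobounded]
  have h1 : Tendsto (fun z : ℂ => ‖z‖ - C) (Bornology.cobounded ℂ) atTop :=
    tendsto_atTop_add_const_right _ (-C) tendsto_norm_cobounded_atTop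
  refine tendsto_atTop_mono (fun z => ?_) h1
  have h2 := hb z
  have h3 : z = f₀ z - (f₀ z - z) := by ring
  have h4 : ‖z‖ ≤ ‖f₀ z‖ + ‖f₀ z - z‖ := by
    conv_lhs => rw [h3]
    exact norm_sub_le _ _
  linarith

end HOM

theorem HOM_thm : Stmt_HOM := by
  intro f f₀ C H hs hb hu hc hq
  have hp : ∀ z, Tendsto (fun n => f n z) atTop (𝓝 (f₀ z)) := fun z => hu.tendsto_at z
  have hq0 : WeakQS H f₀ := HOM.limit_qs hp hq
  have hb0 : ∀ z, ‖f₀ z - z‖ ≤ C := fun z =>
    le_of_tendsto' ((hp z).sub_const z).norm fun n => hb n z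
  let e : ℂ ≃ ℂ := Equiv.ofBijective f₀ ⟨HOM.inj hb0 hq0, HOM.surj hs hb hu hc⟩
  let g : ℂ ≃ₜ ℂ := e.toHomeomorphOfContinuousClosed hc (HOM.proper hb0 hc)
  have hg : ∀ z, g z = f₀ z := fun z => rfl
  exact ⟨g, hg, fun x y z h => by simpa only [hg] using hq0 x y z h⟩

end Pool.Agent.QL
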