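import Pool.Agent.QL.StmtsU
import Pool.Agent.QL.BW
import Pool.Agent.QL.DD

/-!
# KIN: the velocity of a curve in terms of the velocity of its image
-/

open MeasureTheory Set Filter Topology
open scoped ENNReal

namespace Pool.Agent.QL

namespace KIN

theorem der_re {f : ℝ → ℂ} {f' : ℂ} {t : ℝ} (h : HasDerivAt f f' t) :
    HasDerivAt (fun s => (f s).re) f'.re t :=
  (Complex.reCLM.hasFDerivAt (x := f t)).comp_hasDerivAt t h

theorem der_im {f : ℝ → ℂ} {f' : ℂ} {t : ℝ} (h : HasDerivAt f f' t) :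
    HasDerivAt (fun s => (f s).im) f'.im t :=
  (Complex.imCLM.hasFDerivAt (x := f t)).comp_hasDerivAt t h

/-- Comparison of derivatives. -/
theorem abs_deriv_le {u v : ℝ → ℝ} {u' v' c t : ℝ} (hu : HasDerivAt u u' t)
    (hv : HasDerivAt v v' t) (h : ∀ s, |u s - u t| ≤ c * |v s - v t|) : |u'| ≤ c * |v'| := by
  rw [hasDerivAt_iff_tendsto_slope] at hu hv
  refine le_of_tendsto_of_tendsto hu.abs (hv.abs.const_mul c) ?_
  refine Eventually.of_forall fun s => ?_
  simp only [slope_def_field, abs_div]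
  rw [← mul_div_assoc]
  exact div_le_div_of_nonneg_right (h s) (abs_nonneg _)

/-- A number between `0` and `m` up to `r` is `θ m` up to `r`. -/
theorem exists_theta {D m r : ℝ} (hr : 0 ≤ r) (h1 : D ≤ max 0 m + r) (h2 : min 0 m - r ≤ D) :
    ∃ θ ∈ Icc (0 : ℝ) 1, |D - θ * m| ≤ r := by
  rcases le_total 0 m with hm | hm
  · rw [max_eq_right hm] at h1
    rw [min_eq_left hm] at h2
    rcases le_total D 0 with hD | hD
    · refine ⟨0, ⟨le_rfl, zero_le_one⟩, ?_⟩
      rw [abs_le]; constructor <;> linarith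
    · rcases le_total m D with hD2 | hD2
      · refine ⟨1, ⟨zero_le_one, le_rfl⟩, ?_⟩
        rw [abs_le]; constructor <;> linarith
      · rcases hm.eq_or_lt with h0 | h0
        · refine ⟨0, ⟨le_rfl, zero_le_one⟩, ?_⟩
          rw [abs_le]; constructor <;> linarith
        · refine ⟨D / m, ⟨by positivity, (div_le_one h0).2 hD2⟩, ?_⟩
          rw [div_mul_cancel₀ _ h0.ne']
          rw [abs_le]; constructor <;> linarith
  · rw [max_eq_left hm] at h1
    rw [min_eq_right hm] at h2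
    rcases le_total 0 D with hD | hD
    · refine ⟨0, ⟨le_rfl, zero_le_one⟩, ?_⟩
      rw [abs_le]; constructor <;> linarith
    · rcases le_total D m with hD2 | hD2
      · refine ⟨1, ⟨zero_le_one, le_rfl⟩, ?_⟩
        rw [abs_le]; constructor <;> linarith
      · rcases hm.eq_or_lt with h0 | h0
        · refine ⟨0, ⟨le_rfl, zero_le_one⟩, ?_⟩
          rw [abs_le]; constructor <;> linarith
        · refine ⟨D / m, ⟨div_nonneg_of_nonpos hD hm, ?_⟩, ?_⟩
          · rw [div_le_one_of_neg h0]; exact hD2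
          · rw [div_mul_cancel₀ _ h0.ne]
            rw [abs_le]; constructor <;> linarith

/-- Converse of the last lemma. -/
theorem of_theta {D m r θ : ℝ} (hθ : θ ∈ Icc (0 : ℝ) 1) (h : |D - θ * m| ≤ r) :
    D ≤ max 0 m + r ∧ min 0 m - r ≤ D := by
  obtain ⟨h0, h1⟩ := hθ
  rw [abs_le] at h
  rcases le_total 0 m with hm | hm
  · rw [max_eq_right hm, min_eq_left hm]
    have : 0 ≤ θ * m := mul_nonneg h0 hm
    have : θ * m ≤ m := mul_le_of_le_one_left hm h1
    constructor <;> linarith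
  · rw [max_eq_left hm, min_eq_right hm]
    have : θ * m ≤ 0 := mul_nonpos_of_nonneg_of_nonpos h0 hm
    have : m ≤ θ * m := by nlinarith
    constructor <;> linarith

/-- Increments of the vertical displacement where the slope of the wave is almost constant. -/
theorem bw_inc (hFG : Stmt_FG) {a η : ℝ} {V V' : Set ℝ} (ha : 0 < a)
    (hη : 0 < η) (hη1 : η ≤ 1 / 100) (hA : Adm η V V') (y g ε : ℝ) {x x' : ℝ} (hx : x' ≤ x)
    (hε : 0 ≤ ε) (hg : ∀ r ∈ Ioc x' x, |G a (η * dd V r) y - g| ≤ ε) :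
    ∃ θ ∈ Icc (0 : ℝ) 1,
      |Bw a η V V' x y - Bw a η V V' x' y + g * θ * (x - x')| ≤ ε * (x - x') := by
  have hi := (BW.g_int hFG DD_thm ha hη hη1 hA y).mono_set
    (inter_subset_left : V' ∩ Ioc x' x ⊆ V')
  have hvt : volume (V' ∩ Ioc x' x) < ⊤ :=
    lt_of_le_of_lt (measure_mono inter_subset_left) (BW.vol_lt hA)
  have hci : IntegrableOn (fun _ : ℝ => g) (V' ∩ Ioc x' x) := integrableOn_const (hs := hvt.ne)
  set v : ℝ := volume.real (V' ∩ Ioc x' x) with hv
  have hv0 : 0 ≤ v := measureReal_nonneg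
  have hv1 : v ≤ x - x' := by
    have h1 : volume.real (Ioc x' x) = x - x' := by
      rw [measureReal_def, Real.volume_Ioc, ENNReal.toReal_ofReal (by linarith)]
    rw [← h1]
    refine measureReal_mono inter_subset_right ?_
    rw [Real.volume_Ioc]
    exact ENNReal.ofReal_ne_top
  have h1 : Bw a η V V' x y - Bw a η V V' x' y + g * v
      = - ∫ t in V' ∩ Ioc x' x, (G a (η * dd V t) y - g) := by
    rw [BW.diff hFG DD_thm ha hη hη1 hA y hx, integral_sub hi hci, setIntegral_const, smul_eq_mul]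
    ring
  have h2 : |Bw a η V V' x y - Bw a η V V' x' y + g * v| ≤ ε * v := by
    rw [h1, abs_neg, ← Real.norm_eq_abs]
    exact norm_setIntegral_le_of_norm_le_const hvt
      (fun t ht => by rw [Real.norm_eq_abs]; exact hg t ht.2)
  rcases hx.eq_or_lt with h0 | h0
  · refine ⟨0, ⟨le_rfl, zero_le_one⟩, ?_⟩
    rw [h0]; simp
  · have hd : 0 < x - x' := by linarith
    refine ⟨v / (x - x'), ⟨by positivity, (div_le_one hd).2 hv1⟩, ?_⟩
    have : g * (v / (x - x')) * (x - x') = g * v := by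
      field_simp
    rw [this]
    exact h2.trans (mul_le_mul_of_nonneg_left hv1 hε)

/-- The slope of the wave is locally Lipschitz along the line. -/
theorem g_near (hFG : Stmt_FG) {a η : ℝ} {V V' : Set ℝ} (ha : 0 < a)
    (hη : 0 < η) (hη1 : η ≤ 1 / 100) (hA : Adm η V V') (y : ℝ) {x₀ r : ℝ} (hx : x₀ ∈ V)
    (hr : |r - x₀| ≤ dd V x₀ / 2) :
    |G a (η * dd V r) y - G a (η * dd V x₀) y| ≤ 8 * a / dd V x₀ * |r - x₀| := by
  obtain ⟨-, h2, h3, -⟩ := DD_thm η V V' hη hη1 hA
  obtain ⟨-, -, -, -, -, -, h7, -⟩ := hFG a ha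
  have hd : 0 < dd V x₀ := (h3 x₀).2 hx
  have h4 := h2 r x₀
  have h5 : dd V x₀ / 2 ≤ dd V r := by
    have := (abs_le.1 (h4.trans hr)).1
    linarith
  have h6 := h7 (η * (dd V x₀ / 2)) (η * dd V r) (η * dd V x₀) y (by positivity)
    (mul_le_mul_of_nonneg_left h5 hη.le) (mul_le_mul_of_nonneg_left (by linarith) hη.le)
  refine h6.trans ?_
  rw [← mul_sub, abs_mul, abs_of_pos hη]
  have h8 : 4 * a / (η * (dd V x₀ / 2)) * (η * |dd V r - dd V x₀|) =
      8 * a / dd V x₀ * |dd V r - dd V x₀| := by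
    field_simp
    ring
  rw [h8]
  exact mul_le_mul_of_nonneg_left h4 (by positivity)

theorem bw_near (hFG : Stmt_FG) {a η : ℝ} {V V' : Set ℝ} (ha : 0 < a)
    (hη : 0 < η) (hη1 : η ≤ 1 / 100) (hA : Adm η V V') (y : ℝ) {x₀ : ℝ} (hx : x₀ ∈ V) {ε : ℝ}
    (hε : 0 < ε) : ∀ᶠ x in 𝓝 x₀, ∃ θ ∈ Icc (0 : ℝ) 1,
      |Bw a η V V' x y - Bw a η V V' x₀ y - θ * (-G a (η * dd V x₀) y * (x - x₀))|
        ≤ ε * |x - x₀| := by
  obtain ⟨-, -, h3, -⟩ := DD_thm η V V' hη hη1 hA
  have hd : 0 < dd V x₀ := (h3 x₀).2 hx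
  have hδ : 0 < min (dd V x₀ / 2) (ε * dd V x₀ / (8 * a)) := by positivity
  have hball : ∀ᶠ x in 𝓝 x₀, |x - x₀| < min (dd V x₀ / 2) (ε * dd V x₀ / (8 * a)) := by
    have := Metric.ball_mem_nhds x₀ hδ
    filter_upwards [this] with x hx
    simpa [Real.dist_eq] using hx
  filter_upwards [hball] with x hxb
  have hgr : ∀ r, |r - x₀| ≤ |x - x₀| → |G a (η * dd V r) y - G a (η * dd V x₀) y| ≤ ε := by
    intro r hr
    have hr2 := lt_of_le_of_lt hr hxb
    have h4 := g_near hFG ha hη hη1 hA y hx (r := r) (hr2.le.trans (min_le_left _ _))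
    refine h4.trans ?_
    have h5 : |r - x₀| ≤ ε * dd V x₀ / (8 * a) := hr2.le.trans (min_le_right _ _)
    calc 8 * a / dd V x₀ * |r - x₀| ≤ 8 * a / dd V x₀ * (ε * dd V x₀ / (8 * a)) :=
          mul_le_mul_of_nonneg_left h5 (by positivity)
      _ = ε := by field_simp
  rcases le_total x₀ x with h | h
  · obtain ⟨θ, hθ, hh⟩ := bw_inc hFG ha hη hη1 hA y (G a (η * dd V x₀) y) ε h hε.le
      (fun r hr => hgr r (by
        rw [abs_of_nonneg (by linarith [hr.1]), abs_of_nonneg (by linarith)]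
        linarith [hr.2]))
    refine ⟨θ, hθ, ?_⟩
    rw [abs_of_nonneg (by linarith : (0 : ℝ) ≤ x - x₀)]
    refine le_of_eq_of_le ?_ hh
    congr 1
    ring
  · obtain ⟨θ, hθ, hh⟩ := bw_inc hFG ha hη hη1 hA y (G a (η * dd V x₀) y) ε h hε.le
      (fun r hr => hgr r (by
        rw [abs_of_nonpos (by linarith [hr.2]), abs_of_nonpos (by linarith)]
        linarith [hr.1]))
    refine ⟨θ, hθ, ?_⟩
    rw [abs_of_nonpos (by linarith : x - x₀ ≤ 0)]
    refine le_of_eq_of_le ?_ (hh.trans (le_of_eq (by ring)))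
    rw [← abs_neg]
    congr 1
    ring

end KIN

open KIN in
theorem KIN_thm (hFG : Stmt_FG) (hBW : Stmt_BW) : Stmt_KIN := by
  intro a η V V' ξ t q b ha ha1 hη hη1 hA hV hξ hφ
  obtain ⟨-, hb2, hb3, -⟩ := hBW a η V V' ha hη hη1 hA
  obtain ⟨-, -, hF3, hF4, hF5, -, -, -⟩ := hFG a ha
  obtain ⟨-, hdl, hd3, -⟩ := DD_thm η V V' hη hη1 hA
  set x₀ := (ξ t).re with hx₀
  set y₀ := (ξ t).im with hy₀
  set g := G a (η * dd V x₀) y₀ with hg
  -- real and imaginary parts
  have hX : HasDerivAt (fun s => (ξ s).re) q.re t := by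
    exact der_re hξ
  have hY : HasDerivAt (fun s => (ξ s).im) q.im t := by
    exact der_im hξ
  have hB1 : HasDerivAt (fun s => (phi a η V V' (ξ s)).re) b.re t := by
    exact der_re hφ
  have hB2 : HasDerivAt (fun s => (phi a η V V' (ξ s)).im) b.im t := by
    exact der_im hφ
  -- the horizontal part
  have hA1 : HasDerivAt (fun s => F a (η * dd V x₀) (ξ s).im) (g * q.im) t :=
    HasDerivAt.comp (h₂ := F a (η * dd V x₀)) t (hF4 (η * dd V x₀) y₀) hY
  have hA2 : HasDerivAt (fun s => F a (η * dd V (ξ s).re) (ξ s).im - F a (η * dd V x₀) (ξ s).im)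
      (b.re - q.re - g * q.im) t := by
    refine ((hB1.sub hX).sub hA1).congr_of_eventuallyEq (Eventually.of_forall fun s => ?_)
    simp only [phi, Aw, Pi.sub_apply]
    ring
  have h1 : |b.re - q.re - g * q.im| ≤ a * η * |q.re| := by
    refine abs_deriv_le hA2 hX fun s => ?_
    have e1 : F a (η * dd V (ξ t).re) (ξ t).im - F a (η * dd V x₀) (ξ t).im = 0 := sub_self _
    simp only [e1, sub_zero]
    refine (hF3 _ _ _).trans ?_
    rw [← mul_sub, abs_mul, abs_of_pos hη, ← mul_assoc]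
    exact mul_le_mul_of_nonneg_left (hdl _ _) (by positivity)
  -- the vertical part
  have hC : HasDerivAt (fun s => Bw a η V V' (ξ s).re (ξ s).im) (b.im - q.im) t := by
    refine (hB2.sub hY).congr_of_eventuallyEq (Eventually.of_forall fun s => ?_)
    simp only [phi, Pi.sub_apply]
    ring
  have hsX := hasDerivAt_iff_tendsto_slope.1 hX
  have hsY := hasDerivAt_iff_tendsto_slope.1 hY
  have hsC := hasDerivAt_iff_tendsto_slope.1 hC
  have key : ∀ ε : ℝ, 0 < ε → b.im - q.im ≤ max 0 (-g * q.re) + (ε * |q.re| + 13 * a * η * |q.im|) ∧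
      min 0 (-g * q.re) - (ε * |q.re| + 13 * a * η * |q.im|) ≤ b.im - q.im := by
    intro ε hε
    have hev : ∀ᶠ s in 𝓝[≠] t, ∃ θ ∈ Icc (0 : ℝ) 1,
        |Bw a η V V' (ξ s).re y₀ - Bw a η V V' x₀ y₀ - θ * (-g * ((ξ s).re - x₀))|
          ≤ ε * |(ξ s).re - x₀| := by
      have h2 := bw_near hFG ha hη hη1 hA y₀ hV hε
      exact (hX.continuousAt.tendsto.mono_left nhdsWithin_le_nhds).eventually h2
    have hev2 : ∀ᶠ s in 𝓝[≠] t,
        slope (fun s => Bw a η V V' (ξ s).re (ξ s).im) t s ≤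
          max 0 (-g * slope (fun s => (ξ s).re) t s) + (ε * |slope (fun s => (ξ s).re) t s| +
            13 * a * η * |slope (fun s => (ξ s).im) t s|) ∧
        min 0 (-g * slope (fun s => (ξ s).re) t s) - (ε * |slope (fun s => (ξ s).re) t s| +
            13 * a * η * |slope (fun s => (ξ s).im) t s|) ≤
          slope (fun s => Bw a η V V' (ξ s).re (ξ s).im) t s := by
      filter_upwards [hev, self_mem_nhdsWithin] with s hs hst
      obtain ⟨θ, hθ, hh⟩ := hs
      have hst' : s - t ≠ 0 := sub_ne_zero.2 hst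
      refine of_theta hθ ?_
      simp only [slope_def_field]
      have h3 := hb3 (ξ s).re (ξ s).im y₀
      have h4 : |Bw a η V V' (ξ s).re (ξ s).im - Bw a η V V' x₀ y₀
          - θ * (-g * ((ξ s).re - x₀))| ≤ ε * |(ξ s).re - x₀| + 13 * a * η * |(ξ s).im - y₀| := by
        have h5 := abs_add_le (Bw a η V V' (ξ s).re y₀ - Bw a η V V' x₀ y₀
          - θ * (-g * ((ξ s).re - x₀)))
          (Bw a η V V' (ξ s).re (ξ s).im - Bw a η V V' (ξ s).re y₀)
        have h6 : Bw a η V V' (ξ s).re y₀ - Bw a η V V' x₀ y₀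
          - θ * (-g * ((ξ s).re - x₀)) +
          (Bw a η V V' (ξ s).re (ξ s).im - Bw a η V V' (ξ s).re y₀) =
          Bw a η V V' (ξ s).re (ξ s).im - Bw a η V V' x₀ y₀
          - θ * (-g * ((ξ s).re - x₀)) := by ring
        rw [h6] at h5
        linarith
      have h7 : (Bw a η V V' (ξ s).re (ξ s).im - Bw a η V V' (ξ t).re (ξ t).im) / (s - t) -
          θ * (-g * (((ξ s).re - (ξ t).re) / (s - t))) =
          (Bw a η V V' (ξ s).re (ξ s).im - Bw a η V V' x₀ y₀
          - θ * (-g * ((ξ s).re - x₀))) / (s - t) := by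
        rw [hx₀, hy₀]; ring
      rw [h7, abs_div, abs_div, abs_div]
      rw [← mul_div_assoc, ← mul_div_assoc, ← add_div]
      exact div_le_div_of_nonneg_right h4 (abs_nonneg _)
    have hr : Tendsto (fun s => ε * |slope (fun s => (ξ s).re) t s| +
            13 * a * η * |slope (fun s => (ξ s).im) t s|) (𝓝[≠] t)
          (𝓝 (ε * |q.re| + 13 * a * η * |q.im|)) :=
      (hsX.abs.const_mul ε).add (hsY.abs.const_mul (13 * a * η))
    have hm : Tendsto (fun s => -g * slope (fun s => (ξ s).re) t s) (𝓝[≠] t) (𝓝 (-g * q.re)) :=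
      hsX.const_mul (-g)
    constructor
    · refine le_of_tendsto_of_tendsto hsC ((tendsto_const_nhds.max hm).add hr) ?_
      filter_upwards [hev2] with s hs using hs.1
    · refine le_of_tendsto_of_tendsto ((tendsto_const_nhds.min hm).sub hr) hsC ?_
      filter_upwards [hev2] with s hs using hs.2
  have key2 : b.im - q.im ≤ max 0 (-g * q.re) + 13 * a * η * |q.im| ∧
      min 0 (-g * q.re) - 13 * a * η * |q.im| ≤ b.im - q.im := by
    have hlim : Tendsto (fun ε : ℝ => ε * |q.re| + 13 * a * η * |q.im|) (𝓝[>] 0)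
        (𝓝 (0 * |q.re| + 13 * a * η * |q.im|)) := by
      have : Continuous (fun ε : ℝ => ε * |q.re| + 13 * a * η * |q.im|) := by fun_prop
      exact (this.tendsto 0).mono_left nhdsWithin_le_nhds
    rw [zero_mul, zero_add] at hlim
    constructor
    · refine ge_of_tendsto (hlim.const_add (max 0 (-g * q.re))) ?_
      filter_upwards [self_mem_nhdsWithin] with ε hε using (key ε hε).1
    · refine le_of_tendsto (hlim.const_sub (min 0 (-g * q.re))) ?_
      filter_upwards [self_mem_nhdsWithin] with ε hε using (key ε hε).2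
  obtain ⟨θ, hθ, h2⟩ := exists_theta (by positivity) key2.1 key2.2
  have hga : |g| ≤ a := hF5 _ _
  refine ⟨θ, hθ, ?_, ?_⟩
  · -- `X (1 + θ g ^ 2) = b₁ - g b₂ + g O₂ + O₁`
    have e : q.re * (1 + θ * g ^ 2) - (b.re - g * b.im) =
        -(b.re - q.re - g * q.im) + g * (b.im - q.im - θ * (-g * q.re)) := by ring
    rw [e]
    have h3 : |g * (b.im - q.im - θ * (-g * q.re))| ≤ a * (13 * a * η * |q.im|) := by
      rw [abs_mul]
      exact mul_le_mul hga h2 (abs_nonneg _) ha.le
    have h4 := abs_add_le (-(b.re - q.re - g * q.im)) (g * (b.im - q.im - θ * (-g * q.re)))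
    rw [abs_neg] at h4
    have h5 : a * (13 * a * η * |q.im|) = 13 * a ^ 2 * η * |q.im| := by ring
    linarith
  · have e : q.im - b.im = -(b.im - q.im - θ * (-g * q.re)) + θ * g * q.re := by ring
    rw [e]
    have h4 := abs_add_le (-(b.im - q.im - θ * (-g * q.re))) (θ * g * q.re)
    rw [abs_neg] at h4
    have h5 : |θ * g * q.re| ≤ a * |q.re| := by
      rw [abs_mul, abs_mul, abs_of_nonneg hθ.1]
      refine mul_le_mul_of_nonneg_right ?_ (abs_nonneg _)
      have := mul_le_mul hθ.2 hga (abs_nonneg _) zero_le_one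
      linarith
    linarith

end Pool.Agent.QL
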