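import Pool.Agent.QL.StmtsU

/-!
# LEB: Lebesgue points
-/

open MeasureTheory Set Filter Topology
open scoped ENNReal NNReal

namespace Pool.Agent.QL

theorem LEB_thm : Stmt_LEB := by
  intro C γ hγ T hT hnot
  have h1 := Besicovitch.ae_tendsto_measure_inter_div_of_measurableSet (volume : Measure ℝ)
    hT.compl
  have hmeas : Measurable (deriv γ) := measurable_deriv γ
  have hloc : LocallyIntegrable (deriv γ) volume := by
    refine (locallyIntegrable_const (C : ℝ)).mono hmeas.aestronglyMeasurable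
      (ae_of_all _ fun x => ?_)
    rw [Real.norm_eq_abs, abs_of_nonneg (NNReal.coe_nonneg C)]
    exact norm_deriv_le_of_lipschitz hγ
  have h2 := (Besicovitch.vitaliFamily (volume : Measure ℝ)).ae_tendsto_average_norm_sub hloc
  have h3 := hγ.ae_differentiableAt_real
  have h4 : ∃ᵐ t, t ∈ T ∧ deriv γ t ≠ 0 := by
    intro h
    apply hnot
    filter_upwards [h] with t ht htT
    by_contra h0
    exact ht ⟨htT, h0⟩
  obtain ⟨t₀, ⟨ht₀, hv⟩, ht1, ht2, ht3⟩ := (h4.and_eventually (h1.and (h2.and h3))).exists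
  refine ⟨t₀, ht₀, deriv γ t₀, hv, fun ρ hρ => ?_⟩
  generalize hvdef : deriv γ t₀ = v at *
  -- density
  have hd : ∀ᶠ h in 𝓝[>] (0 : ℝ), (volume (Icc (t₀ - h) (t₀ + h) \ T)).toReal ≤ ρ * h := by
    rw [indicator_of_notMem (by simpa using ht₀)] at ht1
    have hpos : (0 : ℝ≥0∞) < ENNReal.ofReal (ρ / 2) := ENNReal.ofReal_pos.2 (half_pos hρ)
    have hev := (tendsto_order.1 ht1).2 _ hpos
    filter_upwards [hev, self_mem_nhdsWithin] with h hh hh0
    have hh0' : 0 < h := hh0
    rw [Real.closedBall_eq_Icc, Real.volume_Icc] at hh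
    have e1 : t₀ + h - (t₀ - h) = 2 * h := by ring
    rw [e1] at hh
    have h5 : volume (Tᶜ ∩ Icc (t₀ - h) (t₀ + h)) ≤ ENNReal.ofReal (ρ * h) := by
      have h6 := (ENNReal.div_le_iff (ENNReal.ofReal_pos.2 (by positivity)).ne'
        ENNReal.ofReal_ne_top).1 hh.le
      rw [← ENNReal.ofReal_mul (by positivity)] at h6
      refine h6.trans (le_of_eq ?_)
      congr 1
      ring
    have e2 : Icc (t₀ - h) (t₀ + h) \ T = Tᶜ ∩ Icc (t₀ - h) (t₀ + h) := by
      rw [sdiff_eq, inter_comm]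
    rw [e2]
    exact ENNReal.toReal_le_of_le_ofReal (by positivity) h5
  -- Lebesgue point
  have hl : ∀ᶠ h in 𝓝[>] (0 : ℝ), (volume {t | t ∈ Icc (t₀ - h) (t₀ + h) ∧
      ¬ (DifferentiableAt ℝ γ t ∧ ‖deriv γ t - v‖ ≤ ρ)}).toReal ≤ ρ * h := by
    have ht := ht2.comp (Besicovitch.tendsto_filterAt (volume : Measure ℝ) t₀)
    have hpos : (0 : ℝ) < ρ ^ 2 / 2 := by positivity
    have hev := (tendsto_order.1 ht).2 _ hpos
    filter_upwards [hev, self_mem_nhdsWithin] with h hh hh0
    have hh0' : 0 < h := hh0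
    simp only [Function.comp_apply] at hh
    rw [Real.closedBall_eq_Icc, setAverage_eq, smul_eq_mul] at hh
    have hvol : (volume : Measure ℝ).real (Icc (t₀ - h) (t₀ + h)) = 2 * h := by
      rw [Measure.real, Real.volume_Icc, ENNReal.toReal_ofReal (by linarith)]
      ring
    rw [hvol, inv_mul_lt_iff₀ (by positivity)] at hh
    have hint : IntegrableOn (fun y => ‖deriv γ y - v‖) (Icc (t₀ - h) (t₀ + h)) volume := by
      have h7 : IntegrableOn (deriv γ) (Icc (t₀ - h) (t₀ + h)) volume :=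
        hloc.integrableOn_isCompact isCompact_Icc
      exact (h7.sub (integrableOn_const (by simp [Real.volume_Icc]))).norm
    have hch := mul_meas_ge_le_integral_of_nonneg
      (ae_of_all _ fun y => norm_nonneg (deriv γ y - v)) hint ρ
    have hle : (volume {t | t ∈ Icc (t₀ - h) (t₀ + h) ∧
        ¬ (DifferentiableAt ℝ γ t ∧ ‖deriv γ t - v‖ ≤ ρ)}) ≤
        (volume.restrict (Icc (t₀ - h) (t₀ + h))) {x | ρ ≤ ‖deriv γ x - v‖} := by
      rw [Measure.restrict_apply' measurableSet_Icc]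
      have hnull : volume {t | ¬ DifferentiableAt ℝ γ t} = 0 := h3
      calc (volume {t | t ∈ Icc (t₀ - h) (t₀ + h) ∧
            ¬ (DifferentiableAt ℝ γ t ∧ ‖deriv γ t - v‖ ≤ ρ)})
          ≤ volume (({x | ρ ≤ ‖deriv γ x - v‖} ∩ Icc (t₀ - h) (t₀ + h)) ∪
              {t | ¬ DifferentiableAt ℝ γ t}) := by
            refine measure_mono ?_
            rintro t ⟨ht, ht'⟩
            by_cases hdt : DifferentiableAt ℝ γ t
            · left
              refine ⟨?_, ht⟩
              by_contra hc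
              exact ht' ⟨hdt, (not_le.1 hc).le⟩
            · exact Or.inr hdt
        _ ≤ _ := by
            refine (measure_union_le _ _).trans ?_
            rw [hnull, add_zero]
    have hfin : (volume.restrict (Icc (t₀ - h) (t₀ + h))) {x | ρ ≤ ‖deriv γ x - v‖} ≠ ⊤ := by
      refine ne_top_of_le_ne_top ?_ (measure_mono (subset_univ _))
      rw [Measure.restrict_apply_univ, Real.volume_Icc]
      exact ENNReal.ofReal_ne_top
    have hre := ENNReal.toReal_mono hfin hle
    refine hre.trans ?_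
    have hch2 : ρ * ((volume.restrict (Icc (t₀ - h) (t₀ + h)))
        {x | ρ ≤ ‖deriv γ x - v‖}).toReal ≤ ρ * (ρ * h) := by
      refine hch.trans ?_
      have : 2 * h * (ρ ^ 2 / 2) = ρ * (ρ * h) := by ring
      rw [← this]
      exact hh.le
    exact le_of_mul_le_mul_left hch2 hρ
  -- differentiability
  have hder : ∀ᶠ h in 𝓝[>] (0 : ℝ), ∀ t ∈ Icc (t₀ - h) (t₀ + h),
      ‖γ t - γ t₀ - (t - t₀) • v‖ ≤ ρ * h := by
    have hda : HasDerivAt γ v t₀ := by
      rw [← hvdef]
      exact ht3.hasDerivAt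
    have hlo := (hasDerivAt_iff_isLittleO.1 hda).def hρ
    obtain ⟨δ, hδ, hδ2⟩ := Metric.eventually_nhds_iff.1 hlo
    filter_upwards [self_mem_nhdsWithin, Ioo_mem_nhdsGT hδ] with h hh0 hh1 t ht
    have hab : |t - t₀| ≤ h := by
      rw [abs_le]
      constructor <;> linarith [ht.1, ht.2]
    have h8 := hδ2 (y := t) (by rw [Real.dist_eq]; exact lt_of_le_of_lt hab hh1.2)
    refine h8.trans ?_
    rw [Real.norm_eq_abs]
    exact mul_le_mul_of_nonneg_left hab hρ.le
  obtain ⟨u, hu, hu2⟩ := mem_nhdsGT_iff_exists_Ioo_subset.1 (hd.and (hl.and hder))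
  have hu' : 0 < u := hu
  exact ⟨u / 2, half_pos hu', fun h hh0 hh1 => hu2 ⟨hh0, by linarith⟩⟩

end Pool.Agent.QL
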