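import Pool.Agent.QL.Stmts

/-!
# Module LIM: the limits
-/

open MeasureTheory Set Filter Topology
open scoped ENNReal

namespace Pool.Agent.QL

namespace LIM

variable {κ E : ℝ} {d : ℕ → ℝ → ℝ} {φ : ℕ → ℂ → ℂ}

theorem lip (hT : Tower κ E d φ) (n : ℕ) (q q' : ℂ) :
    ‖φ n q - φ n q'‖ ≤ (1 + κ) * ‖q - q'‖ := by
  have h1 := hT.p3 n q q'
  calc ‖φ n q - φ n q'‖ = ‖(φ n q - φ n q' - (q - q')) + (q - q')‖ := by congr 1; ring
    _ ≤ ‖φ n q - φ n q' - (q - q')‖ + ‖q - q'‖ := norm_add_le _ _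
    _ ≤ (1 + κ) * ‖q - q'‖ := by linarith

theorem surj (hT : Tower κ E d φ) (n : ℕ) : Function.Surjective (φ n) := by
  intro w
  have hk0 := hT.κ0
  have hk1 := hT.κ1
  have hc : ContractingWith (Real.toNNReal κ) (fun z : ℂ => w - (φ n z - z)) := by
    refine ⟨?_, ?_⟩
    · rw [← NNReal.coe_lt_coe, Real.coe_toNNReal _ hk0]
      push_cast
      linarith
    · refine LipschitzWith.of_dist_le_mul fun q q' => ?_
      rw [Real.coe_toNNReal _ hk0, dist_eq_norm, dist_eq_norm]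
      have h1 := hT.p3 n q q'
      calc ‖w - (φ n q - q) - (w - (φ n q' - q'))‖ = ‖-(φ n q - φ n q' - (q - q'))‖ := by
            congr 1; ring
        _ = ‖φ n q - φ n q' - (q - q')‖ := norm_neg _
        _ ≤ κ * ‖q - q'‖ := h1
  refine ⟨hc.fixedPoint, ?_⟩
  have h1 : w - (φ n hc.fixedPoint - hc.fixedPoint) = hc.fixedPoint := hc.fixedPoint_isFixedPt
  linear_combination -h1

theorem lipSeg (hT : Tower κ E d φ) (m n : ℕ) (q q' : ℂ) :
    ‖seg φ m n q - seg φ m n q'‖ ≤ (1 + κ) ^ n * ‖q - q'‖ := by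
  induction n generalizing q q' with
  | zero => simp [seg]
  | succ n ih =>
    change ‖seg φ m n (φ (m + n) q) - seg φ m n (φ (m + n) q')‖ ≤ _
    have h0 : (0 : ℝ) ≤ (1 + κ) ^ n := pow_nonneg (by linarith [hT.κ0]) n
    calc ‖seg φ m n (φ (m + n) q) - seg φ m n (φ (m + n) q')‖
        ≤ (1 + κ) ^ n * ‖φ (m + n) q - φ (m + n) q'‖ := ih _ _
      _ ≤ (1 + κ) ^ n * ((1 + κ) * ‖q - q'‖) := mul_le_mul_of_nonneg_left (lip hT _ _ _) h0
      _ = (1 + κ) ^ (n + 1) * ‖q - q'‖ := by ring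

theorem ee_nonneg (hE : 0 < E) (n : ℕ) : 0 ≤ ee E n := by
  unfold ee
  positivity

theorem step (hT : Tower κ E d φ) (m n : ℕ) (z : ℂ) :
    dist (seg φ m n z) (seg φ m (n + 1) z) ≤ ee E m * (11 / 40) ^ n := by
  have hk0 := hT.κ0
  have hk1 := hT.κ1
  have h1 : (1 + κ) ^ n ≤ (11 / 10 : ℝ) ^ n := pow_le_pow_left₀ (by linarith) (by linarith) n
  rw [dist_comm, dist_eq_norm]
  change ‖seg φ m n (φ (m + n) z) - seg φ m n z‖ ≤ _
  calc ‖seg φ m n (φ (m + n) z) - seg φ m n z‖ ≤ (1 + κ) ^ n * ‖φ (m + n) z - z‖ :=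
        lipSeg hT m n _ _
    _ ≤ (11 / 10 : ℝ) ^ n * ee E (m + n) :=
        mul_le_mul h1 (hT.p8 _ _) (norm_nonneg _) (by positivity)
    _ = ee E m * (11 / 40) ^ n := by
        unfold ee
        have e1 : (4 : ℝ) ^ (m + n + 1) = 4 ^ (m + 1) * 4 ^ n := by ring
        have e2 : (11 / 40 : ℝ) ^ n = (11 / 10) ^ n / 4 ^ n := by
          rw [← div_pow]
          norm_num
        rw [e1, e2]
        field_simp

theorem contSeg (hT : Tower κ E d φ) (m n : ℕ) : Continuous (seg φ m n) := by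
  have h : LipschitzWith (Real.toNNReal ((1 + κ) ^ n)) (seg φ m n) := by
    refine LipschitzWith.of_dist_le_mul fun q q' => ?_
    rw [Real.coe_toNNReal _ (pow_nonneg (by linarith [hT.κ0]) n), dist_eq_norm, dist_eq_norm]
    exact lipSeg hT m n q q'
  exact h.continuous

theorem seg_add (φ : ℕ → ℂ → ℂ) (m n k : ℕ) (z : ℂ) :
    seg φ m (n + k) z = seg φ m n (seg φ (m + n) k z) := by
  induction k generalizing z with
  | zero => rfl
  | succ k ih =>
    change seg φ m (n + k) (φ (m + (n + k)) z) = seg φ m n (seg φ (m + n) k (φ (m + n + k) z))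
    rw [ih, Nat.add_assoc m n k]

end LIM

open LIM in
theorem LIM_thm : Stmt_LIM := by
  intro κ E d φ hT
  refine ⟨surj hT, ?_⟩
  have hr : (11 / 40 : ℝ) < 1 := by norm_num
  have hex : ∀ m z, ∃ a, Tendsto (fun n => seg φ m n z) atTop (𝓝 a) := fun m z =>
    cauchySeq_tendsto_of_complete
      (cauchySeq_of_le_geometric (11 / 40) (ee E m) hr fun n => step hT m n z)
  choose g hg using hex
  have hee : ∀ m, 0 ≤ ee E m := ee_nonneg hT.E0
  have hd : ∀ m n z, dist (seg φ m n z) (g m z) ≤ ee E m * (11 / 40) ^ n / (1 - 11 / 40) :=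
    fun m n z => dist_le_of_le_geometric_of_tendsto (11 / 40) (ee E m) hr
      (fun n => step hT m n z) (hg m z) n
  have hunif : ∀ m, TendstoUniformly (fun n => seg φ m n) (g m) atTop := by
    intro m
    rw [Metric.tendstoUniformly_iff]
    intro ε hε
    have hlim : Tendsto (fun n : ℕ => ee E m * (11 / 40 : ℝ) ^ n / (1 - 11 / 40)) atTop (𝓝 0) := by
      have h1 := ((tendsto_pow_atTop_nhds_zero_of_lt_one (by norm_num : (0 : ℝ) ≤ 11 / 40)
        hr).const_mul (ee E m)).div_const (1 - 11 / 40)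
      simpa using h1
    filter_upwards [hlim.eventually (gt_mem_nhds hε)] with n hn z
    rw [dist_comm]
    exact (hd m n z).trans_lt hn
  refine ⟨g, ⟨?_, hunif, ?_, ?_, ?_⟩⟩
  · intro m
    exact (hunif m).continuous (Frequently.of_forall fun n => contSeg hT m n)
  · intro m z
    have h1 := hd m 0 z
    rw [dist_comm, dist_eq_norm] at h1
    change ‖g m z - z‖ ≤ _ at h1
    refine h1.trans ?_
    rw [pow_zero, mul_one, div_le_iff₀ (by norm_num)]
    nlinarith [hee m]
  · intro m n z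
    have h1 : dist (seg φ m 0 z) (seg φ m n z) ≤ ∑ i ∈ Finset.range n, ee E m * (11 / 40) ^ i :=
      dist_le_range_sum_of_dist_le n (fun {k} _ => step hT m k z)
    rw [dist_comm, dist_eq_norm] at h1
    change ‖seg φ m n z - z‖ ≤ _ at h1
    refine h1.trans ?_
    rw [← Finset.mul_sum, geom_sum_eq (by norm_num)]
    have h2 : (0 : ℝ) ≤ (11 / 40) ^ n := by positivity
    have h3 : (((11 / 40 : ℝ)) ^ n - 1) / (11 / 40 - 1) ≤ 2 := by
      rw [div_le_iff_of_neg (by norm_num)]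
      linarith
    calc ee E m * ((((11 / 40 : ℝ)) ^ n - 1) / (11 / 40 - 1)) ≤ ee E m * 2 :=
          mul_le_mul_of_nonneg_left h3 (hee m)
      _ = 2 * ee E m := by ring
  · intro m n z
    have h1 : Tendsto (fun k => seg φ m (n + k) z) atTop (𝓝 (g m z)) := by
      have := (hg m z).comp (tendsto_add_atTop_nat n)
      refine this.congr fun k => ?_
      change seg φ m (k + n) z = seg φ m (n + k) z
      rw [Nat.add_comm]
    have h2 : Tendsto (fun k => seg φ m (n + k) z) atTop (𝓝 (seg φ m n (g (m + n) z))) := by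
      have := ((contSeg hT m n).tendsto (g (m + n) z)).comp (hg (m + n) z)
      refine this.congr fun k => ?_
      exact (seg_add φ m n k z).symm
    exact tendsto_nhds_unique h1 h2

end Pool.Agent.QL
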