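import Pool.Agent.QL.Stmts

/-!
# Assembly of the theorem
-/

open MeasureTheory Set Filter Topology
open scoped ENNReal

namespace Pool.Agent.QL

namespace MAIN

theorem weakQS_mono {H H' : ℝ} {f : ℂ → ℂ} (h : WeakQS H f) (hH : H ≤ H') : WeakQS H' f := by
  intro x y z hd
  exact (h x y z hd).trans (mul_le_mul_of_nonneg_right hH dist_nonneg)

theorem surj_seg {φ : ℕ → ℂ → ℂ} (h : ∀ n, Function.Surjective (φ n)) (m n : ℕ) :
    Function.Surjective (seg φ m n) := by
  induction n with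
  | zero => exact Function.surjective_id
  | succ n ih => exact ih.comp (h _)

theorem const_le {κ E H : ℝ} (h0 : 0 ≤ κ) (h1 : κ ≤ 1 / 10) (hE0 : 0 < E) (hE : 5 * E ≤ κ)
    (hH : 6 * κ ≤ H - 1) : ((1 + κ) * (1 + 5 * E)) / ((1 - κ) * (1 - 5 * E)) ≤ H := by
  have h2 : 0 < (1 - κ) * (1 - 5 * E) := by
    apply mul_pos <;> linarith
  rw [div_le_iff₀ h2]
  have h3 : (1 + κ) * (1 + 5 * E) ≤ (1 + κ) * (1 + κ) := by
    apply mul_le_mul_of_nonneg_left <;> linarith
  have h4 : (1 - κ) * (1 - κ) ≤ (1 - κ) * (1 - 5 * E) := by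
    apply mul_le_mul_of_nonneg_left <;> linarith
  have h5 : (1 + κ) * (1 + κ) ≤ (1 + 6 * κ) * ((1 - κ) * (1 - κ)) := by
    nlinarith [mul_nonneg h0 h0, mul_nonneg (mul_nonneg h0 h0) h0,
      mul_nonneg h0 (sub_nonneg.mpr h1)]
  have h6 : (1 + 6 * κ) * ((1 - κ) * (1 - κ)) ≤ H * ((1 - κ) * (1 - 5 * E)) := by
    apply mul_le_mul <;> nlinarith
  linarith

end MAIN

open MAIN in
theorem MAIN_thm (hTWR : Stmt_TWR) (hQS : Stmt_QS) (hLIM : Stmt_LIM) (hHOM : Stmt_HOM)
    (hGRD : Stmt_GRD) (hVAR : Stmt_VAR) (hCRV : Stmt_CRV) (hACL : Stmt_ACL) : Stmt_MAIN := by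
  intro S
  constructor
  · intro hS H hH ε hε
    set a : ℝ := min (1 / 30) ((H - 1) / 18) with ha
    have ha0 : 0 < a := lt_min (by norm_num) (by linarith)
    have ha1 : a ≤ 1 / 30 := min_le_left _ _
    have ha2 : a ≤ (H - 1) / 18 := min_le_right _ _
    set E : ℝ := min ε (a ^ 2 / 2000) with hE
    have hE0 : 0 < E := lt_min hε (by positivity)
    have hE1 : E ≤ ε := min_le_left _ _
    have hE2 : E ≤ a ^ 2 / 2000 := min_le_right _ _
    have hE3 : E ≤ a / 1000 := by nlinarith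
    obtain ⟨d, φ, hT, hd0, hW⟩ := hTWR S a E hS ha0 ha1 hE0 hE3
    obtain ⟨hsur, g, hg⟩ := hLIM _ _ _ _ hT
    have hHc : ((1 + 3 * a) * (1 + 5 * E)) / ((1 - 3 * a) * (1 - 5 * E)) ≤ H :=
      const_le (by positivity) (by linarith) hE0 (by nlinarith) (by linarith)
    obtain ⟨f, hf, hfQ⟩ := hHOM (fun n => seg φ 0 n) (g 0) (2 * ee E 0) H
      (fun n => surj_seg hsur 0 n) (fun n z => hg.nears 0 n z) (hg.unif 0) (hg.cont 0)
      (fun n => weakQS_mono (hQS _ _ _ _ hT n) hHc)
    refine ⟨f, hfQ, fun z => ?_, ?_⟩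
    · rw [hf z, dist_eq_norm]
      refine (hg.near 0 z).trans ?_
      simp only [ee]
      norm_num
      linarith
    · refine hCRV f S hS fun x hx α β hαβ => ?_
      have hfun : (fun y : ℝ => f ⟨x, y⟩) = fun y : ℝ => g 0 ⟨x, y⟩ := by
        funext y
        exact hf _
      have hcont : Continuous fun y : ℝ => f ⟨x, y⟩ := by
        have h1 : Continuous fun y : ℝ => (⟨x, y⟩ : ℂ) := by
          have h2 : (fun y : ℝ => (⟨x, y⟩ : ℂ)) = fun y : ℝ => (x : ℂ) + (y : ℂ) * Complex.I := by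
            funext y
            apply Complex.ext <;> simp
          rw [h2]
          fun_prop
        exact f.continuous.comp h1
      have hinj : Function.Injective fun y : ℝ => f ⟨x, y⟩ := by
        intro y y' hy
        have h1 := f.injective hy
        exact congrArg Complex.im h1
      refine hVAR _ (a ^ 2 / 200 / 2) hcont hinj (by positivity) (fun δ hδ => ?_) α β hαβ
      rw [hfun]
      refine hGRD (3 * a) E (a ^ 2 / 200) d φ g x hT hg (by positivity) ?_ ?_ hd0
        (fun n => (hW x hx n).1) (fun n => (hW x hx n).2) δ hδ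
      · nlinarith
      · linarith
  · intro hS f hf hno
    have h1 := hACL f hf
    have h2 : ∃ x ∈ S, ∀ α β : ℝ, α < β →
        eVariationOn (fun y : ℝ => f ⟨x, y⟩) (Icc α β) ≠ ⊤ := by
      by_contra hn
      push Not at hn
      apply hS
      refine measure_mono_null ?_ (ae_iff.mp h1)
      intro x hx
      obtain ⟨α, β, hαβ, h3⟩ := hn x hx
      simp only [mem_ofPred_eq, not_forall]
      exact ⟨α, β, hαβ, fun h4 => h4 h3⟩
    obtain ⟨x, hx, hv⟩ := h2
    have h3 := hno (fun y : ℝ => f ⟨x, y⟩) ?_ (hv 0 1 one_pos) ?_ 0 (by simp) 1 (by simp)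
    · have h4 := f.injective h3
      have h5 := congrArg Complex.im h4
      simp at h5
    · have h1 : Continuous fun y : ℝ => (⟨x, y⟩ : ℂ) := by
        have h2 : (fun y : ℝ => (⟨x, y⟩ : ℂ)) = fun y : ℝ => (x : ℂ) + (y : ℂ) * Complex.I := by
          funext y
          apply Complex.ext <;> simp
        rw [h2]
        fun_prop
      exact (f.continuous.comp h1).continuousOn
    · intro t _
      exact ⟨⟨x, t⟩, hx, rfl⟩

end Pool.Agent.QL
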