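import Pool.Agent.QL.StmtsU
import Pool.Agent.QL.MAIN

/-!
# Assembly of the theorem, with pure unrectifiability
-/

open MeasureTheory Set Filter Topology
open scoped ENNReal NNReal

namespace Pool.Agent.QL

open MAIN in
theorem MAINU_thm (hCTW : Stmt_CTW) (hQS : Stmt_QS) (hLIM : Stmt_LIM) (hHOM : Stmt_HOM)
    (hGRD : Stmt_GRD) (hVAR : Stmt_VAR) (hCRV : Stmt_CRV) (hPUR : Stmt_PUR)
    (hM : Stmt_MAIN) : Stmt_MAINU := by
  intro S
  refine ⟨fun hS H hH ε hε => ?_, (hM S).2⟩
  set a : ℝ := min (1 / 30) ((H - 1) / 18) with ha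
  have ha0 : 0 < a := lt_min (by norm_num) (by linarith)
  have ha1 : a ≤ 1 / 30 := min_le_left _ _
  have ha2 : a ≤ (H - 1) / 18 := min_le_right _ _
  set E : ℝ := min ε (a ^ 2 / 1000000) with hE
  have hE0 : 0 < E := lt_min hε (by positivity)
  have hE1 : E ≤ ε := min_le_left _ _
  have hE2 : E ≤ a ^ 2 / 1000000 := min_le_right _ _
  have hE3 : E ≤ a / 1000 := by nlinarith
  obtain ⟨V, hSV, hC⟩ := hCTW S a E hS ha0 ha1 hE0 hE3
  have hT := hC.tower
  obtain ⟨hsur, g, hg⟩ := hLIM _ _ _ _ hT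
  have hHc : ((1 + 3 * a) * (1 + 5 * E)) / ((1 - 3 * a) * (1 - 5 * E)) ≤ H :=
    const_le (by positivity) (by linarith) hE0 (by nlinarith) (by linarith)
  obtain ⟨f, hf, hfQ⟩ := hHOM (fun n => seg (phs a E V) 0 n) (g 0) (2 * ee E 0) H
    (fun n => surj_seg hsur 0 n) (fun n z => hg.nears 0 n z) (hg.unif 0) (hg.cont 0)
    (fun n => weakQS_mono (hQS _ _ _ _ hT n) hHc)
  have hdn : ∀ n, ∀ x ∈ V n, 0 < dd (V n) x := by
    intro n x hx
    have hc : IsClosed (V n)ᶜ := (hC.adm n).oV.isClosed_compl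
    exact (hc.notMem_iff_infDist_pos (hC.adm n).ne).mp (by simpa using hx)
  refine ⟨f, hfQ, fun z => ?_, ?_, ?_⟩
  · rw [hf z, dist_eq_norm]
    refine (hg.near 0 z).trans ?_
    simp only [ee]
    norm_num
    linarith
  · intro C γ hγ
    refine measure_mono_null ?_ (hPUR a E V g f ha0 ha1 hE0 hE2 hC hg hf C γ hγ)
    refine inter_subset_inter_right _ (image_mono ?_)
    intro z hz n
    exact hSV n hz
  · refine hCRV f S hS fun x hx α β hαβ => ?_
    have hfun : (fun y : ℝ => f ⟨x, y⟩) = fun y : ℝ => g 0 ⟨x, y⟩ := by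
      funext y
      exact hf _
    have hcont : Continuous fun y : ℝ => f ⟨x, y⟩ := by
      have h1 : Continuous fun y : ℝ => (⟨x, y⟩ : ℂ) := by
        have h2 : (fun y : ℝ => (⟨x, y⟩ : ℂ)) = fun y : ℝ => (x : ℂ) + (y : ℂ) * Complex.I := by
          funext y
          apply Complex.ext <;> simp
        rw [h2]
        fun_prop
      exact f.continuous.comp h1
    have hinj : Function.Injective fun y : ℝ => f ⟨x, y⟩ := by
      intro y y' hy
      have h1 := f.injective hy
      exact congrArg Complex.im h1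
    refine hVAR _ (a ^ 2 / 200 / 2) hcont hinj (by positivity) (fun δ hδ => ?_) α β hαβ
    rw [hfun]
    refine hGRD (3 * a) E (a ^ 2 / 200) (fun n => dd (V n)) (phs a E V) g x hT hg (by positivity)
      ?_ ?_ (fun y => (hC.adm 0).dle y) (fun n => hdn n x (hSV n hx))
      (fun n => hC.wig n x (hSV n hx)) δ hδ
    · nlinarith
    · linarith

end Pool.Agent.QL
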