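import Pool.Agent.QL.Stmts

/-!
# QL, module NID: the tails are close to the identity at large scales
-/

namespace Pool.Agent.QL

namespace NID

theorem seg_succ' (φ : ℕ → ℂ → ℂ) (n : ℕ) : ∀ m : ℕ,
    seg φ m (n + 1) = φ m ∘ seg φ (m + 1) n := by
  induction n with
  | zero => intro m; rfl
  | succ n ih =>
      intro m
      have h1 : seg φ m (n + 1 + 1) = seg φ m (n + 1) ∘ φ (m + (n + 1)) := rfl
      have h2 : seg φ (m + 1) (n + 1) = seg φ (m + 1) n ∘ φ (m + 1 + n) := rfl
      rw [h1, ih m, h2, show m + (n + 1) = m + 1 + n by ring]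
      rfl

theorem ee_pos {E : ℝ} (hE : 0 < E) (m : ℕ) : 0 < ee E m := by
  unfold ee; positivity

theorem ee_le {E : ℝ} (_hE : 0 < E) (hE1 : E ≤ 1 / 100) (m : ℕ) : ee E m ≤ 1 / 400 := by
  unfold ee
  have h : (4 : ℝ) ≤ 4 ^ (m + 1) := by
    calc (4 : ℝ) = 4 ^ 1 := by norm_num
      _ ≤ 4 ^ (m + 1) := pow_le_pow_right₀ (by norm_num) (by omega)
  rw [div_le_iff₀ (by positivity)]
  nlinarith

theorem ee_succ (E : ℝ) (m : ℕ) : ee E (m + 1) = ee E m / 4 := by
  unfold ee
  rw [pow_succ]
  field_simp

end NID

open NID

theorem NID_thm : Stmt_NID := by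
  intro κ E d φ T m n
  induction n generalizing m with
  | zero =>
      have he := ee_pos T.E0 m
      refine ⟨fun q => ?_, fun q q' => ?_⟩
      · have h := T.dn m q.re
        simp only [seg, id, sub_self, abs_zero]
        positivity
      · have h := T.dn m q.re
        simp only [seg, id, sub_self, norm_zero]
        positivity
  | succ n ih =>
      obtain ⟨ih1, ih2⟩ := ih (m + 1)
      have he := ee_pos T.E0 m
      have he1 := ee_le T.E0 T.E1 m
      rw [ee_succ] at ih1 ih2
      rw [seg_succ']
      set e := ee E m with hedef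
      set ψ := seg φ (m + 1) n with hψ
      refine ⟨fun q => ?_, fun q q' => ?_⟩
      · have hd := T.dn m q.re
        have hδ := T.dn (m + 1) q.re
        have h6 := T.p6 m q.re
        rw [← hedef] at h6
        have h1 := T.p1 m (ψ q)
        rw [← hedef] at h1
        have h2 := ih1 q
        have h3 := T.dl m (ψ q).re q.re
        have h3' := (abs_le.mp h3).2
        simp only [Function.comp_apply]
        have h4 : |(φ m (ψ q)).re - q.re| ≤ |(φ m (ψ q)).re - (ψ q).re| + |(ψ q).re - q.re| := by
          have := abs_add_le ((φ m (ψ q)).re - (ψ q).re) ((ψ q).re - q.re)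
          calc |(φ m (ψ q)).re - q.re|
              = |((φ m (ψ q)).re - (ψ q).re) + ((ψ q).re - q.re)| := by ring_nf
            _ ≤ _ := this
        set D := d m q.re
        set δ := d (m + 1) q.re
        have h5 : d m (ψ q).re ≤ D + 2 * (e / 4) * δ := by linarith
        have h7 : e * d m (ψ q).re ≤ e * (D + 2 * (e / 4) * δ) :=
          mul_le_mul_of_nonneg_left h5 he.le
        have h8 : e * δ ≤ e * (e * D) := mul_le_mul_of_nonneg_left h6 he.le
        have h9 : e * (e * δ) ≤ e * (e * (e * D)) := by
          exact mul_le_mul_of_nonneg_left h8 he.le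
        have h10 : e * (e * D) ≤ (1 / 400) * (e * D) := by
          apply mul_le_mul_of_nonneg_right he1 (by positivity)
        have h11 : e * (e * (e * D)) ≤ (1 / 400) * (e * (e * D)) := by
          apply mul_le_mul_of_nonneg_right he1 (by positivity)
        have h12 : 0 ≤ e * D := by positivity
        linarith
      · have hd := T.dn m q.re
        have hδ := T.dn (m + 1) q.re
        have h6 := T.p6 m q.re
        rw [← hedef] at h6
        have h1 := T.p2 m (ψ q) (ψ q')
        rw [← hedef] at h1
        have h2 := ih1 q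
        have h22 := ih2 q q'
        have h3 := T.dl m (ψ q).re q.re
        have h3' := (abs_le.mp h3).2
        simp only [Function.comp_apply]
        have h4 : ‖φ m (ψ q) - φ m (ψ q') - (q - q')‖ ≤
            ‖φ m (ψ q) - φ m (ψ q') - (ψ q - ψ q')‖ + ‖ψ q - ψ q' - (q - q')‖ := by
          calc ‖φ m (ψ q) - φ m (ψ q') - (q - q')‖
              = ‖(φ m (ψ q) - φ m (ψ q') - (ψ q - ψ q')) + (ψ q - ψ q' - (q - q'))‖ := by
                congr 1; ring
            _ ≤ _ := norm_add_le _ _
        have h4' : ‖ψ q - ψ q'‖ ≤ ‖q - q'‖ + ‖ψ q - ψ q' - (q - q')‖ := by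
          calc ‖ψ q - ψ q'‖ = ‖(q - q') + (ψ q - ψ q' - (q - q'))‖ := by congr 1; ring
            _ ≤ _ := norm_add_le _ _
        have hN : 0 ≤ ‖q - q'‖ := norm_nonneg _
        set N := ‖q - q'‖
        set D := d m q.re
        set δ := d (m + 1) q.re
        have h5 : d m (ψ q).re ≤ D + 2 * (e / 4) * δ := by linarith
        have h7 : e * (‖ψ q - ψ q'‖ + d m (ψ q).re) ≤
            e * ((N + 2 * (e / 4) * (N + δ)) + (D + 2 * (e / 4) * δ)) :=
          mul_le_mul_of_nonneg_left (by linarith) he.le
        have h8 : e * δ ≤ e * (e * D) := mul_le_mul_of_nonneg_left h6 he.le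
        have h9 : e * (e * δ) ≤ e * (e * (e * D)) := by
          exact mul_le_mul_of_nonneg_left h8 he.le
        have h10 : e * (e * D) ≤ (1 / 400) * (e * D) := by
          apply mul_le_mul_of_nonneg_right he1 (by positivity)
        have h11 : e * (e * (e * D)) ≤ (1 / 400) * (e * (e * D)) := by
          apply mul_le_mul_of_nonneg_right he1 (by positivity)
        have h12 : 0 ≤ e * D := by positivity
        have h13 : 0 ≤ e * N := by positivity
        have h14 : e * (e * N) ≤ (1 / 400) * (e * N) := by
          apply mul_le_mul_of_nonneg_right he1 (by positivity)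
        nlinarith

end Pool.Agent.QL
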