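import Pool.Agent.QL.Stmts

/-!
# The initial compositions are close to similarities at small scales
-/

open MeasureTheory Set Filter Topology
open scoped ENNReal

namespace Pool.Agent.QL

namespace NSM

/-- the sum of the first error terms -/
noncomputable def SS (E : ℝ) (n : ℕ) : ℝ := E / 3 * (1 - 1 / 4 ^ n)

theorem SS_zero (E : ℝ) : SS E 0 = 0 := by simp [SS]

theorem SS_succ (E : ℝ) (n : ℕ) : SS E (n + 1) = SS E n + ee E n := by
  unfold SS ee
  have h : (4 : ℝ) ^ n ≠ 0 := by positivity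
  rw [pow_succ]
  field_simp
  ring

theorem SS_le (E : ℝ) (hE : 0 < E) (n : ℕ) : SS E n ≤ E / 3 := by
  unfold SS
  have h : 0 < 1 / (4 : ℝ) ^ n := by positivity
  nlinarith

theorem SS_nonneg (E : ℝ) (hE : 0 < E) (n : ℕ) : 0 ≤ SS E n := by
  unfold SS
  have h : 1 / (4 : ℝ) ^ n ≤ 1 := by
    rw [div_le_one (by positivity)]
    exact one_le_pow₀ (by norm_num)
  exact mul_nonneg (by positivity) (by linarith)

theorem ee_pos (E : ℝ) (hE : 0 < E) (n : ℕ) : 0 < ee E n := by
  unfold ee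
  positivity

theorem ee_le (E : ℝ) (hE : 0 < E) (n : ℕ) : ee E n ≤ E := by
  unfold ee
  rw [div_le_iff₀ (by positivity)]
  have h : (1 : ℝ) ≤ 4 ^ (n + 1) := one_le_pow₀ (by norm_num)
  nlinarith

theorem main (κ E : ℝ) (d : ℕ → ℝ → ℝ) (φ : ℕ → ℂ → ℂ) (T : Tower κ E d φ) (n : ℕ) :
    ∀ p : ℂ, ∃ σ : ℂ, 1 ≤ ‖σ‖ ∧ ∀ q q', ‖q - p‖ ≤ d n p.re / 2 → ‖q' - p‖ ≤ d n p.re / 2 →
      ‖seg φ 0 n q - seg φ 0 n q' - σ * (q - q')‖ ≤ 2 * SS E n * ‖σ‖ * ‖q - q'‖ := by
  induction n with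
  | zero =>
    intro p
    refine ⟨1, by simp, fun q q' _ _ => ?_⟩
    simp [seg, SS_zero]
  | succ n ih =>
    intro p
    obtain ⟨s, hs1, hs2, hs⟩ := T.p4 n p
    obtain ⟨σ, hσ1, hσ⟩ := ih (φ n p)
    have he := ee_pos E T.E0 n
    have he' : ee E n ≤ 1 / 100 := (ee_le E T.E0 n).trans T.E1
    have hκ0 := T.κ0
    have hκ1 := T.κ1
    have hd := T.dn n p.re
    have hd1 := T.dn (n + 1) p.re
    have hd2 := T.p6 n p.re
    have hS0 := SS_nonneg E T.E0 n
    have hS1 : SS E n ≤ 1 / 300 := (SS_le E T.E0 n).trans (by linarith [T.E1])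
    have hdn : (1 - ee E n) * d n p.re ≤ d n (φ n p).re := by
      have h1 := T.dl n p.re (φ n p).re
      have h2 := T.p1 n p
      rw [abs_sub_comm] at h2
      have h3 := (abs_le.1 (h1.trans h2)).2
      linarith
    have hball : ∀ q, ‖q - p‖ ≤ d (n + 1) p.re / 2 → ‖φ n q - φ n p‖ ≤ d n (φ n p).re / 2 := by
      intro q hq
      have h1 : ‖φ n q - φ n p‖ ≤ (1 + κ) * ‖q - p‖ := by
        calc ‖φ n q - φ n p‖ = ‖(φ n q - φ n p - (q - p)) + (q - p)‖ := by
              congr 1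
              ring
          _ ≤ ‖φ n q - φ n p - (q - p)‖ + ‖q - p‖ := norm_add_le _ _
          _ ≤ κ * ‖q - p‖ + ‖q - p‖ := by linarith [T.p3 n q p]
          _ = (1 + κ) * ‖q - p‖ := by ring
      have h2 : (1 + κ) * ‖q - p‖ ≤ (1 + κ) * (d (n + 1) p.re / 2) :=
        mul_le_mul_of_nonneg_left hq (by linarith)
      have h3 : (1 + κ) * (d (n + 1) p.re / 2) ≤ 11 / 10 * (ee E n * d n p.re / 2) := by
        apply mul_le_mul <;> linarith
      have h4 : ee E n * d n p.re ≤ 1 / 100 * d n p.re := mul_le_mul_of_nonneg_right he' hd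
      nlinarith
    refine ⟨σ * s, ?_, fun q q' hq hq' => ?_⟩
    · rw [norm_mul]
      nlinarith
    · have hA := hσ (φ n q) (φ n q') (hball q hq) (hball q' hq')
      have hB := hs q q' (hq.trans (by linarith)) (hq'.trans (by linarith))
      have hC : ‖φ n q - φ n q'‖ ≤ (‖s‖ + ee E n) * ‖q - q'‖ := by
        calc ‖φ n q - φ n q'‖ = ‖(φ n q - φ n q' - s * (q - q')) + s * (q - q')‖ := by
              congr 1
              ring
          _ ≤ ‖φ n q - φ n q' - s * (q - q')‖ + ‖s * (q - q')‖ := norm_add_le _ _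
          _ ≤ ee E n * ‖q - q'‖ + ‖s‖ * ‖q - q'‖ := by
              rw [norm_mul]
              linarith
          _ = (‖s‖ + ee E n) * ‖q - q'‖ := by ring
      have hseg : ∀ z, seg φ 0 (n + 1) z = seg φ 0 n (φ n z) := by
        intro z
        show seg φ 0 n (φ (0 + n) z) = _
        rw [zero_add]
      rw [hseg, hseg]
      have hq0 := norm_nonneg (q - q')
      have hσ0 := norm_nonneg σ
      calc ‖seg φ 0 n (φ n q) - seg φ 0 n (φ n q') - σ * s * (q - q')‖
          = ‖(seg φ 0 n (φ n q) - seg φ 0 n (φ n q') - σ * (φ n q - φ n q')) +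
              σ * (φ n q - φ n q' - s * (q - q'))‖ := by
            congr 1
            ring
        _ ≤ ‖seg φ 0 n (φ n q) - seg φ 0 n (φ n q') - σ * (φ n q - φ n q')‖ +
              ‖σ * (φ n q - φ n q' - s * (q - q'))‖ := norm_add_le _ _
        _ ≤ 2 * SS E n * ‖σ‖ * ((‖s‖ + ee E n) * ‖q - q'‖) + ‖σ‖ * (ee E n * ‖q - q'‖) := by
            rw [norm_mul]
            refine add_le_add (hA.trans ?_) (mul_le_mul_of_nonneg_left hB hσ0)
            exact mul_le_mul_of_nonneg_left hC (by positivity)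
        _ = ‖σ‖ * ‖q - q'‖ * (2 * SS E n * (‖s‖ + ee E n) + ee E n) := by ring
        _ ≤ ‖σ‖ * ‖q - q'‖ * (2 * SS E (n + 1) * ‖s‖) := by
            apply mul_le_mul_of_nonneg_left _ (by positivity)
            rw [SS_succ]
            have h1 : 2 * SS E n * ee E n ≤ 1 * ee E n :=
              mul_le_mul_of_nonneg_right (by linarith) he.le
            have h2 : ee E n * 1 ≤ ee E n * ‖s‖ := mul_le_mul_of_nonneg_left hs1 he.le
            nlinarith
        _ = 2 * SS E (n + 1) * ‖σ * s‖ * ‖q - q'‖ := by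
            rw [norm_mul]
            ring

end NSM

open NSM in
/-- NSM. -/
theorem NSM_thm : Stmt_NSM := by
  intro κ E d φ T n p
  obtain ⟨σ, h1, h2⟩ := main κ E d φ T n p
  refine ⟨σ, h1, fun q q' hq hq' => (h2 q q' hq hq').trans ?_⟩
  have h3 := SS_le E T.E0 n
  have h4 : 2 * SS E n ≤ E := by linarith [T.E0]
  exact mul_le_mul_of_nonneg_right (mul_le_mul_of_nonneg_right h4 (norm_nonneg _))
    (norm_nonneg _)

end Pool.Agent.QL
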