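import Pool.Agent.QL.Stmts

/-!
# P12: the map is the identity at large scales
-/

open MeasureTheory Set Filter Topology
open scoped ENNReal

namespace Pool.Agent.QL

/-- P12: the map is the identity at large scales. -/
theorem P12_thm (hFG : Stmt_FG) (hDD : Stmt_DD) (hBW : Stmt_BW) : Stmt_P12 := by
  intro a η V V' ha ha1 hη hη1 hadm
  obtain ⟨-, hF2, -, -, -, -, -, -⟩ := hFG a ha
  obtain ⟨hd0, hdl, -, -, -, -, hvol, -⟩ := hDD η V V' hη hη1 hadm
  obtain ⟨hB1, hB2, hB3, -⟩ := hBW a η V V' ha hη hη1 hadm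
  have hA : ∀ x y, |Aw a η V x y| ≤ η * dd V x := by
    intro x y
    have h1 := hF2 (η * dd V x) y
    have h2 : 0 ≤ η * dd V x := mul_nonneg hη.le (hd0 x)
    rw [abs_of_nonneg h2] at h1
    show |F a (η * dd V x) y| ≤ η * dd V x
    nlinarith
  have hre : ∀ z, (phi a η V V' z).re - z.re = Aw a η V z.re z.im := by
    intro z
    show z.re + Aw a η V z.re z.im - z.re = _
    ring
  have him : ∀ z, (phi a η V V' z).im - z.im = Bw a η V V' z.re z.im := by
    intro z
    show z.im + Bw a η V V' z.re z.im - z.im = _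
    ring
  refine ⟨?_, ?_, ?_⟩
  · intro z
    rw [hre]
    exact hA _ _
  · intro z
    refine (Complex.norm_le_abs_re_add_abs_im _).trans ?_
    rw [Complex.sub_re, Complex.sub_im, hre, him]
    have h1 := hA z.re z.im
    have h2 := hB1 z.re z.im
    have h3 := hadm.dle z.re
    have h4 : η * dd V z.re ≤ η * 1 := mul_le_mul_of_nonneg_left h3 hη.le
    have h5 : a * η ^ 2 ≤ η := by
      have : a * η ^ 2 ≤ 1 * η ^ 2 := mul_le_mul_of_nonneg_right ha1 (sq_nonneg _)
      nlinarith
    linarith
  · intro q q'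
    refine (Complex.norm_le_abs_re_add_abs_im _).trans ?_
    have e1 : (phi a η V V' q - phi a η V V' q' - (q - q')).re
        = Aw a η V q.re q.im - Aw a η V q'.re q'.im := by
      rw [← hre, ← hre]
      simp only [Complex.sub_re]
      ring
    have e2 : (phi a η V V' q - phi a η V V' q' - (q - q')).im
        = (Bw a η V V' q.re q.im - Bw a η V V' q.re q'.im)
          + (Bw a η V V' q.re q'.im - Bw a η V V' q'.re q'.im) := by
      have : (phi a η V V' q - phi a η V V' q' - (q - q')).im
          = ((phi a η V V' q).im - q.im) - ((phi a η V V' q').im - q'.im) := by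
        simp only [Complex.sub_im]
        ring
      rw [this, him, him]
      ring
    rw [e1, e2]
    have hu : |q.re - q'.re| ≤ ‖q - q'‖ := by
      rw [← Complex.sub_re]; exact Complex.abs_re_le_norm _
    have hv : |q.im - q'.im| ≤ ‖q - q'‖ := by
      rw [← Complex.sub_im]; exact Complex.abs_im_le_norm _
    have h1 := hA q.re q.im
    have h2 := hA q'.re q'.im
    have h3 : dd V q'.re ≤ dd V q.re + |q.re - q'.re| := by
      have := abs_le.1 (hdl q.re q'.re)
      linarith [this.1]
    have h4 := hB3 q.re q.im q'.im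
    have h5 := hB2 q.re q'.re q'.im
    have h6 := hvol q.re q'.re
    have h7 := abs_sub (Aw a η V q.re q.im) (Aw a η V q'.re q'.im)
    have h8 := abs_add_le (Bw a η V V' q.re q.im - Bw a η V V' q.re q'.im)
      (Bw a η V V' q.re q'.im - Bw a η V V' q'.re q'.im)
    have hdq := hd0 q.re
    have hn := norm_nonneg (q - q')
    have h9 : η * dd V q'.re ≤ η * (dd V q.re + ‖q - q'‖) :=
      mul_le_mul_of_nonneg_left (by linarith) hη.le
    have h10 : 13 * a * η * |q.im - q'.im| ≤ 13 * η * ‖q - q'‖ := by
      have : 13 * a * η ≤ 13 * η := by nlinarith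
      exact mul_le_mul this hv (abs_nonneg _) (by positivity)
    have h11 : a * (volume (V' ∩ uIcc q.re q'.re)).toReal ≤ η ^ 2 * (dd V q.re + ‖q - q'‖) := by
      have h12 : (volume (V' ∩ uIcc q.re q'.re)).toReal ≤ η ^ 2 * (dd V q.re + ‖q - q'‖) :=
        h6.trans (mul_le_mul_of_nonneg_left (by linarith) (sq_nonneg _))
      have h13 : 0 ≤ (volume (V' ∩ uIcc q.re q'.re)).toReal := ENNReal.toReal_nonneg
      nlinarith
    have h14 : η ^ 2 * (dd V q.re + ‖q - q'‖) ≤ η * (dd V q.re + ‖q - q'‖) := by
      apply mul_le_mul_of_nonneg_right _ (by linarith)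
      nlinarith
    have h15 : 0 ≤ η * dd V q.re := by positivity
    have h16 : 0 ≤ η * ‖q - q'‖ := by positivity
    nlinarith

end Pool.Agent.QL
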