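import Pool.Agent.QL.Stmts

/-!
# P3: the map is bi-Lipschitz
-/

open MeasureTheory Set Filter Topology
open scoped ENNReal

namespace Pool.Agent.QL

/-- **(P3)** -/
theorem P3_thm (hFG : Stmt_FG) (hDD : Stmt_DD) (hBW : Stmt_BW) : Stmt_P3 := by
  intro a η V V' ha ha1 hη hη1 hadm q q'
  obtain ⟨-, -, f3, f4, f5, -, -, -⟩ := hFG a ha
  obtain ⟨-, d2, -, -, -, d6, -, -⟩ := hDD η V V' hη hη1 hadm
  obtain ⟨-, b2, b3, -⟩ := hBW a η V V' ha hη hη1 hadm
  have hre : |q.re - q'.re| ≤ ‖q - q'‖ := by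
    have := Complex.abs_re_le_norm (q - q')
    rwa [Complex.sub_re] at this
  have him : |q.im - q'.im| ≤ ‖q - q'‖ := by
    have := Complex.abs_im_le_norm (q - q')
    rwa [Complex.sub_im] at this
  -- the horizontal displacement
  have hlip : ∀ t y y', |F a t y - F a t y'| ≤ a * |y - y'| := by
    intro t y y'
    have := (convex_univ).norm_image_sub_le_of_norm_hasDerivWithin_le (f := F a t) (f' := G a t)
      (C := a) (fun z _ => (f4 t z).hasDerivWithinAt)
      (fun z _ => by rw [Real.norm_eq_abs]; exact f5 t z) (mem_univ y') (mem_univ y)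
    rwa [Real.norm_eq_abs, Real.norm_eq_abs] at this
  have hA : |Aw a η V q.re q.im - Aw a η V q'.re q'.im| ≤
      a * η * |q.re - q'.re| + a * |q.im - q'.im| := by
    unfold Aw
    have h1 := f3 (η * dd V q.re) (η * dd V q'.re) q.im
    have h2 : |η * dd V q.re - η * dd V q'.re| ≤ η * |q.re - q'.re| := by
      rw [← mul_sub, abs_mul, abs_of_pos hη]
      exact mul_le_mul_of_nonneg_left (d2 _ _) hη.le
    have h3 := hlip (η * dd V q'.re) q.im q'.im
    have h4 : a * |η * dd V q.re - η * dd V q'.re| ≤ a * (η * |q.re - q'.re|) :=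
      mul_le_mul_of_nonneg_left h2 ha.le
    calc |F a (η * dd V q.re) q.im - F a (η * dd V q'.re) q'.im|
        ≤ |F a (η * dd V q.re) q.im - F a (η * dd V q'.re) q.im| +
          |F a (η * dd V q'.re) q.im - F a (η * dd V q'.re) q'.im| := abs_sub_le _ _ _
      _ ≤ a * η * |q.re - q'.re| + a * |q.im - q'.im| := by linarith
  -- the vertical displacement
  have hB : |Bw a η V V' q.re q.im - Bw a η V V' q'.re q'.im| ≤
      a * |q.re - q'.re| + 13 * a * η * |q.im - q'.im| := by
    have h1 := b2 q.re q'.re q.im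
    have h2 : a * (volume (V' ∩ uIcc q.re q'.re)).toReal ≤ a * |q.re - q'.re| :=
      mul_le_mul_of_nonneg_left (d6 _ _) ha.le
    have h3 := b3 q'.re q.im q'.im
    calc |Bw a η V V' q.re q.im - Bw a η V V' q'.re q'.im|
        ≤ |Bw a η V V' q.re q.im - Bw a η V V' q'.re q.im| +
          |Bw a η V V' q'.re q.im - Bw a η V V' q'.re q'.im| := abs_sub_le _ _ _
      _ ≤ a * |q.re - q'.re| + 13 * a * η * |q.im - q'.im| := by linarith
  have hr : (phi a η V V' q - phi a η V V' q' - (q - q')).re =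
      Aw a η V q.re q.im - Aw a η V q'.re q'.im := by
    simp only [phi, Complex.sub_re]
    ring
  have hi : (phi a η V V' q - phi a η V V' q' - (q - q')).im =
      Bw a η V V' q.re q.im - Bw a η V V' q'.re q'.im := by
    simp only [phi, Complex.sub_im]
    ring
  have hn := Complex.norm_le_abs_re_add_abs_im (phi a η V V' q - phi a η V V' q' - (q - q'))
  rw [hr, hi] at hn
  have e1 : a * η * |q.re - q'.re| ≤ a * (1 / 100) * ‖q - q'‖ := by
    have : a * η ≤ a * (1 / 100) := mul_le_mul_of_nonneg_left hη1 ha.le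
    exact mul_le_mul this hre (abs_nonneg _) (by positivity)
  have e2 : a * |q.im - q'.im| ≤ a * ‖q - q'‖ := mul_le_mul_of_nonneg_left him ha.le
  have e3 : a * |q.re - q'.re| ≤ a * ‖q - q'‖ := mul_le_mul_of_nonneg_left hre ha.le
  have e4 : 13 * a * η * |q.im - q'.im| ≤ 13 * a * (1 / 100) * ‖q - q'‖ := by
    have : 13 * a * η ≤ 13 * a * (1 / 100) := mul_le_mul_of_nonneg_left hη1 (by positivity)
    exact mul_le_mul this him (abs_nonneg _) (by positivity)
  have e5 : 0 ≤ a * ‖q - q'‖ := by positivity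
  linarith

end Pool.Agent.QL
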