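import Pool.Agent.QL.Stmts

/-!
# Quasiconformal images of null families of parallel lines: P4
-/

open MeasureTheory Set Filter Topology
open scoped ENNReal

namespace Pool.Agent.QL

namespace P4

theorem mvt {f g : ℝ → ℝ} (hf : ∀ y, HasDerivAt f (g y) y) {c M y₀ d y y' : ℝ}
    (hM : ∀ r, |r - y₀| ≤ d → |g r - c| ≤ M) (hy : |y - y₀| ≤ d) (hy' : |y' - y₀| ≤ d) :
    |f y - f y' - c * (y - y')| ≤ M * |y - y'| := by
  have h := Convex.norm_image_sub_le_of_norm_hasDerivWithin_le (𝕜 := ℝ) (f := fun r => f r - c * r)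
    (f' := fun r => g r - c) (C := M) (s := Metric.closedBall y₀ d) (x := y') (y := y)
    (fun r _ => (((hf r).sub ((hasDerivAt_id r).const_mul c)).hasDerivWithinAt).congr_deriv
      (by simp))
    (fun r hr => by
      rw [Real.norm_eq_abs]
      apply hM
      rwa [Metric.mem_closedBall, Real.dist_eq] at hr)
    (convex_closedBall _ _)
    (by rwa [Metric.mem_closedBall, Real.dist_eq]) (by rwa [Metric.mem_closedBall, Real.dist_eq])
  rw [Real.norm_eq_abs, Real.norm_eq_abs] at h
  have e : f y - c * y - (f y' - c * y') = f y - f y' - c * (y - y') := by ring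
  rwa [e] at h

theorem abs_between {x x' t x₀ d : ℝ} (hx : |x - x₀| ≤ d) (hx' : |x' - x₀| ≤ d)
    (ht : t ∈ Ioo (min x x') (max x x')) : |t - x₀| < d := by
  rw [abs_le] at hx hx'
  rw [abs_lt]
  obtain ⟨h1, h2⟩ := ht
  rcases le_total x x' with h | h
  · rw [min_eq_left h] at h1
    rw [max_eq_right h] at h2
    constructor <;> linarith
  · rw [min_eq_right h] at h1
    rw [max_eq_left h] at h2
    constructor <;> linarith

theorem mem_of_lt {V : Set ℝ} {x t : ℝ} (h : |t - x| < dd V x) : t ∈ V := by
  by_contra ht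
  have : dd V x ≤ dist x t := Metric.infDist_le_dist_of_mem ht
  rw [Real.dist_eq, abs_sub_comm] at this
  linarith

end P4

open P4 in
/-- P4: the map is close to a similarity over `V'`. -/
theorem P4_thm (hFG : Stmt_FG) (hDD : Stmt_DD) (hBW : Stmt_BW) : Stmt_P4 := by
  intro a η V V' ha ha1 hη hη1 hA p
  obtain ⟨-, -, F3, F4, F5, F6, F7, -⟩ := hFG a ha
  obtain ⟨D1, D2, -, -, D5, -, -, -⟩ := hDD η V V' hη hη1 hA
  obtain ⟨-, -, B3, B4⟩ := hBW a η V V' ha hη hη1 hA
  have hd0 : 0 ≤ dd V' p.re := Metric.infDist_nonneg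
  rcases hd0.eq_or_lt with hd | hd
  · refine ⟨1, by simp, by simp [ha.le], ?_⟩
    intro q q' hq hq'
    rw [← hd] at hq hq'
    have e1 : q = p := by
      rw [← sub_eq_zero]
      exact norm_le_zero_iff.1 hq
    have e2 : q' = p := by
      rw [← sub_eq_zero]
      exact norm_le_zero_iff.1 hq'
    rw [e1, e2]
    simp
  · set d' := dd V' p.re with hd'
    set x₀ := p.re with hx₀
    set y₀ := p.im with hy₀
    set δ := dd V x₀ with hδ
    have hle : d' ≤ η ^ 2 * δ := D5 x₀
    have hη2 : (0 : ℝ) < η ^ 2 := by positivity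
    have hδ0 : 0 < δ := by
      by_contra hcon
      have : η ^ 2 * δ ≤ 0 := mul_nonpos_of_nonneg_of_nonpos hη2.le (not_lt.1 hcon)
      linarith
    set g := G a (η * δ) y₀ with hg
    have hga : |g| ≤ a := F5 _ _
    -- the derivative is almost constant
    have key : ∀ t r, |t - x₀| ≤ d' → |r - y₀| ≤ d' → |G a (η * dd V t) r - g| ≤ 14 * a * η := by
      intro t r ht hr
      have h1 : |dd V t - δ| ≤ d' := (D2 t x₀).trans ht
      have h1' := abs_le.1 h1
      have hη3 : η ^ 2 ≤ 1 / 10000 := by nlinarith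
      have h2 : δ / 2 ≤ dd V t := by nlinarith
      have hq0 : 0 < η * δ / 2 := by positivity
      have h3 := F7 (η * δ / 2) (η * dd V t) (η * δ) r hq0
        (by nlinarith) (by nlinarith [mul_pos hη hδ0])
      have h4 := F6 (η * δ) r y₀ (by positivity)
      have e3 : 4 * a / (η * δ / 2) * |η * dd V t - η * δ| ≤ 8 * a * η ^ 2 := by
        rw [← mul_sub, abs_mul, abs_of_pos hη]
        have : 4 * a / (η * δ / 2) * (η * |dd V t - δ|) = 8 * a / δ * |dd V t - δ| := by
          field_simp
          ring
        rw [this, div_mul_eq_mul_div, div_le_iff₀ hδ0]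
        calc 8 * a * |dd V t - δ| ≤ 8 * a * (η ^ 2 * δ) := by
              apply mul_le_mul_of_nonneg_left (h1.trans hle) (by positivity)
          _ = 8 * a * η ^ 2 * δ := by ring
      have e4 : 13 * a / (η * δ) * |r - y₀| ≤ 13 * a * η := by
        rw [div_mul_eq_mul_div, div_le_iff₀ (by positivity)]
        calc 13 * a * |r - y₀| ≤ 13 * a * (η ^ 2 * δ) := by
              apply mul_le_mul_of_nonneg_left (hr.trans hle) (by positivity)
          _ = 13 * a * η * (η * δ) := by ring
      have e5 : 8 * a * η ^ 2 ≤ a * η := by nlinarith [mul_pos ha hη]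
      calc |G a (η * dd V t) r - g|
          = |(G a (η * dd V t) r - G a (η * δ) r) + (G a (η * δ) r - g)| := by ring_nf
        _ ≤ |G a (η * dd V t) r - G a (η * δ) r| + |G a (η * δ) r - g| := abs_add_le _ _
        _ ≤ 8 * a * η ^ 2 + 13 * a * η := add_le_add (h3.trans e3) (h4.trans e4)
        _ ≤ 14 * a * η := by linarith
    set s : ℂ := ⟨1, -g⟩ with hs
    have hsn : ‖s‖ ^ 2 = 1 + g ^ 2 := by
      rw [← Complex.normSq_eq_norm_sq, Complex.normSq_apply]
      simp only [hs]
      ring
    have hs1 : 1 ≤ ‖s‖ := by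
      have h1 := Complex.abs_re_le_norm s
      have h2 : s.re = 1 := rfl
      rw [h2, abs_one] at h1
      exact h1
    have hs2 : ‖s‖ ≤ 1 + a := by
      have h1 := Complex.norm_le_abs_re_add_abs_im s
      have h2 : s.re = 1 := rfl
      have h3 : s.im = -g := rfl
      rw [h2, h3, abs_one, abs_neg] at h1
      linarith
    refine ⟨s, hs1, hs2, ?_⟩
    intro q q' hq hq'
    have hx : |q.re - x₀| ≤ d' := by
      have := Complex.abs_re_le_norm (q - p)
      rw [Complex.sub_re] at this
      exact this.trans hq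
    have hy : |q.im - y₀| ≤ d' := by
      have := Complex.abs_im_le_norm (q - p)
      rw [Complex.sub_im] at this
      exact this.trans hq
    have hx' : |q'.re - x₀| ≤ d' := by
      have := Complex.abs_re_le_norm (q' - p)
      rw [Complex.sub_re] at this
      exact this.trans hq'
    have hy' : |q'.im - y₀| ≤ d' := by
      have := Complex.abs_im_le_norm (q' - p)
      rw [Complex.sub_im] at this
      exact this.trans hq'
    set u := q.re - q'.re with hu
    set v := q.im - q'.im with hv
    -- horizontal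
    have hA1 : |Aw a η V q.re q.im - Aw a η V q'.re q.im| ≤ a * η * |u| := by
      have h1 := F3 (η * dd V q.re) (η * dd V q'.re) q.im
      refine h1.trans ?_
      rw [← mul_sub, abs_mul, abs_of_pos hη, ← mul_assoc]
      exact mul_le_mul_of_nonneg_left (D2 _ _) (by positivity)
    have hA2 : |Aw a η V q'.re q.im - Aw a η V q'.re q'.im - g * v| ≤ 14 * a * η * |v| :=
      mvt (F4 (η * dd V q'.re)) (fun r hr => key q'.re r hx' hr) hy hy'
    -- vertical
    have hB1 : |Bw a η V V' q.re q.im - Bw a η V V' q'.re q.im + g * u| ≤ 14 * a * η * |u| := by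
      apply B4
      intro t ht
      have ht' := abs_between hx hx' ht
      exact ⟨mem_of_lt ht', key t q.im ht'.le hy⟩
    have hB2 : |Bw a η V V' q'.re q.im - Bw a η V V' q'.re q'.im| ≤ 13 * a * η * |v| := B3 _ _ _
    have hre : (phi a η V V' q - phi a η V V' q' - s * (q - q')).re =
        (Aw a η V q.re q.im - Aw a η V q'.re q.im) +
          (Aw a η V q'.re q.im - Aw a η V q'.re q'.im - g * v) := by
      simp only [phi, hs, Complex.sub_re, Complex.mul_re, Complex.sub_im, hu, hv]
      ring
    have him : (phi a η V V' q - phi a η V V' q' - s * (q - q')).im =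
        (Bw a η V V' q.re q.im - Bw a η V V' q'.re q.im + g * u) +
          (Bw a η V V' q'.re q.im - Bw a η V V' q'.re q'.im) := by
      simp only [phi, hs, Complex.sub_re, Complex.mul_im, Complex.sub_im, hu, hv]
      ring
    have hu' : |u| ≤ ‖q - q'‖ := by
      have := Complex.abs_re_le_norm (q - q')
      rwa [Complex.sub_re] at this
    have hv' : |v| ≤ ‖q - q'‖ := by
      have := Complex.abs_im_le_norm (q - q')
      rwa [Complex.sub_im] at this
    have hn := Complex.norm_le_abs_re_add_abs_im (phi a η V V' q - phi a η V V' q' - s * (q - q'))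
    rw [hre, him] at hn
    have h1 := abs_add_le (Aw a η V q.re q.im - Aw a η V q'.re q.im)
      (Aw a η V q'.re q.im - Aw a η V q'.re q'.im - g * v)
    have h2 := abs_add_le (Bw a η V V' q.re q.im - Bw a η V V' q'.re q.im + g * u)
      (Bw a η V V' q'.re q.im - Bw a η V V' q'.re q'.im)
    have haη : 0 < a * η := mul_pos ha hη
    have haη1 : a * η ≤ η := by nlinarith
    have h3 : a * η * |u| ≤ η * ‖q - q'‖ := by
      apply mul_le_mul haη1 hu' (abs_nonneg _) hη.le
    have h4 : a * η * |v| ≤ η * ‖q - q'‖ := by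
      apply mul_le_mul haη1 hv' (abs_nonneg _) hη.le
    have h5 : 0 ≤ η * ‖q - q'‖ := by positivity
    nlinarith
end Pool.Agent.QL
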