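import Pool.Agent.QL.Stmts

/-!
# Module P5: the vertical lines are lengthened
-/

open MeasureTheory Set Filter Topology
open scoped ENNReal

namespace Pool.Agent.QL

namespace P5

/-- The numerical core. -/
theorem core (a D h b1 b2 : ℝ) (z0 z1 z2 : ℂ) (ha : 0 < a) (ha1 : a ≤ 1) (hD : 0 < D)
    (hh : a * D / 13 ≤ h) (h1 : |b1 - D / 8| ≤ D / 1000) (h2 : |b2 - 7 * D / 8| ≤ D / 1000)
    (e1 : z1.re - z0.re = h) (e2 : z2.re = z0.re) (e3 : z1.im - z0.im = b1)
    (e4 : z2.im - z1.im = b2) :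
    (1 + a ^ 2 / 200) * ‖z0 - z2‖ ≤ ‖z0 - z1‖ + ‖z1 - z2‖ := by
  rw [abs_le] at h1 h2
  have hb1 : 0 ≤ b1 := by linarith [h1.1]
  have hb2 : 0 ≤ b2 := by linarith [h2.1]
  have n02 : ‖z0 - z2‖ ≤ b1 + b2 := by
    refine (Complex.norm_le_abs_re_add_abs_im _).trans ?_
    rw [Complex.sub_re, Complex.sub_im, e2, sub_self, abs_zero, zero_add]
    have : z0.im - z2.im = -(b1 + b2) := by linarith
    rw [this, abs_neg, abs_of_nonneg (add_nonneg hb1 hb2)]
  have n12 : b2 ≤ ‖z1 - z2‖ := by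
    refine le_trans ?_ (Complex.abs_im_le_norm _)
    rw [Complex.sub_im]
    have : z1.im - z2.im = -b2 := by linarith
    rw [this, abs_neg]
    exact le_abs_self b2
  have ha2 : 0 < a ^ 2 := by positivity
  have ha21 : a ^ 2 ≤ 1 := by nlinarith
  have n01 : b1 + a ^ 2 * D / 100 ≤ ‖z0 - z1‖ := by
    have hsq : ‖z0 - z1‖ ^ 2 = h ^ 2 + b1 ^ 2 := by
      rw [Complex.sq_norm, Complex.normSq_apply, Complex.sub_re, Complex.sub_im]
      have r1 : z0.re - z1.re = -h := by linarith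
      have r2 : z0.im - z1.im = -b1 := by linarith
      rw [r1, r2]
      ring
    refine le_of_sq_le_sq ?_ (norm_nonneg _)
    rw [hsq]
    have k1 : (a * D / 13) ^ 2 ≤ h ^ 2 := pow_le_pow_left₀ (by positivity) hh 2
    have k2 : a ^ 2 * D * b1 ≤ a ^ 2 * D * (126 / 1000 * D) := by
      refine mul_le_mul_of_nonneg_left ?_ (by positivity)
      linarith [h1.2]
    have k3 : a ^ 2 * D * (a ^ 2 * D) ≤ a ^ 2 * D * (1 * D) := by
      refine mul_le_mul_of_nonneg_left ?_ (by positivity)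
      exact mul_le_mul_of_nonneg_right ha21 hD.le
    have k4 : 0 < a ^ 2 * D * D := by positivity
    nlinarith
  have k5 : a ^ 2 / 200 * ‖z0 - z2‖ ≤ a ^ 2 / 200 * (2 * D) := by
    refine mul_le_mul_of_nonneg_left ?_ (by positivity)
    linarith [h1.2, h2.2]
  nlinarith

end P5

/-- P5: the vertical lines are lengthened. -/
theorem P5_thm (hFG : Stmt_FG) (hDD : Stmt_DD) (hBW : Stmt_BW) : Stmt_P5 := by
  intro a η V V' ha ha1 hη hηa hA x hx
  have hη1 : η ≤ 1 / 100 := hηa.trans (by linarith)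
  obtain ⟨-, -, -, -, -, -, -, hF⟩ := hFG a ha
  obtain ⟨-, -, hpos, -, hd', -, -, -⟩ := hDD η V V' hη hη1 hA
  obtain ⟨-, -, hB, -⟩ := hBW a η V V' ha hη hη1 hA
  have hdx : 0 < dd V x := (hpos x).mpr hx
  obtain ⟨D, hD1, hD2, hD3⟩ := hF (η * dd V x) (mul_pos hη hdx)
  have hD : 0 < D := (mul_pos hη hdx).trans hD1
  refine ⟨D, hD, by linarith, ?_, ?_⟩
  · calc dd V' x ≤ η ^ 2 * dd V x := hd' x
      _ = η * (η * dd V x) := by ring
      _ ≤ η * D := mul_le_mul_of_nonneg_left hD1.le hη.le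
  · intro j
    obtain ⟨f0, f1⟩ := hD3 j
    obtain ⟨f2, -⟩ := hD3 (j + 1)
    push_cast at f2
    have hsmall : 13 * a * η ≤ 1 / 1000 := by
      have : a * η ≤ 1 * (1 / 100000) := mul_le_mul ha1 (hηa.trans (by linarith)) hη.le zero_le_one
      linarith
    have hBb : ∀ y y' : ℝ, |Bw a η V V' x y - Bw a η V V' x y'| ≤ 1 / 1000 * |y - y'| :=
      fun y y' => (hB x y y').trans (mul_le_mul_of_nonneg_right hsmall (abs_nonneg _))
    refine P5.core a D (F a (η * dd V x) ((j + 1 / 8) * D))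
      ((((j : ℝ) + 1 / 8) * D + Bw a η V V' x (((j : ℝ) + 1 / 8) * D)) -
        ((j : ℝ) * D + Bw a η V V' x ((j : ℝ) * D)))
      ((((j : ℝ) + 1) * D + Bw a η V V' x (((j : ℝ) + 1) * D)) -
        (((j : ℝ) + 1 / 8) * D + Bw a η V V' x (((j : ℝ) + 1 / 8) * D)))
      _ _ _ ha ha1 hD f1 ?_ ?_ ?_ ?_ rfl rfl
    · have := hBb (((j : ℝ) + 1 / 8) * D) ((j : ℝ) * D)
      have e : ((j : ℝ) + 1 / 8) * D - (j : ℝ) * D = D / 8 := by ring
      have e' : (0 : ℝ) < D / 8 := by linarith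
      rw [e, abs_of_pos e'] at this
      rw [abs_le] at this ⊢
      constructor <;> linarith [this.1, this.2]
    · have := hBb (((j : ℝ) + 1) * D) (((j : ℝ) + 1 / 8) * D)
      have e : ((j : ℝ) + 1) * D - ((j : ℝ) + 1 / 8) * D = 7 * D / 8 := by ring
      have e' : (0 : ℝ) < 7 * D / 8 := by linarith
      rw [e, abs_of_pos e'] at this
      rw [abs_le] at this ⊢
      constructor <;> linarith [this.1, this.2]
    · simp only [phi, Aw, f0]
      ring
    · simp only [phi, Aw, f0, f2]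

end Pool.Agent.QL
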