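import Pool.Agent.QL.StmtsU

/-!
# Existence of windows
-/

open MeasureTheory Set Filter Topology
open scoped ENNReal NNReal

namespace Pool.Agent.QL

namespace PRD

theorem ee_pos {E : ℝ} (hE : 0 < E) (n : ℕ) : 0 < ee E n := by
  unfold ee
  positivity

theorem ee_le {E : ℝ} (hE : 0 < E) (n : ℕ) : ee E n ≤ E / 4 := by
  unfold ee
  have h1 : (4 : ℝ) ≤ 4 ^ (n + 1) := by
    calc (4 : ℝ) = 4 ^ 1 := by norm_num
      _ ≤ 4 ^ (n + 1) := pow_le_pow_right₀ (by norm_num) (by omega)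
  exact div_le_div_of_nonneg_left hE.le (by norm_num) h1

theorem dya_pos (t : ℝ) : 0 < dya t := by
  unfold dya
  positivity

theorem dya_le {t : ℝ} (ht : 0 < t) : dya t ≤ t := by
  unfold dya
  exact_mod_cast Int.zpow_log_le_self (b := 2) (by norm_num) ht

variable {κ E : ℝ} {d : ℕ → ℝ → ℝ} {φ : ℕ → ℂ → ℂ}

theorem phi_lower (T : Tower κ E d φ) (n : ℕ) (q q' : ℂ) :
    (1 - κ) * ‖q - q'‖ ≤ ‖φ n q - φ n q'‖ := by
  have h := T.p3 n q q'
  have h2 := norm_sub_norm_le (q - q') (φ n q - φ n q')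
  rw [norm_sub_rev (q - q') (φ n q - φ n q')] at h2
  linarith

theorem phi_upper (T : Tower κ E d φ) (n : ℕ) (q q' : ℂ) :
    ‖φ n q - φ n q'‖ ≤ (1 + κ) * ‖q - q'‖ := by
  have h := T.p3 n q q'
  have h2 := norm_sub_norm_le (φ n q - φ n q') (q - q')
  linarith

theorem seg_lower (T : Tower κ E d φ) (n : ℕ) : ∀ q q' : ℂ,
    (1 - κ) ^ n * ‖q - q'‖ ≤ ‖seg φ 0 n q - seg φ 0 n q'‖ := by
  have hκ : 0 ≤ 1 - κ := by linarith [T.κ1]
  induction n with
  | zero =>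
    intro q q'
    simp [seg]
  | succ n ih =>
    intro q q'
    show _ ≤ ‖seg φ 0 n (φ (0 + n) q) - seg φ 0 n (φ (0 + n) q')‖
    rw [zero_add]
    calc (1 - κ) ^ (n + 1) * ‖q - q'‖ = (1 - κ) ^ n * ((1 - κ) * ‖q - q'‖) := by ring
      _ ≤ (1 - κ) ^ n * ‖φ n q - φ n q'‖ :=
        mul_le_mul_of_nonneg_left (phi_lower T n q q') (pow_nonneg hκ _)
      _ ≤ _ := ih _ _

theorem seg_upper (T : Tower κ E d φ) (n : ℕ) : ∀ q q' : ℂ,
    ‖seg φ 0 n q - seg φ 0 n q'‖ ≤ (1 + κ) ^ n * ‖q - q'‖ := by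
  have hκ : 0 ≤ 1 + κ := by linarith [T.κ0]
  induction n with
  | zero =>
    intro q q'
    simp [seg]
  | succ n ih =>
    intro q q'
    show ‖seg φ 0 n (φ (0 + n) q) - seg φ 0 n (φ (0 + n) q')‖ ≤ _
    rw [zero_add]
    calc _ ≤ (1 + κ) ^ n * ‖φ n q - φ n q'‖ := ih _ _
      _ ≤ (1 + κ) ^ n * ((1 + κ) * ‖q - q'‖) :=
        mul_le_mul_of_nonneg_left (phi_upper T n q q') (pow_nonneg hκ _)
      _ = (1 + κ) ^ (n + 1) * ‖q - q'‖ := by ring

theorem low {S : ℂ → ℂ} {σ q q' : ℂ} {M : ℝ}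
    (h : ‖S q - S q' - σ * (q - q')‖ ≤ M * ‖σ‖ * ‖q - q'‖) :
    (1 - M) * ‖σ‖ * ‖q - q'‖ ≤ ‖S q - S q'‖ := by
  have h5 := norm_sub_norm_le (σ * (q - q')) (S q - S q')
  rw [norm_sub_rev (σ * (q - q')), norm_mul] at h5
  linarith

theorem sigma_le (T : Tower κ E d φ) (n : ℕ) (p σ : ℂ) (r : ℝ) (hr : 0 < r)
    (h : ∀ q q', ‖q - p‖ ≤ r → ‖q' - p‖ ≤ r →
      ‖seg φ 0 n q - seg φ 0 n q' - σ * (q - q')‖ ≤ E * ‖σ‖ * ‖q - q'‖) :
    (1 - E) * ‖σ‖ ≤ (1 + κ) ^ n := by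
  have h3 : ‖(p + (r : ℂ)) - p‖ = r := by simp [abs_of_pos hr]
  have h1 := low (S := seg φ 0 n) (h (p + r) p (by rw [h3]) (by simpa using hr.le))
  have h2 := seg_upper T n (p + r) p
  rw [h3] at h1 h2
  exact le_of_mul_le_mul_right (h1.trans h2) hr

theorem nid_lim (hNID : Stmt_NID) (T : Tower κ E d φ) {g : ℕ → ℂ → ℂ} (G : Lims E φ g) (m : ℕ)
    (z : ℂ) : |(g m z).re - z.re| ≤ 2 * ee E m * d m z.re := by
  have h1 : Tendsto (fun n => seg φ m n z) atTop (𝓝 (g m z)) := (G.unif m).tendsto_at z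
  have h2 : Tendsto (fun n => |(seg φ m n z).re - z.re|) atTop (𝓝 |(g m z).re - z.re|) :=
    (((Complex.continuous_re.tendsto _).comp h1).sub_const z.re).abs
  exact le_of_tendsto h2 (Eventually.of_forall fun n => (hNID κ E d φ T m n).1 z)

theorem deriv_est {γ β : ℝ → ℂ} {t : ℝ} {γ' β' σ : ℂ} {M : ℝ} (hγ : HasDerivAt γ γ' t)
    (hβ : HasDerivAt β β' t)
    (h : ∀ᶠ s in 𝓝 t, ‖γ s - γ t - σ * (β s - β t)‖ ≤ M * ‖β s - β t‖) :
    ‖γ' - σ * β'‖ ≤ M * ‖β'‖ := by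
  rw [hasDerivAt_iff_tendsto_slope] at hγ hβ
  have h1 : Tendsto (fun s => ‖slope γ t s - σ * slope β t s‖) (𝓝[≠] t) (𝓝 ‖γ' - σ * β'‖) :=
    (hγ.sub (hβ.const_mul σ)).norm
  have h2 : Tendsto (fun s => M * ‖slope β t s‖) (𝓝[≠] t) (𝓝 (M * ‖β'‖)) :=
    hβ.norm.const_mul M
  refine le_of_tendsto_of_tendsto h1 h2 ?_
  have h3 : ∀ᶠ s in 𝓝[≠] t, ‖γ s - γ t - σ * (β s - β t)‖ ≤ M * ‖β s - β t‖ :=
    h.filter_mono nhdsWithin_le_nhds
  filter_upwards [h3] with s hs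
  simp only [slope_def_module]
  have h4 : (s - t)⁻¹ • (γ s - γ t) - σ * ((s - t)⁻¹ • (β s - β t)) =
      (s - t)⁻¹ • (γ s - γ t - σ * (β s - β t)) := by
    rw [mul_smul_comm, ← smul_sub]
  rw [h4, norm_smul, norm_smul]
  calc ‖(s - t)⁻¹‖ * ‖γ s - γ t - σ * (β s - β t)‖ ≤ ‖(s - t)⁻¹‖ * (M * ‖β s - β t‖) :=
        mul_le_mul_of_nonneg_left hs (norm_nonneg _)
    _ = _ := by ring

theorem pick (κ E v h₀ : ℝ) (hκ0 : 0 ≤ κ) (hκ : κ ≤ 1 / 10) (hE1 : E ≤ 1 / 100)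
    (hv : 0 < v) (hh : 0 < h₀) :
    ∃ n : ℕ, 4 * (ee E n / 100) * ((1 + κ) ^ n / (1 - E)) / v ≤ h₀ := by
  have h1 : Tendsto (fun n : ℕ => ((1 + κ) / 4) ^ n) atTop (𝓝 0) :=
    tendsto_pow_atTop_nhds_zero_of_lt_one (by positivity) (by linarith)
  have h2 : Tendsto (fun n : ℕ => (E / (100 * (1 - E) * v)) * ((1 + κ) / 4) ^ n) atTop (𝓝 0) := by
    simpa using h1.const_mul (E / (100 * (1 - E) * v))
  obtain ⟨n, hn⟩ := (h2.eventually_lt_const hh).exists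
  refine ⟨n, le_trans (le_of_eq ?_) hn.le⟩
  have h3 : (1 - E) ≠ 0 := by
    intro h
    linarith
  unfold ee
  rw [div_pow, pow_succ]
  field_simp

theorem conn {β : ℝ → ℂ} (hβ : Continuous β) (t₀ h r R : ℝ) (hh : 0 ≤ h) (hR : 0 ≤ R)
    (hRr : R < r) (H : ∀ t ∈ Icc (t₀ - h) (t₀ + h), ‖β t - β t₀‖ ≤ r → ‖β t - β t₀‖ ≤ R) :
    ∀ t ∈ Icc (t₀ - h) (t₀ + h), ‖β t - β t₀‖ ≤ R := by
  intro t ht
  by_contra hne
  have h1 : r < ‖β t - β t₀‖ := by
    by_contra h2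
    exact hne (H t ht (not_lt.1 h2))
  have hc : Continuous fun u => ‖β u - β t₀‖ := (hβ.sub continuous_const).norm
  have h2 := intermediate_value_uIcc (hc.continuousOn (s := uIcc t₀ t))
  have h3 : r ∈ uIcc ‖β t₀ - β t₀‖ ‖β t - β t₀‖ := by
    rw [sub_self, norm_zero, mem_uIcc]
    exact Or.inl ⟨by linarith, h1.le⟩
  obtain ⟨u, hu, hur⟩ := h2 h3
  have hu' : u ∈ Icc (t₀ - h) (t₀ + h) := by
    rw [mem_uIcc] at hu
    rcases hu with hu | hu
    · exact ⟨by linarith [hu.1], hu.2.trans ht.2⟩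
    · exact ⟨ht.1.trans hu.1, by linarith [hu.2]⟩
  have h4 := H u hu' (le_of_eq hur)
  have h5 : ‖β u - β t₀‖ = r := hur
  linarith

end PRD

open PRD in
/-- PRD: existence of windows. -/
theorem PRD_thm (hDD : Stmt_DD) (hNID : Stmt_NID) (hNSM : Stmt_NSM) : Stmt_PRD := by
  intro a E V g f C γ t₀ h₀ ρ v ha0 ha1 hE0 hE1 hCT hG hf hγ hv hh₀ hρ0 hρC hρ1 hmem hwin
  set φ := phs a E V with hφ
  have T := hCT.tower
  have hκ1 := T.κ1
  have hE2 := T.E1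
  have hvn : 0 < ‖v‖ := norm_pos_iff.2 hv
  have hEa : E ≤ a / 1000000 := by nlinarith
  obtain ⟨n, hn⟩ := pick (3 * a) E ‖v‖ h₀ T.κ0 hκ1 hE2 hvn hh₀
  set z : ℝ → ℂ := fun t => f.symm (γ t) with hz
  set ξ : ℝ → ℂ := fun t => g (n + 1) (z t) with hξ
  set β : ℝ → ℂ := fun t => g n (z t) with hβ
  have hβξ : ∀ t, β t = φ n (ξ t) := fun t => hG.comp n 1 (z t)
  have hγβ : ∀ t, γ t = seg φ 0 n (β t) := by
    intro t
    have h1 := hG.comp 0 n (z t)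
    rw [zero_add] at h1
    rw [← h1, ← hf]
    exact (f.apply_symm_apply (γ t)).symm
  -- the sets
  have het : ∀ m, 0 < et E m ∧ et E m ≤ 1 / 100 := by
    intro m
    have h1 := ee_pos hE0 m
    have h2 := ee_le hE0 m
    unfold et
    constructor
    · positivity
    · linarith
  obtain ⟨dn0, dnl, dnV, -⟩ := hDD (et E n) (V n) (V (n + 1)) (het n).1 (het n).2 (hCT.adm n)
  obtain ⟨dm0, dml, dmV, -⟩ := hDD (et E (n + 1)) (V (n + 1)) (V (n + 1 + 1)) (het (n + 1)).1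
    (het (n + 1)).2 (hCT.adm (n + 1))
  have hx₀ : (ξ t₀).re ∈ V (n + 1) := by
    rw [← dmV]
    have h1 := nid_lim hNID T hG (n + 1) (z t₀)
    have h2 : 0 < dd (V (n + 1)) (z t₀).re := (dmV _).2 (hmem (n + 1))
    have h3 := dml (ξ t₀).re (z t₀).re
    have h4 := ee_le hE0 (n + 1)
    have h5 := ee_pos hE0 (n + 1)
    have h6 := neg_abs_le (dd (V (n + 1)) (ξ t₀).re - dd (V (n + 1)) (z t₀).re)
    have h7 : 2 * ee E (n + 1) * dd (V (n + 1)) (z t₀).re ≤ 1 / 2 * dd (V (n + 1)) (z t₀).re :=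
      mul_le_mul_of_nonneg_right (by linarith) h2.le
    have h8 : |(ξ t₀).re - (z t₀).re| ≤ 1 / 2 * dd (V (n + 1)) (z t₀).re := h1.trans h7
    linarith
  have hxV : (ξ t₀).re ∈ V n := (hCT.adm n).sub hx₀
  have hdx : 0 < dd (V n) (ξ t₀).re := (dnV _).2 hxV
  have hηd : 0 < et E n * dd (V n) (ξ t₀).re := mul_pos (het n).1 hdx
  set D := dya (et E n * dd (V n) (ξ t₀).re) with hD
  have hD0 : 0 < D := dya_pos _
  have hD1 : D ≤ et E n * dd (V n) (ξ t₀).re := dya_le hηd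
  have hee0 := ee_pos hE0 n
  have hee1 := ee_le hE0 n
  have hD2 : D ≤ 1 / 100 * (1 / 100) * dd (V n) (ξ t₀).re := by
    refine hD1.trans (mul_le_mul_of_nonneg_right ?_ hdx.le)
    unfold et
    linarith
  -- the similarity
  set p := β t₀ with hp
  have hp1 : |p.re - (ξ t₀).re| ≤ ee E n * dd (V n) (ξ t₀).re := by
    rw [hp, hβξ]
    exact T.p1 n (ξ t₀)
  set r := dd (V n) p.re / 2 with hr
  have hr1 : 49 / 100 * dd (V n) (ξ t₀).re ≤ r := by
    have h1 := dnl p.re (ξ t₀).re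
    have h2 := neg_abs_le (dd (V n) p.re - dd (V n) (ξ t₀).re)
    have h3 : ee E n * dd (V n) (ξ t₀).re ≤ 1 / 100 * dd (V n) (ξ t₀).re :=
      mul_le_mul_of_nonneg_right (by linarith) hdx.le
    rw [hr]
    linarith
  have hr0 : 0 < r := lt_of_lt_of_le (by positivity) hr1
  obtain ⟨σ, hσ1, hσ⟩ := hNSM (3 * a) E (fun n => dd (V n)) φ T n p
  have hσ' : ∀ q q', ‖q - p‖ ≤ r → ‖q' - p‖ ≤ r →
      ‖seg φ 0 n q - seg φ 0 n q' - σ * (q - q')‖ ≤ E * ‖σ‖ * ‖q - q'‖ := hσ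
  have hσ0 : 0 < ‖σ‖ := by linarith
  have hσne : σ ≠ 0 := norm_pos_iff.1 hσ0
  have hσ2 := sigma_le T n p σ r hr0 hσ'
  have h1E : 0 < 1 - E := by linarith
  -- the velocity and the length of the window
  set w := v / σ with hw
  have hwn : ‖w‖ = ‖v‖ / ‖σ‖ := norm_div _ _
  have hw0 : 0 < ‖w‖ := by rw [hwn]; positivity
  have hvw : ‖v‖ = ‖σ‖ * ‖w‖ := by rw [hwn]; field_simp
  have hσw : σ * w = v := by rw [hw]; field_simp
  set h := 4 * D / ‖w‖ with hh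
  have hh0 : 0 < h := by positivity
  have hhw : h * ‖w‖ = 4 * D := by rw [hh]; field_simp
  have hhv : h * ‖v‖ = 4 * D * ‖σ‖ := by rw [hvw, ← hhw]; ring
  have hhh₀ : h ≤ h₀ := by
    refine le_trans ?_ hn
    have h1 : D ≤ ee E n / 100 := by
      have h2 := (hCT.adm n).dle (ξ t₀).re
      calc D ≤ et E n * dd (V n) (ξ t₀).re := hD1
        _ ≤ et E n * 1 := mul_le_mul_of_nonneg_left h2 (het n).1.le
        _ = ee E n / 100 := by unfold et; ring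
    have h2 : ‖σ‖ ≤ (1 + 3 * a) ^ n / (1 - E) := by
      rw [le_div_iff₀ h1E]
      linarith
    have h3 : h = 4 * D * ‖σ‖ / ‖v‖ := by
      rw [eq_div_iff hvn.ne', hhv]
    rw [h3]
    refine div_le_div_of_nonneg_right ?_ hvn.le
    exact mul_le_mul (by linarith) h2 hσ0.le (by positivity)
  obtain ⟨hw1, hw2⟩ := hwin h hh0 hhh₀
  -- Lipschitz
  have hκ2 : 0 < 1 - 3 * a := by linarith
  have hβγ : ∀ s t, (1 - 3 * a) ^ n * ‖β s - β t‖ ≤ ‖γ s - γ t‖ := by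
    intro s t
    rw [hγβ s, hγβ t]
    exact seg_lower T n _ _
  have hξβ : ∀ s t, (1 - 3 * a) * ‖ξ s - ξ t‖ ≤ ‖β s - β t‖ := by
    intro s t
    rw [hβξ s, hβξ t]
    exact phi_lower T n _ _
  have hγl : ∀ s t, ‖γ s - γ t‖ ≤ C * |s - t| := by
    intro s t
    have := hγ.dist_le_mul s t
    rwa [dist_eq_norm, Real.dist_eq] at this
  have hβL : LipschitzWith (Real.toNNReal (C / (1 - 3 * a) ^ n)) β := by
    refine LipschitzWith.of_dist_le_mul fun s t => ?_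
    rw [dist_eq_norm, Real.dist_eq, Real.coe_toNNReal _ (by positivity), div_mul_eq_mul_div,
      le_div_iff₀ (by positivity), mul_comm]
    exact (hβγ s t).trans (hγl s t)
  have hξL : LipschitzWith (Real.toNNReal (C / (1 - 3 * a) ^ (n + 1))) ξ := by
    refine LipschitzWith.of_dist_le_mul fun s t => ?_
    rw [dist_eq_norm, Real.dist_eq, Real.coe_toNNReal _ (by positivity), div_mul_eq_mul_div,
      le_div_iff₀ (by positivity), mul_comm]
    calc (1 - 3 * a) ^ (n + 1) * ‖ξ s - ξ t‖ = (1 - 3 * a) ^ n * ((1 - 3 * a) * ‖ξ s - ξ t‖) := by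
          ring
      _ ≤ (1 - 3 * a) ^ n * ‖β s - β t‖ :=
          mul_le_mul_of_nonneg_left (hξβ s t) (by positivity)
      _ ≤ _ := (hβγ s t).trans (hγl s t)
  -- the curve stays in the ball
  have hball : ∀ t ∈ Icc (t₀ - h) (t₀ + h), ‖β t - p‖ ≤ 5 * D := by
    refine conn hβL.continuous t₀ h r (5 * D) hh0.le (by positivity) (by linarith) ?_
    intro t ht hle
    have h1 := low (S := seg φ 0 n) (hσ' (β t) p hle (by simpa using hr0.le))
    rw [hp, ← hγβ t, ← hγβ t₀, ← hp] at h1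
    have h2 := hw2 t ht
    have h3 : ‖γ t - γ t₀‖ ≤ ‖γ t - γ t₀ - (t - t₀) • v‖ + ‖(t - t₀) • v‖ := by
      have := norm_add_le (γ t - γ t₀ - (t - t₀) • v) ((t - t₀) • v)
      rwa [sub_add_cancel] at this
    have h4 : ‖(t - t₀) • v‖ ≤ h * ‖v‖ := by
      rw [norm_smul, Real.norm_eq_abs]
      refine mul_le_mul_of_nonneg_right ?_ hvn.le
      rw [abs_le]
      constructor <;> linarith [ht.1, ht.2]
    have h5 : ρ * h ≤ 1 / 1000 * (h * ‖v‖) := by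
      have h6 : ρ ≤ 1 / 1000 * ‖v‖ := by
        refine hρ1.trans (mul_le_mul_of_nonneg_right ?_ hvn.le)
        linarith
      calc ρ * h ≤ 1 / 1000 * ‖v‖ * h := mul_le_mul_of_nonneg_right h6 hh0.le
        _ = _ := by ring
    have h6 : (1 - E) * ‖σ‖ * ‖β t - p‖ ≤ (1 + 1 / 1000) * (4 * D * ‖σ‖) := by
      rw [← hhv]
      linarith
    have h7 : (1 - E) * ‖β t - p‖ ≤ (1 + 1 / 1000) * (4 * D) := by
      refine le_of_mul_le_mul_right (a := ‖σ‖) ?_ hσ0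
      calc (1 - E) * ‖β t - p‖ * ‖σ‖ = (1 - E) * ‖σ‖ * ‖β t - p‖ := by ring
        _ ≤ _ := h6
        _ = _ := by ring
    have h8 : 99 / 100 * ‖β t - p‖ ≤ (1 - E) * ‖β t - p‖ :=
      mul_le_mul_of_nonneg_right (by linarith) (norm_nonneg _)
    linarith
  have hball' : ∀ t ∈ Icc (t₀ - h) (t₀ + h), ‖β t - p‖ ≤ r := fun t ht =>
    (hball t ht).trans (by linarith)
  have hsim : ∀ s ∈ Icc (t₀ - h) (t₀ + h), ∀ t ∈ Icc (t₀ - h) (t₀ + h),
      ‖γ s - γ t - σ * (β s - β t)‖ ≤ E * ‖σ‖ * ‖β s - β t‖ := by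
    intro s hs t ht
    have := hσ' (β s) (β t) (hball' s hs) (hball' t ht)
    rwa [← hγβ, ← hγβ] at this
  -- Lipschitz in the window
  have hξl : ∀ s ∈ Icc (t₀ - h) (t₀ + h), ∀ t ∈ Icc (t₀ - h) (t₀ + h),
      ‖ξ s - ξ t‖ ≤ 13 / 10 * C / ‖σ‖ * |s - t| := by
    intro s hs t ht
    have h1 : (1 - E) * ‖σ‖ * ‖β s - β t‖ ≤ ‖γ s - γ t‖ := by
      have h5 := norm_sub_norm_le (σ * (β s - β t)) (γ s - γ t)
      rw [norm_sub_rev (σ * (β s - β t)), norm_mul] at h5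
      linarith [hsim s hs t ht]
    have h2 := hγl s t
    have h3 := hξβ s t
    have h4 : 9 / 10 * ‖ξ s - ξ t‖ ≤ ‖β s - β t‖ :=
      le_trans (mul_le_mul_of_nonneg_right (by linarith) (norm_nonneg _)) h3
    have h5 : (99 / 100) * (‖σ‖ * ‖β s - β t‖) ≤ C * |s - t| := by
      have : 99 / 100 * (‖σ‖ * ‖β s - β t‖) ≤ (1 - E) * (‖σ‖ * ‖β s - β t‖) :=
        mul_le_mul_of_nonneg_right (by linarith) (by positivity)
      linarith
    have h6 : ‖σ‖ * (9 / 10 * ‖ξ s - ξ t‖) ≤ ‖σ‖ * ‖β s - β t‖ :=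
      mul_le_mul_of_nonneg_left h4 hσ0.le
    have h7 : ‖ξ s - ξ t‖ * ‖σ‖ ≤ 13 / 10 * C * |s - t| := by
      have h8 : 0 ≤ C * |s - t| := by positivity
      nlinarith [h5, h6, h8]
    rw [div_mul_eq_mul_div, le_div_iff₀ hσ0]
    exact h7
  have hder : ∀ t ∈ Ioo (t₀ - h) (t₀ + h), ‖deriv ξ t‖ ≤ 13 / 10 * C / ‖σ‖ := by
    intro t ht
    have h1 : LipschitzOnWith (Real.toNNReal (13 / 10 * C / ‖σ‖)) ξ (Icc (t₀ - h) (t₀ + h)) := by
      refine LipschitzOnWith.of_dist_le_mul fun s hs u hu => ?_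
      rw [dist_eq_norm, Real.dist_eq, Real.coe_toNNReal _ (by positivity)]
      exact hξl s hs u hu
    have h2 := norm_deriv_le_of_lipschitzOn (Icc_mem_nhds ht.1 ht.2) h1
    rwa [Real.coe_toNNReal _ (by positivity)] at h2
  have hne1 : ∀ᵐ t : ℝ, t ≠ t₀ - h := by simp [ae_iff]
  have hne2 : ∀ᵐ t : ℝ, t ≠ t₀ + h := by simp [ae_iff]
  have hC0 : (0 : ℝ) ≤ C := C.2
  -- the bad set
  set Bad : Set ℝ := {t | ¬ (DifferentiableAt ℝ γ t ∧ ‖deriv γ t - v‖ ≤ ρ)} ∪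
    {t | ¬ DifferentiableAt ℝ ξ t} ∪ {t | ¬ DifferentiableAt ℝ β t} ∪ {t₀ - h, t₀ + h} with hBad
  have hBm : MeasurableSet Bad := by
    refine MeasurableSet.union (MeasurableSet.union (MeasurableSet.union ?_ ?_) ?_) ?_
    · refine MeasurableSet.compl (MeasurableSet.inter (measurableSet_of_differentiableAt ℝ γ) ?_)
      exact measurableSet_le ((measurable_deriv γ).sub_const v).norm measurable_const
    · exact (measurableSet_of_differentiableAt ℝ ξ).compl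
    · exact (measurableSet_of_differentiableAt ℝ β).compl
    · exact (Set.toFinite _).measurableSet
  have hBv : (volume (Bad ∩ Icc (t₀ - h) (t₀ + h))).toReal ≤ ρ * h := by
    refine le_trans (ENNReal.toReal_mono ?_ ?_) hw1
    · have h1 : volume {t | t ∈ Icc (t₀ - h) (t₀ + h) ∧
          ¬ (DifferentiableAt ℝ γ t ∧ ‖deriv γ t - v‖ ≤ ρ)} ≤ volume (Icc (t₀ - h) (t₀ + h)) :=
        measure_mono fun t ht => ht.1
      exact ne_top_of_le_ne_top (by rw [Real.volume_Icc]; exact ENNReal.ofReal_ne_top) h1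
    · refine measure_mono_ae ?_
      filter_upwards [hβL.ae_differentiableAt, hξL.ae_differentiableAt, hne1, hne2] with
        t h1 h2 h3 h4 h5
      rcases h5 with ⟨((h5 | h5) | h5) | h5, h6⟩
      · exact ⟨h6, h5⟩
      · exact absurd h2 h5
      · exact absurd h1 h5
      · rcases h5 with h5 | h5
        · exact absurd h5 h3
        · exact absurd h5 h4
  refine ⟨n, h, 13 / 10 * (C + ‖v‖) / ‖σ‖, a / 10000, w, Bad, hh0, hhh₀, ?_⟩
  have hCC : 13 / 10 * C / ‖σ‖ ≤ 13 / 10 * (C + ‖v‖) / ‖σ‖ :=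
    div_le_div_of_nonneg_right (by linarith) hσ0.le
  refine
    { a0 := ha0
      a1 := ha1
      η0 := (het n).1
      η1 := ?_
      ρ0 := by positivity
      ρ1 := le_rfl
      adm := hCT.adm n
      wC := ?_
      hw := hw0
      hh := hhw
      mem := hxV
      lip := ⟨_, hξL⟩
      bd := ?_
      mb := hBm
      good := ?_
      small := ?_ }
  · unfold et
    linarith
  · rw [hwn]
    exact div_le_div_of_nonneg_right (by linarith) hσ0.le
  · filter_upwards [hne1, hne2] with t h1 h2 h3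
    exact (hder t ⟨lt_of_le_of_ne h3.1 (Ne.symm h1), lt_of_le_of_ne h3.2 h2⟩).trans hCC
  · intro t ht htB
    simp only [hBad, mem_union, not_or] at htB
    obtain ⟨⟨⟨h1, h2⟩, h3⟩, h4⟩ := htB
    have h1' : DifferentiableAt ℝ γ t ∧ ‖deriv γ t - v‖ ≤ ρ := by
      by_contra h5
      exact h1 h5
    have h2' : DifferentiableAt ℝ ξ t := by
      by_contra h5
      exact h2 h5
    have h3' : DifferentiableAt ℝ β t := by
      by_contra h5
      exact h3 h5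
    have h4' : t ∈ Ioo (t₀ - h) (t₀ + h) := by
      refine ⟨lt_of_le_of_ne ht.1 ?_, lt_of_le_of_ne ht.2 ?_⟩
      · intro h5
        exact h4 (Or.inl h5.symm)
      · intro h5
        exact h4 (Or.inr h5)
    have hfun : (fun s => phi a (et E n) (V n) (V (n + 1)) (ξ s)) = β := by
      funext s
      exact (hβξ s).symm
    refine ⟨h2', ?_, ?_⟩
    · rw [hfun]
      exact h3'
    · rw [hfun]
      have h5 := deriv_est h1'.1.hasDerivAt h3'.hasDerivAt (σ := σ) (M := E * ‖σ‖) (by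
        filter_upwards [Icc_mem_nhds h4'.1 h4'.2] with s hs
        exact hsim s hs t ht)
      have h6 : ‖σ‖ * ‖deriv β t - w‖ ≤ E * ‖σ‖ * ‖deriv β t‖ + ρ := by
        rw [← norm_mul]
        have h7 : σ * (deriv β t - w) = (σ * deriv β t - deriv γ t) + (deriv γ t - v) := by
          rw [mul_sub, hσw]
          ring
        rw [h7]
        have h8 := norm_add_le (σ * deriv β t - deriv γ t) (deriv γ t - v)
        rw [norm_sub_rev (σ * deriv β t)] at h8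
        linarith [h1'.2]
      have h7 : ‖deriv β t‖ ≤ ‖w‖ + ‖deriv β t - w‖ := by
        have := norm_add_le w (deriv β t - w)
        rwa [add_sub_cancel] at this
      have h8 : ρ ≤ a / 1000000 * (‖σ‖ * ‖w‖) := by rw [← hvw]; exact hρ1
      have h9 : ‖σ‖ * ‖deriv β t - w‖ ≤
          ‖σ‖ * (E * (‖w‖ + ‖deriv β t - w‖) + a / 1000000 * ‖w‖) := by
        have h10 : E * ‖σ‖ * ‖deriv β t‖ ≤ E * ‖σ‖ * (‖w‖ + ‖deriv β t - w‖) :=
          mul_le_mul_of_nonneg_left h7 (by positivity)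
        calc ‖σ‖ * ‖deriv β t - w‖ ≤ E * ‖σ‖ * (‖w‖ + ‖deriv β t - w‖) +
              a / 1000000 * (‖σ‖ * ‖w‖) := by linarith
          _ = _ := by ring
      have h10 := le_of_mul_le_mul_left h9 hσ0
      have h11 : E * ‖w‖ ≤ a / 1000000 * ‖w‖ := mul_le_mul_of_nonneg_right hEa hw0.le
      have h12 : E * ‖deriv β t - w‖ ≤ 1 / 100 * ‖deriv β t - w‖ :=
        mul_le_mul_of_nonneg_right hE2 (norm_nonneg _)
      have h13 : 0 < a * ‖w‖ := by positivity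
      linarith
  · have h1 : 13 / 10 * (C + ‖v‖) / ‖σ‖ * (volume (Bad ∩ Icc (t₀ - h) (t₀ + h))).toReal ≤
        13 / 10 * (C + ‖v‖) / ‖σ‖ * (ρ * h) :=
      mul_le_mul_of_nonneg_left hBv (by positivity)
    refine h1.trans ?_
    have h2 : 13 / 10 * (C + ‖v‖) / ‖σ‖ * (ρ * h) = 13 / 10 * (ρ * (C + ‖v‖)) * (h / ‖σ‖) := by
      field_simp
    have h3 : h / ‖σ‖ = 4 * D / ‖v‖ := by
      rw [div_eq_div_iff hσ0.ne' hvn.ne', hhv]
    rw [h2, h3]
    calc 13 / 10 * (ρ * (C + ‖v‖)) * (4 * D / ‖v‖)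
        ≤ 13 / 10 * (a / 1000000 * ‖v‖) * (4 * D / ‖v‖) := by
          refine mul_le_mul_of_nonneg_right ?_ (by positivity)
          linarith
      _ = 52 / 10000000 * a * D := by
          field_simp
          ring
      _ ≤ a / 10000 * D := by
          have : 0 < a * D := by positivity
          linarith

end Pool.Agent.QL
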