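import Pool.Agent.QL.StmtsU

/-!
# PUR: pure unrectifiability
-/

open MeasureTheory Set Filter Topology
open scoped ENNReal NNReal

namespace Pool.Agent.QL.PUR

theorem ee_pos {E : ℝ} (hE : 0 < E) (n : ℕ) : 0 < ee E n := by
  unfold ee
  positivity

theorem ee_le {E : ℝ} (hE : 0 < E) (n : ℕ) : ee E n ≤ E / 4 := by
  unfold ee
  refine div_le_div_of_nonneg_left hE.le (by norm_num) ?_
  calc (4 : ℝ) = 4 ^ 1 := by norm_num
    _ ≤ 4 ^ (n + 1) := pow_le_pow_right₀ (by norm_num) (by omega)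

/-- The limit maps move the points horizontally by a small amount. -/
theorem near_re {κ E : ℝ} {d : ℕ → ℝ → ℝ} {φ g : ℕ → ℂ → ℂ} (hNID : Stmt_NID)
    (hT : Tower κ E d φ) (hg : Lims E φ g) (m : ℕ) (q : ℂ) :
    |(g m q).re - q.re| ≤ 2 * ee E m * d m q.re := by
  have h1 : Tendsto (fun n => seg φ m n q) atTop (𝓝 (g m q)) := (hg.unif m).tendsto_at q
  have h2 : Tendsto (fun n => |(seg φ m n q).re - q.re|) atTop (𝓝 |(g m q).re - q.re|) :=
    (((Complex.continuous_re.tendsto _).comp h1).sub_const _).abs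
  exact le_of_tendsto' h2 fun n => (hNID κ E d φ hT m n).1 q

theorem mem_of_mem {a E : ℝ} {V : ℕ → Set ℝ} {g : ℕ → ℂ → ℂ} (hDD : Stmt_DD) (hNID : Stmt_NID)
    (hE : 0 < E) (hE1 : E ≤ 1 / 10) (hT : CTower a E V) (hg : Lims E (phs a E V) g) (m : ℕ)
    (q : ℂ) (hq : q.re ∈ V m) : (g m q).re ∈ V m := by
  have hη : 0 < et E m := div_pos (ee_pos hE m) (by norm_num)
  have hη1 : et E m ≤ 1 / 100 := by
    have := ee_le hE m
    unfold et
    linarith
  obtain ⟨-, -, h3, h4, -⟩ := hDD (et E m) (V m) (V (m + 1)) hη hη1 (hT.adm m)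
  refine h4 q.re _ ?_
  have h5 := near_re hNID hT.tower hg m q
  have h6 : 0 < dd (V m) q.re := (h3 _).2 hq
  have h7 := ee_le hE m
  have h8 := ee_pos hE m
  have h9 : 2 * ee E m * dd (V m) q.re < 1 * dd (V m) q.re := by
    apply mul_lt_mul_of_pos_right _ h6
    linarith
  rw [one_mul] at h9
  exact h5.trans_lt h9

end Pool.Agent.QL.PUR

namespace Pool.Agent.QL

open Pool.Agent.QL.PUR in
theorem PUR_thm (hDD : Stmt_DD) (hNID : Stmt_NID) (hAREA : Stmt_AREA) (hLEB : Stmt_LEB)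
    (hPRD : Stmt_PRD) (hWND : Stmt_WND) : Stmt_PUR := by
  intro a E V g f ha ha1 hE hE1 hV hg hf C γ hγ
  have hE2 : E ≤ 1 / 10 := by
    have : a ^ 2 ≤ 1 := by nlinarith
    linarith
  set T : Set ℝ := {t | ∀ n, (f.symm (γ t)).re ∈ V n} with hTdef
  have hTm : MeasurableSet T := by
    have h1 : T = ⋂ n, (fun t => (f.symm (γ t)).re) ⁻¹' V n := by
      ext t
      simp [hTdef]
    rw [h1]
    refine MeasurableSet.iInter fun n => ?_
    refine IsOpen.measurableSet ((hV.adm n).oV.preimage ?_)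
    exact Complex.continuous_re.comp (f.symm.continuous.comp hγ.continuous)
  have hsub : range γ ∩ f '' {z : ℂ | ∀ n, z.re ∈ V n} ⊆ γ '' T := by
    rintro _ ⟨⟨t, rfl⟩, z, hz, hzt⟩
    refine ⟨t, fun n => ?_, rfl⟩
    rw [← hzt, f.symm_apply_apply]
    exact hz n
  refine measure_mono_null hsub (hAREA C γ hγ T ?_)
  by_contra hcon
  obtain ⟨t₀, ht₀, v, hv, hL⟩ := hLEB C γ hγ T hTm hcon
  have hv' : 0 < ‖v‖ := norm_pos_iff.2 hv
  have hC : (0 : ℝ) ≤ C := C.2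
  have hCv : 0 < (C : ℝ) + ‖v‖ := by linarith
  set ρ : ℝ := min (a / 1000000 * ‖v‖ / (C + ‖v‖)) (min (a / 1000000 * ‖v‖) (1 / 100)) with hρdef
  have hρ : 0 < ρ := by
    refine lt_min (by positivity) (lt_min (by positivity) (by norm_num))
  have hρ1 : ρ * (C + ‖v‖) ≤ a / 1000000 * ‖v‖ := by
    have h1 : ρ ≤ a / 1000000 * ‖v‖ / (C + ‖v‖) := min_le_left _ _
    exact (le_div_iff₀ hCv).1 h1
  have hρ2 : ρ ≤ a / 1000000 * ‖v‖ := (min_le_right _ _).trans (min_le_left _ _)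
  have hρ3 : ρ ≤ 1 / 100 := (min_le_right _ _).trans (min_le_right _ _)
  obtain ⟨h₀, hh₀, hL'⟩ := hL ρ hρ
  obtain ⟨n, h, C', ρ', w, Bad, hh, hhh₀, hW⟩ := hPRD a E V g f C γ t₀ h₀ ρ v ha ha1 hE hE1 hV hg hf
    hγ hv hh₀ hρ hρ1 hρ2 ht₀ (fun h h1 h2 => (hL' h h1 h2).2)
  obtain ⟨α, β, h1, h2, h3, h4, h5⟩ := hWND _ _ _ _ _ _ _ _ _ _ _ hW
  have h6 := (hL' h hh hhh₀).1
  have h7 : Icc α β ∩ T ⊆ {t | t ∈ Icc α β ∧ (g (n + 1) (f.symm (γ t))).re ∈ V (n + 1)} := by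
    rintro t ⟨ht, htT⟩
    exact ⟨ht, mem_of_mem hDD hNID hE hE2 hV hg (n + 1) _ (htT (n + 1))⟩
  have hfin1 : volume {t | t ∈ Icc α β ∧ (g (n + 1) (f.symm (γ t))).re ∈ V (n + 1)} ≠ ⊤ :=
    ((measure_mono (fun t ht => ht.1)).trans_lt (measure_Icc_lt_top (a := α) (b := β))).ne
  have hfin2 : volume (Icc (t₀ - h) (t₀ + h) \ T) ≠ ⊤ :=
    ((measure_mono sdiff_subset).trans_lt (measure_Icc_lt_top (a := t₀ - h) (b := t₀ + h))).ne
  have h8 : (volume (Icc α β ∩ T)).toReal ≤ (β - α) / 2 :=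
    (ENNReal.toReal_mono hfin1 (measure_mono h7)).trans h5
  have h9 : (volume (Icc α β \ T)).toReal ≤ ρ * h := by
    refine (ENNReal.toReal_mono hfin2 (measure_mono ?_)).trans h6
    exact sdiff_subset_sdiff_left (Icc_subset_Icc h1 h3)
  have h10 : β - α = (volume (Icc α β ∩ T)).toReal + (volume (Icc α β \ T)).toReal := by
    rw [← ENNReal.toReal_add, measure_inter_add_sdiff _ hTm, Real.volume_Icc,
      ENNReal.toReal_ofReal (by linarith)]
    · exact ((measure_mono inter_subset_left).trans_lt (measure_Icc_lt_top (a := α) (b := β))).ne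
    · exact ((measure_mono sdiff_subset).trans_lt (measure_Icc_lt_top (a := α) (b := β))).ne
  nlinarith

end Pool.Agent.QL
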