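import Pool.Agent.QL.Stmts

/-!
# Quasiconformal images of null families of parallel lines: module QS

The compositions are uniformly weakly quasisymmetric.
-/

open MeasureTheory Set Filter Topology
open scoped ENNReal

namespace Pool.Agent.QL.QS

theorem seg_add (φ : ℕ → ℂ → ℂ) (m a b : ℕ) :
    seg φ m (a + b) = seg φ m a ∘ seg φ (m + a) b := by
  induction b with
  | zero => rfl
  | succ b ih =>
    have h1 : seg φ m (a + (b + 1)) = seg φ m (a + b) ∘ φ (m + (a + b)) := rfl
    have h2 : seg φ (m + a) (b + 1) = seg φ (m + a) b ∘ φ (m + a + b) := rfl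
    rw [h1, h2, ih, ← add_assoc]
    rfl

theorem ee_nonneg {E : ℝ} (hE : 0 < E) (n : ℕ) : 0 ≤ ee E n := by
  unfold ee; positivity

theorem ee_le {E : ℝ} (hE : 0 < E) (n : ℕ) : ee E n ≤ E / 4 := by
  unfold ee
  have h : (4 : ℝ) ≤ 4 ^ (n + 1) := by
    calc (4 : ℝ) = 4 ^ 1 := by norm_num
      _ ≤ 4 ^ (n + 1) := pow_le_pow_right₀ (by norm_num) (by omega)
  exact div_le_div_of_nonneg_left hE.le (by norm_num) h

variable {κ E : ℝ} {d : ℕ → ℝ → ℝ} {φ : ℕ → ℂ → ℂ}

/-- The tails are close to the identity at scales larger than `d`. -/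
theorem tail (hNID : Stmt_NID) (hT : Tower κ E d φ) (m n : ℕ) (x : ℂ) (r : ℝ)
    (hd : d m (seg φ m n x).re < 4 * r) (w : ℂ) (hw : ‖w - x‖ ≤ r) :
    ‖seg φ m n x - seg φ m n w - (x - w)‖ ≤ 3 * E * r := by
  obtain ⟨h1, h2⟩ := hNID κ E d φ hT m n
  have hE := hT.E0
  have hE1 := hT.E1
  have he0 := ee_nonneg hE m
  have he1 := ee_le hE m
  have h3 := h1 x
  have h4 := hT.dl m x.re (seg φ m n x).re
  have h5 : |x.re - (seg φ m n x).re| = |(seg φ m n x).re - x.re| := abs_sub_comm _ _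
  have h6 : d m x.re ≤ d m (seg φ m n x).re + |(seg φ m n x).re - x.re| := by
    have := le_abs_self (d m x.re - d m (seg φ m n x).re)
    linarith
  have hdn := hT.dn m x.re
  have h7 : 2 * ee E m * d m x.re ≤ 1 / 200 * d m x.re := by
    apply mul_le_mul_of_nonneg_right _ hdn
    linarith
  have h8 : d m x.re ≤ 4.05 * r := by
    have hr : 0 ≤ r := le_trans (norm_nonneg _) hw
    nlinarith
  have h9 := h2 x w
  have h10 : ‖x - w‖ ≤ r := by rw [norm_sub_rev]; exact hw
  have hr : 0 ≤ r := le_trans (norm_nonneg _) hw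
  calc ‖seg φ m n x - seg φ m n w - (x - w)‖ ≤ 2 * ee E m * (‖x - w‖ + d m x.re) := h9
    _ ≤ (E / 2) * (r + 4.05 * r) := by
        apply mul_le_mul
        · linarith
        · linarith
        · positivity
        · positivity
    _ ≤ 3 * E * r := by nlinarith [mul_nonneg hE.le hr]

theorem upper {a b : ℂ} {e : ℝ} (h : ‖a - b‖ ≤ e) : ‖a‖ ≤ ‖b‖ + e := by
  have := norm_sub_norm_le a b
  linarith

theorem lower {a b : ℂ} {e : ℝ} (h : ‖a - b‖ ≤ e) : ‖b‖ - e ≤ ‖a‖ := by
  have := norm_sub_norm_le b a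
  rw [norm_sub_rev] at this
  linarith

theorem final {κ E s r A B : ℝ} (hκ : 0 ≤ κ) (hκ1 : κ ≤ 1 / 10) (hE : 0 < E) (hE1 : E ≤ 1 / 100)
    (hs : 0 ≤ s) (hr : 0 ≤ r)
    (hA : A ≤ s * (1 + E) * ((1 + κ) * (1 + 3 * E) * r))
    (hB : s * (1 - E) * ((1 - κ) * (1 - 3 * E) * r) ≤ B) :
    A ≤ (((1 + κ) * (1 + 5 * E)) / ((1 - κ) * (1 - 5 * E))) * B := by
  have h1 : (0 : ℝ) < (1 - κ) * (1 - 5 * E) := by
    apply mul_pos <;> linarith
  rw [div_mul_eq_mul_div, le_div_iff₀ h1]
  have h2 : (1 + E) * (1 + 3 * E) ≤ 1 + 5 * E := by nlinarith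
  have h3 : 1 - 5 * E ≤ (1 - E) * (1 - 3 * E) := by nlinarith
  have h4 : A ≤ s * r * (1 + κ) * (1 + 5 * E) := by
    calc A ≤ s * (1 + E) * ((1 + κ) * (1 + 3 * E) * r) := hA
      _ = s * r * (1 + κ) * ((1 + E) * (1 + 3 * E)) := by ring
      _ ≤ s * r * (1 + κ) * (1 + 5 * E) := by
        apply mul_le_mul_of_nonneg_left h2
        positivity
  have h5 : s * r * (1 - κ) * (1 - 5 * E) ≤ B := by
    calc s * r * (1 - κ) * (1 - 5 * E) ≤ s * r * (1 - κ) * ((1 - E) * (1 - 3 * E)) := by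
          apply mul_le_mul_of_nonneg_left h3
          have : 0 ≤ 1 - κ := by linarith
          positivity
      _ = s * (1 - E) * ((1 - κ) * (1 - 3 * E) * r) := by ring
      _ ≤ B := hB
  calc A * ((1 - κ) * (1 - 5 * E))
      ≤ s * r * (1 + κ) * (1 + 5 * E) * ((1 - κ) * (1 - 5 * E)) :=
        mul_le_mul_of_nonneg_right h4 h1.le
    _ = (1 + κ) * (1 + 5 * E) * (s * r * (1 - κ) * (1 - 5 * E)) := by ring
    _ ≤ (1 + κ) * (1 + 5 * E) * B := by
        apply mul_le_mul_of_nonneg_left h5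
        positivity

end Pool.Agent.QL.QS

namespace Pool.Agent.QL

open QS

theorem QS_thm (hNID : Stmt_NID) (hNSM : Stmt_NSM) : Stmt_QS := by
  classical
  intro κ E d φ hT N x y z hyz
  have hκ := hT.κ0
  have hκ1 := hT.κ1
  have hE := hT.E0
  have hE1 := hT.E1
  set r : ℝ := dist z x with hr
  have hr0 : 0 ≤ r := dist_nonneg
  have hz : ‖z - x‖ = r := by rw [hr, dist_eq_norm]
  have hy : ‖y - x‖ ≤ r := by rw [← dist_eq_norm]; exact hyz
  rcases hr0.eq_or_lt with h0 | hrpos
  · have h1 : y = x := by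
      rw [← h0] at hy
      exact sub_eq_zero.mp (norm_le_zero_iff.mp hy)
    have h2 : z = x := by
      rw [← h0] at hz
      exact sub_eq_zero.mp (norm_eq_zero.mp hz)
    rw [h1, h2, dist_self, mul_zero]
  rw [dist_eq_norm, dist_eq_norm, norm_sub_rev, norm_sub_rev (seg φ 0 N z)]
  by_cases hA : d 0 (seg φ 0 N x).re < 4 * r
  · -- large scales
    have h1 := tail hNID hT 0 N x r hA y hy
    have h2 := tail hNID hT 0 N x r hA z hz.le
    have h3 := upper h1
    have h4 := lower h2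
    rw [norm_sub_rev] at hy hz
    rw [hz] at h4
    apply final hκ hκ1 hE hE1 (s := 1) (r := r) zero_le_one hr0
    · have : r + 3 * E * r ≤ 1 * (1 + E) * ((1 + κ) * (1 + 3 * E) * r) := by
        have h5 : (1 + 3 * E) * r ≤ (1 + κ) * ((1 + 3 * E) * r) := by
          have : 0 ≤ (1 + 3 * E) * r := by positivity
          nlinarith
        have h6 : (1 + κ) * ((1 + 3 * E) * r) ≤ (1 + E) * ((1 + κ) * ((1 + 3 * E) * r)) := by
          have : 0 ≤ (1 + κ) * ((1 + 3 * E) * r) := by positivity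
          nlinarith
        linarith
      linarith
    · have h7 : (0 : ℝ) ≤ (1 - 3 * E) * r := by
        apply mul_nonneg _ hr0
        linarith
      have h5 : (1 - κ) * ((1 - 3 * E) * r) ≤ (1 - 3 * E) * r := by nlinarith
      have h8 : 0 ≤ (1 - κ) * ((1 - 3 * E) * r) := by
        apply mul_nonneg _ h7
        linarith
      have h6 : (1 - E) * ((1 - κ) * ((1 - 3 * E) * r)) ≤ (1 - κ) * ((1 - 3 * E) * r) := by
        nlinarith
      linarith
  · push Not at hA
    let P : ℕ → Prop := fun m => 4 * r ≤ d m (seg φ m (N - m) x).re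
    have hP0 : P 0 := hA
    set m := Nat.findGreatest P N with hm
    have hPm : P m := Nat.findGreatest_spec (Nat.zero_le N) hP0
    have hmN : m ≤ N := Nat.findGreatest_le N
    rcases hmN.eq_or_lt with hmeq | hmlt
    · -- small scales
      have hPN : 4 * r ≤ d N x.re := by
        have h1 : 4 * r ≤ d m (seg φ m (N - m) x).re := hPm
        rw [hmeq, Nat.sub_self] at h1
        exact h1
      obtain ⟨σ, hσ, h2⟩ := hNSM κ E d φ hT N x
      have h3 : ‖x - x‖ ≤ d N x.re / 2 := by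
        rw [sub_self, norm_zero]
        linarith
      have h4 := h2 x y h3 (by linarith)
      have h5 := h2 x z h3 (by linarith)
      have h6 := upper h4
      have h7 := lower h5
      rw [norm_mul] at h6 h7
      rw [norm_sub_rev] at hy hz
      rw [hz] at h7
      have hσ0 : 0 ≤ ‖σ‖ := norm_nonneg _
      apply final hκ hκ1 hE hE1 (s := ‖σ‖) (r := r) hσ0 hr0
      · have h8 : ‖σ‖ * ‖x - y‖ + E * ‖σ‖ * ‖x - y‖ ≤ ‖σ‖ * (1 + E) * r := by
          have : ‖σ‖ * (1 + E) * ‖x - y‖ ≤ ‖σ‖ * (1 + E) * r :=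
            mul_le_mul_of_nonneg_left hy (by positivity)
          linarith
        have h9 : ‖σ‖ * (1 + E) * r ≤ ‖σ‖ * (1 + E) * ((1 + κ) * (1 + 3 * E) * r) := by
          apply mul_le_mul_of_nonneg_left _ (by positivity)
          have : 1 ≤ (1 + κ) * (1 + 3 * E) := by nlinarith
          nlinarith
        linarith
      · have h8 : ‖σ‖ * (1 - E) * ((1 - κ) * (1 - 3 * E) * r) ≤ ‖σ‖ * (1 - E) * r := by
          apply mul_le_mul_of_nonneg_left _ (mul_nonneg hσ0 (by linarith))
          have : (1 - κ) * (1 - 3 * E) ≤ 1 := by nlinarith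
          nlinarith
        linarith
    · -- intermediate scales
      have hnot : ¬ P (m + 1) := Nat.findGreatest_is_greatest (Nat.lt_succ_self m) hmlt
      have hlt : d (m + 1) (seg φ (m + 1) (N - (m + 1)) x).re < 4 * r := not_le.mp hnot
      set n' := N - (m + 1) with hn'
      set ψ := seg φ (m + 1) n' with hψ
      have hNm : N - m = 1 + n' := by omega
      have hN : N = m + (1 + n') := by omega
      have hseg1 : seg φ m (N - m) = φ m ∘ ψ := by
        rw [hNm, seg_add]
        rfl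
      have hsegN : seg φ 0 N = seg φ 0 m ∘ (φ m ∘ ψ) := by
        rw [hN, seg_add, zero_add, ← hNm, hseg1]
      have h1 := tail hNID hT (m + 1) n' x r hlt y hy
      have h2 := tail hNID hT (m + 1) n' x r hlt z hz.le
      have h3 := upper h1
      have h4 := lower h2
      have h4' := upper h2
      rw [norm_sub_rev] at hy hz
      rw [hz] at h4 h4'
      have h3' : ‖ψ x - ψ y‖ ≤ (1 + 3 * E) * r := by linarith
      have h4'' : (1 - 3 * E) * r ≤ ‖ψ x - ψ z‖ := by linarith
      have h4''' : ‖ψ x - ψ z‖ ≤ (1 + 3 * E) * r := by linarith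
      have h5 := upper (hT.p3 m (ψ x) (ψ y))
      have h6 := lower (hT.p3 m (ψ x) (ψ z))
      have h6' := upper (hT.p3 m (ψ x) (ψ z))
      have hup : ∀ t : ℝ, t ≤ (1 + 3 * E) * r → (1 + κ) * t ≤ (1 + κ) * (1 + 3 * E) * r := by
        intro t ht
        have := mul_le_mul_of_nonneg_left ht (show 0 ≤ 1 + κ by linarith)
        linarith
      have h7 : ‖φ m (ψ x) - φ m (ψ y)‖ ≤ (1 + κ) * (1 + 3 * E) * r := by
        have := hup _ h3'
        linarith
      have h8 : ‖φ m (ψ x) - φ m (ψ z)‖ ≤ (1 + κ) * (1 + 3 * E) * r := by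
        have := hup _ h4'''
        linarith
      have h9 : (1 - κ) * (1 - 3 * E) * r ≤ ‖φ m (ψ x) - φ m (ψ z)‖ := by
        have := mul_le_mul_of_nonneg_left h4'' (show 0 ≤ 1 - κ by linarith)
        linarith
      have hbd : (1 + κ) * (1 + 3 * E) * r ≤ 2 * r := by
        have : (1 + κ) * (1 + 3 * E) ≤ 2 := by nlinarith
        nlinarith
      have hPm' : 4 * r ≤ d m (φ m (ψ x)).re := by
        have h10 : 4 * r ≤ d m (seg φ m (N - m) x).re := hPm
        rw [hseg1] at h10
        exact h10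
      obtain ⟨σ, hσ, h11⟩ := hNSM κ E d φ hT m (φ m (ψ x))
      have h12 : ‖φ m (ψ x) - φ m (ψ x)‖ ≤ d m (φ m (ψ x)).re / 2 := by
        rw [sub_self, norm_zero]
        linarith
      have h13 := h11 (φ m (ψ x)) (φ m (ψ y)) h12 (by rw [norm_sub_rev]; linarith)
      have h14 := h11 (φ m (ψ x)) (φ m (ψ z)) h12 (by rw [norm_sub_rev]; linarith)
      have h15 := upper h13
      have h16 := lower h14
      rw [norm_mul] at h15 h16
      have hσ0 : 0 ≤ ‖σ‖ := norm_nonneg _
      rw [hsegN]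
      simp only [Function.comp_apply]
      apply final hκ hκ1 hE hE1 (s := ‖σ‖) (r := r) hσ0 hr0
      · have := mul_le_mul_of_nonneg_left h7 (show 0 ≤ ‖σ‖ * (1 + E) by positivity)
        linarith
      · have := mul_le_mul_of_nonneg_left h9
          (show 0 ≤ ‖σ‖ * (1 - E) from mul_nonneg hσ0 (by linarith))
        linarith

end Pool.Agent.QL
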