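import Pool.Agent.QL.Stmts

/-!
# SETS: small neighbourhoods of null sets
-/

open MeasureTheory Set Filter Topology
open scoped ENNReal

namespace Pool.Agent.QL

namespace SETS

theorem dd_pos {V : Set ℝ} (hV : IsOpen V) (hne : Vᶜ.Nonempty) {x : ℝ} (hx : x ∈ V) :
    0 < dd V x :=
  (hV.isClosed_compl.notMem_iff_infDist_pos hne).1 (by simpa using hx)

theorem mem_of_pos {V : Set ℝ} {x : ℝ} (hx : 0 < dd V x) : x ∈ V := by
  by_contra h
  have h1 : dd V x = 0 := Metric.infDist_zero_of_mem h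
  linarith

theorem continuous_dd (V : Set ℝ) : Continuous (dd V) := Metric.continuous_infDist_pt _

theorem piece_bound {V O : Set ℝ} (hO : IsOpen O) {n : ℕ} {δ : ℝ≥0∞}
    (hvol : volume O ≤ δ / (n + 1 : ℕ)) :
    ∫⁻ x in O ∩ {x | 1 / ((n : ℝ) + 1) < dd V x}, ENNReal.ofReal (1 / dd V x) ≤ δ := by
  have hW : IsOpen {x | 1 / ((n : ℝ) + 1) < dd V x} :=
    isOpen_lt continuous_const (continuous_dd V)
  calc ∫⁻ x in O ∩ {x | 1 / ((n : ℝ) + 1) < dd V x}, ENNReal.ofReal (1 / dd V x)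
      ≤ ∫⁻ _ in O ∩ {x | 1 / ((n : ℝ) + 1) < dd V x}, ((n + 1 : ℕ) : ℝ≥0∞) := by
        refine setLIntegral_mono' (hO.inter hW).measurableSet fun x hx => ?_
        have h1 : 1 / ((n : ℝ) + 1) < dd V x := hx.2
        have h2 : (0 : ℝ) < (n : ℝ) + 1 := by positivity
        have h3 : 0 < dd V x := lt_trans (by positivity) h1
        have h4 : 1 / dd V x ≤ ((n + 1 : ℕ) : ℝ) := by
          rw [div_le_iff₀ h3]
          rw [div_lt_iff₀ h2] at h1
          push_cast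
          linarith
        calc ENNReal.ofReal (1 / dd V x) ≤ ENNReal.ofReal ((n + 1 : ℕ) : ℝ) :=
              ENNReal.ofReal_le_ofReal h4
          _ = ((n + 1 : ℕ) : ℝ≥0∞) := ENNReal.ofReal_natCast _
    _ = ((n + 1 : ℕ) : ℝ≥0∞) * volume (O ∩ {x | 1 / ((n : ℝ) + 1) < dd V x}) :=
        setLIntegral_const _ _
    _ ≤ ((n + 1 : ℕ) : ℝ≥0∞) * (δ / (n + 1 : ℕ)) :=
        mul_le_mul_right ((measure_mono inter_subset_left).trans hvol) _
    _ ≤ δ := ENNReal.mul_div_le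

end SETS

theorem SETS_thm : Stmt_SETS := by
  intro E V ε hE hV hne hEV hε
  obtain ⟨δ, hδ, hsum⟩ := ENNReal.exists_pos_sum_of_countable'
    (ε := ENNReal.ofReal ε) (by simpa using hε) ℕ
  have key : ∀ n : ℕ, ∃ O, E ⊆ O ∧ IsOpen O ∧ volume O < δ n / (n + 1 : ℕ) := by
    intro n
    obtain ⟨O, h1, h2, h3⟩ := Set.exists_isOpen_lt_of_lt (μ := (volume : Measure ℝ)) E
      (δ n / (n + 1 : ℕ)) (by
        rw [hE]
        exact ENNReal.div_pos (hδ n).ne' (ENNReal.natCast_ne_top _))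
    exact ⟨O, h1, h2, h3⟩
  choose O hO1 hO2 hO3 using key
  have hW : ∀ n : ℕ, IsOpen {x | 1 / ((n : ℝ) + 1) < dd V x} := fun n =>
    isOpen_lt continuous_const (SETS.continuous_dd V)
  refine ⟨⋃ n : ℕ, O n ∩ {x | 1 / ((n : ℝ) + 1) < dd V x}, ?_, ?_, ?_, ?_, ?_⟩
  · exact isOpen_iUnion fun n => (hO2 n).inter (hW n)
  · intro x hx
    obtain ⟨n, hn⟩ := exists_nat_one_div_lt (SETS.dd_pos hV hne (hEV hx))
    exact mem_iUnion.2 ⟨n, hO1 n hx, hn⟩
  · refine iUnion_subset fun n x hx => ?_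
    have h1 : 1 / ((n : ℝ) + 1) < dd V x := hx.2
    exact SETS.mem_of_pos (lt_trans (by positivity) h1)
  · calc volume (⋃ n : ℕ, O n ∩ {x | 1 / ((n : ℝ) + 1) < dd V x})
        ≤ ∑' n : ℕ, volume (O n ∩ {x | 1 / ((n : ℝ) + 1) < dd V x}) := measure_iUnion_le _
      _ ≤ ∑' n : ℕ, δ n := by
          refine ENNReal.tsum_le_tsum fun n => ?_
          refine (measure_mono inter_subset_left).trans ((hO3 n).le.trans ?_)
          refine ENNReal.div_le_of_le_mul ?_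
          calc δ n = δ n * 1 := (mul_one _).symm
            _ ≤ δ n * ((n + 1 : ℕ) : ℝ≥0∞) :=
              mul_le_mul_right (by exact_mod_cast Nat.succ_le_succ (Nat.zero_le n)) _
      _ ≤ ENNReal.ofReal ε := hsum.le
  · calc ∫⁻ x in ⋃ n : ℕ, O n ∩ {x | 1 / ((n : ℝ) + 1) < dd V x}, ENNReal.ofReal (1 / dd V x)
        ≤ ∑' n : ℕ, ∫⁻ x in O n ∩ {x | 1 / ((n : ℝ) + 1) < dd V x},
            ENNReal.ofReal (1 / dd V x) := lintegral_iUnion_le _ _
      _ ≤ ∑' n : ℕ, δ n := ENNReal.tsum_le_tsum fun n => SETS.piece_bound (hO2 n) (hO3 n).le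
      _ ≤ ENNReal.ofReal ε := hsum.le

end Pool.Agent.QL
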