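import Pool.Agent.QL.StmtsU

/-!
# The sweeping estimate
-/

open MeasureTheory Set Filter Topology
open scoped ENNReal NNReal

namespace Pool.Agent.QL

namespace SWP

/-- The distribution function of `V`. -/
noncomputable def Ph (V : Set ℝ) (u : ℝ) : ℝ := (volume (V ∩ Iic u)).toReal

theorem fin {V : Set ℝ} (hf : volume V < ⊤) (A : Set ℝ) : volume (V ∩ A) ≠ ⊤ :=
  (lt_of_le_of_lt (measure_mono inter_subset_left) hf).ne

theorem sub {V : Set ℝ} (hV : IsOpen V) (hf : volume V < ⊤) {u v : ℝ} (h : u ≤ v) :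
    Ph V v - Ph V u = (volume (V ∩ Ioc u v)).toReal := by
  have h1 : V ∩ Iic v = (V ∩ Iic u) ∪ (V ∩ Ioc u v) := by
    rw [← inter_union_distrib_left, Iic_union_Ioc_eq_Iic h]
  have h2 : Disjoint (V ∩ Iic u) (V ∩ Ioc u v) := by
    rw [Set.disjoint_left]
    rintro t ⟨-, h1⟩ ⟨-, h2, -⟩
    exact absurd (lt_of_lt_of_le h2 h1) (lt_irrefl _)
  unfold Ph
  rw [h1, measure_union h2 (hV.measurableSet.inter measurableSet_Ioc),
    ENNReal.toReal_add (fin hf _) (fin hf _)]
  ring

theorem mono {V : Set ℝ} (hV : IsOpen V) (hf : volume V < ⊤) : Monotone (Ph V) := by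
  intro u v h
  have := sub hV hf h
  have h2 : 0 ≤ (volume (V ∩ Ioc u v)).toReal := ENNReal.toReal_nonneg
  linarith

theorem sub_le {V : Set ℝ} (hV : IsOpen V) (hf : volume V < ⊤) {u v : ℝ} (h : u ≤ v) :
    Ph V v - Ph V u ≤ v - u := by
  rw [sub hV hf h]
  refine ENNReal.toReal_le_of_le_ofReal (by linarith) ?_
  calc volume (V ∩ Ioc u v) ≤ volume (Ioc u v) := measure_mono inter_subset_right
    _ = ENNReal.ofReal (v - u) := Real.volume_Ioc

theorem abs_le' {V : Set ℝ} (hV : IsOpen V) (hf : volume V < ⊤) (u v : ℝ) :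
    |Ph V u - Ph V v| ≤ |u - v| := by
  rcases le_total u v with h | h
  · rw [abs_sub_comm, abs_sub_comm u v, abs_of_nonneg (sub_nonneg.2 h),
      abs_of_nonneg (sub_nonneg.2 (mono hV hf h))]
    exact sub_le hV hf h
  · rw [abs_of_nonneg (sub_nonneg.2 h), abs_of_nonneg (sub_nonneg.2 (mono hV hf h))]
    exact sub_le hV hf h

theorem abs_le_vol {V : Set ℝ} (hV : IsOpen V) (hf : volume V < ⊤) (u v : ℝ) :
    |Ph V v - Ph V u| ≤ (volume (V ∩ uIcc u v)).toReal := by
  rcases le_total u v with h | h
  · rw [abs_of_nonneg (sub_nonneg.2 (mono hV hf h)), sub hV hf h, uIcc_of_le h]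
    exact ENNReal.toReal_mono (fin hf _)
      (measure_mono (inter_subset_inter_right _ Ioc_subset_Icc_self))
  · rw [abs_sub_comm, abs_of_nonneg (sub_nonneg.2 (mono hV hf h)), sub hV hf h, uIcc_of_ge h]
    exact ENNReal.toReal_mono (fin hf _)
      (measure_mono (inter_subset_inter_right _ Ioc_subset_Icc_self))

theorem deriv_one {V : Set ℝ} (hV : IsOpen V) (hf : volume V < ⊤) {u : ℝ} (hu : u ∈ V) :
    HasDerivAt (Ph V) 1 u := by
  obtain ⟨ε, hε, hb⟩ := Metric.isOpen_iff.1 hV u hu
  have h1 : HasDerivAt (fun v => Ph V u + (v - u)) 1 u :=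
    ((hasDerivAt_id u).sub_const u).const_add _
  refine h1.congr_of_eventuallyEq ?_
  filter_upwards [Metric.ball_mem_nhds u hε] with v hv
  rw [Metric.mem_ball, Real.dist_eq] at hv
  have hv' := abs_lt.1 hv
  rcases le_total u v with h | h
  · have h2 := sub hV hf h
    have h3 : V ∩ Ioc u v = Ioc u v := by
      refine inter_eq_right.2 fun t ht => hb ?_
      rw [Metric.mem_ball, Real.dist_eq, abs_lt]
      constructor <;> linarith [ht.1, ht.2]
    rw [h3, Real.volume_Ioc, ENNReal.toReal_ofReal (by linarith)] at h2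
    linarith
  · have h2 := sub hV hf h
    have h3 : V ∩ Ioc v u = Ioc v u := by
      refine inter_eq_right.2 fun t ht => hb ?_
      rw [Metric.mem_ball, Real.dist_eq, abs_lt]
      constructor <;> linarith [ht.1, ht.2]
    rw [h3, Real.volume_Ioc, ENNReal.toReal_ofReal (by linarith)] at h2
    linarith

/-- The pointwise bound. -/
theorem ptw {V : Set ℝ} (hV : IsOpen V) (hf : volume V < ⊤) {x : ℝ → ℝ} {t x' D s : ℝ}
    (hs : s = 1 ∨ s = -1) (hx : HasDerivAt x x' t)
    (hD : HasDerivAt (fun r => Ph V (x r)) D t) :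
    |D| ≤ |x'| ∧ (x t ∈ V → D = x') ∧ (0 < s * x' → 0 ≤ s * D) := by
  have hsx := hx.tendsto_slope
  have hsD := hD.tendsto_slope
  refine ⟨?_, ?_, ?_⟩
  · refine le_of_tendsto_of_tendsto hsD.abs hsx.abs ?_
    refine Eventually.of_forall fun r => ?_
    simp only [slope_def_field, abs_div]
    exact div_le_div_of_nonneg_right (abs_le' hV hf _ _) (abs_nonneg _)
  · intro h
    have h1 := (deriv_one hV hf h).comp t hx
    rw [one_mul] at h1
    exact hD.unique h1
  · intro h
    have h1 : Tendsto (fun r => s * slope x t r) (𝓝[>] t) (𝓝 (s * x')) :=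
      (hsx.mono_left (nhdsWithin_mono _ (fun r hr => ne_of_gt hr))).const_mul s
    have h2 : Tendsto (fun r => s * slope (fun r => Ph V (x r)) t r) (𝓝[>] t) (𝓝 (s * D)) :=
      (hsD.mono_left (nhdsWithin_mono _ (fun r hr => ne_of_gt hr))).const_mul s
    refine ge_of_tendsto h2 ?_
    filter_upwards [h1.eventually (lt_mem_nhds h), self_mem_nhdsWithin] with r hr hr2
    have hr3 : 0 < r - t := sub_pos.2 hr2
    rw [slope_def_field] at hr ⊢
    have e1 : s * ((x r - x t) / (r - t)) = s * (x r - x t) / (r - t) := by ring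
    rw [e1] at hr
    have h4 : 0 < s * (x r - x t) := by
      have := mul_pos hr hr3
      rwa [div_mul_cancel₀ _ hr3.ne'] at this
    have e2 : s * ((Ph V (x r) - Ph V (x t)) / (r - t))
        = s * (Ph V (x r) - Ph V (x t)) / (r - t) := by ring
    rw [e2]
    refine div_nonneg ?_ hr3.le
    rcases hs with rfl | rfl
    · have := mono hV hf (show x t ≤ x r by linarith)
      linarith
    · have := mono hV hf (show x r ≤ x t by linarith)
      linarith

end SWP

theorem SWP_thm : Stmt_SWP := by
  intro L x s c C α β V Bad hL hV hf hB hαβ hs hc hC h1 h2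
  have hLip : LipschitzWith L (fun r => SWP.Ph V (x r)) := by
    refine LipschitzWith.of_dist_le_mul fun u v => ?_
    rw [Real.dist_eq]
    refine (SWP.abs_le' hV hf _ _).trans ?_
    rw [← Real.dist_eq]
    exact hL.dist_le_mul u v
  have hac : AbsolutelyContinuousOnInterval (fun r => SWP.Ph V (x r)) α β :=
    (hLip.lipschitzOnWith (s := uIcc α β)).absolutelyContinuousOnInterval
  have hint := hac.integral_deriv_eq_sub
  have hii := hac.intervalIntegrable_deriv
  set A : Set ℝ := {t | t ∈ Icc α β ∧ t ∉ Bad ∧ x t ∈ V} with hA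
  have hAm : MeasurableSet A :=
    measurableSet_Icc.inter (hB.compl.inter (hL.continuous.measurable hV.measurableSet))
  have hxd := hL.ae_differentiableAt_real
  have hyd := hLip.ae_differentiableAt_real
  -- the pointwise bound
  have hpt : ∀ᵐ t, t ∈ Icc α β → A.indicator (fun _ => c) t - (Bad ∩ Icc α β).indicator
      (fun _ => C) t ≤ s * deriv (fun r => SWP.Ph V (x r)) t := by
    filter_upwards [hxd, hyd, h1, h2] with t hx hy k1 k2 ht
    obtain ⟨b1, b2, b3⟩ := SWP.ptw hV hf hs hx.hasDerivAt hy.hasDerivAt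
    have habs : |s| = 1 := by rcases hs with rfl | rfl <;> simp
    by_cases htB : t ∈ Bad
    · have e1 : A.indicator (fun _ => c) t = 0 := indicator_of_notMem (fun h => h.2.1 htB) _
      have e2 : (Bad ∩ Icc α β).indicator (fun _ => C) t = C :=
        indicator_of_mem (show t ∈ Bad ∩ Icc α β from ⟨htB, ht⟩) _
      rw [e1, e2]
      have h3 : |s * deriv (fun r => SWP.Ph V (x r)) t| ≤ C := by
        rw [abs_mul, habs, one_mul]
        exact b1.trans (k2 ht)
      have := (abs_le.1 h3).1
      linarith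
    · have e2 : (Bad ∩ Icc α β).indicator (fun _ => C) t = 0 :=
        indicator_of_notMem (fun h => htB h.1) _
      rw [e2, sub_zero]
      by_cases htV : x t ∈ V
      · have e1 : A.indicator (fun _ => c) t = c :=
          indicator_of_mem (show t ∈ A from ⟨ht, htB, htV⟩) _
        rw [e1, b2 htV]
        exact k1 ht htB
      · have e1 : A.indicator (fun _ => c) t = 0 := indicator_of_notMem (fun h => htV h.2.2) _
        rw [e1]
        exact b3 (lt_of_lt_of_le hc (k1 ht htB))
  have hfin : volume (Icc α β) ≠ ⊤ := by rw [Real.volume_Icc]; exact ENNReal.ofReal_ne_top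
  have hAfin : volume A ≠ ⊤ :=
    (lt_of_le_of_lt (measure_mono (fun t ht => ht.1)) hfin.lt_top).ne
  have hBfin : volume (Bad ∩ Icc α β) ≠ ⊤ :=
    (lt_of_le_of_lt (measure_mono inter_subset_right) hfin.lt_top).ne
  have hBm : MeasurableSet (Bad ∩ Icc α β) := hB.inter measurableSet_Icc
  have hAi : Integrable (A.indicator (fun _ => c)) :=
    (integrable_indicator_iff hAm).2 (integrableOn_const (hs := hAfin))
  have hBi : Integrable ((Bad ∩ Icc α β).indicator (fun _ => C)) :=
    (integrable_indicator_iff hBm).2 (integrableOn_const (hs := hBfin))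
  have hle : ∫ t in α..β, (A.indicator (fun _ => c) t - (Bad ∩ Icc α β).indicator (fun _ => C) t)
      ≤ ∫ t in α..β, s * deriv (fun r => SWP.Ph V (x r)) t := by
    refine intervalIntegral.integral_mono_ae_restrict hαβ
      (hAi.sub hBi).intervalIntegrable (hii.const_mul s) ?_
    exact (ae_restrict_iff' measurableSet_Icc).2 hpt
  rw [intervalIntegral.integral_const_mul, hint,
    intervalIntegral.integral_sub hAi.intervalIntegrable hBi.intervalIntegrable,
    intervalIntegral.integral_of_le hαβ, intervalIntegral.integral_of_le hαβ,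
    ← integral_Icc_eq_integral_Ioc, ← integral_Icc_eq_integral_Ioc,
    setIntegral_indicator hAm, setIntegral_indicator hBm, setIntegral_const, setIntegral_const]
    at hle
  have e1 : Icc α β ∩ A = A := inter_eq_right.2 fun t ht => ht.1
  have e2 : Icc α β ∩ (Bad ∩ Icc α β) = Bad ∩ Icc α β := inter_eq_right.2 inter_subset_right
  rw [e1, e2, smul_eq_mul, smul_eq_mul, measureReal_def, measureReal_def] at hle
  have h5 : s * (SWP.Ph V (x β) - SWP.Ph V (x α)) ≤ (volume (V ∩ uIcc (x α) (x β))).toReal := by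
    refine le_trans (le_abs_self _) ?_
    have habs : |s| = 1 := by rcases hs with rfl | rfl <;> simp
    rw [abs_mul, habs, one_mul]
    exact SWP.abs_le_vol hV hf _ _
  have h6 := hle.trans h5
  linarith

end Pool.Agent.QL
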