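import Pool.Agent.QL.Stmts

/-!
# The image of a disc under a homeomorphism of the plane lies between two discs
-/

open MeasureTheory Set Filter Topology
open scoped ENNReal

namespace Pool.Agent.QL

namespace TOPB

/-- A preconnected set which contains a point nearer than `ρ` to `z` and misses the sphere of
radius `ρ` about `z` is contained in the ball. -/
theorem sub_ball {s : Set ℂ} (hs : IsPreconnected s) {z w : ℂ} {ρ : ℝ} (hw : w ∈ s)
    (hwρ : dist w z < ρ) (hmiss : ∀ v ∈ s, dist v z ≠ ρ) : ∀ v ∈ s, dist v z < ρ := by
  intro v hv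
  by_contra hcon
  rw [not_lt] at hcon
  have hc : ContinuousOn (fun u : ℂ => dist u z) s := by fun_prop
  obtain ⟨u, hu, hu2⟩ := hs.intermediate_value hw hv hc ⟨hwρ.le, hcon⟩
  exact hmiss u hu hu2

end TOPB

theorem TOPB_thm : Stmt_TOPB := by
  intro f z ρ l L hρ h
  constructor
  · intro v hv
    have hv' : dist v (f z) < l := hv
    have hl : 0 < l := lt_of_le_of_lt dist_nonneg hv'
    have hpre : IsPreconnected (f.symm '' Metric.ball (f z) l) :=
      ((convex_ball (f z) l).isPreconnected).image _ f.symm.continuous.continuousOn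
    have hz : z ∈ f.symm '' Metric.ball (f z) l := ⟨f z, Metric.mem_ball_self hl, by simp⟩
    have hmiss : ∀ u ∈ f.symm '' Metric.ball (f z) l, dist u z ≠ ρ := by
      rintro u ⟨u', hu', rfl⟩ hu
      have h1 := (h _ hu).1
      rw [f.apply_symm_apply] at h1
      have h2 : dist u' (f z) < l := hu'
      linarith
    have hin := TOPB.sub_ball hpre hz (by rw [dist_self]; exact hρ) hmiss (f.symm v) ⟨v, hv, rfl⟩
    exact ⟨f.symm v, hin, by simp⟩
  · rintro _ ⟨w, hw, rfl⟩
    have hw' : dist w z ≤ ρ := hw
    rcases hw'.eq_or_lt with heq | hlt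
    · exact (h w heq).2
    · by_contra hcon
      have hcon' : L < dist (f w) (f z) := by
        rw [Metric.mem_closedBall, not_le] at hcon
        exact hcon
      -- the ray
      set r : ℝ → ℂ := fun t => f.symm (f z + t * (f w - f z)) with hr
      have hrc : Continuous r := by
        apply f.symm.continuous.comp
        fun_prop
      have hpre : IsPreconnected (r '' Ici (1 : ℝ)) :=
        ((convex_Ici (1 : ℝ)).isPreconnected).image _ hrc.continuousOn
      have hfr : ∀ t : ℝ, 0 ≤ t → dist (f (r t)) (f z) = t * dist (f w) (f z) := by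
        intro t ht
        rw [hr]
        simp only [Homeomorph.apply_symm_apply]
        rw [dist_eq_norm, dist_eq_norm, add_sub_cancel_left, norm_mul, Complex.norm_real,
          Real.norm_of_nonneg ht]
      have hr1 : r 1 = w := by
        rw [hr]
        simp
      have hd0 : 0 ≤ dist (f w) (f z) := dist_nonneg
      have hmiss : ∀ u ∈ r '' Ici (1 : ℝ), dist u z ≠ ρ := by
        rintro u ⟨t, ht, rfl⟩ hu
        have ht' : (1 : ℝ) ≤ t := ht
        have h1 := (h _ hu).2
        rw [hfr t (by linarith)] at h1
        nlinarith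
      have hin := TOPB.sub_ball hpre ⟨1, by simp, hr1⟩ hlt hmiss
      -- `f w ≠ f z`
      have hL : 0 ≤ L := by
        have hs : dist (z + (ρ : ℂ)) z = ρ := by
          rw [dist_eq_norm, add_sub_cancel_left, Complex.norm_real, Real.norm_of_nonneg hρ.le]
        exact dist_nonneg.trans (h _ hs).2
      have hdpos : 0 < dist (f w) (f z) := lt_of_le_of_lt hL hcon'
      -- the image of the closed ball is bounded
      obtain ⟨C, hC⟩ := ((isCompact_closedBall z ρ).image f.continuous).isBounded.subset_closedBall
        (f z)
      set t : ℝ := max 1 ((C + 1) / dist (f w) (f z)) with ht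
      have ht1 : 1 ≤ t := le_max_left _ _
      have h1 := hin (r t) ⟨t, ht1, rfl⟩
      have h2 : dist (f (r t)) (f z) ≤ C := hC ⟨r t, h1.le, rfl⟩
      rw [hfr t (by linarith)] at h2
      have h3 : (C + 1) / dist (f w) (f z) ≤ t := le_max_right _ _
      rw [div_le_iff₀ hdpos] at h3
      linarith

end Pool.Agent.QL
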