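import Pool.Agent.QL.StmtsU

/-!
# TRV: the slope of the wave differs from every given number on a part of each period
-/

open MeasureTheory Set Filter Topology
open scoped ENNReal NNReal

namespace Pool.Agent.QL

namespace TRV

theorem dya_pos (t : ℝ) : 0 < dya t := by
  unfold dya
  positivity

theorem dya_le {t : ℝ} (ht : 0 < t) : dya t ≤ t := by
  have h := Int.zpow_log_le_self (b := 2) (r := t) (by norm_num) ht
  unfold dya
  exact_mod_cast h

theorem lt_dya {t : ℝ} : t < 2 * dya t := by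
  have h := Int.lt_zpow_succ_log_self (b := 2) (by norm_num) t
  have h2 : ((2 : ℕ) : ℝ) ^ (Int.log 2 t + 1) = 2 * dya t := by
    unfold dya
    rw [zpow_add₀ (by norm_num)]
    push_cast
    ring
  rwa [h2] at h

/-- The derivative of the wave in terms of `u`. -/
theorem G_eq {a t y : ℝ} (ht : 0 < t) : G a t y =
    (2 - t / dya t) * (a * Real.cos (2 * Real.pi * y / dya t)) +
      (t / dya t - 1) * (a * Real.cos (Real.pi * y / dya t)) := by
  unfold G interp dw
  rw [if_pos ht]
  have hD := dya_pos t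
  congr 4
  field_simp

theorem exists_pt (D c y₀ : ℝ) (hD : 0 < D) :
    ∃ k : ℤ, 2 * (k : ℝ) * D + c ∈ Icc (y₀ - D) (y₀ + D) := by
  refine ⟨⌈(y₀ - D - c) / (2 * D)⌉, ?_, ?_⟩
  · have h := Int.le_ceil ((y₀ - D - c) / (2 * D))
    rw [div_le_iff₀ (by positivity)] at h
    linarith
  · have h := Int.ceil_lt_add_one ((y₀ - D - c) / (2 * D))
    have h2 : ((⌈(y₀ - D - c) / (2 * D)⌉ : ℝ) - 1) * (2 * D) < y₀ - D - c := by
      rw [← lt_div_iff₀ (by positivity)]
      linarith
    linarith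

theorem lipG {a t y y' : ℝ} (ha : 0 < a) (ht : 0 < t) (h : |y - y'| ≤ dya t / 12) :
    |G a t y - G a t y'| ≤ a * Real.pi / 6 := by
  have hD := dya_pos t
  have hu1 : 1 ≤ t / dya t := by
    rw [le_div_iff₀ hD, one_mul]
    exact dya_le ht
  have hu2 : t / dya t < 2 := by
    rw [div_lt_iff₀ hD]
    exact lt_dya
  have hpi := Real.pi_pos
  have e1 : |Real.cos (2 * Real.pi * y / dya t) - Real.cos (2 * Real.pi * y' / dya t)| ≤
      Real.pi / 6 := by
    refine (Real.abs_cos_sub_cos_le _ _).trans ?_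
    have : 2 * Real.pi * y / dya t - 2 * Real.pi * y' / dya t
        = (2 * Real.pi / dya t) * (y - y') := by
      ring
    rw [this, abs_mul, abs_of_pos (by positivity)]
    calc 2 * Real.pi / dya t * |y - y'| ≤ 2 * Real.pi / dya t * (dya t / 12) :=
          mul_le_mul_of_nonneg_left h (by positivity)
      _ = Real.pi / 6 := by
          field_simp
          norm_num
  have e2 : |Real.cos (Real.pi * y / dya t) - Real.cos (Real.pi * y' / dya t)| ≤
      Real.pi / 6 := by
    refine (Real.abs_cos_sub_cos_le _ _).trans ?_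
    have : Real.pi * y / dya t - Real.pi * y' / dya t
        = (Real.pi / dya t) * (y - y') := by
      ring
    rw [this, abs_mul, abs_of_pos (by positivity)]
    calc Real.pi / dya t * |y - y'| ≤ Real.pi / dya t * (dya t / 12) :=
          mul_le_mul_of_nonneg_left h (by positivity)
      _ = Real.pi / 12 := by
          field_simp
      _ ≤ Real.pi / 6 := by linarith
  rw [G_eq ht, G_eq ht]
  set u := t / dya t
  set c1 := Real.cos (2 * Real.pi * y / dya t)
  set c2 := Real.cos (2 * Real.pi * y' / dya t)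
  set d1 := Real.cos (Real.pi * y / dya t)
  set d2 := Real.cos (Real.pi * y' / dya t)
  have e3 : (2 - u) * (a * c1) + (u - 1) * (a * d1) - ((2 - u) * (a * c2) + (u - 1) * (a * d2))
      = a * ((2 - u) * (c1 - c2) + (u - 1) * (d1 - d2)) := by ring
  rw [e3, abs_mul, abs_of_pos ha, mul_div_assoc]
  refine mul_le_mul_of_nonneg_left ?_ ha.le
  calc |(2 - u) * (c1 - c2) + (u - 1) * (d1 - d2)|
      ≤ |(2 - u) * (c1 - c2)| + |(u - 1) * (d1 - d2)| := abs_add_le _ _
    _ = (2 - u) * |c1 - c2| + (u - 1) * |d1 - d2| := by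
        rw [abs_mul, abs_mul, abs_of_nonneg (by linarith : 0 ≤ 2 - u),
          abs_of_nonneg (by linarith : 0 ≤ u - 1)]
    _ ≤ (2 - u) * (Real.pi / 6) + (u - 1) * (Real.pi / 6) :=
        add_le_add (mul_le_mul_of_nonneg_left e1 (by linarith))
          (mul_le_mul_of_nonneg_left e2 (by linarith))
    _ = Real.pi / 6 := by ring

theorem G_high {a t : ℝ} (ht : 0 < t) (k : ℤ) : G a t (2 * (k : ℝ) * dya t + 0) = a := by
  have hD := (dya_pos t).ne'
  rw [G_eq ht]
  have e1 : 2 * Real.pi * (2 * (k : ℝ) * dya t + 0) / dya t = ((2 * k : ℤ) : ℝ) * (2 * Real.pi) := by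
    push_cast
    field_simp
    ring
  have e2 : Real.pi * (2 * (k : ℝ) * dya t + 0) / dya t = (k : ℝ) * (2 * Real.pi) := by
    field_simp
    ring
  rw [e1, e2, Real.cos_int_mul_two_pi, Real.cos_int_mul_two_pi]
  ring

theorem G_mid {a t : ℝ} (ht : 0 < t) (k : ℤ) :
    G a t (2 * (k : ℝ) * dya t + dya t) = (3 - 2 * (t / dya t)) * a := by
  have hD := (dya_pos t).ne'
  rw [G_eq ht]
  have e1 : 2 * Real.pi * (2 * (k : ℝ) * dya t + dya t) / dya t
      = ((2 * k + 1 : ℤ) : ℝ) * (2 * Real.pi) := by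
    push_cast
    field_simp
  have e2 : Real.pi * (2 * (k : ℝ) * dya t + dya t) / dya t
      = Real.pi + (k : ℝ) * (2 * Real.pi) := by
    field_simp
    ring
  rw [e1, e2, Real.cos_int_mul_two_pi, Real.cos_add_int_mul_two_pi, Real.cos_pi]
  ring

theorem G_low {a t : ℝ} (ht : 0 < t) (k : ℤ) :
    G a t (2 * (k : ℝ) * dya t + dya t / 2) = - (2 - t / dya t) * a := by
  have hD := (dya_pos t).ne'
  rw [G_eq ht]
  have e1 : 2 * Real.pi * (2 * (k : ℝ) * dya t + dya t / 2) / dya t
      = Real.pi + ((2 * k : ℤ) : ℝ) * (2 * Real.pi) := by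
    push_cast
    field_simp
    ring
  have e2 : Real.pi * (2 * (k : ℝ) * dya t + dya t / 2) / dya t
      = Real.pi / 2 + (k : ℝ) * (2 * Real.pi) := by
    field_simp
    ring
  rw [e1, e2, Real.cos_add_int_mul_two_pi, Real.cos_add_int_mul_two_pi, Real.cos_pi,
    Real.cos_pi_div_two]
  ring

end TRV

open TRV

theorem TRV_thm : Stmt_TRV := by
  intro a t lam y₀ ha ht
  have hD := dya_pos t
  have hpi : Real.pi < 3.1416 := Real.pi_lt_d4
  have hpi0 := Real.pi_pos
  have key : a / 8 ≤ 2 * a / 3 - a * Real.pi / 6 := by nlinarith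
  by_cases hl : lam ≤ a / 3
  · obtain ⟨k, hk⟩ := exists_pt (dya t) 0 y₀ hD
    refine ⟨_, hk, -1, Or.inr rfl, fun y hy => ?_⟩
    have h1 := abs_le.1 (lipG ha ht hy)
    rw [G_high ht k] at h1
    linarith [h1.1]
  · push Not at hl
    obtain ⟨y₁, hy₁, hG⟩ : ∃ y₁ ∈ Icc (y₀ - dya t) (y₀ + dya t), G a t y₁ ≤ - a / 3 := by
      by_cases hu : t / dya t ≤ 5 / 3
      · obtain ⟨k, hk⟩ := exists_pt (dya t) (dya t / 2) y₀ hD
        refine ⟨_, hk, ?_⟩
        rw [G_low ht k]
        nlinarith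
      · obtain ⟨k, hk⟩ := exists_pt (dya t) (dya t) y₀ hD
        refine ⟨_, hk, ?_⟩
        rw [G_mid ht k]
        push Not at hu
        nlinarith
    refine ⟨y₁, hy₁, 1, Or.inl rfl, fun y hy => ?_⟩
    have h1 := abs_le.1 (lipG ha ht hy)
    linarith [h1.2]

end Pool.Agent.QL
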