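import Pool.Agent.QL.Stmts

/-!
# Module VAR: a curve which is lengthened at all scales has infinite length
-/

open MeasureTheory Set Filter Topology
open scoped ENNReal

namespace Pool.Agent.QL

namespace VAR

theorem mono_of_grid {Y Y' : ℤ → ℝ} {ε : ℝ}
    (hY : ∀ j, Y j ≤ Y' j ∧ Y' j ≤ Y (j + 1) ∧ Y (j + 1) - Y j ≤ ε) : Monotone Y := by
  refine monotone_int_of_le_succ (fun j => ?_)
  exact (hY j).1.trans (hY j).2.1

theorem Icc_add (h : ℝ → ℂ) {a b c : ℝ} (hab : a ≤ b) (hbc : b ≤ c) :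
    eVariationOn h (Icc a b) + eVariationOn h (Icc b c) = eVariationOn h (Icc a c) := by
  have := eVariationOn.Icc_add_Icc h (s := univ) hab hbc (mem_univ b)
  simpa using this

theorem norm_le_ev (h : ℝ → ℂ) {a b : ℝ} (hab : a ≤ b) :
    ENNReal.ofReal ‖h a - h b‖ ≤ eVariationOn h (Icc a b) := by
  have := eVariationOn.edist_le h (s := Icc a b) (x := a) (y := b) ⟨le_rfl, hab⟩ ⟨hab, le_rfl⟩
  rwa [edist_dist, dist_eq_norm] at this

theorem grid_step {Y Y' : ℤ → ℝ} {ε c : ℝ} {h : ℝ → ℂ}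
    (hY : ∀ j, Y j ≤ Y' j ∧ Y' j ≤ Y (j + 1) ∧ Y (j + 1) - Y j ≤ ε)
    (hc : ∀ j, (1 + c) * ‖h (Y j) - h (Y (j + 1))‖
      ≤ ‖h (Y j) - h (Y' j)‖ + ‖h (Y' j) - h (Y (j + 1))‖) (hc0 : 0 < c) (j : ℤ) (n : ℕ) :
    ENNReal.ofReal ((1 + c) * ‖h (Y j) - h (Y (j + n))‖)
      ≤ eVariationOn h (Icc (Y j) (Y (j + n))) := by
  induction n with
  | zero => simp
  | succ n ih =>
    have hm := mono_of_grid hY
    have e1 : j + ((n + 1 : ℕ) : ℤ) = (j + n) + 1 := by push_cast; ring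
    rw [e1]
    set k : ℤ := j + n with hk
    have h1 : Y j ≤ Y k := hm (by omega)
    have h2 : Y k ≤ Y (k + 1) := hm (by omega)
    rw [← Icc_add h h1 h2, ← Icc_add h (hY k).1 (hY k).2.1]
    have h3 : (1 + c) * ‖h (Y j) - h (Y (k + 1))‖ ≤ (1 + c) * ‖h (Y j) - h (Y k)‖
        + (‖h (Y k) - h (Y' k)‖ + ‖h (Y' k) - h (Y (k + 1))‖) := by
      have h4 : ‖h (Y j) - h (Y (k + 1))‖ ≤ ‖h (Y j) - h (Y k)‖ + ‖h (Y k) - h (Y (k + 1))‖ := by
        have := norm_sub_le_norm_sub_add_norm_sub (h (Y j)) (h (Y k)) (h (Y (k + 1)))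
        exact this
      have h5 := hc k
      nlinarith
    refine (ENNReal.ofReal_le_ofReal h3).trans ?_
    rw [ENNReal.ofReal_add (by positivity) (by positivity),
      ENNReal.ofReal_add (by positivity) (by positivity)]
    exact add_le_add ih (add_le_add (norm_le_ev h (hY k).1) (norm_le_ev h (hY k).2.1))

theorem grid_le {Y Y' : ℤ → ℝ} {ε c : ℝ} {h : ℝ → ℂ}
    (hY : ∀ j, Y j ≤ Y' j ∧ Y' j ≤ Y (j + 1) ∧ Y (j + 1) - Y j ≤ ε)
    (hc : ∀ j, (1 + c) * ‖h (Y j) - h (Y (j + 1))‖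
      ≤ ‖h (Y j) - h (Y' j)‖ + ‖h (Y' j) - h (Y (j + 1))‖) (hc0 : 0 < c) {j k : ℤ} (hjk : j ≤ k) :
    ENNReal.ofReal ((1 + c) * ‖h (Y j) - h (Y k)‖) ≤ eVariationOn h (Icc (Y j) (Y k)) := by
  obtain ⟨n, rfl⟩ := Int.le.dest hjk
  exact grid_step hY hc hc0 j n

/-- Points of the grid close to the endpoints. -/
theorem exists_pts {Y Y' : ℤ → ℝ} {ε : ℝ}
    (hY : ∀ j, Y j ≤ Y' j ∧ Y' j ≤ Y (j + 1) ∧ Y (j + 1) - Y j ≤ ε)
    (hT : ∀ T, ∃ j, T ≤ Y j) (hB : ∀ T, ∃ j, Y j ≤ T) (s : ℝ) :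
    ∃ j, s ≤ Y j ∧ Y j ≤ s + ε ∧ Y (j - 1) < s := by
  classical
  have hm := mono_of_grid hY
  obtain ⟨b, hb⟩ := hB (s - 1)
  have hlow : ∀ z : ℤ, s ≤ Y z → b ≤ z := by
    intro z hz
    by_contra hcon
    have : Y z ≤ Y b := hm (by omega)
    linarith
  obtain ⟨j, hj1, hj2⟩ := Int.exists_least_of_bdd (P := fun z => s ≤ Y z) ⟨b, hlow⟩ (hT s)
  have h1 : Y (j - 1) < s := by
    by_contra hcon
    have := hj2 (j - 1) (not_lt.mp hcon)
    omega
  have h2 := (hY (j - 1)).2.2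
  rw [sub_add_cancel] at h2
  exact ⟨j, hj1, by linarith, h1⟩

/-- The key estimate. -/
theorem key {h : ℝ → ℂ} {c : ℝ} (hcont : Continuous h) (hc0 : 0 < c)
    (hG : ∀ ε > 0, Grid c ε h) {s t : ℝ} (hst : s < t) :
    ENNReal.ofReal ((1 + c) * ‖h s - h t‖) ≤ eVariationOn h (Icc s t) := by
  by_contra hcon
  rw [not_le] at hcon
  have hfin : eVariationOn h (Icc s t) ≠ ⊤ := ne_top_of_lt hcon
  set V : ℝ := (eVariationOn h (Icc s t)).toReal with hV
  have hVlt : V < (1 + c) * ‖h s - h t‖ := by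
    have := (ENNReal.lt_ofReal_iff_toReal_lt hfin).1 hcon
    exact this
  set δ : ℝ := ((1 + c) * ‖h s - h t‖ - V) / (4 * (1 + c)) with hδ
  have hδ0 : 0 < δ := div_pos (by linarith) (by linarith)
  obtain ⟨ε1, h10, h1⟩ := Metric.continuous_iff.1 hcont s δ hδ0
  obtain ⟨ε2, h20, h2⟩ := Metric.continuous_iff.1 hcont t δ hδ0
  set ε : ℝ := min (min (ε1 / 2) (ε2 / 2)) ((t - s) / 4) with hε
  have hε0 : 0 < ε := lt_min (lt_min (by linarith) (by linarith)) (by linarith)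
  have hεa : ε ≤ ε1 / 2 := (min_le_left _ _).trans (min_le_left _ _)
  have hεb : ε ≤ ε2 / 2 := (min_le_left _ _).trans (min_le_right _ _)
  have hεc : ε ≤ (t - s) / 4 := min_le_right _ _
  obtain ⟨Y, Y', hY, hT, hB, hc⟩ := hG ε hε0
  have hm := mono_of_grid hY
  obtain ⟨j, hj1, hj2, -⟩ := exists_pts hY hT hB s
  obtain ⟨k, hk1, hk2, hk3⟩ := exists_pts hY hT hB t
  have hk4 : t - ε ≤ Y (k - 1) := by
    have h3 := (hY (k - 1)).2.2
    rw [sub_add_cancel] at h3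
    linarith
  have hjk : j ≤ k - 1 := by
    by_contra hcc
    have : Y (k - 1) ≤ Y j := hm (by omega)
    have : k - 1 < j := by omega
    linarith
  have h3 := grid_le hY hc hc0 hjk
  have h4 : eVariationOn h (Icc (Y j) (Y (k - 1))) ≤ eVariationOn h (Icc s t) :=
    eVariationOn.mono h (Icc_subset_Icc hj1 hk3.le)
  have h5 : (1 + c) * ‖h (Y j) - h (Y (k - 1))‖ ≤ V := by
    have := ENNReal.toReal_mono hfin (h3.trans h4)
    rwa [ENNReal.toReal_ofReal (by positivity)] at this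
  have h6 : ‖h (Y j) - h s‖ < δ := by
    have := h1 (Y j) (by rw [Real.dist_eq, abs_of_nonneg (by linarith)]; linarith)
    rwa [dist_eq_norm] at this
  have h7 : ‖h (Y (k - 1)) - h t‖ < δ := by
    have := h2 (Y (k - 1)) (by
      rw [Real.dist_eq, abs_of_nonpos (by linarith)]; linarith)
    rwa [dist_eq_norm] at this
  have h8 : ‖h s - h t‖ ≤ ‖h (Y j) - h (Y (k - 1))‖ + 2 * δ := by
    have e : h s - h t = (h (Y j) - h (Y (k - 1))) - (h (Y j) - h s) + (h (Y (k - 1)) - h t) := by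
      ring
    rw [e]
    have a1 := norm_add_le ((h (Y j) - h (Y (k - 1))) - (h (Y j) - h s)) (h (Y (k - 1)) - h t)
    have a2 := norm_sub_le (h (Y j) - h (Y (k - 1))) (h (Y j) - h s)
    linarith
  have h9 : 4 * (1 + c) * δ = (1 + c) * ‖h s - h t‖ - V := by
    rw [hδ]; field_simp
  have h10' : (1 + c) * ‖h s - h t‖ ≤ V + 2 * (1 + c) * δ := by
    have := mul_le_mul_of_nonneg_left h8 (by linarith : (0 : ℝ) ≤ 1 + c)
    nlinarith
  have h11 : 0 < (1 + c) * δ := by positivity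
  linarith

theorem key' {h : ℝ → ℂ} {c : ℝ} (hcont : Continuous h) (hc0 : 0 < c)
    (hG : ∀ ε > 0, Grid c ε h) {s t : ℝ} (hst : s ≤ t) :
    ENNReal.ofReal (1 + c) * edist (h t) (h s) ≤ eVariationOn h (Icc s t) := by
  rcases hst.eq_or_lt with rfl | hlt
  · simp
  · have := key hcont hc0 hG hlt
    rw [ENNReal.ofReal_mul (by linarith)] at this
    rwa [edist_comm, edist_dist, dist_eq_norm]

theorem mul_le {h : ℝ → ℂ} {c : ℝ} (hcont : Continuous h) (hc0 : 0 < c)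
    (hG : ∀ ε > 0, Grid c ε h) (α β : ℝ) :
    ENNReal.ofReal (1 + c) * eVariationOn h (Icc α β) ≤ eVariationOn h (Icc α β) := by
  unfold eVariationOn
  rw [ENNReal.mul_iSup]
  refine iSup_le ?_
  rintro ⟨n, u, hu, hm⟩
  dsimp only
  rw [Finset.mul_sum]
  calc ∑ i ∈ Finset.range n, ENNReal.ofReal (1 + c) * edist (h (u (i + 1))) (h (u i))
      ≤ ∑ i ∈ Finset.range n, eVariationOn h (Icc (u i) (u (i + 1))) :=
        Finset.sum_le_sum fun i _ => key' hcont hc0 hG (hu (Nat.le_succ i))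
    _ = eVariationOn h (Icc (u 0) (u n)) := eVariationOn.sum' h hu
    _ ≤ eVariationOn h (Icc α β) :=
        eVariationOn.mono h (Icc_subset_Icc (hm 0).1 (hm n).2)

end VAR

open VAR in
theorem VAR_thm : Stmt_VAR := by
  intro h c hcont hinj hc0 hG α β hαβ
  by_contra hfin
  have h1 := VAR.mul_le hcont hc0 hG α β
  have h2 : 0 < eVariationOn h (Icc α β) := by
    refine lt_of_lt_of_le ?_ (eVariationOn.edist_le h (s := Icc α β) (x := α) (y := β)
      ⟨le_rfl, hαβ.le⟩ ⟨hαβ.le, le_rfl⟩)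
    exact edist_pos.2 fun he => hαβ.ne (hinj he)
  set v := eVariationOn h (Icc α β) with hv
  have h3 := ENNReal.toReal_mono hfin h1
  rw [ENNReal.toReal_mul, ENNReal.toReal_ofReal (by linarith)] at h3
  have h4 : 0 < v.toReal := ENNReal.toReal_pos h2.ne' hfin
  nlinarith

end Pool.Agent.QL
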