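import Pool.Agent.QL.StmtsU

/-!
# WND: in a window there is an interval where the curve spends little time over `V'`
-/

open MeasureTheory Set Filter Topology
open scoped ENNReal NNReal

namespace Pool.Agent.QL

namespace WND

theorem dya_pos (t : ℝ) : 0 < dya t := by
  unfold dya; positivity

theorem dya_le {t : ℝ} (ht : 0 < t) : dya t ≤ t := by
  have h := Int.zpow_log_le_self (b := 2) (by norm_num) ht
  unfold dya
  exact_mod_cast h

theorem lt_dya (t : ℝ) : t < 2 * dya t := by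
  have h := Int.lt_zpow_succ_log_self (b := 2) (by norm_num) t
  unfold dya
  have h2 : (2 : ℝ) * 2 ^ Int.log 2 t = ((2 : ℕ) : ℝ) ^ (Int.log 2 t + 1) := by
    rw [zpow_add_one₀ (by norm_num)]
    push_cast
    ring
  rw [h2]
  exact h

/-- The arithmetic. -/
theorem arith {a η ρ D h w C x vg vb vV ba cd : ℝ} (a0 : 0 < a) (a1 : a ≤ 1 / 30) (η0 : 0 < η)
    (η1 : η ≤ a / 100000) (ρ0 : 0 < ρ) (ρ1 : ρ ≤ a / 10000) (D0 : 0 < D) (hw : 0 < w)
    (hwC : w ≤ C) (hh : h * w = 4 * D) (hD2 : η * x ≤ 2 * D) (hba : h / 40 ≤ ba)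
    (hvb0 : 0 ≤ vb) (hvb : C * vb ≤ ρ * D) (hV : vV ≤ η ^ 2 * (x + 15 * D))
    (hs : a / 10 * w * vg ≤ vV + C * vb) (hcd : cd ≤ vg + vb) : cd ≤ ba / 2 := by
  have hη : η ≤ 1 / 3000000 := by linarith
  have h1 : η ^ 2 * (x + 15 * D) ≤ 3 * η * D := by
    have e : η ^ 2 * (x + 15 * D) = η * (η * x) + 15 * η * η * D := by ring
    rw [e]
    have e1 : η * (η * x) ≤ η * (2 * D) := mul_le_mul_of_nonneg_left hD2 η0.le
    have e2 : 15 * η * η * D ≤ η * D := by
      have : 15 * η * η ≤ η := by nlinarith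
      exact mul_le_mul_of_nonneg_right this D0.le
    nlinarith
  have h2 : a / 10 * w * vg ≤ (3 * η + ρ) * D := by nlinarith
  have h3 : (3 * η + ρ) * D ≤ (a / 5000) * D := by
    apply mul_le_mul_of_nonneg_right _ D0.le
    linarith
  have hD : D = h * w / 4 := by linarith
  have h4 : a * w * vg ≤ a * w * (h / 2000) := by
    have : a / 10 * w * vg ≤ a / 5000 * (h * w / 4) := by rw [← hD]; exact h2.trans h3
    nlinarith
  have h5 : vg ≤ h / 2000 := le_of_mul_le_mul_left h4 (mul_pos a0 hw)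
  have h6 : w * vb ≤ w * (ρ * h / 4) := by
    have : w * vb ≤ C * vb := mul_le_mul_of_nonneg_right hwC hvb0
    have e : ρ * D = w * (ρ * h / 4) := by rw [hD]; ring
    linarith
  have h7 : vb ≤ ρ * h / 4 := le_of_mul_le_mul_left h6 hw
  have hh0 : 0 < h := by
    by_contra hn
    have : h * w ≤ 0 := mul_nonpos_of_nonpos_of_nonneg (not_lt.mp hn) hw.le
    linarith
  have hρ : ρ ≤ 1 / 300000 := by linarith
  have h8 : ρ * h / 4 ≤ h / 1200000 := by nlinarith
  linarith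

end WND

theorem WND_thm (hWNDA : Stmt_WNDA) (hSWP : Stmt_SWP) (hDD : Stmt_DD) : Stmt_WND := by
  intro a η h C ρ V V' w t₀ ξ Bad W
  obtain ⟨hnear, α, β, s, hα, hαβ, hβ, hlen, hs, hder⟩ := hWNDA a η h C ρ V V' w t₀ ξ Bad W
  have ha1 := W.a1
  have hη1 := W.η1
  have hη : η ≤ 1 / 100 := by linarith
  obtain ⟨dd0, ddl, ddp, -, -, -, dd7, -⟩ := hDD η V V' W.η0 hη W.adm
  set x₀ := (ξ t₀).re with hx₀
  set D := dya (η * dd V x₀) with hDdef
  have hx0 : 0 < dd V x₀ := (ddp x₀).mpr W.mem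
  have hD0 : 0 < D := WND.dya_pos _
  have hD2 : η * dd V x₀ ≤ 2 * D := (WND.lt_dya _).le
  have hsub : Icc α β ⊆ Icc (t₀ - h) (t₀ + h) := Icc_subset_Icc hα hβ
  obtain ⟨L, hL⟩ := W.lip
  have hre : LipschitzWith L (fun t => (ξ t).re) := by
    have h1 : LipschitzWith 1 Complex.re := LipschitzWith.of_dist_le_mul fun z z' => by
      rw [Real.dist_eq, ← Complex.sub_re, dist_eq_norm]
      simpa using Complex.abs_re_le_norm (z - z')
    have h2 := h1.comp hL
    rw [one_mul] at h2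
    exact h2
  have hC0 : 0 ≤ C := W.hw.le.trans W.wC
  have hvol : volume V' < ⊤ := lt_of_le_of_lt W.adm.vol ENNReal.ofReal_lt_top
  have hdiff : ∀ᵐ t, DifferentiableAt ℝ ξ t := hL.ae_differentiableAt
  have hbd : ∀ᵐ t, t ∈ Icc α β → |deriv (fun r => (ξ r).re) t| ≤ C := by
    filter_upwards [hdiff, W.bd] with t ht hb hmem
    have h1 : HasDerivAt (fun r => (ξ r).re) (deriv ξ t).re t := by
      exact (Complex.reCLM.hasFDerivAt.comp_hasDerivAt t ht.hasDerivAt)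
    rw [h1.deriv]
    exact (Complex.abs_re_le_norm _).trans (hb (hsub hmem))
  have hswp := hSWP L (fun t => (ξ t).re) s (a / 10 * ‖w‖) C α β V' Bad hre W.adm.oV' hvol W.mb
    hαβ.le hs (by have := W.a0; have := W.hw; positivity) hC0
    (by filter_upwards [hder] with t ht using ht) hbd
  refine ⟨α, β, hα, hαβ, hβ, hlen, ?_⟩
  have hmα : α ∈ Icc (t₀ - h) (t₀ + h) := hsub (left_mem_Icc.mpr hαβ.le)
  have hmβ : β ∈ Icc (t₀ - h) (t₀ + h) := hsub (right_mem_Icc.mpr hαβ.le)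
  have hreα : |(ξ α).re - x₀| ≤ 5 * D := by
    rw [hx₀, ← Complex.sub_re]
    exact (Complex.abs_re_le_norm _).trans (hnear α hmα)
  have hreβ : |(ξ β).re - x₀| ≤ 5 * D := by
    rw [hx₀, ← Complex.sub_re]
    exact (Complex.abs_re_le_norm _).trans (hnear β hmβ)
  have hVV : (volume (V' ∩ uIcc (ξ α).re (ξ β).re)).toReal ≤ η ^ 2 * (dd V x₀ + 15 * D) := by
    refine (dd7 _ _).trans ?_
    apply mul_le_mul_of_nonneg_left _ (sq_nonneg η)
    have h1 := ddl (ξ α).re x₀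
    have h2 := abs_le.mp (h1.trans hreα)
    have h3 : |(ξ α).re - (ξ β).re| ≤ 10 * D := by
      have e : (ξ α).re - (ξ β).re = ((ξ α).re - x₀) - ((ξ β).re - x₀) := by ring
      rw [e]
      exact (abs_sub _ _).trans (by linarith)
    linarith [h2.2]
  have hfin : ∀ A : Set ℝ, volume (A ∩ Icc (t₀ - h) (t₀ + h)) ≠ ⊤ := fun A =>
    ((measure_mono inter_subset_right).trans_lt measure_Icc_lt_top).ne
  have hvb : C * (volume (Bad ∩ Icc α β)).toReal ≤ ρ * D := by
    refine le_trans (mul_le_mul_of_nonneg_left ?_ hC0) W.small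
    exact ENNReal.toReal_mono (hfin Bad) (measure_mono (inter_subset_inter_right _ hsub))
  have hcd : (volume {t | t ∈ Icc α β ∧ (ξ t).re ∈ V'}).toReal ≤
      (volume {t | t ∈ Icc α β ∧ t ∉ Bad ∧ (ξ t).re ∈ V'}).toReal +
        (volume (Bad ∩ Icc α β)).toReal := by
    have f1 : volume {t | t ∈ Icc α β ∧ t ∉ Bad ∧ (ξ t).re ∈ V'} ≠ ⊤ :=
      ((measure_mono fun t ht => ht.1).trans_lt measure_Icc_lt_top).ne
    have f2 : volume (Bad ∩ Icc α β) ≠ ⊤ :=
      ((measure_mono inter_subset_right).trans_lt measure_Icc_lt_top).ne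
    rw [← ENNReal.toReal_add f1 f2]
    refine ENNReal.toReal_mono (ENNReal.add_ne_top.mpr ⟨f1, f2⟩) ?_
    refine (measure_mono ?_).trans (measure_union_le _ _)
    rintro t ⟨h1, h2⟩
    by_cases hb : t ∈ Bad
    · exact Or.inr ⟨hb, h1⟩
    · exact Or.inl ⟨h1, hb, h2⟩
  exact WND.arith W.a0 W.a1 W.η0 W.η1 W.ρ0 W.ρ1 hD0 W.hw W.wC W.hh hD2 hlen
    ENNReal.toReal_nonneg hvb hVV hswp hcd

end Pool.Agent.QL
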