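import Pool.Agent.QL.StmtsU

/-!
# Pure unrectifiability: the horizontal velocity in a window (module WNDA)
-/

open MeasureTheory Set Filter Topology
open scoped ENNReal NNReal

namespace Pool.Agent.QL

namespace WNDA

/-- A bound for increments passes to the derivatives. -/
theorem lim (φ : ℂ → ℂ) (ξ : ℝ → ℂ) (κ : ℝ) (q b : ℂ) (t : ℝ)
    (hφ : ∀ q q', ‖φ q - φ q' - (q - q')‖ ≤ κ * ‖q - q'‖) (hq : HasDerivAt ξ q t)
    (hb : HasDerivAt (fun s => φ (ξ s)) b t) : ‖b - q‖ ≤ κ * ‖q‖ := by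
  have h1 : Tendsto (fun s => ‖slope (fun s => φ (ξ s)) t s - slope ξ t s‖) (𝓝[≠] t)
      (𝓝 ‖b - q‖) :=
    ((hasDerivAt_iff_tendsto_slope.1 hb).sub (hasDerivAt_iff_tendsto_slope.1 hq)).norm
  have h2 : Tendsto (fun s => κ * ‖slope ξ t s‖) (𝓝[≠] t) (𝓝 (κ * ‖q‖)) :=
    ((hasDerivAt_iff_tendsto_slope.1 hq).norm).const_mul κ
  refine le_of_tendsto_of_tendsto' h1 h2 fun s => ?_
  rw [slope_def_module, slope_def_module, ← smul_sub, norm_smul, norm_smul]
  have h := hφ (ξ s) (ξ t)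
  have h0 : 0 ≤ ‖(s - t)⁻¹‖ := norm_nonneg _
  have h3 := mul_le_mul_of_nonneg_left h h0
  calc ‖(s - t)⁻¹‖ * ‖φ (ξ s) - φ (ξ t) - (ξ s - ξ t)‖ ≤ ‖(s - t)⁻¹‖ * (κ * ‖ξ s - ξ t‖) := h3
    _ = κ * (‖(s - t)⁻¹‖ * ‖ξ s - ξ t‖) := by ring

/-- The main numerical estimate: the horizontal velocity up to a small error. -/
theorem num0 (a η ρ W w1 w2 b1 b2 X Y g θ : ℝ) (ha : 0 < a) (ha1 : a ≤ 1 / 30) (hη : 0 < η)
    (hη1 : η ≤ a / 100000) (hρ1 : ρ ≤ a / 10000) (hW : 0 < W)
    (h1 : |b1 - w1| ≤ ρ * W) (h2 : |b2 - w2| ≤ ρ * W) (hX : |X| ≤ 1.12 * W)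
    (hY : |Y| ≤ 1.12 * W) (hg : |g| ≤ a)
    (hk : |X * (1 + θ * g ^ 2) - (b1 - g * b2)| ≤ a * η * |X| + 13 * a ^ 2 * η * |Y|) :
    |X * (1 + θ * g ^ 2) - (w1 - g * w2)| ≤ a * W / 9000 := by
  have haW : 0 < a * W := mul_pos ha hW
  have hη2 : η ≤ 1 / 3000000 := by linarith
  have e1 : a * η * |X| ≤ a * W * (1.12 / 3000000) := by
    have : a * η * |X| ≤ a * (1 / 3000000) * (1.12 * W) := by
      apply mul_le_mul _ hX (abs_nonneg _) (by positivity)
      exact mul_le_mul_of_nonneg_left hη2 ha.le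
    linarith
  have e2 : 13 * a ^ 2 * η * |Y| ≤ a * W * (1.12 / 3000000) := by
    have : 13 * a ^ 2 * η * |Y| ≤ a * (1 / 3000000) * (1.12 * W) := by
      apply mul_le_mul _ hY (abs_nonneg _) (by positivity)
      have h13 : 13 * a ^ 2 ≤ a := by nlinarith
      exact mul_le_mul h13 hη2 hη.le ha.le
    linarith
  have e3 : ρ * W ≤ a * W / 10000 := by
    have := mul_le_mul_of_nonneg_right hρ1 hW.le
    linarith
  have e4 : |g * (b2 - w2)| ≤ a * W / 300000 := by
    rw [abs_mul]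
    have : |g| * |b2 - w2| ≤ (1 / 30) * (a * W / 10000) := by
      apply mul_le_mul (hg.trans ha1) (h2.trans e3) (abs_nonneg _) (by norm_num)
    linarith
  have e5 : X * (1 + θ * g ^ 2) - (w1 - g * w2) =
      (X * (1 + θ * g ^ 2) - (b1 - g * b2)) + (b1 - w1) - g * (b2 - w2) := by ring
  rw [e5]
  have e6 := abs_sub (X * (1 + θ * g ^ 2) - (b1 - g * b2) + (b1 - w1)) (g * (b2 - w2))
  have e7 := abs_add_le (X * (1 + θ * g ^ 2) - (b1 - g * b2)) (b1 - w1)
  linarith

/-- Dividing by `1 + θ g²`. -/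
theorem num1 (a W X g θ s : ℝ) (ha : 0 < a) (ha1 : a ≤ 1 / 30) (hW : 0 < W) (hg : |g| ≤ a)
    (hθ0 : 0 ≤ θ) (hθ1 : θ ≤ 1) (h : 0.12 * (a * W) ≤ s * (X * (1 + θ * g ^ 2))) :
    a / 10 * W ≤ s * X := by
  have haW : 0 < a * W := mul_pos ha hW
  have hg2 : g ^ 2 ≤ 1 / 900 := by
    have : g ^ 2 = |g| ^ 2 := (sq_abs g).symm
    rw [this]
    have h3 := abs_nonneg g
    nlinarith
  have hm0 : 0 ≤ θ * g ^ 2 := by positivity
  have hm1 : θ * g ^ 2 ≤ 1 / 900 := by
    have := mul_le_mul hθ1 hg2 (sq_nonneg g) zero_le_one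
    linarith
  set m := θ * g ^ 2
  by_contra hc
  push Not at hc
  have h4 : s * (X * (1 + m)) = s * X * (1 + m) := by ring
  rw [h4] at h
  have h5 : s * X * (1 + m) ≤ a / 10 * W * (1 + m) :=
    mul_le_mul_of_nonneg_right hc.le (by linarith)
  have h6 : a / 10 * W * (1 + m) ≤ a / 10 * W * (1 + 1 / 900) :=
    mul_le_mul_of_nonneg_left (by linarith) (by positivity)
  nlinarith

/-- The velocities when the vertical part dominates. -/
theorem num2 (a η ρ W w1 w2 b2 X Y g θ : ℝ) (ha : 0 < a) (ha1 : a ≤ 1 / 30) (hη : 0 < η)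
    (hη1 : η ≤ a / 100000) (hρ1 : ρ ≤ a / 10000) (hW : 0 < W) (hw2 : |w2| ≤ W)
    (hw : |w1| < 2 * a * |w2|) (h2 : |b2 - w2| ≤ ρ * W)
    (hY : |Y| ≤ 1.12 * W) (hg : |g| ≤ a) (hθ0 : 0 ≤ θ)
    (hk : |X * (1 + θ * g ^ 2) - (w1 - g * w2)| ≤ a * W / 9000)
    (hk2 : |Y - b2| ≤ a * |X| + 13 * a * η * |Y|) : |Y - w2| ≤ 0.0034 * W := by
  have haW : 0 < a * W := mul_pos ha hW
  have hη2 : η ≤ 1 / 3000000 := by linarith
  have hX0 : |X| ≤ |X * (1 + θ * g ^ 2)| := by
    rw [abs_mul]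
    have : 1 ≤ |1 + θ * g ^ 2| := by
      rw [abs_of_nonneg (by positivity)]
      have : 0 ≤ θ * g ^ 2 := by positivity
      linarith
    nlinarith [abs_nonneg X]
  have hgw : |g * w2| ≤ a * W := by
    rw [abs_mul]
    exact mul_le_mul hg hw2 (abs_nonneg _) ha.le
  have hX1 : |X| ≤ 3.01 * (a * W) := by
    have e1 := abs_add_le (X * (1 + θ * g ^ 2) - (w1 - g * w2)) (w1 - g * w2)
    rw [sub_add_cancel] at e1
    have e2 := abs_sub w1 (g * w2)
    have e3 : 2 * a * |w2| ≤ 2 * (a * W) := by nlinarith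
    linarith
  have e1 : a * |X| ≤ 0.1004 / 30 * W := by
    have : a * |X| ≤ (1 / 30) * (3.01 * (a * W)) :=
      mul_le_mul ha1 hX1 (abs_nonneg _) (by norm_num)
    have h3 : a * W ≤ 1 / 30 * W := mul_le_mul_of_nonneg_right ha1 hW.le
    linarith
  have e2 : 13 * a * η * |Y| ≤ 0.000001 * W := by
    have : 13 * a * η * |Y| ≤ 13 * (1 / 30) * (1 / 3000000) * (1.12 * W) := by
      apply mul_le_mul _ hY (abs_nonneg _) (by norm_num)
      apply mul_le_mul _ hη2 hη.le (by norm_num)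
      linarith
    linarith
  have e3 : ρ * W ≤ 1 / 300000 * W := by
    have := mul_le_mul_of_nonneg_right (show ρ ≤ 1 / 300000 by linarith) hW.le
    linarith
  have e4 := abs_add_le (Y - b2) (b2 - w2)
  rw [sub_add_sub_cancel] at e4
  linarith

theorem hasDerivAt_re {ξ : ℝ → ℂ} {q : ℂ} {t : ℝ} (h : HasDerivAt ξ q t) :
    HasDerivAt (fun s => (ξ s).re) q.re t :=
  Complex.reCLM.hasFDerivAt.comp_hasDerivAt t h

theorem hasDerivAt_im {ξ : ℝ → ℂ} {q : ℂ} {t : ℝ} (h : HasDerivAt ξ q t) :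
    HasDerivAt (fun s => (ξ s).im) q.im t :=
  Complex.imCLM.hasFDerivAt.comp_hasDerivAt t h

theorem hasDerivAt_imC {ξ : ℝ → ℂ} {q : ℂ} {t : ℝ} (h : HasDerivAt ξ q t) :
    HasDerivAt (fun s => ((ξ s).im : ℂ)) (q.im : ℂ) t :=
  (hasDerivAt_im h).ofReal_comp

end WNDA

open WNDA in
/-- WNDA: in a window there is an interval where the horizontal velocity is not small. -/
theorem WNDA_thm (hFG : Stmt_FG) (hDD : Stmt_DD) (hP3 : Stmt_P3) (hDSP : Stmt_DSP)
    (hKIN : Stmt_KIN) (hTRV : Stmt_TRV) : Stmt_WNDA := by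
  intro a η h C ρ V V' w t₀ ξ Bad win
  obtain ⟨a0, a1, η0, η1, ρ0, ρ1, adm, wC, hw, hh, mem, ⟨L, lip⟩, bd, mb, good, small⟩ := win
  obtain ⟨W, hW⟩ : ∃ W, W = ‖w‖ := ⟨_, rfl⟩
  obtain ⟨T, hT⟩ : ∃ T, T = η * dd V (ξ t₀).re := ⟨_, rfl⟩
  obtain ⟨D, hD⟩ : ∃ D, D = dya T := ⟨_, rfl⟩
  rw [← hT, ← hD] at hh small
  rw [← hT, ← hD, ← hW]
  rw [← hW] at wC hw hh good
  have hη2 : η ≤ 1 / 3000000 := by linarith
  have hη100 : η ≤ 1 / 100 := by linarith
  obtain ⟨dd0, ddl, ddpos, ddmem, -, -, -, -⟩ := hDD η V V' η0 hη100 adm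
  have hx0 : 0 < dd V (ξ t₀).re := (ddpos _).2 mem
  have hT0 : 0 < T := by rw [hT]; exact mul_pos η0 hx0
  have hD0 : 0 < D := by rw [hD]; exact zpow_pos two_pos _
  have hDT : D ≤ T := by
    have := Int.zpow_log_le_self (b := 2) one_lt_two hT0
    rw [hD]
    unfold dya
    exact_mod_cast this
  have hh0 : 0 < h := by
    by_contra hc
    push Not at hc
    have := mul_nonpos_of_nonpos_of_nonneg hc hw.le
    linarith
  have hC : 0 ≤ C := hw.le.trans wC
  have hgood : ∀ t ∈ Icc (t₀ - h) (t₀ + h), t ∉ Bad → ∃ q b : ℂ, HasDerivAt ξ q t ∧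
      HasDerivAt (fun s => phi a η V V' (ξ s)) b t ∧ ‖b - w‖ ≤ ρ * W ∧ ‖q‖ ≤ 1.12 * W := by
    intro t ht hb
    obtain ⟨d1, d2, d3⟩ := good t ht hb
    refine ⟨deriv ξ t, deriv (fun s => phi a η V V' (ξ s)) t, d1.hasDerivAt, d2.hasDerivAt,
      d3, ?_⟩
    have h1 := WNDA.lim _ ξ (3 * a) _ _ t (hP3 a η V V' a0 (by linarith) η0 hη100 adm)
      d1.hasDerivAt d2.hasDerivAt
    have h2 : 3 * a * ‖deriv ξ t‖ ≤ 0.1 * ‖deriv ξ t‖ :=
      mul_le_mul_of_nonneg_right (by linarith) (norm_nonneg _)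
    have h3 : ‖deriv ξ t‖ ≤ ‖deriv (fun s => phi a η V V' (ξ s)) t‖ +
        ‖deriv (fun s => phi a η V V' (ξ s)) t - deriv ξ t‖ := by
      have := norm_sub_le (deriv (fun s => phi a η V V' (ξ s)) t)
        (deriv (fun s => phi a η V V' (ξ s)) t - deriv ξ t)
      rwa [sub_sub_cancel] at this
    have h4 : ‖deriv (fun s => phi a η V V' (ξ s)) t‖ ≤ ρ * W + W := by
      have := norm_add_le (deriv (fun s => phi a η V V' (ξ s)) t - w) w
      rw [sub_add_cancel] at this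
      linarith
    have h5 : ρ * W ≤ 1 / 300000 * W := mul_le_mul_of_nonneg_right (by linarith) hw.le
    linarith
  have hvol : ∀ α β, t₀ - h ≤ α → β ≤ t₀ + h → C * (volume (Bad ∩ Icc α β)).toReal ≤ ρ * D := by
    intro α β hα hβ
    refine le_trans (mul_le_mul_of_nonneg_left (ENNReal.toReal_mono ?_
      (measure_mono (inter_subset_inter_right _ (Icc_subset_Icc hα hβ)))) hC) small
    exact ((measure_mono inter_subset_right).trans_lt measure_Icc_lt_top).ne
  have hρD : ρ * D ≤ 1 / 300000 * D := mul_le_mul_of_nonneg_right (by linarith) hD0.le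
  have hinc : ∀ α β, t₀ - h ≤ α → α ≤ β → β ≤ t₀ + h →
      ‖ξ β - ξ α‖ ≤ 1.12 * W * (β - α) + ρ * D := by
    intro α β hα hαβ hβ
    have h1 := hDSP L ξ 0 (1.12 * W) C α β Bad lip mb hαβ (by positivity) hC
      (Eventually.of_forall fun t ht hb => by
        obtain ⟨q, b, hq, -, -, hq2⟩ := hgood t ⟨hα.trans ht.1, ht.2.trans hβ⟩ hb
        rw [hq.deriv, sub_zero]
        exact hq2)
      (by
        filter_upwards [bd] with t ht hti
        exact ht ⟨hα.trans hti.1, hti.2.trans hβ⟩)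
    rw [smul_zero, sub_zero, norm_zero, add_zero] at h1
    have := hvol α β hα hβ
    linarith
  have hclose : ∀ t ∈ Icc (t₀ - h) (t₀ + h), ‖ξ t - ξ t₀‖ ≤ 5 * D := by
    intro t ht
    have hle : ‖ξ t - ξ t₀‖ ≤ 1.12 * W * h + ρ * D := by
      rcases le_total t₀ t with h1 | h1
      · have := hinc t₀ t (by linarith) h1 ht.2
        have h2 : 1.12 * W * (t - t₀) ≤ 1.12 * W * h :=
          mul_le_mul_of_nonneg_left (by linarith [ht.2]) (by positivity)
        linarith
      · have := hinc t t₀ ht.1 h1 (by linarith)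
        rw [norm_sub_rev]
        have h2 : 1.12 * W * (t₀ - t) ≤ 1.12 * W * h :=
          mul_le_mul_of_nonneg_left (by linarith [ht.1]) (by positivity)
        linarith
    have : 1.12 * W * h = 1.12 * (4 * D) := by rw [← hh]; ring
    linarith
  refine ⟨hclose, ?_⟩
  obtain ⟨-, -, -, -, hG, -, hGl, -⟩ := hFG a a0
  -- the kinematic facts at good times
  have hgood2 : ∀ t ∈ Icc (t₀ - h) (t₀ + h), t ∉ Bad → ∃ X Y b2 g θ : ℝ,
      HasDerivAt (fun r => (ξ r).re) X t ∧ HasDerivAt (fun r => ((ξ r).im : ℂ)) (Y : ℂ) t ∧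
      |g| ≤ a ∧ |g - G a T (ξ t).im| ≤ a / 75000 ∧ 0 ≤ θ ∧ θ ≤ 1 ∧
      |b2 - w.im| ≤ ρ * W ∧ |Y| ≤ 1.12 * W ∧
      |X * (1 + θ * g ^ 2) - (w.re - g * w.im)| ≤ a * W / 9000 ∧
      |Y - b2| ≤ a * |X| + 13 * a * η * |Y| := by
    intro t ht hb
    obtain ⟨q, b, hq, hφ, hbw, hqW⟩ := hgood t ht hb
    have hcl := hclose t ht
    have hre : |(ξ t).re - (ξ t₀).re| ≤ 5 * D := by
      rw [← Complex.sub_re]
      exact (Complex.abs_re_le_norm _).trans hcl
    have h5T : 5 * D ≤ 5 * (η * dd V (ξ t₀).re) := by rw [← hT]; linarith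
    have hmem : (ξ t).re ∈ V := by
      apply ddmem (ξ t₀).re
      have : η * dd V (ξ t₀).re ≤ 1 / 3000000 * dd V (ξ t₀).re :=
        mul_le_mul_of_nonneg_right hη2 hx0.le
      linarith
    have hdl : |dd V (ξ t).re - dd V (ξ t₀).re| ≤ 5 * D := (ddl _ _).trans hre
    have hTt : T / 2 ≤ η * dd V (ξ t).re := by
      have h1 := (abs_le.1 hdl).1
      have h2 : η * (dd V (ξ t₀).re - 5 * D) ≤ η * dd V (ξ t).re :=
        mul_le_mul_of_nonneg_left (by linarith) η0.le
      have h3 : η * (5 * D) ≤ 1 / 3000000 * (5 * D) :=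
        mul_le_mul_of_nonneg_right hη2 (by positivity)
      have h4 : η * (dd V (ξ t₀).re - 5 * D) = T - η * (5 * D) := by rw [hT]; ring
      linarith
    have hGG : |G a (η * dd V (ξ t).re) (ξ t).im - G a T (ξ t).im| ≤ a / 75000 := by
      have h1 := hGl (T / 2) (η * dd V (ξ t).re) T (ξ t).im (by positivity) hTt (by linarith)
      refine h1.trans ?_
      have h2 : |η * dd V (ξ t).re - T| ≤ η * (5 * D) := by
        rw [hT, ← mul_sub, abs_mul, abs_of_pos η0]
        exact mul_le_mul_of_nonneg_left hdl η0.le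
      have h3 : |η * dd V (ξ t).re - T| ≤ 1 / 3000000 * (5 * T) := by
        refine h2.trans ?_
        exact mul_le_mul hη2 (by linarith) (by positivity) (by norm_num)
      calc 4 * a / (T / 2) * |η * dd V (ξ t).re - T|
          ≤ 4 * a / (T / 2) * (1 / 3000000 * (5 * T)) :=
            mul_le_mul_of_nonneg_left h3 (by positivity)
        _ = a / 75000 := by field_simp; norm_num
    obtain ⟨θ, ⟨hθ0, hθ1⟩, hk1, hk2⟩ := hKIN a η V V' ξ t q b a0 (by linarith) η0 hη100 adm hmem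
      hq hφ
    have hb1 : |b.re - w.re| ≤ ρ * W := by
      rw [← Complex.sub_re]
      exact (Complex.abs_re_le_norm _).trans hbw
    have hb2 : |b.im - w.im| ≤ ρ * W := by
      rw [← Complex.sub_im]
      exact (Complex.abs_im_le_norm _).trans hbw
    have hq1 : |q.re| ≤ 1.12 * W := (Complex.abs_re_le_norm _).trans hqW
    have hq2 : |q.im| ≤ 1.12 * W := (Complex.abs_im_le_norm _).trans hqW
    exact ⟨q.re, q.im, b.im, G a (η * dd V (ξ t).re) (ξ t).im, θ, hasDerivAt_re hq,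
      hasDerivAt_imC hq, hG _ _, hGG, hθ0, hθ1, hb2, hq2,
      num0 a η ρ W w.re w.im b.re b.im q.re q.im _ θ a0 a1 η0 η1 ρ1 hw hb1 hb2 hq1 hq2 (hG _ _)
        hk1, hk2⟩
  have hW2 : w.re ^ 2 + w.im ^ 2 = W ^ 2 := by
    rw [hW, ← Complex.normSq_eq_norm_sq, Complex.normSq_apply]
    ring
  have haW : 0 < a * W := mul_pos a0 hw
  rcases le_or_gt (2 * a * |w.im|) |w.re| with hcase | hcase
  · -- the horizontal part of `w` is not small
    have hw1 : a * W ≤ |w.re| := by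
      have e1 : w.re ^ 2 = |w.re| ^ 2 := (sq_abs _).symm
      have e2 : w.im ^ 2 = |w.im| ^ 2 := (sq_abs _).symm
      by_contra hc
      push Not at hc
      have e3 : |w.re| ^ 2 ≤ (a * W) ^ 2 := pow_le_pow_left₀ (abs_nonneg _) hc.le 2
      have e4 : (2 * a * |w.im|) ^ 2 ≤ |w.re| ^ 2 := pow_le_pow_left₀ (by positivity) hcase 2
      have e5 : a ^ 2 ≤ 1 / 900 := by nlinarith
      have e6 : a ^ 2 * (|w.re| ^ 2 + |w.im| ^ 2) = a ^ 2 * W ^ 2 := by rw [← hW2, e1, e2]
      have e7 : a ^ 2 * |w.re| ^ 2 ≤ 1 / 900 * |w.re| ^ 2 :=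
        mul_le_mul_of_nonneg_right e5 (sq_nonneg _)
      have e8 : 0 < (a * W) ^ 2 := by positivity
      nlinarith
    obtain ⟨s, hs, hsw⟩ : ∃ s : ℝ, (s = 1 ∨ s = -1) ∧ s * w.re = |w.re| := by
      rcases abs_cases w.re with h1 | h1
      · exact ⟨1, Or.inl rfl, by rw [h1.1]; ring⟩
      · exact ⟨-1, Or.inr rfl, by rw [h1.1]; ring⟩
    have hsa : |s| = 1 := by rcases hs with rfl | rfl <;> simp
    refine ⟨t₀ - h, t₀ + h, s, le_rfl, by linarith, le_rfl, by linarith, hs,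
      Eventually.of_forall fun t ht hb => ?_⟩
    obtain ⟨X, Y, b2, g, θ, hX, -, hg, -, hθ0, hθ1, -, -, hk, -⟩ := hgood2 t ht hb
    rw [hX.deriv]
    apply num1 a W X g θ s a0 a1 hw hg hθ0 hθ1
    have e1 : s * (X * (1 + θ * g ^ 2)) = s * (X * (1 + θ * g ^ 2) - (w.re - g * w.im)) +
        s * w.re - s * (g * w.im) := by ring
    have e2 := neg_abs_le (s * (X * (1 + θ * g ^ 2) - (w.re - g * w.im)))
    have e3 := le_abs_self (s * (g * w.im))
    rw [abs_mul, hsa, one_mul] at e2 e3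
    have e4 : |g * w.im| ≤ |w.re| / 2 := by
      rw [abs_mul]
      have := mul_le_mul_of_nonneg_right hg (abs_nonneg w.im)
      linarith
    rw [e1, hsw]
    linarith
  · -- the vertical part of `w` dominates
    have hwi : |w.im| ≤ W := by rw [hW]; exact Complex.abs_im_le_norm _
    have hw2 : 0.997 * W ≤ |w.im| := by
      have e1 : w.re ^ 2 = |w.re| ^ 2 := (sq_abs _).symm
      have e2 : w.im ^ 2 = |w.im| ^ 2 := (sq_abs _).symm
      apply le_of_sq_le_sq _ (abs_nonneg _)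
      have e4 : |w.re| ^ 2 ≤ (2 * a * |w.im|) ^ 2 :=
        pow_le_pow_left₀ (abs_nonneg _) hcase.le 2
      have e5 : a ^ 2 ≤ 1 / 900 := by nlinarith
      have e7 : a ^ 2 * |w.im| ^ 2 ≤ 1 / 900 * |w.im| ^ 2 :=
        mul_le_mul_of_nonneg_right e5 (sq_nonneg _)
      nlinarith
    have hlipf : LipschitzWith L (fun t => ((ξ t).im : ℂ)) := by
      apply LipschitzWith.of_dist_le_mul
      intro x y
      refine le_trans ?_ (lip.dist_le_mul x y)
      rw [Complex.dist_eq, Complex.dist_eq, ← Complex.ofReal_sub, ← Complex.sub_im,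
        Complex.norm_real]
      exact Complex.abs_im_le_norm _
    have hy : ∀ α β, t₀ - h ≤ α → α ≤ β → β ≤ t₀ + h →
        |(ξ β).im - (ξ α).im - (β - α) * w.im| ≤ 0.0034 * W * (β - α) + 2 * (ρ * D) := by
      intro α β hα hαβ hβ
      have h1 := hDSP L (fun t => ((ξ t).im : ℂ)) (w.im : ℂ) (0.0034 * W) C α β Bad hlipf mb hαβ
        (by positivity) hC
        (Eventually.of_forall fun t ht hb => by
          obtain ⟨X, Y, b2, g, θ, -, hY, hg, -, hθ0, hθ1, hb2, hYW, hk, hk2⟩ :=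
            hgood2 t ⟨hα.trans ht.1, ht.2.trans hβ⟩ hb
          rw [hY.deriv, ← Complex.ofReal_sub, Complex.norm_real]
          exact num2 a η ρ W w.re w.im b2 X Y g θ a0 a1 η0 η1 ρ1 hw hwi hcase hb2 hYW hg hθ0
            hk hk2)
        (by
          filter_upwards [bd, lip.ae_differentiableAt_real] with t ht hd hti
          have h2 := ht ⟨hα.trans hti.1, hti.2.trans hβ⟩
          rw [(hasDerivAt_imC hd.hasDerivAt).deriv, Complex.norm_real]
          exact (Complex.abs_im_le_norm _).trans h2)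
      have h2 : ((ξ β).im : ℂ) - ((ξ α).im : ℂ) - (β - α) • (w.im : ℂ) =
          (((ξ β).im - (ξ α).im - (β - α) * w.im : ℝ) : ℂ) := by
        push_cast
        rw [Complex.real_smul]
        push_cast
        ring
      rw [h2, Complex.norm_real, Complex.norm_real, Real.norm_eq_abs, Real.norm_eq_abs] at h1
      have h3 := hvol α β hα hβ
      have h4 : |w.im| * (volume (Bad ∩ Icc α β)).toReal ≤ C * (volume (Bad ∩ Icc α β)).toReal :=
        mul_le_mul_of_nonneg_right (hwi.trans wC) ENNReal.toReal_nonneg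
      have h5 : (C + |w.im|) * (volume (Bad ∩ Icc α β)).toReal =
        C * (volume (Bad ∩ Icc α β)).toReal + |w.im| * (volume (Bad ∩ Icc α β)).toReal := by ring
      linarith
    obtain ⟨y₁, hy₁, s', hs', htrv⟩ := hTRV a T (w.re / w.im) (ξ t₀).im a0 hT0
    rw [← hD] at hy₁ htrv
    -- a time when the height is `y₁`
    have hcont : Continuous fun t => (ξ t).im := Complex.continuous_im.comp lip.continuous
    have hWh : W * h = 4 * D := by rw [← hh]; ring
    obtain ⟨r, hr, hry⟩ : ∃ r ∈ Icc (t₀ - h / 2) (t₀ + h / 2), (ξ r).im = y₁ := by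
      have h1 := hy t₀ (t₀ + h / 2) (by linarith) (by linarith) (by linarith)
      have h2 := hy (t₀ - h / 2) t₀ (by linarith) (by linarith) (by linarith)
      have e1 : 0.0034 * W * (t₀ + h / 2 - t₀) = 0.0068 * D := by
        have : 0.0034 * W * (t₀ + h / 2 - t₀) = 0.0017 * (W * h) := by ring
        rw [this, hWh]; ring
      have e2 : 0.0034 * W * (t₀ - (t₀ - h / 2)) = 0.0068 * D := by
        have : 0.0034 * W * (t₀ - (t₀ - h / 2)) = 0.0017 * (W * h) := by ring
        rw [this, hWh]; ring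
      rw [e1] at h1
      rw [e2] at h2
      have e3 : 1.994 * D ≤ h / 2 * |w.im| := by
        have : h / 2 * (0.997 * W) ≤ h / 2 * |w.im| :=
          mul_le_mul_of_nonneg_left hw2 (by positivity)
        have e : h / 2 * (0.997 * W) = 0.4985 * (W * h) := by ring
        rw [e, hWh] at this
        linarith
      rw [abs_le] at h1 h2
      obtain ⟨hy1a, hy1b⟩ := hy₁
      rcases abs_cases w.im with hc | hc
      · rw [hc.1] at e3
        have h3 := intermediate_value_Icc (show t₀ - h / 2 ≤ t₀ + h / 2 by linarith)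
          hcont.continuousOn
        apply h3
        constructor
        · nlinarith [h2.1, h2.2]
        · nlinarith [h1.1, h1.2]
      · rw [hc.1] at e3
        have h3 := intermediate_value_Icc' (show t₀ - h / 2 ≤ t₀ + h / 2 by linarith)
          hcont.continuousOn
        apply h3
        constructor
        · nlinarith [h1.1, h1.2]
        · nlinarith [h2.1, h2.2]
    obtain ⟨u, hu, huw⟩ : ∃ u : ℝ, (u = 1 ∨ u = -1) ∧ u * w.im = |w.im| := by
      rcases abs_cases w.im with h1 | h1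
      · exact ⟨1, Or.inl rfl, by rw [h1.1]; ring⟩
      · exact ⟨-1, Or.inr rfl, by rw [h1.1]; ring⟩
    have hw0 : w.im ≠ 0 := by
      intro h0
      rw [h0, abs_zero] at hw2
      linarith
    have hsu : s' * u = 1 ∨ s' * u = -1 := by
      rcases hs' with rfl | rfl <;> rcases hu with rfl | rfl <;> simp
    have hsa : |s' * u| = 1 := by rcases hsu with h1 | h1 <;> rw [h1] <;> simp
    refine ⟨r - h / 80, r + h / 80, s' * u, by linarith [hr.1], by linarith, by linarith [hr.2],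
      by linarith, hsu, Eventually.of_forall fun t ht hb => ?_⟩
    have htI : t ∈ Icc (t₀ - h) (t₀ + h) := ⟨by linarith [hr.1, ht.1], by linarith [hr.2, ht.2]⟩
    obtain ⟨X, Y, b2, g, θ, hX, -, hg, hgG, hθ0, hθ1, -, -, hk, -⟩ := hgood2 t htI hb
    rw [hX.deriv]
    apply num1 a W X g θ (s' * u) a0 a1 hw hg hθ0 hθ1
    -- the height is close to `y₁`
    have hyt : |(ξ t).im - y₁| ≤ D / 12 := by
      rw [← hry]
      have key : ∀ α β, t₀ - h ≤ α → α ≤ β → β ≤ t₀ + h → β - α ≤ h / 80 →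
          |(ξ β).im - (ξ α).im| ≤ D / 12 := by
        intro α β h1 h2 h3 h4
        have e1 := hy α β h1 h2 h3
        have e2 := abs_add_le ((ξ β).im - (ξ α).im - (β - α) * w.im) ((β - α) * w.im)
        rw [sub_add_cancel] at e2
        have e3 : |(β - α) * w.im| ≤ h / 80 * W := by
          rw [abs_mul, abs_of_nonneg (by linarith : 0 ≤ β - α)]
          exact mul_le_mul h4 hwi (abs_nonneg _) (by positivity)
        have e4 : 0.0034 * W * (β - α) ≤ 0.0034 * W * (h / 80) :=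
          mul_le_mul_of_nonneg_left h4 (by positivity)
        have e5 : h / 80 * W = D / 20 := by
          have : h / 80 * W = (W * h) / 80 := by ring
          rw [this, hWh]; ring
        have e6 : 0.0034 * W * (h / 80) = 0.0034 * (D / 20) := by rw [← e5]; ring
        linarith
      rcases le_total r t with h1 | h1
      · exact key r t (by linarith [hr.1]) h1 htI.2 (by linarith [ht.2])
      · rw [abs_sub_comm]
        exact key t r htI.1 h1 (by linarith [hr.2]) (by linarith [ht.1])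
    have ht1 := htrv _ hyt
    have ht2 : |w.im| * (a / 8) ≤ |w.im| * (s' * (w.re / w.im - G a T (ξ t).im)) :=
      mul_le_mul_of_nonneg_left ht1 (abs_nonneg _)
    have e1 : |w.im| * (s' * (w.re / w.im - G a T (ξ t).im)) =
        s' * u * (w.re - G a T (ξ t).im * w.im) := by
      rw [← huw]
      field_simp
    rw [e1] at ht2
    have ht3 : 0.997 * W * (a / 8) ≤ |w.im| * (a / 8) :=
      mul_le_mul_of_nonneg_right hw2 (by positivity)
    have e2 : s' * u * (X * (1 + θ * g ^ 2)) =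
        s' * u * (X * (1 + θ * g ^ 2) - (w.re - g * w.im)) +
        s' * u * (w.re - G a T (ξ t).im * w.im) - s' * u * ((g - G a T (ξ t).im) * w.im) := by
      ring
    have e3 := neg_abs_le (s' * u * (X * (1 + θ * g ^ 2) - (w.re - g * w.im)))
    have e4 := le_abs_self (s' * u * ((g - G a T (ξ t).im) * w.im))
    rw [abs_mul, hsa, one_mul] at e3 e4
    have e5 : |(g - G a T (ξ t).im) * w.im| ≤ a / 75000 * W := by
      rw [abs_mul]
      exact mul_le_mul hgG hwi (abs_nonneg _) (by positivity)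
    rw [e2]
    linarith

end Pool.Agent.QL
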