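import Pool.Agent.QL.INT
import Pool.Agent.QL.FG
import Pool.Agent.QL.SETS
import Pool.Agent.QL.DD
import Pool.Agent.QL.BW
import Pool.Agent.QL.P12
import Pool.Agent.QL.P3
import Pool.Agent.QL.P4
import Pool.Agent.QL.P5
import Pool.Agent.QL.TWR
import Pool.Agent.QL.NID
import Pool.Agent.QL.NSM
import Pool.Agent.QL.QS
import Pool.Agent.QL.LIM
import Pool.Agent.QL.HOM
import Pool.Agent.QL.GRD
import Pool.Agent.QL.VAR
import Pool.Agent.QL.CRV
import Pool.Agent.QL.TOPB
import Pool.Agent.QL.H1V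
import Pool.Agent.QL.COV
import Pool.Agent.QL.ACL
import Pool.Agent.QL.MAIN
import Pool.Agent.QL.CTW
import Pool.Agent.QL.AREA
import Pool.Agent.QL.LEB
import Pool.Agent.QL.DSP
import Pool.Agent.QL.SWP
import Pool.Agent.QL.KIN
import Pool.Agent.QL.TRV
import Pool.Agent.QL.WNDA
import Pool.Agent.QL.WND
import Pool.Agent.QL.PRD
import Pool.Agent.QL.PUR
import Pool.Agent.QL.MAINU

/-!
# The theorem, with pure unrectifiability
-/

namespace Pool.Agent.QL

theorem FG_full : Stmt_FG := FG_thm INT_thm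

theorem BW_full : Stmt_BW := BW_thm FG_full DD_thm

theorem P12_full : Stmt_P12 := P12_thm FG_full DD_thm BW_full

theorem P3_full : Stmt_P3 := P3_thm FG_full DD_thm BW_full

theorem P4_full : Stmt_P4 := P4_thm FG_full DD_thm BW_full

theorem P5_full : Stmt_P5 := P5_thm FG_full DD_thm BW_full

theorem TWR_full : Stmt_TWR := TWR_thm SETS_thm DD_thm P12_full P3_full P4_full P5_full

theorem QS_full : Stmt_QS := QS_thm NID_thm NSM_thm

theorem GRD_full : Stmt_GRD := GRD_thm NID_thm NSM_thm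

theorem ACL_full : Stmt_ACL := ACL_thm H1V_thm (COV_thm TOPB_thm)

theorem MAIN_full : Stmt_MAIN :=
  MAIN_thm TWR_full QS_full LIM_thm HOM_thm GRD_full VAR_thm CRV_thm ACL_full

theorem CTW_full : Stmt_CTW := CTW_thm SETS_thm DD_thm P12_full P3_full P4_full P5_full

theorem KIN_full : Stmt_KIN := KIN_thm FG_full BW_full

theorem WNDA_full : Stmt_WNDA := WNDA_thm FG_full DD_thm P3_full DSP_thm KIN_full TRV_thm

theorem WND_full : Stmt_WND := WND_thm WNDA_full SWP_thm DD_thm

theorem PRD_full : Stmt_PRD := PRD_thm DD_thm NID_thm NSM_thm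

theorem PUR_full : Stmt_PUR := PUR_thm DD_thm NID_thm AREA_thm LEB_thm PRD_full WND_full

theorem MAINU_full : Stmt_MAINU :=
  MAINU_thm CTW_full QS_full LIM_thm HOM_thm GRD_full VAR_thm CRV_thm PUR_full MAIN_full

end Pool.Agent.QL
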