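import Mathlib

/-!
# Quasiconformal images of null families of parallel lines: definitions
-/

open MeasureTheory Set Filter Topology
open scoped ENNReal

namespace Pool.Agent.QL

noncomputable section

/-! ### The notions of the theorem -/

/-- `f` is weakly `H`-quasisymmetric. -/
def WeakQS (H : ℝ) (f : ℂ → ℂ) : Prop :=
  ∀ x y z : ℂ, dist y x ≤ dist z x → dist (f y) (f x) ≤ H * dist (f z) (f x)

/-- The metric definition of quasiconformality: the linear dilatations are bounded by one constant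
at all points (and all small scales, depending on the point). -/
def MetricQC (f : ℂ → ℂ) : Prop :=
  ∃ H : ℝ, ∀ x : ℂ, ∃ δ > (0 : ℝ), ∀ y z : ℂ, dist y x = dist z x → dist y x < δ →
    dist (f y) (f x) ≤ H * dist (f z) (f x)

/-- The set `A` contains no rectifiable curve: every continuous curve of finite length in `A` is
constant. -/
def NoRect (A : Set ℂ) : Prop :=
  ∀ γ : ℝ → ℂ, ContinuousOn γ (Icc 0 1) → BoundedVariationOn γ (Icc 0 1) →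
    (∀ t ∈ Icc (0 : ℝ) 1, γ t ∈ A) → ∀ s ∈ Icc (0 : ℝ) 1, ∀ t ∈ Icc (0 : ℝ) 1, γ s = γ t

/-! ### Waves -/

/-- The wave of wavelength `D` and slope `a`. -/
def pw (a D y : ℝ) : ℝ := a * D / (2 * Real.pi) * Real.sin (2 * Real.pi * y / D)

/-- The derivative of the wave. -/
def dw (a D y : ℝ) : ℝ := a * Real.cos (2 * Real.pi * y / D)

/-- The power of two with `dya t ≤ t < 2 * dya t`, for `t > 0`. -/
def dya (t : ℝ) : ℝ := (2 : ℝ) ^ Int.log 2 t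

/-- Piecewise linear interpolation between the powers of two. -/
def interp (h : ℝ → ℝ) (t : ℝ) : ℝ :=
  (2 - t / dya t) * h (dya t) + (t / dya t - 1) * h (2 * dya t)

/-- The wave with the wavelength comparable with `t`. -/
def F (a t y : ℝ) : ℝ := if 0 < t then interp (fun D => pw a D y) t else 0

/-- The derivative of `F` with respect to `y`. -/
def G (a t y : ℝ) : ℝ := if 0 < t then interp (fun D => dw a D y) t else 0

/-! ### The maps -/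

/-- The distance to the complement of `V`. -/
def dd (V : Set ℝ) (x : ℝ) : ℝ := Metric.infDist x Vᶜ

/-- The horizontal displacement. -/
def Aw (a η : ℝ) (V : Set ℝ) (x y : ℝ) : ℝ := F a (η * dd V x) y

/-- The vertical displacement, which makes the map conformal up to `O(η)` over `V'`. -/
def Bw (a η : ℝ) (V V' : Set ℝ) (x y : ℝ) : ℝ := - ∫ t in V' ∩ Iic x, G a (η * dd V t) y

/-- The map. -/
def phi (a η : ℝ) (V V' : Set ℝ) (z : ℂ) : ℂ :=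
  ⟨z.re + Aw a η V z.re z.im, z.im + Bw a η V V' z.re z.im⟩

/-- The hypotheses on the pair `V' ⊆ V` of open sets of small measure. -/
structure Adm (η : ℝ) (V V' : Set ℝ) : Prop where
  oV : IsOpen V
  oV' : IsOpen V'
  sub : V' ⊆ V
  ne : Vᶜ.Nonempty
  dle : ∀ x, dd V x ≤ 1
  vol : volume V' ≤ ENNReal.ofReal (η ^ 2)
  int : ∫⁻ x in V', ENNReal.ofReal (1 / dd V x) ≤ ENNReal.ofReal (η ^ 2)

/-! ### Compositions -/

/-- The error terms. -/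
def ee (E : ℝ) (n : ℕ) : ℝ := E / 4 ^ (n + 1)

/-- The composition `φ_m ∘ φ_(m+1) ∘ ... ∘ φ_(m+n-1)`. -/
def seg (φ : ℕ → ℂ → ℂ) (m : ℕ) : ℕ → ℂ → ℂ
  | 0 => id
  | n + 1 => seg φ m n ∘ φ (m + n)

/-- The properties of the sequence of maps: `φ n` is the identity up to `O(ee E n * d n)`, and a
similarity up to `ee E n` on the balls of radius `d (n + 1)`. -/
structure Tower (κ E : ℝ) (d : ℕ → ℝ → ℝ) (φ : ℕ → ℂ → ℂ) : Prop where
  κ0 : 0 ≤ κ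
  κ1 : κ ≤ 1 / 10
  E0 : 0 < E
  E1 : E ≤ 1 / 100
  dn : ∀ n x, 0 ≤ d n x
  dl : ∀ n x x', |d n x - d n x'| ≤ |x - x'|
  p1 : ∀ n z, |(φ n z).re - z.re| ≤ ee E n * d n z.re
  p2 : ∀ n q q', ‖φ n q - φ n q' - (q - q')‖ ≤ ee E n * (‖q - q'‖ + d n q.re)
  p3 : ∀ n q q', ‖φ n q - φ n q' - (q - q')‖ ≤ κ * ‖q - q'‖
  p4 : ∀ n p, ∃ s : ℂ, 1 ≤ ‖s‖ ∧ ‖s‖ ≤ 1 + κ ∧ ∀ q q', ‖q - p‖ ≤ d (n + 1) p.re →
    ‖q' - p‖ ≤ d (n + 1) p.re → ‖φ n q - φ n q' - s * (q - q')‖ ≤ ee E n * ‖q - q'‖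
  p6 : ∀ n x, d (n + 1) x ≤ ee E n * d n x
  p8 : ∀ n z, ‖φ n z - z‖ ≤ ee E n

/-- The vertical line over `x` is lengthened by `φ n` at a scale `D` between `d (n + 1) x` and
`d n x`. -/
def Wig (c E : ℝ) (d : ℕ → ℝ → ℝ) (φ : ℕ → ℂ → ℂ) (n : ℕ) (x : ℝ) : Prop :=
  ∃ D : ℝ, 0 < D ∧ D ≤ ee E n * d n x ∧ d (n + 1) x ≤ ee E n * D ∧ ∀ j : ℤ,
    (1 + c) * ‖φ n ⟨x, j * D⟩ - φ n ⟨x, (j + 1) * D⟩‖
      ≤ ‖φ n ⟨x, j * D⟩ - φ n ⟨x, (j + 1 / 8) * D⟩‖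
        + ‖φ n ⟨x, (j + 1 / 8) * D⟩ - φ n ⟨x, (j + 1) * D⟩‖

/-- The limit maps `g m = lim φ_m ∘ ... ∘ φ_(m+n-1)`. -/
structure Lims (E : ℝ) (φ : ℕ → ℂ → ℂ) (g : ℕ → ℂ → ℂ) : Prop where
  cont : ∀ m, Continuous (g m)
  unif : ∀ m, TendstoUniformly (fun n => seg φ m n) (g m) atTop
  near : ∀ m z, ‖g m z - z‖ ≤ 2 * ee E m
  nears : ∀ m n z, ‖seg φ m n z - z‖ ≤ 2 * ee E m
  comp : ∀ m n z, g m z = seg φ m n (g (m + n) z)

/-- `h` is lengthened by the factor `1 + c` at scales below `ε`: there is a division of the line into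
intervals of length at most `ε` with this property. -/
def Grid (c ε : ℝ) (h : ℝ → ℂ) : Prop :=
  ∃ Y Y' : ℤ → ℝ, (∀ j, Y j ≤ Y' j ∧ Y' j ≤ Y (j + 1) ∧ Y (j + 1) - Y j ≤ ε) ∧
    (∀ T, ∃ j, T ≤ Y j) ∧ (∀ T, ∃ j, Y j ≤ T) ∧
    ∀ j, (1 + c) * ‖h (Y j) - h (Y (j + 1))‖ ≤ ‖h (Y j) - h (Y' j)‖ + ‖h (Y' j) - h (Y (j + 1))‖

end

end Pool.Agent.QL
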