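import Pool.Agent.QL.Stmts

/-!
# H1V: the length of an injective curve is at most the Hausdorff measure of the image
-/

open MeasureTheory Set Filter Topology
open scoped ENNReal NNReal

namespace Pool.Agent.QL

namespace H1V

theorem edist_le {h : ℝ → ℂ} (hc : Continuous h) {s t : ℝ} (hst : s ≤ t) :
    edist (h s) (h t) ≤ Measure.hausdorffMeasure 1 (h '' Icc s t) := by
  have hl : LipschitzWith 1 (fun z : ℂ => dist z (h s)) := by
    refine LipschitzWith.of_dist_le_mul fun x y => ?_
    rw [NNReal.coe_one, one_mul, Real.dist_eq]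
    exact abs_dist_sub_le x y (h s)
  have h1 := hl.hausdorffMeasure_image_le (d := 1) zero_le_one (h '' Icc s t)
  rw [ENNReal.coe_one, ENNReal.one_rpow, one_mul] at h1
  refine le_trans ?_ h1
  have hsub : Icc (0 : ℝ) (dist (h t) (h s)) ⊆
      (fun z : ℂ => dist z (h s)) '' (h '' Icc s t) := by
    have hf : ContinuousOn (fun r : ℝ => dist (h r) (h s)) (Icc s t) :=
      (hc.dist continuous_const).continuousOn
    have h2 := intermediate_value_Icc hst hf
    simp only [dist_self] at h2
    intro v hv
    obtain ⟨r, hr, hr2⟩ := h2 hv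
    exact ⟨h r, ⟨r, hr, rfl⟩, hr2⟩
  refine le_trans ?_ (measure_mono hsub)
  rw [hausdorffMeasure_real, Real.volume_Icc, sub_zero, edist_comm, edist_dist]

theorem measure_Ioc {h : ℝ → ℂ} {s t : ℝ} (hst : s ≤ t) :
    (Measure.hausdorffMeasure 1 : Measure ℂ) (h '' Icc s t) ≤
      Measure.hausdorffMeasure 1 (h '' Ioc s t) := by
  have : (Measure.hausdorffMeasure 1 : Measure ℂ) {h s} = 0 := by
    have := Measure.nullSingletonClass_hausdorff ℂ (d := 1) zero_lt_one
    exact measure_singleton _
  rw [← Ioc_union_left hst, image_union, image_singleton]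
  refine (measure_union_le _ _).trans ?_
  rw [this, add_zero]

end H1V

open H1V in
/-- H1V: the length of an injective curve is at most the Hausdorff measure of the image. -/
theorem H1V_thm : Stmt_H1V := by
  intro h hc hi α β _
  refine iSup_le ?_
  rintro ⟨n, u, hu, hmem⟩
  change ∑ i ∈ Finset.range n, edist (h (u (i + 1))) (h (u i)) ≤ _
  have h1 : ∀ i ∈ Finset.range n, edist (h (u (i + 1))) (h (u i)) ≤
      (Measure.hausdorffMeasure 1 : Measure ℂ) (h '' Ioc (u i) (u (i + 1))) := by
    intro i _
    rw [edist_comm]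
    exact (edist_le hc (hu (Nat.le_succ i))).trans (measure_Ioc (hu (Nat.le_succ i)))
  refine (Finset.sum_le_sum h1).trans ?_
  have hdis : Pairwise (Function.onFun Disjoint fun i : ℕ => h '' Ioc (u i) (u (i + 1))) := by
    intro i j hij
    exact (disjoint_image_iff hi).2 (hu.pairwise_disjoint_on_Ioc_succ hij)
  have hmeas : ∀ i : ℕ, MeasurableSet (h '' Ioc (u i) (u (i + 1))) := fun i =>
    measurableSet_Ioc.image_of_continuousOn_injOn hc.continuousOn hi.injOn
  rw [← measure_biUnion_finset (fun i _ j _ hij => hdis hij) (fun i _ => hmeas i)]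
  refine measure_mono ?_
  refine iUnion₂_subset fun i _ => image_mono ?_
  intro r hr
  exact ⟨(hmem i).1.trans hr.1.le, hr.2.trans (hmem (i + 1)).2⟩

end Pool.Agent.QL
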