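import Pool.Agent.QL.Stmts

/-!
# QL: the interpolation is Lipschitz (module INT)
-/

open MeasureTheory Set Filter Topology
open scoped ENNReal

namespace Pool.Agent.QL

namespace INT

/-- The interpolation formula with step `D`. -/
lemma lin (h : ℝ → ℝ) (c D s s' : ℝ) (hD : 0 < D) (hh : |h (2 * D) - h D| ≤ c * D) :
    |((2 - s / D) * h D + (s / D - 1) * h (2 * D)) -
      ((2 - s' / D) * h D + (s' / D - 1) * h (2 * D))| ≤ c * |s - s'| := by
  have e : ((2 - s / D) * h D + (s / D - 1) * h (2 * D)) -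
      ((2 - s' / D) * h D + (s' / D - 1) * h (2 * D)) = (s - s') / D * (h (2 * D) - h D) := by
    ring
  rw [e, abs_mul, abs_div, abs_of_pos hD]
  calc |s - s'| / D * |h (2 * D) - h D| ≤ |s - s'| / D * (c * D) :=
        mul_le_mul_of_nonneg_left hh (by positivity)
    _ = c * |s - s'| := by field_simp

lemma pow_succ' (k : ℤ) : (2 : ℝ) ^ (k + 1) = 2 * (2 : ℝ) ^ k := by
  rw [zpow_add_one₀ (by norm_num : (2 : ℝ) ≠ 0)]
  ring

/-- Telescoping. -/
lemma tele (h : ℝ → ℝ) (c t₀ : ℝ)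
    (hh : ∀ k : ℤ, t₀ / 2 < (2 : ℝ) ^ k → |h (2 * (2 : ℝ) ^ k) - h ((2 : ℝ) ^ k)| ≤ c * (2 : ℝ) ^ k)
    (m : ℤ) (hm : t₀ / 2 < (2 : ℝ) ^ m) (n : ℕ) :
    |h ((2 : ℝ) ^ (m + n)) - h ((2 : ℝ) ^ m)| ≤ c * ((2 : ℝ) ^ (m + n) - (2 : ℝ) ^ m) := by
  induction n with
  | zero => simp
  | succ n ih =>
    have h1 : m + ((n + 1 : ℕ) : ℤ) = (m + n) + 1 := by push_cast; ring
    have h2 : (2 : ℝ) ^ m ≤ (2 : ℝ) ^ (m + n) :=
      zpow_le_zpow_right₀ (by norm_num) (by omega)
    have h3 := hh (m + n) (by linarith)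
    rw [h1, pow_succ']
    calc |h (2 * (2 : ℝ) ^ (m + n)) - h ((2 : ℝ) ^ m)|
        = |(h (2 * (2 : ℝ) ^ (m + n)) - h ((2 : ℝ) ^ (m + n))) +
            (h ((2 : ℝ) ^ (m + n)) - h ((2 : ℝ) ^ m))| := by ring_nf
      _ ≤ |h (2 * (2 : ℝ) ^ (m + n)) - h ((2 : ℝ) ^ (m + n))| +
            |h ((2 : ℝ) ^ (m + n)) - h ((2 : ℝ) ^ m)| := abs_add_le _ _
      _ ≤ c * (2 : ℝ) ^ (m + n) + c * ((2 : ℝ) ^ (m + n) - (2 : ℝ) ^ m) := add_le_add h3 ih
      _ = c * (2 * (2 : ℝ) ^ (m + n) - (2 : ℝ) ^ m) := by ring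

lemma dya_pos (t : ℝ) : 0 < dya t := by
  unfold dya
  positivity

lemma dya_le {t : ℝ} (ht : 0 < t) : dya t ≤ t := by
  have h := Int.zpow_log_le_self (R := ℝ) (b := 2) (r := t) (by norm_num) ht
  unfold dya
  exact_mod_cast h

lemma lt_two_dya (t : ℝ) : t < 2 * dya t := by
  have h := Int.lt_zpow_succ_log_self (R := ℝ) (b := 2) (by norm_num) t
  unfold dya
  rw [← pow_succ']
  exact_mod_cast h

/-- The ordered case. -/
lemma main (h : ℝ → ℝ) (c t₀ : ℝ) (ht₀ : 0 < t₀) (hc : 0 ≤ c)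
    (hh : ∀ k : ℤ, t₀ / 2 < (2 : ℝ) ^ k → |h (2 * (2 : ℝ) ^ k) - h ((2 : ℝ) ^ k)| ≤ c * (2 : ℝ) ^ k)
    (t t' : ℝ) (ht : t₀ ≤ t) (htt : t ≤ t') : |interp h t - interp h t'| ≤ c * |t - t'| := by
  have p0 : 0 < t := by linarith
  have p1 : 0 < t' := by linarith
  have hD : t₀ / 2 < dya t := by
    have := lt_two_dya t
    linarith
  have hD' : t₀ / 2 < dya t' := by
    have := lt_two_dya t'
    linarith
  have hm : Int.log 2 t ≤ Int.log 2 t' := Int.log_mono_right p0 htt
  rcases hm.eq_or_lt with hm | hm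
  · have e : dya t' = dya t := by
      unfold dya
      rw [hm]
    unfold interp
    rw [e]
    exact lin h c (dya t) t t' (dya_pos t) (hh _ hD)
  · have a1 : |interp h t - h (2 * dya t)| ≤ c * (2 * dya t - t) := by
      have := lin h c (dya t) t (2 * dya t) (dya_pos t) (hh _ hD)
      have e1 : 2 * dya t / dya t = 2 := by
        field_simp [(dya_pos t).ne']
      rw [e1] at this
      have e2 : (2 - 2 : ℝ) * h (dya t) + (2 - 1) * h (2 * dya t) = h (2 * dya t) := by ring
      rw [e2] at this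
      unfold interp
      refine this.trans_eq ?_
      rw [abs_sub_comm, abs_of_nonneg]
      linarith [lt_two_dya t]
    have a2 : |interp h t' - h (dya t')| ≤ c * (t' - dya t') := by
      have := lin h c (dya t') t' (dya t') (dya_pos t') (hh _ hD')
      have e1 : dya t' / dya t' = 1 := div_self (dya_pos t').ne'
      rw [e1] at this
      have e2 : (2 - 1 : ℝ) * h (dya t') + (1 - 1) * h (2 * dya t') = h (dya t') := by ring
      rw [e2] at this
      unfold interp
      refine this.trans_eq ?_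
      rw [abs_of_nonneg]
      linarith [dya_le p1]
    have a3 : |h (dya t') - h (2 * dya t)| ≤ c * (dya t' - 2 * dya t) := by
      obtain ⟨n, hn⟩ : ∃ n : ℕ, Int.log 2 t' = (Int.log 2 t + 1) + n :=
        ⟨(Int.log 2 t' - (Int.log 2 t + 1)).toNat, by omega⟩
      have h1 : 2 * dya t = (2 : ℝ) ^ (Int.log 2 t + 1) := by
        rw [pow_succ']
        rfl
      have h2 : dya t' = (2 : ℝ) ^ ((Int.log 2 t + 1) + n) := by
        unfold dya
        rw [hn]
      rw [h1, h2]
      refine tele h c t₀ hh _ ?_ n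
      rw [← h1]
      have := dya_pos t
      linarith
    have e : interp h t - interp h t' = (interp h t - h (2 * dya t)) -
        (interp h t' - h (dya t')) - (h (dya t') - h (2 * dya t)) := by ring
    rw [e, abs_sub_comm t t', abs_of_nonneg (sub_nonneg.2 htt)]
    calc |(interp h t - h (2 * dya t)) - (interp h t' - h (dya t')) -
          (h (dya t') - h (2 * dya t))|
        ≤ |(interp h t - h (2 * dya t)) - (interp h t' - h (dya t'))| +
          |h (dya t') - h (2 * dya t)| := abs_sub _ _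
      _ ≤ (|interp h t - h (2 * dya t)| + |interp h t' - h (dya t')|) +
          |h (dya t') - h (2 * dya t)| := by
          gcongr
          exact abs_sub _ _
      _ ≤ (c * (2 * dya t - t) + c * (t' - dya t')) + c * (dya t' - 2 * dya t) := by
          gcongr
      _ = c * (t' - t) := by ring

end INT

theorem INT_thm : Stmt_INT := by
  intro h c t₀ ht₀ hc hh t t' ht ht'
  rcases le_total t t' with htt | htt
  · exact INT.main h c t₀ ht₀ hc hh t t' ht htt
  · rw [abs_sub_comm, abs_sub_comm t t']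
    exact INT.main h c t₀ ht₀ hc hh t' t ht' htt

end Pool.Agent.QL
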