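import Pool.Agent.QL.Defs

/-!
# Quasiconformal images of null families of parallel lines: statements of the modules
-/

open MeasureTheory Set Filter Topology
open scoped ENNReal

namespace Pool.Agent.QL

/-- INT: the interpolation is Lipschitz. -/
def Stmt_INT : Prop :=
  ∀ (h : ℝ → ℝ) (c t₀ : ℝ), 0 < t₀ → 0 ≤ c →
    (∀ k : ℤ, t₀ / 2 < (2 : ℝ) ^ k → |h (2 * (2 : ℝ) ^ k) - h ((2 : ℝ) ^ k)| ≤ c * (2 : ℝ) ^ k) →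
    ∀ t t', t₀ ≤ t → t₀ ≤ t' → |interp h t - interp h t'| ≤ c * |t - t'|

/-- FG: the properties of the waves. -/
def Stmt_FG : Prop :=
  ∀ a : ℝ, 0 < a →
    (∀ t y, t ≤ 0 → F a t y = 0) ∧
    (∀ t y, |F a t y| ≤ a * |t|) ∧
    (∀ t t' y, |F a t y - F a t' y| ≤ a * |t - t'|) ∧
    (∀ t y, HasDerivAt (F a t) (G a t y) y) ∧
    (∀ t y, |G a t y| ≤ a) ∧
    (∀ t y y', 0 < t → |G a t y - G a t y'| ≤ 13 * a / t * |y - y'|) ∧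
    (∀ t₀ t t' y, 0 < t₀ → t₀ ≤ t → t₀ ≤ t' → |G a t y - G a t' y| ≤ 4 * a / t₀ * |t - t'|) ∧
    (∀ t, 0 < t → ∃ D, t < D ∧ D ≤ 2 * t ∧ ∀ j : ℤ, F a t (j * D) = 0 ∧
      a * D / 13 ≤ F a t ((j + 1 / 8) * D))

/-- SETS: small neighbourhoods of null sets. -/
def Stmt_SETS : Prop :=
  ∀ (E V : Set ℝ) (ε : ℝ), volume E = 0 → IsOpen V → Vᶜ.Nonempty → E ⊆ V → 0 < ε →
    ∃ V', IsOpen V' ∧ E ⊆ V' ∧ V' ⊆ V ∧ volume V' ≤ ENNReal.ofReal ε ∧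
      ∫⁻ x in V', ENNReal.ofReal (1 / dd V x) ≤ ENNReal.ofReal ε

/-- DD: the distance functions. -/
def Stmt_DD : Prop :=
  ∀ (η : ℝ) (V V' : Set ℝ), 0 < η → η ≤ 1 / 100 → Adm η V V' →
    (∀ x, 0 ≤ dd V x) ∧ (∀ x x', |dd V x - dd V x'| ≤ |x - x'|) ∧
    (∀ x, 0 < dd V x ↔ x ∈ V) ∧ (∀ x y, |y - x| < dd V x → y ∈ V) ∧
    (∀ x, dd V' x ≤ η ^ 2 * dd V x) ∧
    (∀ x x', (volume (V' ∩ uIcc x x')).toReal ≤ |x - x'|) ∧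
    (∀ x x', (volume (V' ∩ uIcc x x')).toReal ≤ η ^ 2 * (dd V x + |x - x'|)) ∧
    (volume V').toReal ≤ η ^ 2

/-- BW: the vertical displacement. -/
def Stmt_BW : Prop :=
  ∀ (a η : ℝ) (V V' : Set ℝ), 0 < a → 0 < η → η ≤ 1 / 100 → Adm η V V' →
    (∀ x y, |Bw a η V V' x y| ≤ a * η ^ 2) ∧
    (∀ x x' y, |Bw a η V V' x y - Bw a η V V' x' y| ≤ a * (volume (V' ∩ uIcc x x')).toReal) ∧
    (∀ x y y', |Bw a η V V' x y - Bw a η V V' x y'| ≤ 13 * a * η * |y - y'|) ∧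
    (∀ x x' y g M, (∀ t ∈ Ioo (min x x') (max x x'), t ∈ V' ∧ |G a (η * dd V t) y - g| ≤ M) →
      |Bw a η V V' x y - Bw a η V V' x' y + g * (x - x')| ≤ M * |x - x'|)

/-- P12: the map is the identity at large scales. -/
def Stmt_P12 : Prop :=
  ∀ (a η : ℝ) (V V' : Set ℝ), 0 < a → a ≤ 1 → 0 < η → η ≤ 1 / 100 → Adm η V V' →
    (∀ z, |(phi a η V V' z).re - z.re| ≤ η * dd V z.re) ∧
    (∀ z, ‖phi a η V V' z - z‖ ≤ 2 * η) ∧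
    (∀ q q', ‖phi a η V V' q - phi a η V V' q' - (q - q')‖
      ≤ 100 * η * (‖q - q'‖ + dd V q.re))

/-- P3: the map is bi-Lipschitz. -/
def Stmt_P3 : Prop :=
  ∀ (a η : ℝ) (V V' : Set ℝ), 0 < a → a ≤ 1 → 0 < η → η ≤ 1 / 100 → Adm η V V' →
    ∀ q q', ‖phi a η V V' q - phi a η V V' q' - (q - q')‖ ≤ 3 * a * ‖q - q'‖

/-- P4: the map is close to a similarity over `V'`. -/
def Stmt_P4 : Prop :=
  ∀ (a η : ℝ) (V V' : Set ℝ), 0 < a → a ≤ 1 → 0 < η → η ≤ 1 / 100 → Adm η V V' →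
    ∀ p : ℂ, ∃ s : ℂ, 1 ≤ ‖s‖ ∧ ‖s‖ ≤ 1 + a ∧ ∀ q q', ‖q - p‖ ≤ dd V' p.re →
      ‖q' - p‖ ≤ dd V' p.re →
      ‖phi a η V V' q - phi a η V V' q' - s * (q - q')‖ ≤ 100 * η * ‖q - q'‖

/-- P5: the vertical lines are lengthened. -/
def Stmt_P5 : Prop :=
  ∀ (a η : ℝ) (V V' : Set ℝ), 0 < a → a ≤ 1 → 0 < η → η ≤ a / 100000 → Adm η V V' →
    ∀ x ∈ V, ∃ D : ℝ, 0 < D ∧ D ≤ 2 * η * dd V x ∧ dd V' x ≤ η * D ∧ ∀ j : ℤ,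
      (1 + a ^ 2 / 200) * ‖phi a η V V' ⟨x, j * D⟩ - phi a η V V' ⟨x, (j + 1) * D⟩‖
        ≤ ‖phi a η V V' ⟨x, j * D⟩ - phi a η V V' ⟨x, (j + 1 / 8) * D⟩‖
          + ‖phi a η V V' ⟨x, (j + 1 / 8) * D⟩ - phi a η V V' ⟨x, (j + 1) * D⟩‖

/-- TWR: existence of the tower. -/
def Stmt_TWR : Prop :=
  ∀ (S : Set ℝ) (a E : ℝ), volume S = 0 → 0 < a → a ≤ 1 / 30 → 0 < E → E ≤ a / 1000 →
    ∃ (d : ℕ → ℝ → ℝ) (φ : ℕ → ℂ → ℂ), Tower (3 * a) E d φ ∧ (∀ y, d 0 y ≤ 1) ∧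
      ∀ x ∈ S, ∀ n, 0 < d n x ∧ Wig (a ^ 2 / 200) E d φ n x

/-- NID: the tails are close to the identity at large scales. -/
def Stmt_NID : Prop :=
  ∀ (κ E : ℝ) (d : ℕ → ℝ → ℝ) (φ : ℕ → ℂ → ℂ), Tower κ E d φ → ∀ m n : ℕ,
    (∀ q, |(seg φ m n q).re - q.re| ≤ 2 * ee E m * d m q.re) ∧
    (∀ q q', ‖seg φ m n q - seg φ m n q' - (q - q')‖ ≤ 2 * ee E m * (‖q - q'‖ + d m q.re))

/-- NSM: the initial compositions are close to similarities at small scales. -/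
def Stmt_NSM : Prop :=
  ∀ (κ E : ℝ) (d : ℕ → ℝ → ℝ) (φ : ℕ → ℂ → ℂ), Tower κ E d φ → ∀ (n : ℕ) (p : ℂ),
    ∃ σ : ℂ, 1 ≤ ‖σ‖ ∧ ∀ q q', ‖q - p‖ ≤ d n p.re / 2 → ‖q' - p‖ ≤ d n p.re / 2 →
      ‖seg φ 0 n q - seg φ 0 n q' - σ * (q - q')‖ ≤ E * ‖σ‖ * ‖q - q'‖

/-- QS: the compositions are uniformly weakly quasisymmetric. -/
def Stmt_QS : Prop :=
  ∀ (κ E : ℝ) (d : ℕ → ℝ → ℝ) (φ : ℕ → ℂ → ℂ), Tower κ E d φ → ∀ N : ℕ,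
    WeakQS (((1 + κ) * (1 + 5 * E)) / ((1 - κ) * (1 - 5 * E))) (seg φ 0 N)

/-- LIM: the limits. -/
def Stmt_LIM : Prop :=
  ∀ (κ E : ℝ) (d : ℕ → ℝ → ℝ) (φ : ℕ → ℂ → ℂ), Tower κ E d φ →
    (∀ n, Function.Surjective (φ n)) ∧ ∃ g, Lims E φ g

/-- HOM: the limit of surjective maps is a homeomorphism. -/
def Stmt_HOM : Prop :=
  ∀ (f : ℕ → ℂ → ℂ) (f₀ : ℂ → ℂ) (C H : ℝ), (∀ n, Function.Surjective (f n)) →
    (∀ n z, ‖f n z - z‖ ≤ C) → TendstoUniformly f f₀ atTop → Continuous f₀ →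
    (∀ n, WeakQS H (f n)) → ∃ g : ℂ ≃ₜ ℂ, (∀ z, g z = f₀ z) ∧ WeakQS H g

/-- GRD: the images of the vertical lines are lengthened at all scales. -/
def Stmt_GRD : Prop :=
  ∀ (κ E c : ℝ) (d : ℕ → ℝ → ℝ) (φ g : ℕ → ℂ → ℂ) (x : ℝ), Tower κ E d φ → Lims E φ g →
    0 < c → c ≤ 1 → E ≤ c / 10 → (∀ y, d 0 y ≤ 1) → (∀ n, 0 < d n x) → (∀ n, Wig c E d φ n x) →
    ∀ ε > 0, Grid (c / 2) ε (fun y => g 0 ⟨x, y⟩)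

/-- VAR: a curve which is lengthened at all scales has infinite length. -/
def Stmt_VAR : Prop :=
  ∀ (h : ℝ → ℂ) (c : ℝ), Continuous h → Function.Injective h → 0 < c →
    (∀ ε > 0, Grid c ε h) → ∀ α β : ℝ, α < β → eVariationOn h (Icc α β) = ⊤

/-- CRV: from vertical lines to curves. -/
def Stmt_CRV : Prop :=
  ∀ (f : ℂ ≃ₜ ℂ) (S : Set ℝ), volume S = 0 →
    (∀ x ∈ S, ∀ α β : ℝ, α < β → eVariationOn (fun y : ℝ => f ⟨x, y⟩) (Icc α β) = ⊤) →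
    NoRect (f '' {z : ℂ | z.re ∈ S})

/-! ### The converse: absolute continuity on lines -/

/-- TOPB: the image of a disc under a homeomorphism of the plane lies between two discs. -/
def Stmt_TOPB : Prop :=
  ∀ (f : ℂ ≃ₜ ℂ) (z : ℂ) (ρ l L : ℝ), 0 < ρ →
    (∀ w, dist w z = ρ → l ≤ dist (f w) (f z) ∧ dist (f w) (f z) ≤ L) →
    Metric.ball (f z) l ⊆ f '' Metric.ball z ρ ∧
    f '' Metric.closedBall z ρ ⊆ Metric.closedBall (f z) L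

/-- H1V: the length of an injective curve is at most the Hausdorff measure of the image. -/
def Stmt_H1V : Prop :=
  ∀ (h : ℝ → ℂ), Continuous h → Function.Injective h → ∀ α β : ℝ, α < β →
    eVariationOn h (Icc α β) ≤ Measure.hausdorffMeasure 1 (h '' Icc α β)

/-- COV: the covering argument. -/
def Stmt_COV : Prop :=
  ∀ (f : ℂ ≃ₜ ℂ) (H x α β M : ℝ) (T : Set ℝ) (k : ℝ), 0 < H → α < β → T ⊆ Icc α β → 0 < k →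
    (∀ y ∈ T, ∀ u w : ℂ, dist u ⟨x, y⟩ = dist w ⟨x, y⟩ → dist u ⟨x, y⟩ < k →
      dist (f u) (f ⟨x, y⟩) ≤ H * dist (f w) (f ⟨x, y⟩)) →
    (∀ᶠ ρ in 𝓝[>] (0 : ℝ), volume (f '' {z : ℂ | |z.re - x| ≤ ρ ∧ α - 1 ≤ z.im ∧ z.im ≤ β + 1})
      ≤ ENNReal.ofReal (M * ρ)) →
    Measure.hausdorffMeasure 1 (f '' {z : ℂ | z.re = x ∧ z.im ∈ T})
      ≤ ENNReal.ofReal (4 * H * Real.sqrt ((β - α + 1) * (|M| + 1)))

/-- ACL: quasiconformal maps have finite length on almost every vertical line. -/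
def Stmt_ACL : Prop :=
  ∀ f : ℂ ≃ₜ ℂ, MetricQC f → ∀ᵐ x : ℝ, ∀ α β : ℝ, α < β →
    eVariationOn (fun y : ℝ => f ⟨x, y⟩) (Icc α β) ≠ ⊤

/-- MAIN: the theorem. -/
def Stmt_MAIN : Prop :=
  ∀ S : Set ℝ,
    (volume S = 0 → ∀ H > (1 : ℝ), ∀ ε > (0 : ℝ), ∃ f : ℂ ≃ₜ ℂ, WeakQS H f ∧
      (∀ z, dist (f z) z ≤ ε) ∧ NoRect (f '' {z : ℂ | z.re ∈ S})) ∧
    (volume S ≠ 0 → ∀ f : ℂ ≃ₜ ℂ, MetricQC f → ¬ NoRect (f '' {z : ℂ | z.re ∈ S}))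

end Pool.Agent.QL
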