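import Pool.Agent.QL.Stmts

/-!
# Pure unrectifiability: definitions and statements of the modules
-/

open MeasureTheory Set Filter Topology
open scoped ENNReal NNReal

namespace Pool.Agent.QL

noncomputable section

/-- `A` is purely `1`-unrectifiable: it meets every Lipschitz curve in a set of length zero. -/
def PureUnrect (A : Set ℂ) : Prop :=
  ∀ (C : ℝ≥0) (γ : ℝ → ℂ), LipschitzWith C γ →
    Measure.hausdorffMeasure 1 (range γ ∩ A) = 0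

/-- The parameter of the `n`-th map. -/
def et (E : ℝ) (n : ℕ) : ℝ := ee E n / 100

/-- The maps belonging to a sequence of open sets. -/
def phs (a E : ℝ) (V : ℕ → Set ℝ) (n : ℕ) : ℂ → ℂ := phi a (et E n) (V n) (V (n + 1))

/-- A concrete tower. -/
structure CTower (a E : ℝ) (V : ℕ → Set ℝ) : Prop where
  adm : ∀ n, Adm (et E n) (V n) (V (n + 1))
  tower : Tower (3 * a) E (fun n => dd (V n)) (phs a E V)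
  wig : ∀ n, ∀ x ∈ V n, Wig (a ^ 2 / 200) E (fun n => dd (V n)) (phs a E V) n x

/-- A window: the curve `φ ∘ ξ` is almost a straight line of velocity `w` for the times between
`t₀ - h` and `t₀ + h` outside a small bad set; `2 * dya` is the wavelength, `h` is two
wavelengths. -/
structure Window (a η h C ρ : ℝ) (V V' : Set ℝ) (w : ℂ) (t₀ : ℝ) (ξ : ℝ → ℂ) (Bad : Set ℝ) :
    Prop where
  a0 : 0 < a
  a1 : a ≤ 1 / 30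
  η0 : 0 < η
  η1 : η ≤ a / 100000
  ρ0 : 0 < ρ
  ρ1 : ρ ≤ a / 10000
  adm : Adm η V V'
  wC : ‖w‖ ≤ C
  hw : 0 < ‖w‖
  hh : h * ‖w‖ = 4 * dya (η * dd V (ξ t₀).re)
  mem : (ξ t₀).re ∈ V
  lip : ∃ L, LipschitzWith L ξ
  bd : ∀ᵐ t, t ∈ Icc (t₀ - h) (t₀ + h) → ‖deriv ξ t‖ ≤ C
  mb : MeasurableSet Bad
  good : ∀ t ∈ Icc (t₀ - h) (t₀ + h), t ∉ Bad → DifferentiableAt ℝ ξ t ∧
    DifferentiableAt ℝ (fun s => phi a η V V' (ξ s)) t ∧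
    ‖deriv (fun s => phi a η V V' (ξ s)) t - w‖ ≤ ρ * ‖w‖
  small : C * (volume (Bad ∩ Icc (t₀ - h) (t₀ + h))).toReal ≤ ρ * dya (η * dd V (ξ t₀).re)

/-- CTW: existence of concrete towers. -/
def Stmt_CTW : Prop :=
  ∀ (S : Set ℝ) (a E : ℝ), volume S = 0 → 0 < a → a ≤ 1 / 30 → 0 < E → E ≤ a / 1000 →
    ∃ V : ℕ → Set ℝ, (∀ n, S ⊆ V n) ∧ CTower a E V

/-- AREA: the image of the set where the derivative vanishes. -/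
def Stmt_AREA : Prop :=
  ∀ (C : ℝ≥0) (γ : ℝ → ℂ), LipschitzWith C γ → ∀ T : Set ℝ, (∀ᵐ t, t ∈ T → deriv γ t = 0) →
    Measure.hausdorffMeasure 1 (γ '' T) = 0

/-- LEB: Lebesgue points. -/
def Stmt_LEB : Prop :=
  ∀ (C : ℝ≥0) (γ : ℝ → ℂ), LipschitzWith C γ → ∀ T : Set ℝ, MeasurableSet T →
    (¬ ∀ᵐ t, t ∈ T → deriv γ t = 0) → ∃ t₀ ∈ T, ∃ v : ℂ, v ≠ 0 ∧ ∀ ρ > (0 : ℝ), ∃ h₀ > (0 : ℝ),
      ∀ h, 0 < h → h ≤ h₀ →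
        (volume (Icc (t₀ - h) (t₀ + h) \ T)).toReal ≤ ρ * h ∧
        (volume {t | t ∈ Icc (t₀ - h) (t₀ + h) ∧
          ¬ (DifferentiableAt ℝ γ t ∧ ‖deriv γ t - v‖ ≤ ρ)}).toReal ≤ ρ * h ∧
        ∀ t ∈ Icc (t₀ - h) (t₀ + h), ‖γ t - γ t₀ - (t - t₀) • v‖ ≤ ρ * h

/-- DSP: displacements and derivatives. -/
def Stmt_DSP : Prop :=
  ∀ (L : ℝ≥0) (f : ℝ → ℂ) (w : ℂ) (M C α β : ℝ) (Bad : Set ℝ), LipschitzWith L f →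
    MeasurableSet Bad → α ≤ β → 0 ≤ M → 0 ≤ C →
    (∀ᵐ t, t ∈ Icc α β → t ∉ Bad → ‖deriv f t - w‖ ≤ M) →
    (∀ᵐ t, t ∈ Icc α β → ‖deriv f t‖ ≤ C) →
    ‖f β - f α - (β - α) • w‖ ≤ M * (β - α) + (C + ‖w‖) * (volume (Bad ∩ Icc α β)).toReal

/-- SWP: a function which is increasing at a definite speed outside a bad set spends little time in
a small set. -/
def Stmt_SWP : Prop :=
  ∀ (L : ℝ≥0) (x : ℝ → ℝ) (s c C α β : ℝ) (V Bad : Set ℝ), LipschitzWith L x → IsOpen V →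
    volume V < ⊤ → MeasurableSet Bad → α ≤ β → (s = 1 ∨ s = -1) → 0 < c → 0 ≤ C →
    (∀ᵐ t, t ∈ Icc α β → t ∉ Bad → c ≤ s * deriv x t) →
    (∀ᵐ t, t ∈ Icc α β → |deriv x t| ≤ C) →
    c * (volume {t | t ∈ Icc α β ∧ t ∉ Bad ∧ x t ∈ V}).toReal
      ≤ (volume (V ∩ uIcc (x α) (x β))).toReal + C * (volume (Bad ∩ Icc α β)).toReal

/-- KIN: the velocity of `ξ` in terms of the velocity of `φ ∘ ξ`. -/
def Stmt_KIN : Prop :=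
  ∀ (a η : ℝ) (V V' : Set ℝ) (ξ : ℝ → ℂ) (t : ℝ) (q b : ℂ), 0 < a → a ≤ 1 → 0 < η →
    η ≤ 1 / 100 → Adm η V V' → (ξ t).re ∈ V → HasDerivAt ξ q t →
    HasDerivAt (fun s => phi a η V V' (ξ s)) b t →
    ∃ θ ∈ Icc (0 : ℝ) 1,
      |q.re * (1 + θ * G a (η * dd V (ξ t).re) (ξ t).im ^ 2)
          - (b.re - G a (η * dd V (ξ t).re) (ξ t).im * b.im)|
        ≤ a * η * |q.re| + 13 * a ^ 2 * η * |q.im| ∧
      |q.im - b.im| ≤ a * |q.re| + 13 * a * η * |q.im|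

/-- TRV: the slope of the wave differs from every given number on a part of each period. -/
def Stmt_TRV : Prop :=
  ∀ a t lam y₀ : ℝ, 0 < a → 0 < t → ∃ y₁ ∈ Icc (y₀ - dya t) (y₀ + dya t), ∃ s : ℝ,
    (s = 1 ∨ s = -1) ∧ ∀ y, |y - y₁| ≤ dya t / 12 → a / 8 ≤ s * (lam - G a t y)

/-- WNDA: in a window there is an interval where the horizontal velocity is not small. -/
def Stmt_WNDA : Prop :=
  ∀ (a η h C ρ : ℝ) (V V' : Set ℝ) (w : ℂ) (t₀ : ℝ) (ξ : ℝ → ℂ) (Bad : Set ℝ),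
    Window a η h C ρ V V' w t₀ ξ Bad →
    (∀ t ∈ Icc (t₀ - h) (t₀ + h), ‖ξ t - ξ t₀‖ ≤ 5 * dya (η * dd V (ξ t₀).re)) ∧
    ∃ α β s : ℝ, t₀ - h ≤ α ∧ α < β ∧ β ≤ t₀ + h ∧ h / 40 ≤ β - α ∧ (s = 1 ∨ s = -1) ∧
      ∀ᵐ t, t ∈ Icc α β → t ∉ Bad → a / 10 * ‖w‖ ≤ s * deriv (fun r => (ξ r).re) t

/-- WND: in a window there is an interval where the curve spends at most half of the time over
`V'`. -/
def Stmt_WND : Prop :=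
  ∀ (a η h C ρ : ℝ) (V V' : Set ℝ) (w : ℂ) (t₀ : ℝ) (ξ : ℝ → ℂ) (Bad : Set ℝ),
    Window a η h C ρ V V' w t₀ ξ Bad →
    ∃ α β : ℝ, t₀ - h ≤ α ∧ α < β ∧ β ≤ t₀ + h ∧ h / 40 ≤ β - α ∧
      (volume {t | t ∈ Icc α β ∧ (ξ t).re ∈ V'}).toReal ≤ (β - α) / 2

/-- PRD: existence of windows. -/
def Stmt_PRD : Prop :=
  ∀ (a E : ℝ) (V : ℕ → Set ℝ) (g : ℕ → ℂ → ℂ) (f : ℂ ≃ₜ ℂ) (C : ℝ≥0) (γ : ℝ → ℂ) (t₀ h₀ ρ : ℝ)
    (v : ℂ), 0 < a → a ≤ 1 / 30 → 0 < E → E ≤ a ^ 2 / 1000000 → CTower a E V →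
    Lims E (phs a E V) g → (∀ z, f z = g 0 z) → LipschitzWith C γ → v ≠ 0 → 0 < h₀ → 0 < ρ →
    ρ * (C + ‖v‖) ≤ a / 1000000 * ‖v‖ → ρ ≤ a / 1000000 * ‖v‖ →
    (∀ n, (f.symm (γ t₀)).re ∈ V n) →
    (∀ h, 0 < h → h ≤ h₀ →
      (volume {t | t ∈ Icc (t₀ - h) (t₀ + h) ∧
        ¬ (DifferentiableAt ℝ γ t ∧ ‖deriv γ t - v‖ ≤ ρ)}).toReal ≤ ρ * h ∧
      ∀ t ∈ Icc (t₀ - h) (t₀ + h), ‖γ t - γ t₀ - (t - t₀) • v‖ ≤ ρ * h) →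
    ∃ (n : ℕ) (h C' ρ' : ℝ) (w : ℂ) (Bad : Set ℝ), 0 < h ∧ h ≤ h₀ ∧
      Window a (et E n) h C' ρ' (V n) (V (n + 1)) w t₀ (fun t => g (n + 1) (f.symm (γ t))) Bad

/-- PUR: pure unrectifiability. -/
def Stmt_PUR : Prop :=
  ∀ (a E : ℝ) (V : ℕ → Set ℝ) (g : ℕ → ℂ → ℂ) (f : ℂ ≃ₜ ℂ), 0 < a → a ≤ 1 / 30 → 0 < E →
    E ≤ a ^ 2 / 1000000 → CTower a E V → Lims E (phs a E V) g → (∀ z, f z = g 0 z) →
    PureUnrect (f '' {z : ℂ | ∀ n, z.re ∈ V n})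

/-- MAINU: the theorem. -/
def Stmt_MAINU : Prop :=
  ∀ S : Set ℝ,
    (volume S = 0 → ∀ H > (1 : ℝ), ∀ ε > (0 : ℝ), ∃ f : ℂ ≃ₜ ℂ, WeakQS H f ∧
      (∀ z, dist (f z) z ≤ ε) ∧ PureUnrect (f '' {z : ℂ | z.re ∈ S}) ∧
      NoRect (f '' {z : ℂ | z.re ∈ S})) ∧
    (volume S ≠ 0 → ∀ f : ℂ ≃ₜ ℂ, MetricQC f → ¬ NoRect (f '' {z : ℂ | z.re ∈ S}))

end

end Pool.Agent.QL
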